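import Mathlib

set_option autoImplicit false
set_option linter.unusedVariables false

/-! Change of aperture for discrete area functions, for a doubling measure on the line. -/

namespace Pool.Agent.L5helper34.GL

open MeasureTheory Filter Topology Metric
open scoped ENNReal NNReal

/-- dyadic intervals -/
def dI (i : ℤ × ℤ) : Set ℝ := Set.Ico (i.2 * (2:ℝ) ^ i.1) ((i.2 + 1) * (2:ℝ) ^ i.1)

/-- their centers -/
noncomputable def dc (i : ℤ × ℤ) : ℝ := (i.2 + 1 / 2) * (2:ℝ) ^ i.1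

/-- the enlarged intervals -/
noncomputable def dJ (m : ℕ) (i : ℤ × ℤ) : Set ℝ := closedBall (dc i) (2 ^ m * (2:ℝ) ^ i.1)

/-- growth of the measure -/
def Dbl (μ : Measure ℝ) (C β : ℝ≥0) : Prop :=
  ∀ (c r : ℝ) (m : ℕ), 0 < r → μ (closedBall c (2 ^ m * r)) ≤ C * β ^ m * μ (closedBall c r)

lemma dI_meas (i : ℤ × ℤ) : MeasurableSet (dI i) := measurableSet_Ico
lemma dJ_meas (m : ℕ) (i : ℤ × ℤ) : MeasurableSet (dJ m i) := isClosed_closedBall.measurableSet

lemma dI_sub (i : ℤ × ℤ) (m : ℕ) : dI i ⊆ dJ m i := by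
  intro x hx
  have hk : (0:ℝ) < 2 ^ i.1 := by positivity
  have h1 : (1:ℝ) ≤ 2 ^ m := one_le_pow₀ (by norm_num)
  have h2 := hx.1; have h3 := hx.2
  unfold dJ
  rw [mem_closedBall, Real.dist_eq, abs_le]
  unfold dc
  constructor <;> nlinarith

lemma sub_dI (i : ℤ × ℤ) : closedBall (dc i) ((2:ℝ) ^ i.1 / 4) ⊆ dI i := by
  intro x hx
  have hk : (0:ℝ) < 2 ^ i.1 := by positivity
  rw [mem_closedBall, Real.dist_eq, abs_le] at hx
  unfold dc at hx
  constructor <;> nlinarith [hx.1, hx.2]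

lemma Dbl.dJ_le {μ : Measure ℝ} {C β : ℝ≥0} (h : Dbl μ C β) (m : ℕ) (i : ℤ × ℤ) :
    μ (dJ m i) ≤ C * β ^ (m + 2) * μ (dI i) := by
  have hk : (0:ℝ) < 2 ^ i.1 := by positivity
  have h1 := h (dc i) ((2:ℝ) ^ i.1 / 4) (m + 2) (by positivity)
  have e1 : (2:ℝ) ^ (m + 2) * ((2:ℝ) ^ i.1 / 4) = 2 ^ m * 2 ^ i.1 := by ring
  rw [e1] at h1
  exact h1.trans (mul_le_mul' le_rfl (measure_mono (sub_dI i)))

/-- finite area function -/
noncomputable def AF (F : Finset (ℤ × ℤ)) (E : ℤ × ℤ → Set ℝ) (a : ℤ × ℤ → ℝ≥0) (x : ℝ) : ℝ :=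
  ∑ i ∈ F, (E i).indicator (fun _ => (a i : ℝ)) x

lemma AF_meas (F : Finset (ℤ × ℤ)) {E : ℤ × ℤ → Set ℝ} (hE : ∀ i, MeasurableSet (E i)) (a : ℤ × ℤ → ℝ≥0) :
    Measurable (AF F E a) := by
  unfold AF
  exact Finset.measurable_fun_sum _ fun i _ => measurable_const.indicator (hE i)

lemma AF_nonneg (F : Finset (ℤ × ℤ)) (E : ℤ × ℤ → Set ℝ) (a : ℤ × ℤ → ℝ≥0) (x : ℝ) : 0 ≤ AF F E a x :=
  Finset.sum_nonneg fun i _ => Set.indicator_nonneg (fun _ _ => (a i).coe_nonneg) _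

lemma AF_ofReal (F : Finset (ℤ × ℤ)) (E : ℤ × ℤ → Set ℝ) (a : ℤ × ℤ → ℝ≥0) (x : ℝ) :
    ENNReal.ofReal (AF F E a x) = ∑ i ∈ F, (E i).indicator (fun _ => (a i : ℝ≥0∞)) x := by
  unfold AF
  rw [ENNReal.ofReal_sum_of_nonneg (fun i _ => Set.indicator_nonneg (fun _ _ => (a i).coe_nonneg) _)]
  apply Finset.sum_congr rfl
  intro i _
  by_cases h : x ∈ E i
  · rw [Set.indicator_of_mem h, Set.indicator_of_mem h]; simp
  · rw [Set.indicator_of_notMem h, Set.indicator_of_notMem h]; simp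

lemma lint_AF (μ : Measure ℝ) (F : Finset (ℤ × ℤ)) {E : ℤ × ℤ → Set ℝ} (hE : ∀ i, MeasurableSet (E i))
    (a : ℤ × ℤ → ℝ≥0) {S : Set ℝ} (hS : MeasurableSet S) :
    ∫⁻ x in S, ENNReal.ofReal (AF F E a x) ∂μ = ∑ i ∈ F, (a i : ℝ≥0∞) * μ (E i ∩ S) := by
  simp only [AF_ofReal]
  rw [lintegral_finsetSum _ (fun i _ => measurable_const.indicator (hE i))]
  apply Finset.sum_congr rfl
  intro i _
  rw [lintegral_indicator (hE i), setLIntegral_const, Measure.restrict_apply (hE i)]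

/-- the level set estimate -/
lemma level {μ : Measure ℝ} {C β : ℝ≥0} (hC : 1 ≤ C) (hβ : 1 ≤ β) (hD : Dbl μ C β)
    (hfin : ∀ c r, μ (closedBall c r) ≠ ∞)
    (F : Finset (ℤ × ℤ)) (a : ℤ × ℤ → ℝ≥0) (m : ℕ) {t : ℝ} (ht : 0 < t) :
    ENNReal.ofReal t * μ {x | t < AF F (dJ m) a x} ≤
      (2 * C ^ 2 * β ^ (m + 5)) * (ENNReal.ofReal t * μ {x | t < AF F dI a x} +
        ∫⁻ x in {x | t < AF F dI a x}ᶜ, ENNReal.ofReal (AF F dI a x) ∂μ) := by
  classical
  set O : Set ℝ := {x | t < AF F dI a x} with hO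
  have hOm : MeasurableSet O := measurableSet_lt measurable_const (AF_meas F dI_meas a)
  set bad : Finset (ℤ × ℤ) := F.filter (fun i => μ (dI i) < 2 * μ (O ∩ dJ m i)) with hbad
  obtain ⟨R, hR⟩ : ∃ R : ℝ, ∀ i ∈ (bad : Set (ℤ × ℤ)), 2 ^ m * (2:ℝ) ^ i.1 ≤ R := by
    refine ⟨∑ i ∈ bad, 2 ^ m * (2:ℝ) ^ i.1, fun i hi => ?_⟩
    exact Finset.single_le_sum (f := fun i : ℤ × ℤ => 2 ^ m * (2:ℝ) ^ i.1)
      (fun j _ => by positivity) hi
  obtain ⟨u, hu, hdis, hcov⟩ := Vitali.exists_disjoint_subfamily_covering_enlargement_closedBall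
    (bad : Set (ℤ × ℤ)) dc (fun i => 2 ^ m * (2:ℝ) ^ i.1) R hR 8 (by norm_num)
  have hufin : u.Finite := (bad.finite_toSet).subset hu
  set uf := hufin.toFinset with huf
  have hdJ : ∀ i, μ (closedBall (dc i) (8 * (2 ^ m * (2:ℝ) ^ i.1))) ≤ C * β ^ 3 * μ (dJ m i) := by
    intro i
    have := hD (dc i) (2 ^ m * (2:ℝ) ^ i.1) 3 (by positivity)
    norm_num at this
    exact this
  -- the measure of the exceptional set
  have hOs : μ (⋃ i ∈ bad, dJ m i) ≤ (2 * C ^ 2 * β ^ (m + 5)) * μ O := by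
    have h1 : (⋃ i ∈ bad, dJ m i) ⊆ ⋃ i ∈ uf, closedBall (dc i) (8 * (2 ^ m * (2:ℝ) ^ i.1)) := by
      intro x hx
      simp only [Set.mem_iUnion] at hx ⊢
      obtain ⟨i, hi, hxi⟩ := hx
      obtain ⟨b, hb, hsub⟩ := hcov i hi
      exact ⟨b, hufin.mem_toFinset.2 hb, hsub hxi⟩
    calc μ (⋃ i ∈ bad, dJ m i) ≤ μ (⋃ i ∈ uf, closedBall (dc i) (8 * (2 ^ m * (2:ℝ) ^ i.1))) :=
          measure_mono h1
      _ ≤ ∑ i ∈ uf, μ (closedBall (dc i) (8 * (2 ^ m * (2:ℝ) ^ i.1))) := measure_biUnion_finset_le _ _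
      _ ≤ ∑ i ∈ uf, (2 * C ^ 2 * β ^ (m + 5)) * μ (O ∩ dJ m i) := by
          apply Finset.sum_le_sum
          intro i hi
          have hib : i ∈ bad := hu (hufin.mem_toFinset.1 hi)
          have h2 : μ (dI i) < 2 * μ (O ∩ dJ m i) := (Finset.mem_filter.1 hib).2
          calc μ (closedBall (dc i) (8 * (2 ^ m * (2:ℝ) ^ i.1))) ≤ C * β ^ 3 * μ (dJ m i) := hdJ i
            _ ≤ C * β ^ 3 * (C * β ^ (m + 2) * μ (dI i)) := mul_le_mul' le_rfl (hD.dJ_le m i)
            _ ≤ C * β ^ 3 * (C * β ^ (m + 2) * (2 * μ (O ∩ dJ m i))) :=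
                mul_le_mul' le_rfl (mul_le_mul' le_rfl h2.le)
            _ = _ := by ring
      _ = (2 * C ^ 2 * β ^ (m + 5)) * ∑ i ∈ uf, μ (O ∩ dJ m i) := by rw [Finset.mul_sum]
      _ = (2 * C ^ 2 * β ^ (m + 5)) * μ (⋃ i ∈ uf, O ∩ dJ m i) := by
          rw [measure_biUnion_finset]
          · intro i hi j hj hij
            have := hdis (hufin.mem_toFinset.1 hi) (hufin.mem_toFinset.1 hj) hij
            exact this.mono Set.inter_subset_right Set.inter_subset_right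
          · intro i _; exact hOm.inter (dJ_meas m i)
      _ ≤ (2 * C ^ 2 * β ^ (m + 5)) * μ O := by
          apply mul_le_mul' le_rfl (measure_mono _)
          intro x hx
          simp only [Set.mem_iUnion] at hx
          obtain ⟨i, _, hx⟩ := hx
          exact hx.1
  set Os : Set ℝ := ⋃ i ∈ bad, dJ m i with hOsd
  have hOsm : MeasurableSet Os := Finset.measurableSet_biUnion _ fun i _ => dJ_meas m i
  -- the good part
  have hgood : ∫⁻ x in Osᶜ, ENNReal.ofReal (AF F (dJ m) a x) ∂μ ≤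
      (2 * C * β ^ (m + 2)) * ∫⁻ x in Oᶜ, ENNReal.ofReal (AF F dI a x) ∂μ := by
    rw [lint_AF μ F (dJ_meas m) a hOsm.compl, lint_AF μ F dI_meas a hOm.compl, Finset.mul_sum]
    apply Finset.sum_le_sum
    intro i hi
    by_cases hib : i ∈ bad
    · have h0 : dJ m i ∩ Osᶜ = ∅ := by
        rw [← Set.sdiff_eq, Set.sdiff_eq_empty]
        exact Set.subset_biUnion_of_mem (u := fun i => dJ m i) hib
      rw [h0, measure_empty, mul_zero]
      exact bot_le
    · have h1 : 2 * μ (O ∩ dJ m i) ≤ μ (dI i) := by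
        rw [hbad, Finset.mem_filter, not_and] at hib
        exact not_lt.1 (hib hi)
      have h2 : μ (O ∩ dI i) ≤ μ (O ∩ dJ m i) := measure_mono (Set.inter_subset_inter_right _ (dI_sub i m))
      have hIfin : μ (dI i) ≠ ∞ := ne_top_of_le_ne_top (hfin _ _) (measure_mono (dI_sub i m))
      have h3 : μ (dI i) = μ (dI i ∩ O) + μ (dI i ∩ Oᶜ) := (measure_inter_add_sdiff _ hOm).symm
      have h4 : μ (dI i) ≤ 2 * μ (dI i ∩ Oᶜ) := by
        have h5 : 2 * μ (dI i ∩ O) ≤ μ (dI i) := by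
          rw [Set.inter_comm]; exact (mul_le_mul' le_rfl h2).trans h1
        have h6 : μ (dI i) + μ (dI i) ≤ μ (dI i) + 2 * μ (dI i ∩ Oᶜ) := by
          calc μ (dI i) + μ (dI i) = 2 * μ (dI i) := by rw [two_mul]
            _ = 2 * μ (dI i ∩ O) + 2 * μ (dI i ∩ Oᶜ) := by rw [h3, mul_add]
            _ ≤ _ := add_le_add h5 le_rfl
        exact (ENNReal.add_le_add_iff_left hIfin).1 h6
      calc (a i : ℝ≥0∞) * μ (dJ m i ∩ Osᶜ) ≤ a i * μ (dJ m i) :=
            mul_le_mul' le_rfl (measure_mono Set.inter_subset_left)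
        _ ≤ a i * (C * β ^ (m + 2) * (2 * μ (dI i ∩ Oᶜ))) :=
            mul_le_mul' le_rfl ((hD.dJ_le m i).trans (mul_le_mul' le_rfl h4))
        _ = _ := by ring
  -- Chebyshev
  have hch : ENNReal.ofReal t * μ ({x | t < AF F (dJ m) a x} \ Os) ≤
      ∫⁻ x in Osᶜ, ENNReal.ofReal (AF F (dJ m) a x) ∂μ := by
    have h1 : ENNReal.ofReal t * (μ.restrict Osᶜ) {x | ENNReal.ofReal t ≤ ENNReal.ofReal (AF F (dJ m) a x)} ≤
        ∫⁻ x in Osᶜ, ENNReal.ofReal (AF F (dJ m) a x) ∂μ :=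
      mul_meas_ge_le_lintegral (AF_meas F (dJ_meas m) a).ennreal_ofReal _
    refine le_trans (mul_le_mul' le_rfl ?_) h1
    rw [Measure.restrict_apply' hOsm.compl]
    apply measure_mono
    intro x hx
    exact ⟨ENNReal.ofReal_le_ofReal (le_of_lt hx.1), hx.2⟩
  have hsplit : μ {x | t < AF F (dJ m) a x} ≤ μ Os + μ ({x | t < AF F (dJ m) a x} \ Os) := by
    refine le_trans (measure_mono ?_) (measure_union_le _ _)
    intro x hx
    by_cases h : x ∈ Os
    · exact Or.inl h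
    · exact Or.inr ⟨hx, h⟩
  have hconst : (2 * C * β ^ (m + 2) : ℝ≥0∞) ≤ 2 * C ^ 2 * β ^ (m + 5) := by
    have h1 : (1:ℝ≥0∞) ≤ C := by exact_mod_cast hC
    have h2 : (1:ℝ≥0∞) ≤ β := by exact_mod_cast hβ
    apply mul_le_mul'
    · apply mul_le_mul' le_rfl
      calc (C:ℝ≥0∞) = C ^ 1 := (pow_one _).symm
        _ ≤ C ^ 2 := pow_le_pow_right' h1 (by norm_num)
    · exact pow_le_pow_right' h2 (by omega)
  calc ENNReal.ofReal t * μ {x | t < AF F (dJ m) a x}
      ≤ ENNReal.ofReal t * (μ Os + μ ({x | t < AF F (dJ m) a x} \ Os)) := mul_le_mul' le_rfl hsplit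
    _ = ENNReal.ofReal t * μ Os + ENNReal.ofReal t * μ ({x | t < AF F (dJ m) a x} \ Os) := mul_add _ _ _
    _ ≤ ENNReal.ofReal t * ((2 * C ^ 2 * β ^ (m + 5)) * μ O) +
        (2 * C * β ^ (m + 2)) * ∫⁻ x in Oᶜ, ENNReal.ofReal (AF F dI a x) ∂μ :=
        add_le_add (mul_le_mul' le_rfl hOs) (hch.trans hgood)
    _ ≤ ENNReal.ofReal t * ((2 * C ^ 2 * β ^ (m + 5)) * μ O) +
        (2 * C ^ 2 * β ^ (m + 5)) * ∫⁻ x in Oᶜ, ENNReal.ofReal (AF F dI a x) ∂μ :=
        add_le_add le_rfl (mul_le_mul' hconst le_rfl)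
    _ = _ := by ring

/-- the strong estimate, finite families -/
lemma aper_fin {μ : Measure ℝ} [SFinite μ] {C β : ℝ≥0} (hC : 1 ≤ C) (hβ : 1 ≤ β) (hD : Dbl μ C β)
    (hfin : ∀ c r, μ (closedBall c r) ≠ ∞) {s : ℝ} (hs0 : 0 < s) (hs1 : s < 1)
    (F : Finset (ℤ × ℤ)) (a : ℤ × ℤ → ℝ≥0) (m : ℕ) :
    ∫⁻ x, ENNReal.ofReal (AF F (dJ m) a x ^ s) ∂μ ≤
      (2 * C ^ 2 * β ^ (m + 5)) * ENNReal.ofReal (1 / (1 - s)) *
        ∫⁻ x, ENNReal.ofReal (AF F dI a x ^ s) ∂μ := by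
  set K : ℝ≥0∞ := 2 * C ^ 2 * β ^ (m + 5) with hK
  set A := AF F dI a with hA
  set B := AF F (dJ m) a with hB
  have hAm : Measurable A := AF_meas F dI_meas a
  have hBm : Measurable B := AF_meas F (dJ_meas m) a
  have hA0 : ∀ x, 0 ≤ A x := AF_nonneg F _ a
  have hB0 : ∀ x, 0 ≤ B x := AF_nonneg F _ a
  have hs1' : 0 < 1 - s := by linarith
  rw [lintegral_rpow_eq_lintegral_meas_lt_mul μ (Eventually.of_forall hB0) hBm.aemeasurable hs0]
  have hlev : ∀ t ∈ Set.Ioi (0:ℝ), μ {x | t < B x} * ENNReal.ofReal (t ^ (s - 1)) ≤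
      K * (μ {x | t < A x} * ENNReal.ofReal (t ^ (s - 1))) +
        K * (ENNReal.ofReal (t ^ (s - 2)) * ∫⁻ x in {x | t < A x}ᶜ, ENNReal.ofReal (A x) ∂μ) := by
    intro t ht
    have ht0 : 0 < t := ht
    have h1 := level hC hβ hD hfin F a m ht0
    have e1 : ENNReal.ofReal (t ^ (s - 1)) = ENNReal.ofReal (t ^ (s - 2)) * ENNReal.ofReal t := by
      rw [← ENNReal.ofReal_mul (by positivity)]
      congr 1
      have : s - 1 = (s - 2) + 1 := by ring
      rw [this, Real.rpow_add_one ht0.ne']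
    calc μ {x | t < B x} * ENNReal.ofReal (t ^ (s - 1))
        = ENNReal.ofReal (t ^ (s - 2)) * (ENNReal.ofReal t * μ {x | t < B x}) := by rw [e1]; ring
      _ ≤ ENNReal.ofReal (t ^ (s - 2)) * (K * (ENNReal.ofReal t * μ {x | t < A x} +
            ∫⁻ x in {x | t < A x}ᶜ, ENNReal.ofReal (A x) ∂μ)) := mul_le_mul' le_rfl h1
      _ = _ := by rw [e1]; ring
  have hJm : Measurable (fun z : ℝ × ℝ => ({z : ℝ × ℝ | z.1 < A z.2}ᶜ).indicator
      (fun z => ENNReal.ofReal (A z.2)) z) := by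
    apply Measurable.indicator
    · exact (hAm.comp measurable_snd).ennreal_ofReal
    · exact (measurableSet_lt measurable_fst (hAm.comp measurable_snd)).compl
  have hJ : ∀ t : ℝ, ∫⁻ x in {x | t < A x}ᶜ, ENNReal.ofReal (A x) ∂μ =
      ∫⁻ x, ({z : ℝ × ℝ | z.1 < A z.2}ᶜ).indicator (fun z => ENNReal.ofReal (A z.2)) (t, x) ∂μ := by
    intro t
    rw [← lintegral_indicator (measurableSet_lt measurable_const hAm).compl]
    apply lintegral_congr
    intro x
    by_cases h : t < A x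
    · rw [Set.indicator_of_notMem, Set.indicator_of_notMem]
      · exact fun h' => h' h
      · exact fun h' => h' h
    · rw [Set.indicator_of_mem, Set.indicator_of_mem]
      · exact h
      · exact h
  have hmeas1 : Measurable (fun t : ℝ => μ {x | t < A x} * ENNReal.ofReal (t ^ (s - 1))) := by
    apply Measurable.mul
    · have : Antitone (fun t : ℝ => μ {x | t < A x}) := fun a b hab =>
        measure_mono (fun x hx => lt_of_le_of_lt hab hx)
      exact this.measurable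
    · exact (measurable_id.pow_const _).ennreal_ofReal
  have hmeas2 : Measurable (fun t : ℝ => ∫⁻ x in {x | t < A x}ᶜ, ENNReal.ofReal (A x) ∂μ) := by
    simp only [hJ]
    exact hJm.lintegral_prod_right'
  have hmeas3 : Measurable (fun t : ℝ => ENNReal.ofReal (t ^ (s - 2)) *
      ∫⁻ x in {x | t < A x}ᶜ, ENNReal.ofReal (A x) ∂μ) :=
    ((measurable_id.pow_const (s - 2)).ennreal_ofReal).mul hmeas2
  -- the second part
  have hpart : ∀ x, ∫⁻ t in Set.Ioi (0:ℝ), ENNReal.ofReal (t ^ (s - 2)) *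
      ({z : ℝ × ℝ | z.1 < A z.2}ᶜ).indicator (fun z => ENNReal.ofReal (A z.2)) (t, x) ≤
      ENNReal.ofReal (1 / (1 - s)) * ENNReal.ofReal (A x ^ s) := by
    intro x
    rcases (hA0 x).eq_or_lt with h0 | h0
    · have : ∀ t : ℝ, ENNReal.ofReal (t ^ (s - 2)) *
          ({z : ℝ × ℝ | z.1 < A z.2}ᶜ).indicator (fun z => ENNReal.ofReal (A z.2)) (t, x) = 0 := by
        intro t
        have : ({z : ℝ × ℝ | z.1 < A z.2}ᶜ).indicator (fun z => ENNReal.ofReal (A z.2)) (t, x) = 0 := by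
          by_cases h : (t, x) ∈ {z : ℝ × ℝ | z.1 < A z.2}ᶜ
          · rw [Set.indicator_of_mem h]; simp [← h0]
          · rw [Set.indicator_of_notMem h]
        rw [this, mul_zero]
      simp only [this, lintegral_zero]
      exact bot_le
    · have h1 : ∫⁻ t in Set.Ioi (0:ℝ), ENNReal.ofReal (t ^ (s - 2)) *
          ({z : ℝ × ℝ | z.1 < A z.2}ᶜ).indicator (fun z => ENNReal.ofReal (A z.2)) (t, x) =
          ∫⁻ t in Set.Ici (A x), ENNReal.ofReal (t ^ (s - 2)) * ENNReal.ofReal (A x) := by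
        rw [← lintegral_indicator measurableSet_Ioi, ← lintegral_indicator measurableSet_Ici]
        apply lintegral_congr
        intro t
        by_cases ht : A x ≤ t
        · have ht0 : t ∈ Set.Ioi (0:ℝ) := lt_of_lt_of_le h0 ht
          rw [Set.indicator_of_mem ht0, Set.indicator_of_mem (show t ∈ Set.Ici (A x) from ht),
            Set.indicator_of_mem]
          exact not_lt.2 ht
        · rw [Set.indicator_of_notMem (show t ∉ Set.Ici (A x) from ht)]
          by_cases ht0 : t ∈ Set.Ioi (0:ℝ)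
          · rw [Set.indicator_of_mem ht0, Set.indicator_of_notMem, mul_zero]
            exact fun h' => h' (not_le.1 ht)
          · rw [Set.indicator_of_notMem ht0]
      rw [h1, lintegral_mul_const' _ _ ENNReal.ofReal_ne_top, setLIntegral_congr Ioi_ae_eq_Ici.symm]
      have h2 : ∫⁻ t in Set.Ioi (A x), ENNReal.ofReal (t ^ (s - 2)) =
          ENNReal.ofReal (A x ^ (s - 1) / (1 - s)) := by
        rw [← ofReal_integral_eq_lintegral_ofReal (integrableOn_Ioi_rpow_of_lt (by linarith) h0)]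
        · congr 1
          rw [integral_Ioi_rpow_of_lt (by linarith) h0]
          have : s - 2 + 1 = -(1 - s) := by ring
          rw [this, neg_div_neg_eq]
          congr 2
          ring
        · rw [EventuallyLE, ae_restrict_iff' measurableSet_Ioi]
          refine Eventually.of_forall fun t ht => ?_
          exact Real.rpow_nonneg (le_of_lt (lt_trans h0 ht)) _
      rw [h2, ← ENNReal.ofReal_mul (by positivity), ← ENNReal.ofReal_mul (by positivity)]
      apply ENNReal.ofReal_le_ofReal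
      apply le_of_eq
      have : A x ^ s = A x ^ (s - 1) * A x := by
        rw [← Real.rpow_add_one h0.ne']; congr 1; ring
      rw [this]; ring
  calc ENNReal.ofReal s * ∫⁻ t in Set.Ioi (0:ℝ), μ {x | t < B x} * ENNReal.ofReal (t ^ (s - 1))
      ≤ ENNReal.ofReal s * ∫⁻ t in Set.Ioi (0:ℝ), (K * (μ {x | t < A x} * ENNReal.ofReal (t ^ (s - 1))) +
        K * (ENNReal.ofReal (t ^ (s - 2)) * ∫⁻ x in {x | t < A x}ᶜ, ENNReal.ofReal (A x) ∂μ)) :=
        mul_le_mul' le_rfl (setLIntegral_mono' measurableSet_Ioi hlev)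
    _ = K * (ENNReal.ofReal s * ∫⁻ t in Set.Ioi (0:ℝ), μ {x | t < A x} * ENNReal.ofReal (t ^ (s - 1))) +
        K * (ENNReal.ofReal s * ∫⁻ t in Set.Ioi (0:ℝ), ENNReal.ofReal (t ^ (s - 2)) *
          ∫⁻ x in {x | t < A x}ᶜ, ENNReal.ofReal (A x) ∂μ) := by
        rw [lintegral_add_left (hmeas1.const_mul _), lintegral_const_mul _ hmeas1,
          lintegral_const_mul _ hmeas3]
        ring
    _ ≤ K * ∫⁻ x, ENNReal.ofReal (A x ^ s) ∂μ +
        K * (ENNReal.ofReal s * (ENNReal.ofReal (1 / (1 - s)) * ∫⁻ x, ENNReal.ofReal (A x ^ s) ∂μ)) := by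
        apply add_le_add
        · rw [lintegral_rpow_eq_lintegral_meas_lt_mul μ (Eventually.of_forall hA0) hAm.aemeasurable hs0]
        · apply mul_le_mul' le_rfl
          apply mul_le_mul' le_rfl
          have e2 : ∫⁻ t in Set.Ioi (0:ℝ), ENNReal.ofReal (t ^ (s - 2)) *
              ∫⁻ x in {x | t < A x}ᶜ, ENNReal.ofReal (A x) ∂μ =
              ∫⁻ t in Set.Ioi (0:ℝ), ∫⁻ x, ENNReal.ofReal (t ^ (s - 2)) *
                ({z : ℝ × ℝ | z.1 < A z.2}ᶜ).indicator (fun z => ENNReal.ofReal (A z.2)) (t, x) ∂μ := by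
            apply lintegral_congr
            intro t
            rw [hJ, lintegral_const_mul' _ _ ENNReal.ofReal_ne_top]
          rw [e2, lintegral_lintegral_swap]
          · rw [← lintegral_const_mul' _ _ ENNReal.ofReal_ne_top]
            exact lintegral_mono hpart
          · apply Measurable.aemeasurable
            exact ((measurable_fst.pow_const (s - 2)).ennreal_ofReal).mul hJm
    _ = (K * (1 + ENNReal.ofReal s * ENNReal.ofReal (1 / (1 - s)))) * ∫⁻ x, ENNReal.ofReal (A x ^ s) ∂μ := by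
        ring
    _ = _ := by
        congr 1
        congr 1
        rw [← ENNReal.ofReal_one, ← ENNReal.ofReal_mul hs0.le, ← ENNReal.ofReal_add (by norm_num) (by positivity)]
        congr 1
        field_simp
        ring

/-- the full area function -/
noncomputable def AT (E : ℤ × ℤ → Set ℝ) (a : ℤ × ℤ → ℝ≥0) (x : ℝ) : ℝ≥0∞ :=
  ∑' i, (E i).indicator (fun _ => (a i : ℝ≥0∞)) x

/-- the strong estimate -/
theorem aper {μ : Measure ℝ} [SFinite μ] {C β : ℝ≥0} (hC : 1 ≤ C) (hβ : 1 ≤ β) (hD : Dbl μ C β)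
    (hfin : ∀ c r, μ (closedBall c r) ≠ ∞) {s : ℝ} (hs0 : 0 < s) (hs1 : s < 1)
    (a : ℤ × ℤ → ℝ≥0) (m : ℕ) :
    ∫⁻ x, AT (dJ m) a x ^ s ∂μ ≤
      (2 * C ^ 2 * β ^ (m + 5)) * ENNReal.ofReal (1 / (1 - s)) * ∫⁻ x, AT dI a x ^ s ∂μ := by
  obtain ⟨G, hG⟩ : ∃ G : ℕ → Finset (ℤ × ℤ), Tendsto G atTop atTop := by
    refine ⟨fun n => (Finset.Icc (-(n:ℤ)) n) ×ˢ (Finset.Icc (-(n:ℤ)) n), ?_⟩
    apply tendsto_atTop_finset_of_monotone
    · intro a b hab
      apply Finset.product_subset_product <;>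
      · apply Finset.Icc_subset_Icc <;> omega
    · rintro ⟨k, j⟩
      refine ⟨k.natAbs + j.natAbs, ?_⟩
      rw [Finset.mem_product, Finset.mem_Icc, Finset.mem_Icc]
      simp only
      omega
  have e : ∀ (F : Finset (ℤ × ℤ)) (E : ℤ × ℤ → Set ℝ) (x : ℝ), ENNReal.ofReal (AF F E a x ^ s) =
      (∑ i ∈ F, (E i).indicator (fun _ => (a i : ℝ≥0∞)) x) ^ s := by
    intro F E x
    rw [← AF_ofReal, ENNReal.ofReal_rpow_of_nonneg (AF_nonneg F E a x) hs0.le]
  have hlim : ∀ x, Tendsto (fun n => ENNReal.ofReal (AF (G n) (dJ m) a x ^ s)) atTop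
      (𝓝 (AT (dJ m) a x ^ s)) := by
    intro x
    simp only [e]
    exact ((ENNReal.summable.hasSum).comp hG).ennrpow_const _
  calc ∫⁻ x, AT (dJ m) a x ^ s ∂μ
      = ∫⁻ x, liminf (fun n => ENNReal.ofReal (AF (G n) (dJ m) a x ^ s)) atTop ∂μ := by
        apply lintegral_congr
        intro x
        exact (hlim x).liminf_eq.symm
    _ ≤ liminf (fun n => ∫⁻ x, ENNReal.ofReal (AF (G n) (dJ m) a x ^ s) ∂μ) atTop := by
        apply lintegral_liminf_le
        intro n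
        exact ((AF_meas (G n) (dJ_meas m) a).pow_const s).ennreal_ofReal
    _ ≤ liminf (fun _ : ℕ => (2 * C ^ 2 * β ^ (m + 5)) * ENNReal.ofReal (1 / (1 - s)) *
          ∫⁻ x, AT dI a x ^ s ∂μ) atTop := by
        apply liminf_le_liminf (Eventually.of_forall fun n => ?_)
        refine (aper_fin hC hβ hD hfin hs0 hs1 (G n) a m).trans ?_
        apply mul_le_mul' le_rfl
        apply lintegral_mono
        intro x
        simp only [e]
        apply ENNReal.rpow_le_rpow _ hs0.le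
        exact ENNReal.sum_le_tsum _
    _ = _ := by simp

end Pool.Agent.L5helper34.GL
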