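import Pool.Agent.L5helper34.GL.Ap

set_option autoImplicit false
set_option linter.unusedVariables false

/-! The condition `B_r` and its self-improvement. -/

namespace Pool.Agent.L5helper34.GL

open MeasureTheory Filter Topology Metric
open scoped ENNReal NNReal

/-- the measure `U dx` -/
noncomputable def mU (U : ℝ → ℝ) : Measure ℝ := volume.withDensity (fun x => ENNReal.ofReal (U x))

lemma mU_apply (U : ℝ → ℝ) {S : Set ℝ} (hS : MeasurableSet S) :
    mU U S = ∫⁻ x in S, ENNReal.ofReal (U x) := withDensity_apply _ hS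

/-- The class `B_r`. -/
def BrC (r : ℝ) (U : ℝ → ℝ) : Prop :=
  ∃ C : ℝ≥0, ∀ a b : ℝ, a < b →
    ∫⁻ x, ENNReal.ofReal ((b - a) ^ (r - 1) * U x / ((b - a) ^ r + |x - (a + b) / 2| ^ r)) ≤
      C / ENNReal.ofReal (b - a) * ∫⁻ x in Set.Icc a b, ENNReal.ofReal (U x)

lemma geo_ind {q : ℝ} (hq0 : 0 ≤ q) (hq1 : q < 1) (k₀ n : ℕ) :
    (∑ k ∈ Finset.range n, if k₀ ≤ k then q ^ k else 0) * (1 - q) ≤ q ^ k₀ - q ^ (max n k₀) := by
  induction n with
  | zero => simp
  | succ n ih =>
    rw [Finset.sum_range_succ, add_mul]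
    by_cases h : k₀ ≤ n
    · rw [if_pos h]
      rw [max_eq_left h] at ih
      rw [max_eq_left (by omega : k₀ ≤ n + 1)]
      have : q ^ (n + 1) = q ^ n * q := pow_succ q n
      nlinarith
    · rw [if_neg h]
      rw [max_eq_right (by omega)] at ih ⊢
      linarith

lemma ptw {r ρ u : ℝ} (hr : 0 < r) (hρ : 0 < ρ) (hu : 0 ≤ u) (n : ℕ) :
    ∑ k ∈ Finset.range n, (if u ≤ 2 ^ k * ρ then ((2:ℝ) ^ (-r)) ^ k else 0) ≤
      2 / (1 - (2:ℝ) ^ (-r)) * ((2 * ρ) ^ r / ((2 * ρ) ^ r + u ^ r)) := by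
  set q : ℝ := (2:ℝ) ^ (-r) with hq
  have hq0 : 0 < q := Real.rpow_pos_of_pos (by norm_num) _
  have hq1 : q < 1 := Real.rpow_lt_one_of_one_lt_of_neg (by norm_num) (by linarith)
  have hex : ∃ k : ℕ, u ≤ 2 ^ k * ρ := by
    obtain ⟨k, hk⟩ := pow_unbounded_of_one_lt (u / ρ) (by norm_num : (1:ℝ) < 2)
    exact ⟨k, by rw [div_lt_iff₀ hρ] at hk; exact hk.le⟩
  set k₀ := Nat.find hex with hk₀
  have hk : u ≤ 2 ^ k₀ * ρ := Nat.find_spec hex
  have h1 : ∑ k ∈ Finset.range n, (if u ≤ 2 ^ k * ρ then q ^ k else 0) ≤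
      ∑ k ∈ Finset.range n, (if k₀ ≤ k then q ^ k else 0) := by
    apply Finset.sum_le_sum
    intro k _
    by_cases h : u ≤ 2 ^ k * ρ
    · rw [if_pos h, if_pos (Nat.find_min' hex h)]
    · rw [if_neg h]
      split_ifs <;> positivity
  have h2 := geo_ind hq0.le hq1 k₀ n
  have h3 : ∑ k ∈ Finset.range n, (if k₀ ≤ k then q ^ k else 0) ≤ q ^ k₀ / (1 - q) := by
    rw [le_div_iff₀ (by linarith)]
    have : 0 ≤ q ^ (max n k₀) := by positivity
    linarith
  have hρr : 0 < (2 * ρ) ^ r := Real.rpow_pos_of_pos (by positivity) _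
  have hur : 0 ≤ u ^ r := Real.rpow_nonneg hu _
  have h4 : u ^ r ≤ (2 ^ k₀ * ρ) ^ r := Real.rpow_le_rpow hu hk hr.le
  have h5 : (2 ^ k₀ * ρ) ^ r ≤ q⁻¹ ^ k₀ * (2 * ρ) ^ r := by
    have e1 : q⁻¹ = (2:ℝ) ^ r := by rw [hq, Real.rpow_neg (by norm_num), inv_inv]
    rw [e1, ← Real.rpow_natCast ((2:ℝ) ^ r), ← Real.rpow_mul (by norm_num), mul_comm r, Real.rpow_mul (by norm_num),
      Real.rpow_natCast, ← Real.mul_rpow (by positivity) (by positivity)]
    apply Real.rpow_le_rpow (by positivity) _ hr.le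
    apply mul_le_mul_of_nonneg_left _ (by positivity)
    linarith
  have h6 : (1:ℝ) ≤ q⁻¹ ^ k₀ := one_le_pow₀ ((one_le_inv₀ hq0).2 hq1.le)
  have h7 : q ^ k₀ / 2 ≤ (2 * ρ) ^ r / ((2 * ρ) ^ r + u ^ r) := by
    rw [div_le_div_iff₀ (by norm_num) (by positivity)]
    have h8 : (2 * ρ) ^ r + u ^ r ≤ 2 * (q⁻¹ ^ k₀ * (2 * ρ) ^ r) := by nlinarith
    calc q ^ k₀ * ((2 * ρ) ^ r + u ^ r) ≤ q ^ k₀ * (2 * (q⁻¹ ^ k₀ * (2 * ρ) ^ r)) :=
          mul_le_mul_of_nonneg_left h8 (by positivity)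
      _ = (q ^ k₀ * q⁻¹ ^ k₀) * (2 * (2 * ρ) ^ r) := by ring
      _ = (2 * ρ) ^ r * 2 := by
          rw [← mul_pow, mul_inv_cancel₀ hq0.ne', one_pow]; ring
  calc _ ≤ q ^ k₀ / (1 - q) := h1.trans h3
    _ = 2 / (1 - q) * (q ^ k₀ / 2) := by
        have : 1 - q ≠ 0 := by linarith
        field_simp
    _ ≤ _ := mul_le_mul_of_nonneg_left h7 (by
        have : 0 < 1 - q := by linarith
        positivity)

/-- the sum form of `B_r` -/
lemma br_sum {r : ℝ} (hr : 0 < r) {U : ℝ → ℝ} (hU0 : ∀ x, 0 ≤ U x) (hB : BrC r U) :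
    ∃ C : ℝ≥0, ∀ (c ρ : ℝ) (n : ℕ), 0 < ρ →
      ∑ k ∈ Finset.range n, ENNReal.ofReal (((2:ℝ) ^ (-r)) ^ k) * mU U (closedBall c (2 ^ k * ρ)) ≤
        C * mU U (closedBall c ρ) := by
  obtain ⟨C, hC⟩ := hB
  set q : ℝ := (2:ℝ) ^ (-r) with hq
  have hq0 : 0 < q := Real.rpow_pos_of_pos (by norm_num) _
  have hq1 : q < 1 := Real.rpow_lt_one_of_one_lt_of_neg (by norm_num) (by linarith)
  have hM : 0 ≤ 2 / (1 - q) := by
    have : 0 < 1 - q := by linarith
    positivity
  refine ⟨(2 / (1 - q)).toNNReal * C, ?_⟩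
  intro c ρ n hρ
  have h1 := hC (c - ρ) (c + ρ) (by linarith)
  have e1 : c + ρ - (c - ρ) = 2 * ρ := by ring
  have e2 : (c - ρ + (c + ρ)) / 2 = c := by ring
  rw [e1, e2] at h1
  have hL : 0 < 2 * ρ := by positivity
  calc ∑ k ∈ Finset.range n, ENNReal.ofReal (q ^ k) * mU U (closedBall c (2 ^ k * ρ))
      = ∑ k ∈ Finset.range n, ∫⁻ x in closedBall c (2 ^ k * ρ),
          ENNReal.ofReal (q ^ k) * ENNReal.ofReal (U x) := by
        apply Finset.sum_congr rfl
        intro k _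
        rw [mU_apply _ isClosed_closedBall.measurableSet, lintegral_const_mul' _ _ ENNReal.ofReal_ne_top]
    _ ≤ ∫⁻ x, ∑ k ∈ Finset.range n, (closedBall c (2 ^ k * ρ)).indicator
          (fun x => ENNReal.ofReal (q ^ k) * ENNReal.ofReal (U x)) x := by
        have : ∀ s : Finset ℕ, ∑ k ∈ s, ∫⁻ x in closedBall c (2 ^ k * ρ),
            ENNReal.ofReal (q ^ k) * ENNReal.ofReal (U x) ≤ ∫⁻ x, ∑ k ∈ s, (closedBall c (2 ^ k * ρ)).indicator
            (fun x => ENNReal.ofReal (q ^ k) * ENNReal.ofReal (U x)) x := by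
          intro s
          induction s using Finset.cons_induction with
          | empty => simp
          | cons a s ha ih =>
            simp only [Finset.sum_cons]
            refine le_trans ?_ (le_lintegral_add _ _)
            apply add_le_add _ ih
            rw [lintegral_indicator isClosed_closedBall.measurableSet]
        exact this _
    _ ≤ ∫⁻ x, ENNReal.ofReal (2 / (1 - q)) * (ENNReal.ofReal (2 * ρ) *
          ENNReal.ofReal ((2 * ρ) ^ (r - 1) * U x / ((2 * ρ) ^ r + |x - c| ^ r))) := by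
        apply lintegral_mono
        intro x
        have h2 := ptw hr hρ (abs_nonneg (x - c)) n
        have hU := hU0 x
        have e3 : ∑ k ∈ Finset.range n, (closedBall c (2 ^ k * ρ)).indicator
            (fun x => ENNReal.ofReal (q ^ k) * ENNReal.ofReal (U x)) x =
            ENNReal.ofReal ((∑ k ∈ Finset.range n, (if |x - c| ≤ 2 ^ k * ρ then q ^ k else 0)) * U x) := by
          rw [Finset.sum_mul, ENNReal.ofReal_sum_of_nonneg (fun k _ => by
            split_ifs <;> positivity)]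
          apply Finset.sum_congr rfl
          intro k _
          by_cases h : |x - c| ≤ 2 ^ k * ρ
          · rw [if_pos h, Set.indicator_of_mem (by rw [mem_closedBall, Real.dist_eq]; exact h),
              ENNReal.ofReal_mul (by positivity)]
          · rw [if_neg h, Set.indicator_of_notMem (by rw [mem_closedBall, Real.dist_eq]; exact h)]
            simp
        show ∑ k ∈ Finset.range n, (closedBall c (2 ^ k * ρ)).indicator
            (fun x => ENNReal.ofReal (q ^ k) * ENNReal.ofReal (U x)) x ≤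
          ENNReal.ofReal (2 / (1 - q)) * (ENNReal.ofReal (2 * ρ) *
          ENNReal.ofReal ((2 * ρ) ^ (r - 1) * U x / ((2 * ρ) ^ r + |x - c| ^ r)))
        rw [e3, ← ENNReal.ofReal_mul (by positivity), ← ENNReal.ofReal_mul (by positivity)]
        apply ENNReal.ofReal_le_ofReal
        calc _ ≤ (2 / (1 - q) * ((2 * ρ) ^ r / ((2 * ρ) ^ r + |x - c| ^ r))) * U x :=
              mul_le_mul_of_nonneg_right h2 hU
          _ = _ := by
              have : (2 * ρ) ^ r = 2 * ρ * (2 * ρ) ^ (r - 1) := by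
                have e5 := Real.rpow_add_one hL.ne' (r - 1)
                rw [sub_add_cancel] at e5
                rw [e5]; ring
              rw [this]; ring
    _ = ENNReal.ofReal (2 / (1 - q)) * (ENNReal.ofReal (2 * ρ) *
          ∫⁻ x, ENNReal.ofReal ((2 * ρ) ^ (r - 1) * U x / ((2 * ρ) ^ r + |x - c| ^ r))) := by
        rw [lintegral_const_mul' _ _ ENNReal.ofReal_ne_top, lintegral_const_mul' _ _ ENNReal.ofReal_ne_top]
    _ ≤ ENNReal.ofReal (2 / (1 - q)) * (ENNReal.ofReal (2 * ρ) *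
          (C / ENNReal.ofReal (2 * ρ) * ∫⁻ x in Set.Icc (c - ρ) (c + ρ), ENNReal.ofReal (U x))) :=
        mul_le_mul' le_rfl (mul_le_mul' le_rfl h1)
    _ = _ := by
        rw [← Real.closedBall_eq_Icc, ← mU_apply _ isClosed_closedBall.measurableSet, ENNReal.coe_mul,
          ← mul_assoc (ENNReal.ofReal (2 * ρ)), ENNReal.mul_div_cancel (by
            simpa using hρ) ENNReal.ofReal_ne_top, mul_assoc]
        rfl

/-- **Self-improvement of `B_r`.** -/
theorem br_dbl {r : ℝ} (hr : 0 < r) {U : ℝ → ℝ} (hU0 : ∀ x, 0 ≤ U x)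
    (hfin : ∀ c ρ, mU U (closedBall c ρ) ≠ ∞) (hB : BrC r U) :
    ∃ C β : ℝ≥0, 1 ≤ C ∧ 1 ≤ β ∧ (β : ℝ) < 2 ^ r ∧ Dbl (mU U) C β := by
  obtain ⟨C₀, hC₀⟩ := br_sum hr hU0 hB
  set q : ℝ := (2:ℝ) ^ (-r) with hq
  have hq0 : 0 < q := Real.rpow_pos_of_pos (by norm_num) _
  have hq1 : q < 1 := Real.rpow_lt_one_of_one_lt_of_neg (by norm_num) (by linarith)
  set C : ℝ≥0 := max C₀ 1 with hCd
  have hC1 : 1 ≤ C := le_max_right _ _
  have hC1' : (1:ℝ) ≤ C := by exact_mod_cast hC1
  set θ : ℝ := 1 - 1 / C with hθ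
  have hθ0 : 0 ≤ θ := by
    have : 1 / (C:ℝ) ≤ 1 := by rw [div_le_one (by linarith)]; exact hC1'
    linarith
  have hθ1 : θ < 1 := by
    have : 0 < 1 / (C:ℝ) := by positivity
    linarith
  have h2r : (1:ℝ) < 2 ^ r := Real.one_lt_rpow (by norm_num) hr
  refine ⟨C, max 1 (θ * 2 ^ r).toNNReal, hC1, le_max_left _ _, ?_, ?_⟩
  · rw [NNReal.coe_max, NNReal.coe_one, Real.coe_toNNReal _ (by positivity), max_lt_iff]
    exact ⟨h2r, by nlinarith⟩
  · intro c ρ m hρ
    set B : ℕ → ℝ := fun k => (mU U (closedBall c (2 ^ k * ρ))).toReal with hBd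
    have hB0 : ∀ k, 0 ≤ B k := fun k => ENNReal.toReal_nonneg
    -- real form
    have hreal : ∀ j n : ℕ, ∑ k ∈ Finset.range n, q ^ k * B (k + j) ≤ C * B j := by
      intro j n
      have h1 := hC₀ c (2 ^ j * ρ) n (by positivity)
      have h2 : (C₀:ℝ≥0∞) * mU U (closedBall c (2 ^ j * ρ)) ≤ C * mU U (closedBall c (2 ^ j * ρ)) :=
        mul_le_mul' (by exact_mod_cast le_max_left _ _) le_rfl
      have h3 := ENNReal.toReal_mono (ENNReal.mul_ne_top ENNReal.coe_ne_top (hfin _ _)) (h1.trans h2)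
      rw [ENNReal.toReal_sum (fun k _ => ENNReal.mul_ne_top ENNReal.ofReal_ne_top (hfin _ _)),
        ENNReal.toReal_mul, ENNReal.coe_toReal] at h3
      refine le_trans (le_of_eq ?_) h3
      apply Finset.sum_congr rfl
      intro k _
      rw [ENNReal.toReal_mul, ENNReal.toReal_ofReal (by positivity), hBd]
      simp only
      rw [pow_add, mul_assoc]
    set b : ℕ → ℝ := fun k => q ^ k * B k with hb
    set T : ℕ → ℝ := fun j => ∑ k ∈ Finset.Ico j (m + 1), b k with hT
    have hTb : ∀ j, j ≤ m → T j ≤ C * b j := by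
      intro j hj
      have h1 := hreal j (m + 1 - j)
      have h2 : T j = q ^ j * ∑ k ∈ Finset.range (m + 1 - j), q ^ k * B (k + j) := by
        rw [hT]
        simp only
        rw [Finset.sum_Ico_eq_sum_range, Finset.mul_sum]
        apply Finset.sum_congr rfl
        intro k _
        rw [hb]
        simp only
        rw [add_comm j k, pow_add]; ring
      rw [h2, hb]
      simp only
      calc q ^ j * ∑ k ∈ Finset.range (m + 1 - j), q ^ k * B (k + j) ≤ q ^ j * (C * B j) :=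
            mul_le_mul_of_nonneg_left h1 (by positivity)
        _ = _ := by ring
    have hstep : ∀ j, j < m → T (j + 1) ≤ θ * T j := by
      intro j hj
      have h1 := hTb j hj.le
      have h2 : T j = b j + T (j + 1) := by
        rw [hT]
        simp only
        rw [Finset.sum_eq_sum_Ico_succ_bot (by omega)]
      have h3 : 1 / (C:ℝ) * T j ≤ b j := by
        rw [one_div, inv_mul_le_iff₀ (by linarith)]; exact h1
      rw [hθ, sub_mul, one_mul]
      linarith
    have hpow : ∀ j, j ≤ m → T j ≤ θ ^ j * T 0 := by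
      intro j
      induction j with
      | zero => intro _; simp
      | succ j ih =>
        intro hj
        calc T (j + 1) ≤ θ * T j := hstep j (by omega)
          _ ≤ θ * (θ ^ j * T 0) := mul_le_mul_of_nonneg_left (ih (by omega)) hθ0
          _ = _ := by rw [pow_succ]; ring
    have hTm : T m = b m := by
      rw [hT]; simp
    have h4 : b m ≤ θ ^ m * (C * B 0) := by
      rw [← hTm]
      refine (hpow m le_rfl).trans ?_
      apply mul_le_mul_of_nonneg_left _ (by positivity)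
      have := hTb 0 (Nat.zero_le _)
      simpa [hb] using this
    have h5 : B m ≤ C * (θ * 2 ^ r) ^ m * B 0 := by
      have e1 : (2:ℝ) ^ r = q⁻¹ := by rw [hq, Real.rpow_neg (by norm_num), inv_inv]
      have h6 : B m = q⁻¹ ^ m * b m := by
        rw [hb]
        simp only
        rw [← mul_assoc, ← mul_pow, inv_mul_cancel₀ hq0.ne', one_pow, one_mul]
      rw [h6, e1]
      calc q⁻¹ ^ m * b m ≤ q⁻¹ ^ m * (θ ^ m * (C * B 0)) := mul_le_mul_of_nonneg_left h4 (by positivity)
        _ = _ := by rw [mul_pow]; ring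
    have h7 : mU U (closedBall c (2 ^ m * ρ)) = ENNReal.ofReal (B m) := (ENNReal.ofReal_toReal (hfin _ _)).symm
    have h8 : mU U (closedBall c ρ) = ENNReal.ofReal (B 0) := by
      rw [hBd]
      simp only [pow_zero, one_mul]
      exact (ENNReal.ofReal_toReal (hfin _ _)).symm
    rw [h7, h8]
    calc ENNReal.ofReal (B m) ≤ ENNReal.ofReal (C * (θ * 2 ^ r) ^ m * B 0) := ENNReal.ofReal_le_ofReal h5
      _ = C * ENNReal.ofReal (θ * 2 ^ r) ^ m * ENNReal.ofReal (B 0) := by
          rw [ENNReal.ofReal_mul (by positivity), ENNReal.ofReal_mul (by positivity),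
            ENNReal.ofReal_pow (by positivity), ENNReal.ofReal_coe_nnreal]
      _ ≤ _ := by
          apply mul_le_mul' _ le_rfl
          apply mul_le_mul' le_rfl
          apply pow_le_pow_left'
          rw [ENNReal.coe_max]
          exact le_max_right _ _

end Pool.Agent.L5helper34.GL
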