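import Pool.Agent.L5helper34.GL.Ker

set_option autoImplicit false
set_option linter.unusedVariables false

/-! The gradient of the Poisson integral. -/

namespace Pool.Agent.L5helper34.GL

open MeasureTheory Filter Topology
open scoped ENNReal NNReal

/-- Poisson integral -/
noncomputable def pois (f : ℝ → ℂ) (z y : ℝ) : ℂ :=
  (1 / Real.pi) • ∫ x : ℝ, (y / (x ^ 2 + y ^ 2)) • f (z - x)

/-- squared length of the gradient -/
noncomputable def grSq (f : ℝ → ℂ) (z y : ℝ) : ℝ :=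
  ‖deriv (fun z' => pois f z' y) z‖ ^ 2 + ‖deriv (fun y' => pois f z y') y‖ ^ 2

/-- admissible functions: locally integrable with `∫ |f(t)| / (1 + t²) dt < ∞` -/
structure Adm (f : ℝ → ℂ) : Prop where
  meas : AEStronglyMeasurable f volume
  int : Integrable (fun t => (1 + t ^ 2)⁻¹ * ‖f t‖)

noncomputable def pk (s y : ℝ) : ℝ := y / (s ^ 2 + y ^ 2)
noncomputable def pz (s y : ℝ) : ℝ := -(2 * s * y) / (s ^ 2 + y ^ 2) ^ 2
noncomputable def py (s y : ℝ) : ℝ := (s ^ 2 - y ^ 2) / (s ^ 2 + y ^ 2) ^ 2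

lemma pois_eq (f : ℝ → ℂ) (z y : ℝ) : pois f z y = (1 / Real.pi) • ∫ t : ℝ, pk (z - t) y • f t := by
  unfold pois pk
  congr 1
  rw [← integral_sub_left_eq_self (fun t => (y / ((z - t) ^ 2 + y ^ 2)) • f t) volume z]
  congr 1
  funext x
  simp only [sub_sub_cancel]

lemma pk_dz {y : ℝ} (hy : 0 < y) (z t : ℝ) : HasDerivAt (fun z => pk (z - t) y) (pz (z - t) y) z := by
  unfold pk pz
  have h0 : (z - t) ^ 2 + y ^ 2 ≠ 0 := by positivity
  have h1 : HasDerivAt (fun z : ℝ => (z - t) ^ 2 + y ^ 2) (2 * (z - t)) z := by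
    have := (((hasDerivAt_id z).sub_const t).pow 2).add_const (y ^ 2)
    refine this.congr_deriv ?_
    simp
  have h2 := (hasDerivAt_const z y).div h1 h0
  refine h2.congr_deriv ?_
  field_simp
  ring

lemma pk_dy {y : ℝ} (hy : 0 < y) (s : ℝ) : HasDerivAt (fun y => pk s y) (py s y) y := by
  unfold pk py
  have h0 : s ^ 2 + y ^ 2 ≠ 0 := by positivity
  have h1 : HasDerivAt (fun y : ℝ => s ^ 2 + y ^ 2) (2 * y) y := by
    have := ((hasDerivAt_id y).pow 2).const_add (s ^ 2)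
    refine this.congr_deriv ?_
    simp
  have h2 := (hasDerivAt_id y).div h1 h0
  refine h2.congr_deriv ?_
  simp only [id]
  field_simp
  ring

lemma pk_le {y : ℝ} (hy : 0 < y) (s : ℝ) : |pk s y| ≤ y * (s ^ 2 + y ^ 2)⁻¹ := by
  unfold pk
  rw [abs_of_nonneg (by positivity)]
  exact le_of_eq (by ring)

lemma pz_le {y : ℝ} (hy : 0 < y) (s : ℝ) : |pz s y| ≤ (s ^ 2 + y ^ 2)⁻¹ := by
  unfold pz
  have h0 : 0 < s ^ 2 + y ^ 2 := by positivity
  rw [abs_div, abs_neg, abs_of_pos (pow_pos h0 2), inv_eq_one_div, div_le_div_iff₀ (pow_pos h0 2) h0]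
  have : |2 * s * y| ≤ s ^ 2 + y ^ 2 := by
    rw [abs_le]; constructor <;> nlinarith [sq_nonneg (s - y), sq_nonneg (s + y)]
  nlinarith

lemma py_le {y : ℝ} (hy : 0 < y) (s : ℝ) : |py s y| ≤ (s ^ 2 + y ^ 2)⁻¹ := by
  unfold py
  have h0 : 0 < s ^ 2 + y ^ 2 := by positivity
  rw [abs_div, abs_of_pos (pow_pos h0 2), inv_eq_one_div, div_le_div_iff₀ (pow_pos h0 2) h0]
  have : |s ^ 2 - y ^ 2| ≤ s ^ 2 + y ^ 2 := by
    rw [abs_le]; constructor <;> nlinarith [sq_nonneg s, sq_nonneg y]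
  nlinarith

lemma adm_bd {y : ℝ} (hy : 0 < y) (z t : ℝ) :
    ((z - t) ^ 2 + y ^ 2)⁻¹ ≤ ((1 + 2 * z ^ 2) / y ^ 2 + 2) * (1 + t ^ 2)⁻¹ := by
  have h0 : 0 < (z - t) ^ 2 + y ^ 2 := by positivity
  have h1 : (0:ℝ) < 1 + t ^ 2 := by positivity
  rw [← div_eq_mul_inv, inv_eq_one_div, div_le_div_iff₀ h0 h1, one_mul]
  have e : ((1 + 2 * z ^ 2) / y ^ 2 + 2) * ((z - t) ^ 2 + y ^ 2) =
      (1 + 2 * z ^ 2) / y ^ 2 * (z - t) ^ 2 + (1 + 2 * z ^ 2) + 2 * (z - t) ^ 2 + 2 * y ^ 2 := by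
    field_simp
    ring
  rw [e]
  have h2 : 0 ≤ (1 + 2 * z ^ 2) / y ^ 2 * (z - t) ^ 2 := by positivity
  nlinarith [sq_nonneg (z - t + z), sq_nonneg y]

lemma adm_bd2 {y Z η : ℝ} (hη : 0 < η) (hy : η ≤ y) {z : ℝ} (hz : |z| ≤ Z) (t : ℝ) :
    ((z - t) ^ 2 + y ^ 2)⁻¹ ≤ ((1 + 2 * Z ^ 2) / η ^ 2 + 2) * (1 + t ^ 2)⁻¹ := by
  have hy0 : 0 < y := lt_of_lt_of_le hη hy
  refine (adm_bd hy0 z t).trans ?_
  have hz2 : z ^ 2 ≤ Z ^ 2 := by
    rw [← sq_abs z]; exact pow_le_pow_left₀ (abs_nonneg _) hz 2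
  have hy2 : η ^ 2 ≤ y ^ 2 := pow_le_pow_left₀ hη.le hy 2
  apply mul_le_mul_of_nonneg_right _ (by positivity)
  have h1 : (1 + 2 * z ^ 2) / y ^ 2 ≤ (1 + 2 * Z ^ 2) / η ^ 2 := by
    apply div_le_div₀ (by positivity) (by linarith) (by positivity) hy2
  linarith

variable {f : ℝ → ℂ}

lemma Adm.intg (hf : Adm f) {g : ℝ → ℝ} (hg : Continuous g) {C : ℝ}
    (hC : ∀ t, |g t| ≤ C * (1 + t ^ 2)⁻¹) : Integrable (fun t => g t • f t) := by
  refine Integrable.mono' (hf.int.const_mul C) (hg.aestronglyMeasurable.smul hf.meas)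
    (Eventually.of_forall fun t => ?_)
  rw [norm_smul, Real.norm_eq_abs, ← mul_assoc]
  exact mul_le_mul_of_nonneg_right (hC t) (norm_nonneg _)

lemma pk_cont {y : ℝ} (hy : 0 < y) (z : ℝ) : Continuous (fun t => pk (z - t) y) := by
  unfold pk
  apply Continuous.div (by fun_prop) (by fun_prop)
  intro t; positivity

lemma pz_cont {y : ℝ} (hy : 0 < y) (z : ℝ) : Continuous (fun t => pz (z - t) y) := by
  unfold pz
  apply Continuous.div (by fun_prop) (by fun_prop)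
  intro t; positivity

lemma py_cont {y : ℝ} (hy : 0 < y) (z : ℝ) : Continuous (fun t => py (z - t) y) := by
  unfold py
  apply Continuous.div (by fun_prop) (by fun_prop)
  intro t; positivity

lemma Adm.pk_int (hf : Adm f) {y : ℝ} (hy : 0 < y) (z : ℝ) : Integrable (fun t => pk (z - t) y • f t) := by
  refine hf.intg (pk_cont hy z) (C := y * ((1 + 2 * z ^ 2) / y ^ 2 + 2)) fun t => ?_
  rw [mul_assoc]
  exact (pk_le hy _).trans (mul_le_mul_of_nonneg_left (adm_bd hy z t) hy.le)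

lemma Adm.pz_int (hf : Adm f) {y : ℝ} (hy : 0 < y) (z : ℝ) : Integrable (fun t => pz (z - t) y • f t) :=
  hf.intg (pz_cont hy z) fun t => (pz_le hy _).trans (adm_bd hy z t)

lemma Adm.py_int (hf : Adm f) {y : ℝ} (hy : 0 < y) (z : ℝ) : Integrable (fun t => py (z - t) y • f t) :=
  hf.intg (py_cont hy z) fun t => (py_le hy _).trans (adm_bd hy z t)

lemma Adm.dz (hf : Adm f) {y : ℝ} (hy : 0 < y) (z : ℝ) :
    HasDerivAt (fun z' => ∫ t : ℝ, pk (z' - t) y • f t) (∫ t : ℝ, pz (z - t) y • f t) z := by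
  have key := hasDerivAt_integral_of_dominated_loc_of_deriv_le (μ := volume) (𝕜 := ℝ)
    (F := fun z' t => pk (z' - t) y • f t) (F' := fun z' t => pz (z' - t) y • f t)
    (x₀ := z) (s := Metric.ball z 1)
    (bound := fun t => ((1 + 2 * (|z| + 1) ^ 2) / y ^ 2 + 2) * ((1 + t ^ 2)⁻¹ * ‖f t‖))
    (Metric.ball_mem_nhds z one_pos)
    (Eventually.of_forall fun z' => (hf.pk_int hy z').1) (hf.pk_int hy z) (hf.pz_int hy z).1
    (Eventually.of_forall fun t z' hz' => ?_) (hf.int.const_mul _)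
    (Eventually.of_forall fun t z' hz' => (pk_dz hy z' t).smul_const _)
  · exact key.2
  · rw [norm_smul, Real.norm_eq_abs, ← mul_assoc]
    apply mul_le_mul_of_nonneg_right _ (norm_nonneg _)
    have h1 : |z'| ≤ |z| + 1 := by
      rw [Metric.mem_ball, Real.dist_eq] at hz'
      have := abs_sub_abs_le_abs_sub z' z
      linarith
    exact (pz_le hy _).trans (adm_bd2 hy le_rfl h1 t)

lemma Adm.dy (hf : Adm f) {y : ℝ} (hy : 0 < y) (z : ℝ) :
    HasDerivAt (fun y' => ∫ t : ℝ, pk (z - t) y' • f t) (∫ t : ℝ, py (z - t) y • f t) y := by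
  have hpos : ∀ y' ∈ Metric.ball y (y / 2), y / 2 ≤ y' := by
    intro y' hy'
    rw [Metric.mem_ball, Real.dist_eq] at hy'
    have := neg_abs_le (y' - y)
    linarith
  have key := hasDerivAt_integral_of_dominated_loc_of_deriv_le (μ := volume) (𝕜 := ℝ)
    (F := fun y' t => pk (z - t) y' • f t) (F' := fun y' t => py (z - t) y' • f t)
    (x₀ := y) (s := Metric.ball y (y / 2))
    (bound := fun t => ((1 + 2 * |z| ^ 2) / (y / 2) ^ 2 + 2) * ((1 + t ^ 2)⁻¹ * ‖f t‖))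
    (Metric.ball_mem_nhds y (by positivity))
    (by
      filter_upwards [Metric.ball_mem_nhds y (show 0 < y / 2 by positivity)] with y' hy'
      exact (hf.pk_int (lt_of_lt_of_le (by positivity) (hpos y' hy')) z).1)
    (hf.pk_int hy z) (hf.py_int hy z).1
    (Eventually.of_forall fun t y' hy' => ?_) (hf.int.const_mul _)
    (Eventually.of_forall fun t y' hy' =>
      (pk_dy (lt_of_lt_of_le (by positivity) (hpos y' hy')) (z - t)).smul_const _)
  · exact key.2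
  · rw [norm_smul, Real.norm_eq_abs, ← mul_assoc]
    apply mul_le_mul_of_nonneg_right _ (norm_nonneg _)
    have h2 := hpos y' hy'
    exact (py_le (lt_of_lt_of_le (by positivity) h2) _).trans (adm_bd2 (by positivity) h2 le_rfl t)

lemma Adm.grSq_eq (hf : Adm f) {y : ℝ} (hy : 0 < y) (z : ℝ) :
    grSq f z y = ‖(1 / Real.pi) • ∫ t : ℝ, pz (z - t) y • f t‖ ^ 2 +
      ‖(1 / Real.pi) • ∫ t : ℝ, py (z - t) y • f t‖ ^ 2 := by
  unfold grSq
  have h1 : (fun z' => pois f z' y) = fun z' => (1 / Real.pi) • ∫ t : ℝ, pk (z' - t) y • f t := by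
    funext z'; exact pois_eq f z' y
  have h2 : (fun y' => pois f z y') = fun y' => (1 / Real.pi) • ∫ t : ℝ, pk (z - t) y' • f t := by
    funext y'; exact pois_eq f z y'
  have h3 : HasDerivAt (fun z' => (1 / Real.pi) • ∫ t : ℝ, pk (z' - t) y • f t)
      ((1 / Real.pi) • ∫ t : ℝ, pz (z - t) y • f t) z := (hf.dz hy z).const_smul (1 / Real.pi)
  have h4 : HasDerivAt (fun y' => (1 / Real.pi) • ∫ t : ℝ, pk (z - t) y' • f t)
      ((1 / Real.pi) • ∫ t : ℝ, py (z - t) y • f t) y := (hf.dy hy z).const_smul (1 / Real.pi)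
  rw [h1, h2, h3.deriv, h4.deriv]

/-- the holomorphic kernel -/
noncomputable def cc (s y : ℝ) : ℂ := 1 / pt y s ^ 2

lemma cc_eq {y : ℝ} (hy : 0 < y) (s : ℝ) : cc s y = (py s y : ℂ) + (pz s y : ℂ) * Complex.I := by
  unfold cc py pz
  have h0 : ((s:ℂ) ^ 2 + (y:ℂ) ^ 2) ≠ 0 := by
    have : s ^ 2 + y ^ 2 ≠ 0 := by positivity
    exact_mod_cast this
  have h1 : pt y s ≠ 0 := pt_ne hy s
  have h2 : pt y s * ((s:ℂ) - (y:ℂ) * Complex.I) = (s:ℂ) ^ 2 + (y:ℂ) ^ 2 := by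
    unfold pt
    have := Complex.I_mul_I
    linear_combination (-(y:ℂ) ^ 2) * this
  have h3 : (1:ℂ) / pt y s = ((s:ℂ) - (y:ℂ) * Complex.I) / ((s:ℂ) ^ 2 + (y:ℂ) ^ 2) := by
    rw [div_eq_div_iff h1 h0, ← h2]; ring
  have h4 : (1:ℂ) / pt y s ^ 2 = (1 / pt y s) ^ 2 := by rw [div_pow, one_pow]
  rw [h4, h3]
  push_cast
  field_simp
  have := Complex.I_mul_I
  linear_combination ((y:ℂ) ^ 2) * this

/-- the holomorphic derivative -/
noncomputable def GG (f : ℝ → ℂ) (z y : ℝ) : ℂ := (1 / Real.pi) • ∫ t : ℝ, cc (z - t) y * f t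

lemma GG_eq (hf : Adm f) {y : ℝ} (hy : 0 < y) (z : ℝ) :
    GG f z y = (1 / Real.pi) • (∫ t : ℝ, py (z - t) y • f t) +
      ((1 / Real.pi) • ∫ t : ℝ, pz (z - t) y • f t) * Complex.I := by
  unfold GG
  have h1 : ∫ t : ℝ, cc (z - t) y * f t = (∫ t : ℝ, py (z - t) y • f t) +
      (∫ t : ℝ, pz (z - t) y • f t) * Complex.I := by
    rw [← integral_mul_const, ← integral_add (hf.py_int hy z) ((hf.pz_int hy z).mul_const _)]
    congr 1
    funext t
    rw [cc_eq hy]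
    simp only [Complex.real_smul]
    ring
  rw [h1, smul_add, smul_mul_assoc]

lemma Adm.conj (hf : Adm f) : Adm (fun t => (starRingEnd ℂ) (f t)) := by
  refine ⟨Complex.continuous_conj.comp_aestronglyMeasurable hf.meas, ?_⟩
  have : (fun t => (1 + t ^ 2)⁻¹ * ‖(starRingEnd ℂ) (f t)‖) = fun t => (1 + t ^ 2)⁻¹ * ‖f t‖ := by
    funext t; rw [RCLike.norm_conj]
  rw [this]; exact hf.int

lemma grSq_le (hf : Adm f) {y : ℝ} (hy : 0 < y) (z : ℝ) :
    grSq f z y ≤ ‖GG f z y‖ ^ 2 + ‖GG (fun t => (starRingEnd ℂ) (f t)) z y‖ ^ 2 := by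
  rw [hf.grSq_eq hy, GG_eq hf hy, GG_eq hf.conj hy]
  set Q := (1 / Real.pi) • (∫ t : ℝ, py (z - t) y • f t) with hQ
  set P := (1 / Real.pi) • (∫ t : ℝ, pz (z - t) y • f t) with hP
  have e1 : (1 / Real.pi) • (∫ t : ℝ, py (z - t) y • (starRingEnd ℂ) (f t)) = (starRingEnd ℂ) Q := by
    rw [hQ, Complex.real_smul, Complex.real_smul, map_mul, Complex.conj_ofReal, ← integral_conj]
    congr 1
    congr 1
    funext t
    simp
  have e2 : (1 / Real.pi) • (∫ t : ℝ, pz (z - t) y • (starRingEnd ℂ) (f t)) = (starRingEnd ℂ) P := by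
    rw [hP, Complex.real_smul, Complex.real_smul, map_mul, Complex.conj_ofReal, ← integral_conj]
    congr 1
    congr 1
    funext t
    simp
  rw [e1, e2]
  have e3 : ‖(starRingEnd ℂ) Q + (starRingEnd ℂ) P * Complex.I‖ = ‖Q - P * Complex.I‖ := by
    rw [← RCLike.norm_conj]
    congr 1
    simp
    ring
  rw [e3]
  have e4 := parallelogram_law_with_norm ℂ Q (P * Complex.I)
  have e5 : ‖P * Complex.I‖ = ‖P‖ := by simp
  rw [e5] at e4
  nlinarith [sq_nonneg ‖P‖, sq_nonneg ‖Q‖]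

end Pool.Agent.L5helper34.GL
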