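import Pool.Agent.L5helper34.GL.Cz
import Pool.Agent.L5helper34.GL.Gr
import Pool.Agent.L5helper34.GL.Br

set_option autoImplicit false
set_option linter.unusedVariables false

/-! The condition `A_p` on the line. -/

namespace Pool.Agent.L5helper34.GL

open MeasureTheory Filter Topology Metric
open scoped ENNReal NNReal

/-- The class `A_p`. -/
def ApC (p : ℝ) (U : ℝ → ℝ) : Prop :=
  ∃ C : ℝ≥0, ∀ a b : ℝ, a < b →
    (∫⁻ x in Set.Icc a b, ENNReal.ofReal (U x)) / ENNReal.ofReal (b - a) *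
      ((∫⁻ x in Set.Icc a b, ENNReal.ofReal (U x) ^ (-(1 / (p - 1)))) / ENNReal.ofReal (b - a)) ^ (p - 1) ≤ C

lemma union_Icc : (⋃ n : ℕ, Set.Icc (-(n:ℝ)) n) = Set.univ := by
  apply Set.eq_univ_of_forall
  intro x
  obtain ⟨n, hn⟩ := exists_nat_ge |x|
  exact Set.mem_iUnion.2 ⟨n, by linarith [neg_abs_le x], by linarith [le_abs_self x]⟩

lemma sig_fin {p : ℝ} (hp : 1 < p) {U : ℝ → ℝ} (hUm : AEMeasurable U volume) (hU0 : ∀ x, 0 ≤ U x)
    (hA : ApC p U) (hne : ¬ (U =ᵐ[volume] fun _ => 0))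
    (a b : ℝ) : ∫⁻ x in Set.Icc a b, ENNReal.ofReal (U x) ^ (-(1 / (p - 1))) ≠ ∞ := by
  obtain ⟨C, hC⟩ := hA
  have hp1 : 0 < p - 1 := by linarith
  -- an interval of positive mass
  obtain ⟨n, hn⟩ : ∃ n : ℕ, ∫⁻ x in Set.Icc (-(n:ℝ)) n, ENNReal.ofReal (U x) ≠ 0 := by
    by_contra hcon
    push Not at hcon
    apply hne
    have h1 : ∫⁻ x, ENNReal.ofReal (U x) = 0 := by
      rw [← setLIntegral_univ, ← union_Icc]
      apply le_antisymm _ bot_le
      refine (lintegral_iUnion_le _ _).trans ?_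
      simp [hcon]
    rw [lintegral_eq_zero_iff' hUm.ennreal_ofReal] at h1
    filter_upwards [h1] with x hx
    have h2 : ENNReal.ofReal (U x) = 0 := hx
    rw [ENNReal.ofReal_eq_zero] at h2
    exact le_antisymm h2 (hU0 x)
  set R : ℝ := max (max (-a) b) (n:ℝ) + 1 with hR
  have hR1 : a ≥ -R := by
    have : -a ≤ R := by rw [hR]; exact ((le_max_left _ _).trans (le_max_left _ _)).trans (by linarith)
    linarith
  have hR2 : b ≤ R := by rw [hR]; exact ((le_max_right _ _).trans (le_max_left _ _)).trans (by linarith)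
  have hR3 : (n:ℝ) ≤ R := by rw [hR]; exact (le_max_right _ _).trans (by linarith)
  have hR0 : 0 < R := by
    have : (0:ℝ) ≤ n := Nat.cast_nonneg n
    rw [hR]
    have := le_max_right (max (-a) b) (n:ℝ)
    linarith
  have h1 := hC (-R) R (by linarith)
  have h2 : ∫⁻ x in Set.Icc (-R) R, ENNReal.ofReal (U x) ≠ 0 := by
    intro h0
    exact hn (le_antisymm ((lintegral_mono_set (Set.Icc_subset_Icc (by linarith) hR3)).trans h0.le) bot_le)
  have hL : ENNReal.ofReal (R - -R) ≠ ∞ := ENNReal.ofReal_ne_top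
  have hL0 : ENNReal.ofReal (R - -R) ≠ 0 := by
    simp only [ne_eq, ENNReal.ofReal_eq_zero, not_le]; linarith
  intro htop
  have h3 : ∫⁻ x in Set.Icc (-R) R, ENNReal.ofReal (U x) ^ (-(1 / (p - 1))) = ∞ := by
    apply top_unique
    rw [← htop]
    exact lintegral_mono_set (Set.Icc_subset_Icc (by linarith) hR2)
  rw [h3, ENNReal.top_div_of_ne_top hL, ENNReal.top_rpow_of_pos hp1, ENNReal.mul_top] at h1
  · exact absurd (lt_of_le_of_lt h1 ENNReal.coe_lt_top) (lt_irrefl _)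
  · exact ENNReal.div_ne_zero.2 ⟨h2, hL⟩

/-- The weight is positive almost everywhere. -/
lemma pos_ae {p : ℝ} (hp : 1 < p) {U : ℝ → ℝ} (hUm : AEMeasurable U volume) (hU0 : ∀ x, 0 ≤ U x)
    (hA : ApC p U) (hne : ¬ (U =ᵐ[volume] fun _ => 0)) : ∀ᵐ x, 0 < U x := by
  have hp1 : 0 < p - 1 := by linarith
  have h1 : ∀ n : ℕ, ∀ᵐ x ∂(volume.restrict (Set.Icc (-(n:ℝ)) n)), 0 < U x := by
    intro n
    have h2 := ae_lt_top' ((hUm.ennreal_ofReal.pow_const (-(1 / (p - 1)))).restrict)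
      (sig_fin hp hUm hU0 hA hne (-(n:ℝ)) n)
    filter_upwards [h2] with x hx
    by_contra hcon
    have h3 : U x = 0 := le_antisymm (not_lt.1 hcon) (hU0 x)
    rw [h3, ENNReal.ofReal_zero, ENNReal.zero_rpow_of_neg (by
      have : 0 < 1 / (p - 1) := by positivity
      linarith)] at hx
    exact lt_irrefl _ hx
  have h2 : ∀ᵐ x ∂(volume.restrict (⋃ n : ℕ, Set.Icc (-(n:ℝ)) n)), 0 < U x :=
    ae_restrict_iUnion_iff _ _ |>.2 h1
  rwa [union_Icc, Measure.restrict_univ] at h2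

/-- A measurable positive representative. -/
theorem exists_wt {p q : ℝ} (hpq : p.HolderConjugate q) {U : ℝ → ℝ} (hU : LocallyIntegrable U volume)
    (hU0 : ∀ x, 0 ≤ U x) (hA : ApC p U) (hne : ¬ (U =ᵐ[volume] fun _ => 0)) :
    ∃ (N : ℝ) (W : ℝ → ℝ), Wt p q N W ∧ U =ᵐ[volume] W := by
  have hp : 1 < p := hpq.lt
  have hp1 : 0 < p - 1 := by linarith
  have hq1 : 1 - q = -(1 / (p - 1)) := by
    have h1 := hpq.mul_eq_add
    have h2 : (p - 1) * (q - 1) = 1 := by nlinarith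
    have h3 : q - 1 = 1 / (p - 1) := by
      rw [eq_div_iff hp1.ne', mul_comm]; exact h2
    linarith
  have hUm : AEMeasurable U volume := hU.aestronglyMeasurable.aemeasurable
  have hpos := pos_ae hp hUm hU0 hA hne
  obtain ⟨v, hv, hUv⟩ := hUm
  set W : ℝ → ℝ := fun x => if 0 < v x then v x else 1 with hW
  have hWm : Measurable W := Measurable.ite (measurableSet_lt measurable_const hv) hv measurable_const
  have hW0 : ∀ x, 0 < W x := by
    intro x; simp only [hW]; split_ifs with h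
    · exact h
    · exact one_pos
  have hUW : U =ᵐ[volume] W := by
    filter_upwards [hUv, hpos] with x h1 h2
    rw [h1] at h2
    simp only [hW]
    rw [if_pos h2, h1]
  obtain ⟨C, hC⟩ := hA
  have hA : ApC p U := ⟨C, hC⟩
  have hsigW : ∀ a b : ℝ, ∫⁻ x in Set.Icc a b, ENNReal.ofReal (W x ^ (1 - q)) =
      ∫⁻ x in Set.Icc a b, ENNReal.ofReal (U x) ^ (-(1 / (p - 1))) := by
    intro a b
    apply lintegral_congr_ae
    filter_upwards [ae_restrict_of_ae hUW] with x hx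
    rw [hx, ← hq1, ENNReal.ofReal_rpow_of_pos (hW0 x)]
  have hUW' : ∀ a b : ℝ, ∫⁻ x in Set.Icc a b, ENNReal.ofReal (W x) =
      ∫⁻ x in Set.Icc a b, ENNReal.ofReal (U x) := by
    intro a b
    apply lintegral_congr_ae
    filter_upwards [ae_restrict_of_ae hUW] with x hx
    rw [hx]
  have hintW : ∀ a b : ℝ, IntegrableOn W (Set.Icc a b) := by
    intro a b
    exact (hU.integrableOn_isCompact isCompact_Icc).congr_fun_ae (ae_restrict_of_ae hUW)
  have hintS : ∀ a b : ℝ, IntegrableOn (fun x => W x ^ (1 - q)) (Set.Icc a b) := by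
    intro a b
    refine ⟨(hWm.pow_const _).aestronglyMeasurable, ?_⟩
    rw [hasFiniteIntegral_iff_ofReal (Eventually.of_forall fun x => Real.rpow_nonneg (hW0 x).le _)]
    rw [hsigW]
    exact lt_top_iff_ne_top.2 (sig_fin hp hU.aestronglyMeasurable.aemeasurable hU0 hA hne a b)
  refine ⟨C, W, ⟨hWm, hW0, fun a b => (hintW a b).mono_set Set.Ico_subset_Icc_self,
    fun a b => (hintS a b).mono_set Set.Ico_subset_Icc_self, ?_⟩, hUW⟩
  intro a l hl
  have h1 := hC a (a + l) (by linarith)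
  rw [← hUW', ← hsigW, add_sub_cancel_left] at h1
  have e1 : ∫⁻ x in Set.Icc a (a + l), ENNReal.ofReal (W x) = ENNReal.ofReal (∫ x in Set.Ico a (a + l), W x) := by
    rw [setLIntegral_congr Ico_ae_eq_Icc.symm,
      ofReal_integral_eq_lintegral_ofReal ((hintW a (a + l)).mono_set Set.Ico_subset_Icc_self)
      (Eventually.of_forall fun x => (hW0 x).le)]
  have e2 : ∫⁻ x in Set.Icc a (a + l), ENNReal.ofReal (W x ^ (1 - q)) =
      ENNReal.ofReal (∫ x in Set.Ico a (a + l), W x ^ (1 - q)) := by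
    rw [setLIntegral_congr Ico_ae_eq_Icc.symm,
      ofReal_integral_eq_lintegral_ofReal ((hintS a (a + l)).mono_set Set.Ico_subset_Icc_self)
      (Eventually.of_forall fun x => Real.rpow_nonneg (hW0 x).le _)]
  have h3 : 0 ≤ ∫ x in Set.Ico a (a + l), W x := setIntegral_nonneg measurableSet_Ico
      fun x _ => (hW0 x).le
  have h4 : 0 ≤ ∫ x in Set.Ico a (a + l), W x ^ (1 - q) := setIntegral_nonneg measurableSet_Ico
      fun x _ => Real.rpow_nonneg (hW0 x).le _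
  rw [e1, e2, ← ENNReal.ofReal_div_of_pos hl, ← ENNReal.ofReal_div_of_pos hl,
    ENNReal.ofReal_rpow_of_nonneg (by positivity) hp1.le, ← ENNReal.ofReal_mul (by positivity),
    ← ENNReal.ofReal_coe_nnreal, ENNReal.ofReal_le_ofReal_iff C.coe_nonneg] at h1
  rw [inv_mul_eq_div, inv_mul_eq_div]
  exact h1

section growth

variable {p q N : ℝ} {W : ℝ → ℝ}

lemma ptw_adm (t : ℝ) : ENNReal.ofReal ((1 + t ^ 2)⁻¹) ≤
    ∑' k : ℕ, 4 * ENNReal.ofReal ((1/4) ^ k) * (Set.Ico (-(2:ℝ) ^ k) (2 ^ k)).indicator 1 t := by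
  have hex : ∃ k : ℕ, t ∈ Set.Ico (-(2:ℝ) ^ k) (2 ^ k) := by
    obtain ⟨k, hk⟩ := pow_unbounded_of_one_lt |t| (by norm_num : (1:ℝ) < 2)
    exact ⟨k, by linarith [neg_abs_le t], by linarith [le_abs_self t]⟩
  set k := Nat.find hex with hk
  have hmem := Nat.find_spec hex
  rw [← hk] at hmem
  refine le_trans ?_ (ENNReal.le_tsum k)
  rw [Set.indicator_of_mem hmem, Pi.one_apply, mul_one]
  have h4 : (4:ℝ≥0∞) = ENNReal.ofReal 4 := by norm_num
  rw [h4, ← ENNReal.ofReal_mul (by norm_num)]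
  apply ENNReal.ofReal_le_ofReal
  rcases Nat.eq_zero_or_pos k with h0 | h0
  · rw [h0]
    have : (1 + t ^ 2)⁻¹ ≤ 1 := inv_le_one_of_one_le₀ (by nlinarith [sq_nonneg t])
    norm_num
    linarith
  · have hn := Nat.find_min hex (show k - 1 < Nat.find hex by omega)
    have h1 : (2:ℝ) ^ (k - 1) ≤ |t| := by
      by_contra hcon
      push Not at hcon
      exact hn ⟨by linarith [neg_abs_le t], by linarith [le_abs_self t]⟩
    have h2 : (2:ℝ) ^ k = 2 ^ (k - 1) * 2 := by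
      rw [← pow_succ]; congr 1; omega
    have h3 : ((2:ℝ) ^ (k - 1)) ^ 2 ≤ t ^ 2 := by
      rw [← sq_abs t]; exact pow_le_pow_left₀ (by positivity) h1 2
    have h5 : (4:ℝ) ^ k = 4 * ((2:ℝ) ^ (k - 1)) ^ 2 := by
      have : (4:ℝ) ^ k = (2 ^ k) ^ 2 := by
        rw [← pow_mul, mul_comm, pow_mul]; norm_num
      rw [this, h2]; ring
    rw [one_div, inv_pow, h5, inv_eq_one_div, div_le_iff₀ (by positivity)]
    have h6 : 0 < ((2:ℝ) ^ (k - 1)) ^ 2 := by positivity
    have : 4 * (4 * (2 ^ (k - 1)) ^ 2)⁻¹ * (1 + t ^ 2) = (1 + t ^ 2) / ((2:ℝ) ^ (k - 1)) ^ 2 := by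
      field_simp
    rw [this, le_div_iff₀ h6]
    linarith

lemma sig_growth (hpq : p.HolderConjugate q) (hW : Wt p q N W) :
    ∃ M : ℝ, 0 ≤ M ∧ ∀ k : ℕ, ∫ x in Set.Ico (-(2:ℝ) ^ k) (2 ^ k), W x ^ (1 - q) ≤ M * (2 ^ k) ^ q := by
  have hp1 : 0 < p - 1 := by have := hpq.lt; linarith
  have hq1 : 0 < q - 1 := by have := hpq.symm.lt; linarith
  have hpq1 : (p - 1) * (q - 1) = 1 := by have := hpq.mul_eq_add; nlinarith
  set u₀ : ℝ := ∫ x in Set.Ico (-1:ℝ) 1, W x with hu₀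
  have hu0 : 0 < u₀ := by
    rw [hu₀, setIntegral_pos_iff_support_of_nonneg_ae (Eventually.of_forall fun x => (hW.pos x).le)
      (hW.intW _ _)]
    have : Function.support W = Set.univ := by
      apply Set.eq_univ_of_forall
      intro x; exact (hW.pos x).ne'
    rw [this, Set.univ_inter, Real.volume_Ico]
    simp
  have hN : 0 ≤ N := by
    refine le_trans ?_ (hW.ap 0 1 one_pos)
    have h1 : 0 ≤ ∫ x in Set.Ico (0:ℝ) (0 + 1), W x := setIntegral_nonneg measurableSet_Ico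
      fun x _ => (hW.pos x).le
    have h2 : 0 ≤ ∫ x in Set.Ico (0:ℝ) (0 + 1), W x ^ (1 - q) := setIntegral_nonneg measurableSet_Ico
      fun x _ => Real.rpow_nonneg (hW.pos x).le _
    positivity
  refine ⟨2 ^ q * (N / u₀) ^ (q - 1), by positivity, fun k => ?_⟩
  have hl : (0:ℝ) < 2 * 2 ^ k := by positivity
  have h1 := hW.ap (-(2:ℝ) ^ k) (2 * 2 ^ k) hl
  have e1 : -(2:ℝ) ^ k + 2 * 2 ^ k = 2 ^ k := by ring
  rw [e1] at h1
  set Sg := ∫ x in Set.Ico (-(2:ℝ) ^ k) (2 ^ k), W x ^ (1 - q) with hSg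
  have hSg0 : 0 ≤ Sg := setIntegral_nonneg measurableSet_Ico fun x _ => Real.rpow_nonneg (hW.pos x).le _
  have hUk : u₀ ≤ ∫ x in Set.Ico (-(2:ℝ) ^ k) (2 ^ k), W x := by
    apply setIntegral_mono_set (hW.intW _ _) (Eventually.of_forall fun x => (hW.pos x).le)
    have : (1:ℝ) ≤ 2 ^ k := one_le_pow₀ (by norm_num)
    exact LE.le.eventuallyLE (Set.Ico_subset_Ico (by linarith) this)
  have h2 : ((2 * 2 ^ k)⁻¹ * Sg) ^ (p - 1) ≤ N / u₀ * (2 * 2 ^ k) := by
    have h3 : (2 * 2 ^ k)⁻¹ * u₀ * ((2 * 2 ^ k)⁻¹ * Sg) ^ (p - 1) ≤ N := by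
      refine le_trans ?_ h1
      apply mul_le_mul_of_nonneg_right _ (Real.rpow_nonneg (by positivity) _)
      exact mul_le_mul_of_nonneg_left hUk (by positivity)
    rw [div_mul_eq_mul_div, le_div_iff₀ hu0]
    calc ((2 * 2 ^ k)⁻¹ * Sg) ^ (p - 1) * u₀
        = ((2 * 2 ^ k)⁻¹ * u₀ * ((2 * 2 ^ k)⁻¹ * Sg) ^ (p - 1)) * (2 * 2 ^ k) := by field_simp
      _ ≤ N * (2 * 2 ^ k) := mul_le_mul_of_nonneg_right h3 hl.le
  have h4 := Real.rpow_le_rpow (Real.rpow_nonneg (by positivity) _) h2 hq1.le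
  rw [← Real.rpow_mul (by positivity), hpq1, Real.rpow_one, Real.mul_rpow (by positivity) hl.le] at h4
  have h5 : Sg ≤ (N / u₀) ^ (q - 1) * ((2 * 2 ^ k) ^ (q - 1) * (2 * 2 ^ k)) := by
    rw [inv_mul_le_iff₀ hl] at h4
    linarith
  have h6 : ((2:ℝ) * 2 ^ k) ^ (q - 1) * (2 * 2 ^ k) = (2 * 2 ^ k) ^ q := by
    rw [← Real.rpow_add_one hl.ne']; congr 1; ring
  rw [h6, Real.mul_rpow (by norm_num) (by positivity)] at h5
  linarith

lemma adm_of (hpq : p.HolderConjugate q) (hW : Wt p q N W) {f : ℝ → ℂ}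
    (hfm : AEStronglyMeasurable f volume)
    (hf : ∫⁻ x, ‖f x‖ₑ ^ p * ENNReal.ofReal (W x) ≠ ∞) : Adm f := by
  have hp0 := hpq.pos
  have hq0 := hpq.symm.pos
  have hq1 : 1 < q := hpq.symm.lt
  obtain ⟨M, hM0, hM⟩ := sig_growth hpq hW
  refine ⟨hfm, ?_⟩
  have hm : AEStronglyMeasurable (fun t : ℝ => (1 + t ^ 2)⁻¹ * ‖f t‖) volume := by
    apply AEStronglyMeasurable.mul _ hfm.norm
    apply Continuous.aestronglyMeasurable
    apply Continuous.inv₀ (by fun_prop)
    intro t; positivity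
  refine ⟨hm, ?_⟩
  rw [hasFiniteIntegral_iff_ofReal (Eventually.of_forall fun t => by positivity)]
  set I := ∫⁻ x, ‖f x‖ₑ ^ p * ENNReal.ofReal (W x) with hI
  -- Hölder on one interval
  have hH : ∀ k : ℕ, ∫⁻ t in Set.Ico (-(2:ℝ) ^ k) (2 ^ k), ‖f t‖ₑ ≤
      I ^ (1 / p) * (ENNReal.ofReal (M ^ (1 / q)) * ENNReal.ofReal (2 ^ k)) := by
    intro k
    have hWm := hW.meas
    have h1 := ENNReal.lintegral_mul_le_Lp_mul_Lq (volume.restrict (Set.Ico (-(2:ℝ) ^ k) (2 ^ k))) hpq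
      (f := fun t => ‖f t‖ₑ * ENNReal.ofReal (W t ^ (1 / p)))
      (g := fun t => ENNReal.ofReal (W t ^ (-(1 / p))))
      ((hfm.enorm.mul (hWm.pow_const _).ennreal_ofReal.aemeasurable).restrict)
      (hWm.pow_const _).ennreal_ofReal.aemeasurable
    have e1 : ∫⁻ t in Set.Ico (-(2:ℝ) ^ k) (2 ^ k), ((fun t => ‖f t‖ₑ * ENNReal.ofReal (W t ^ (1 / p))) *
        fun t => ENNReal.ofReal (W t ^ (-(1 / p)))) t = ∫⁻ t in Set.Ico (-(2:ℝ) ^ k) (2 ^ k), ‖f t‖ₑ := by
      apply lintegral_congr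
      intro t
      rw [Pi.mul_apply, mul_assoc, ← ENNReal.ofReal_mul (Real.rpow_nonneg (hW.pos t).le _),
        ← Real.rpow_add (hW.pos t)]
      simp
    rw [e1] at h1
    refine h1.trans (mul_le_mul' ?_ ?_)
    · apply ENNReal.rpow_le_rpow _ (by positivity)
      rw [hI]
      refine le_trans (setLIntegral_le_lintegral _ _) (le_of_eq ?_)
      apply lintegral_congr
      intro t
      rw [ENNReal.mul_rpow_of_nonneg _ _ hp0.le, ENNReal.ofReal_rpow_of_nonneg (Real.rpow_nonneg (hW.pos t).le _) hp0.le,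
        ← Real.rpow_mul (hW.pos t).le, one_div, inv_mul_cancel₀ hp0.ne', Real.rpow_one]
    · have e2 : ∫⁻ t in Set.Ico (-(2:ℝ) ^ k) (2 ^ k), ENNReal.ofReal (W t ^ (-(1 / p))) ^ q =
          ENNReal.ofReal (∫ x in Set.Ico (-(2:ℝ) ^ k) (2 ^ k), W x ^ (1 - q)) := by
        rw [ofReal_integral_eq_lintegral_ofReal (hW.intS _ _)
          (Eventually.of_forall fun x => Real.rpow_nonneg (hW.pos x).le _)]
        apply lintegral_congr
        intro t
        rw [ENNReal.ofReal_rpow_of_nonneg (Real.rpow_nonneg (hW.pos t).le _) hq0.le,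
          ← Real.rpow_mul (hW.pos t).le]
        congr 2
        have h2 := hpq.mul_eq_add
        field_simp
        linarith
      rw [e2]
      calc ENNReal.ofReal (∫ x in Set.Ico (-(2:ℝ) ^ k) (2 ^ k), W x ^ (1 - q)) ^ (1 / q)
          ≤ ENNReal.ofReal (M * (2 ^ k) ^ q) ^ (1 / q) :=
            ENNReal.rpow_le_rpow (ENNReal.ofReal_le_ofReal (hM k)) (by positivity)
        _ = _ := by
            rw [ENNReal.ofReal_rpow_of_nonneg (by positivity) (by positivity),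
              ← ENNReal.ofReal_mul (by positivity), Real.mul_rpow hM0 (by positivity),
              ← Real.rpow_mul (by positivity), mul_one_div_cancel hq0.ne', Real.rpow_one]
  have hIp : I ^ (1 / p) ≠ ∞ := ENNReal.rpow_ne_top_of_nonneg (by positivity) hf
  calc ∫⁻ t, ENNReal.ofReal ((1 + t ^ 2)⁻¹ * ‖f t‖)
      ≤ ∫⁻ t, ∑' k : ℕ, 4 * ENNReal.ofReal ((1/4) ^ k) *
          (Set.Ico (-(2:ℝ) ^ k) (2 ^ k)).indicator (fun t => ‖f t‖ₑ) t := by
        apply lintegral_mono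
        intro t
        show ENNReal.ofReal ((1 + t ^ 2)⁻¹ * ‖f t‖) ≤ ∑' k : ℕ, 4 * ENNReal.ofReal ((1/4) ^ k) *
          (Set.Ico (-(2:ℝ) ^ k) (2 ^ k)).indicator (fun t => ‖f t‖ₑ) t
        rw [ENNReal.ofReal_mul (by positivity), ofReal_norm]
        refine (mul_le_mul' (ptw_adm t) le_rfl).trans (le_of_eq ?_)
        rw [← ENNReal.tsum_mul_right]
        apply tsum_congr
        intro k
        rw [mul_assoc]
        congr 1
        by_cases h : t ∈ Set.Ico (-(2:ℝ) ^ k) (2 ^ k)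
        · rw [Set.indicator_of_mem h, Set.indicator_of_mem h]; simp
        · rw [Set.indicator_of_notMem h, Set.indicator_of_notMem h]; simp
    _ = ∑' k : ℕ, 4 * ENNReal.ofReal ((1/4) ^ k) * ∫⁻ t in Set.Ico (-(2:ℝ) ^ k) (2 ^ k), ‖f t‖ₑ := by
        rw [lintegral_tsum]
        · apply tsum_congr
          intro k
          rw [lintegral_const_mul' _ _ (ENNReal.mul_ne_top (by norm_num) ENNReal.ofReal_ne_top),
            lintegral_indicator measurableSet_Ico]
        · intro k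
          exact (hfm.enorm.indicator measurableSet_Ico).const_mul _
    _ ≤ ∑' k : ℕ, 4 * ENNReal.ofReal ((1/4) ^ k) *
          (I ^ (1 / p) * (ENNReal.ofReal (M ^ (1 / q)) * ENNReal.ofReal (2 ^ k))) :=
        ENNReal.tsum_le_tsum fun k => mul_le_mul' le_rfl (hH k)
    _ = (4 * I ^ (1 / p) * ENNReal.ofReal (M ^ (1 / q))) * ∑' k : ℕ, ENNReal.ofReal ((1/2) ^ k) := by
        rw [← ENNReal.tsum_mul_left]
        apply tsum_congr
        intro k
        have : ENNReal.ofReal ((1/2:ℝ) ^ k) = ENNReal.ofReal ((1/4) ^ k) * ENNReal.ofReal (2 ^ k) := by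
          rw [← ENNReal.ofReal_mul (by positivity), ← mul_pow]; norm_num
        rw [this]; ring
    _ < ∞ := by
        apply ENNReal.mul_lt_top
        · exact ENNReal.mul_lt_top (ENNReal.mul_lt_top (by norm_num) (lt_top_iff_ne_top.2 hIp))
            ENNReal.ofReal_lt_top
        · rw [← ENNReal.ofReal_tsum_of_nonneg (fun n => by positivity) summable_geometric_two]
          exact ENNReal.ofReal_lt_top

end growth

end Pool.Agent.L5helper34.GL
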