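import Pool.Agent.L5helper34.GL.Fou
import Pool.Agent.TH794.QD.Planch

set_option autoImplicit false
set_option linter.unusedVariables false

/-! Convolution operators on `L²(ℝ)` with a bounded Fourier multiplier. -/

namespace Pool.Agent.L5helper34.GL

open MeasureTheory Filter Topology
open scoped ENNReal NNReal FourierTransform Convolution

/-- convolution -/
noncomputable def cv (κ f : ℝ → ℂ) (x : ℝ) : ℂ := ∫ t, κ (x - t) * f t

/-- continuous, integrable and bounded kernels -/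
structure Nice (κ : ℝ → ℂ) : Prop where
  cont : Continuous κ
  int : Integrable κ
  bdd : ∃ B : ℝ, ∀ x, ‖κ x‖ ≤ B

variable {κ f : ℝ → ℂ}

lemma memLp2_of_bdd {g : ℝ → ℂ} (hg : Integrable g) {B : ℝ} (hB : ∀ x, ‖g x‖ ≤ B) : MemLp g 2 := by
  rw [memLp_two_iff_integrable_sq_norm hg.1]
  refine Integrable.mono' (hg.norm.const_mul B) ((hg.1.norm).pow 2) (Eventually.of_forall fun x => ?_)
  rw [Real.norm_of_nonneg (by positivity), pow_two]
  exact mul_le_mul_of_nonneg_right (hB x) (norm_nonneg _)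

lemma Nice.memLp (hκ : Nice κ) : MemLp κ 2 := by
  obtain ⟨B, hB⟩ := hκ.bdd
  exact memLp2_of_bdd hκ.int hB

lemma Nice.memLp_sub (hκ : Nice κ) (x : ℝ) : MemLp (fun t => κ (x - t)) 2 := by
  have h := hκ.memLp
  exact h.comp_measurePreserving (Measure.measurePreserving_sub_left volume x)

lemma Nice.intg (hκ : Nice κ) (hf : MemLp f 2) (x : ℝ) : Integrable (fun t => κ (x - t) * f t) :=
  MemLp.integrable_mul (hκ.memLp_sub x) hf

lemma Nice.intg1 (hκ : Nice κ) (hf : Integrable f) (x : ℝ) : Integrable (fun t => κ (x - t) * f t) := by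
  obtain ⟨B, hB⟩ := hκ.bdd
  exact hf.bdd_mul (c := B) (hκ.cont.comp (continuous_const.sub continuous_id)).aestronglyMeasurable
    (Eventually.of_forall fun t => hB _)

lemma cv_aesm (hκ : Nice κ) (hf : AEStronglyMeasurable f volume) :
    AEStronglyMeasurable (cv κ f) volume := by
  unfold cv
  have h : AEStronglyMeasurable (fun z : ℝ × ℝ => κ (z.1 - z.2) * f z.2) (volume.prod volume) := by
    apply AEStronglyMeasurable.mul
    · exact (hκ.cont.comp (continuous_fst.sub continuous_snd)).aestronglyMeasurable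
    · exact hf.comp_snd
  exact h.integral_prod_right'

lemma cv_eq_conv : cv κ f = κ ⋆[ContinuousLinearMap.mul ℂ ℂ] f := by
  funext x
  rw [convolution_mul_swap]
  rfl

lemma cv_int (hκ : Nice κ) (hf : Integrable f) : Integrable (cv κ f) := by
  rw [cv_eq_conv]
  exact hκ.int.integrable_convolution _ hf

lemma cv_bdd (hκ : Nice κ) (hf : Integrable f) : ∃ B : ℝ, ∀ x, ‖cv κ f x‖ ≤ B := by
  obtain ⟨B, hB⟩ := hκ.bdd
  refine ⟨∫ t, B * ‖f t‖, fun x => ?_⟩
  unfold cv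
  refine (norm_integral_le_integral_norm _).trans ?_
  apply integral_mono (hκ.intg1 hf x).norm (hf.norm.const_mul B)
  intro t
  simp only [norm_mul]
  exact mul_le_mul_of_nonneg_right (hB _) (norm_nonneg _)

lemma cv_L2_aux (hκ : Nice κ) {A : ℝ≥0} (hA : ∀ᵐ ξ, ‖𝓕 κ ξ‖ ≤ A) (hf : Integrable f)
    (hf2 : MemLp f 2) : ∫⁻ x, ‖cv κ f x‖ₑ ^ 2 ≤ (A:ℝ≥0∞) ^ 2 * ∫⁻ x, ‖f x‖ₑ ^ 2 := by
  obtain ⟨B, hB⟩ := cv_bdd hκ hf
  have h1 := Pool.Agent.TH794.QD.plancherel (cv κ f) (cv_int hκ hf) (memLp2_of_bdd (cv_int hκ hf) hB)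
  have h2 := Pool.Agent.TH794.QD.plancherel f hf hf2
  rw [← h1, ← h2, ← lintegral_const_mul' _ _ (by simp)]
  apply lintegral_mono_ae
  filter_upwards [hA] with ξ hξ
  have h3 : 𝓕 (cv κ f) ξ = 𝓕 κ ξ * 𝓕 f ξ := by
    rw [cv_eq_conv]
    exact Real.fourier_mul_convolution_eq hκ.int hf ξ
  rw [h3, enorm_mul, mul_pow]
  apply mul_le_mul' _ le_rfl
  apply pow_le_pow_left' 
  rw [← ofReal_norm, ← ENNReal.ofReal_coe_nnreal]
  exact ENNReal.ofReal_le_ofReal hξ

/-- the `L²` bound -/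
lemma cv_L2 (hκ : Nice κ) {A : ℝ≥0} (hA : ∀ᵐ ξ, ‖𝓕 κ ξ‖ ≤ A) (hf2 : MemLp f 2) :
    ∫⁻ x, ‖cv κ f x‖ₑ ^ 2 ≤ (A:ℝ≥0∞) ^ 2 * ∫⁻ x, ‖f x‖ₑ ^ 2 := by
  set g : ℕ → ℝ → ℂ := fun n => (Set.Icc (-(n:ℝ)) n).indicator f with hg
  have hg2 : ∀ n, MemLp (g n) 2 := fun n => hf2.indicator measurableSet_Icc
  have hg1 : ∀ n, Integrable (g n) := by
    intro n
    rw [hg, integrable_indicator_iff measurableSet_Icc]
    exact (hf2.locallyIntegrable (by norm_num)).integrableOn_isCompact isCompact_Icc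
  have hgn : ∀ n x, ‖g n x‖ ≤ ‖f x‖ := fun n x => norm_indicator_le_norm_self _ _
  have hlim : ∀ x, Tendsto (fun n => cv κ (g n) x) atTop (𝓝 (cv κ f x)) := by
    intro x
    unfold cv
    apply tendsto_integral_of_dominated_convergence (fun t => ‖κ (x - t) * f t‖)
    · intro n; exact (hκ.intg (hg2 n) x).1
    · exact (hκ.intg hf2 x).norm
    · intro n
      refine Eventually.of_forall fun t => ?_
      rw [norm_mul, norm_mul]
      exact mul_le_mul_of_nonneg_left (hgn n t) (norm_nonneg _)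
    · refine Eventually.of_forall fun t => ?_
      apply Tendsto.const_mul
      apply tendsto_const_nhds.congr'
      obtain ⟨N, hN⟩ := exists_nat_ge |t|
      filter_upwards [eventually_ge_atTop N] with n hn
      rw [hg]
      have : t ∈ Set.Icc (-(n:ℝ)) n := by
        have h2 : |t| ≤ n := hN.trans (by exact_mod_cast hn)
        exact ⟨by linarith [neg_abs_le t], by linarith [le_abs_self t]⟩
      exact (Set.indicator_of_mem this f).symm
  have hF : ∫⁻ x, ‖cv κ f x‖ₑ ^ 2 ≤ liminf (fun n => ∫⁻ x, ‖cv κ (g n) x‖ₑ ^ 2) atTop := by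
    have h1 : ∫⁻ x, ‖cv κ f x‖ₑ ^ 2 = ∫⁻ x, liminf (fun n => ‖cv κ (g n) x‖ₑ ^ 2) atTop := by
      apply lintegral_congr
      intro x
      have h2 : Tendsto (fun n => ‖cv κ (g n) x‖ₑ ^ 2) atTop (𝓝 (‖cv κ f x‖ₑ ^ 2)) :=
        ((ENNReal.continuous_pow 2).tendsto _).comp ((hlim x).enorm)
      exact h2.liminf_eq.symm
    rw [h1]
    apply lintegral_liminf_le'
    intro n
    exact ((cv_aesm hκ (hg2 n).1).enorm).pow_const 2
  refine hF.trans ?_
  have hle : ∀ n, ∫⁻ x, ‖cv κ (g n) x‖ₑ ^ 2 ≤ (A:ℝ≥0∞) ^ 2 * ∫⁻ x, ‖f x‖ₑ ^ 2 := by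
    intro n
    refine (cv_L2_aux hκ hA (hg1 n) (hg2 n)).trans ?_
    apply mul_le_mul' le_rfl
    apply lintegral_mono
    intro x
    apply pow_le_pow_left'
    rw [← ofReal_norm, ← ofReal_norm]
    exact ENNReal.ofReal_le_ofReal (hgn n x)
  calc liminf (fun n => ∫⁻ x, ‖cv κ (g n) x‖ₑ ^ 2) atTop
      ≤ liminf (fun _ : ℕ => (A:ℝ≥0∞) ^ 2 * ∫⁻ x, ‖f x‖ₑ ^ 2) atTop := by
        apply liminf_le_liminf (Eventually.of_forall hle)
    _ = _ := by simp

end Pool.Agent.L5helper34.GL
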