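import Pool.Agent.L5helper34.GL.Cv

set_option autoImplicit false
set_option linter.unusedVariables false

/-! Finite combinations of the kernels `psi`, with bounds which do not depend on the combination. -/

namespace Pool.Agent.L5helper34.GL

open MeasureTheory Filter Topology
open scoped ENNReal NNReal FourierTransform

/-- the damping factor -/
noncomputable def dmp (n : ℕ) : ℝ := (9/10 : ℝ) ^ n

lemma dmp_pos (n : ℕ) : 0 < dmp n := by unfold dmp; positivity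

lemma summ_gam : Summable (fun n : ℕ => dmp n * ((n + 1 : ℝ) * (n + 2))) := by
  unfold dmp
  have h0 := summable_pow_mul_geometric_of_norm_lt_one 0 (R := ℝ) (r := 9/10) (by norm_num)
  have h1 := summable_pow_mul_geometric_of_norm_lt_one 1 (R := ℝ) (r := 9/10) (by norm_num)
  have h2 := summable_pow_mul_geometric_of_norm_lt_one 2 (R := ℝ) (r := 9/10) (by norm_num)
  refine ((h2.add (h1.mul_left 3)).add (h0.mul_left 2)).congr ?_
  intro n; ring

/-- the constant `∑ (9/10)^n (n+1)(n+2)` -/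
noncomputable def gam : ℝ := ∑' n : ℕ, dmp n * ((n + 1 : ℝ) * (n + 2))

lemma gam_nonneg : 0 ≤ gam := tsum_nonneg fun n => by have := dmp_pos n; positivity

lemma sum_prod_le {b : ℤ → ℝ} (hb : ∀ k, 0 ≤ b k) {M : ℝ} (hM : ∀ S : Finset ℤ, ∑ k ∈ S, b k ≤ M)
    (F : Finset (ℤ × ℕ)) :
    ∑ i ∈ F, dmp i.2 * ((i.2 + 1 : ℝ) * (i.2 + 2)) * b i.1 ≤ gam * M := by
  classical
  have hM0 : 0 ≤ M := by simpa using hM ∅
  have h1 : ∑ i ∈ F, dmp i.2 * ((i.2 + 1 : ℝ) * (i.2 + 2)) * b i.1 ≤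
      ∑ i ∈ (F.image Prod.fst) ×ˢ (F.image Prod.snd), dmp i.2 * ((i.2 + 1 : ℝ) * (i.2 + 2)) * b i.1 := by
    apply Finset.sum_le_sum_of_subset_of_nonneg
    · intro i hi
      rw [Finset.mem_product]
      exact ⟨Finset.mem_image_of_mem _ hi, Finset.mem_image_of_mem _ hi⟩
    · intro i _ _
      have := dmp_pos i.2; have := hb i.1; positivity
  refine h1.trans ?_
  rw [Finset.sum_product_right]
  have h2 : ∀ n ∈ F.image Prod.snd, ∑ k ∈ F.image Prod.fst, dmp n * ((n + 1 : ℝ) * (n + 2)) * b k ≤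
      dmp n * ((n + 1 : ℝ) * (n + 2)) * M := by
    intro n _
    rw [← Finset.mul_sum]
    apply mul_le_mul_of_nonneg_left (hM _)
    have := dmp_pos n; positivity
  refine (Finset.sum_le_sum h2).trans ?_
  rw [← Finset.sum_mul]
  apply mul_le_mul_of_nonneg_right _ hM0
  exact summ_gam.sum_le_tsum _ (fun n _ => by have := dmp_pos n; positivity)

/-- the combined kernel -/
noncomputable def kf (F : Finset (ℤ × ℕ)) (e : ℤ × ℕ → ℂ) (x : ℝ) : ℂ :=
  ∑ i ∈ F, e i * ((dmp i.2 : ℂ) * psi (YY i.1) i.2 x)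

variable {F : Finset (ℤ × ℕ)} {e : ℤ × ℕ → ℂ}

lemma kf_size (he : ∀ i, ‖e i‖ ≤ 1) {x : ℝ} (hx : x ≠ 0) : ‖kf F e x‖ ≤ (gam * 8) / |x| := by
  unfold kf
  have h1 : ∀ i ∈ F, ‖e i * ((dmp i.2 : ℂ) * psi (YY i.1) i.2 x)‖ ≤
      dmp i.2 * ((i.2 + 1 : ℝ) * (i.2 + 2)) * (YY i.1 / (x ^ 2 + YY i.1 ^ 2)) := by
    intro i _
    have hY := YY_pos i.1
    have hd := dmp_pos i.2
    rw [norm_mul, norm_mul, Complex.norm_real, Real.norm_of_nonneg hd.le]
    have h2 := psi_le hY i.2 x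
    have h3 : 0 ≤ YY i.1 / (x ^ 2 + YY i.1 ^ 2) := by positivity
    calc ‖e i‖ * (dmp i.2 * ‖psi (YY i.1) i.2 x‖)
        ≤ 1 * (dmp i.2 * ((i.2 + 1 : ℝ) * (YY i.1 / (x ^ 2 + YY i.1 ^ 2)))) := by
          apply mul_le_mul (he i) _ (by positivity) one_pos.le
          exact mul_le_mul_of_nonneg_left h2 hd.le
      _ ≤ dmp i.2 * ((i.2 + 1 : ℝ) * (i.2 + 2)) * (YY i.1 / (x ^ 2 + YY i.1 ^ 2)) := by
          rw [one_mul, ← mul_assoc]
          apply mul_le_mul_of_nonneg_right _ h3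
          apply mul_le_mul_of_nonneg_left _ hd.le
          have : (0:ℝ) ≤ i.2 := Nat.cast_nonneg _
          nlinarith
  refine (norm_sum_le _ _).trans ((Finset.sum_le_sum h1).trans ?_)
  refine (sum_prod_le (b := fun k => YY k / (x ^ 2 + YY k ^ 2)) (fun k => ?_) (sum_Y x hx) F).trans
    (le_of_eq (by ring))
  have := YY_pos k; positivity

lemma kf_sub (he : ∀ i, ‖e i‖ ≤ 1) {x x' : ℝ} (hx : x ≠ 0) (h : |x - x'| ≤ |x| / 2) :
    ‖kf F e x - kf F e x'‖ ≤ (gam * 64) * |x - x'| / |x| ^ 2 := by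
  unfold kf
  rw [← Finset.sum_sub_distrib]
  have hx0 : 0 < |x| := abs_pos.2 hx
  have h1 : ∀ i ∈ F, ‖e i * ((dmp i.2 : ℂ) * psi (YY i.1) i.2 x) -
      e i * ((dmp i.2 : ℂ) * psi (YY i.1) i.2 x')‖ ≤
      (8 * (|x - x'| / |x|)) *
        (dmp i.2 * ((i.2 + 1 : ℝ) * (i.2 + 2)) * (YY i.1 / (x ^ 2 + YY i.1 ^ 2))) := by
    intro i _
    have hY := YY_pos i.1
    have hd := dmp_pos i.2
    rw [← mul_sub, ← mul_sub, norm_mul, norm_mul, Complex.norm_real, Real.norm_of_nonneg hd.le]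
    have h2 := psi_sub hY i.2 hx h
    have h3 : 0 ≤ ‖psi (YY i.1) i.2 x - psi (YY i.1) i.2 x'‖ := norm_nonneg _
    calc ‖e i‖ * (dmp i.2 * ‖psi (YY i.1) i.2 x - psi (YY i.1) i.2 x'‖)
        ≤ 1 * (dmp i.2 * (8 * ((i.2 + 1 : ℝ) * (i.2 + 2)) * (|x - x'| / |x|) *
          (YY i.1 / (x ^ 2 + YY i.1 ^ 2)))) := by
          apply mul_le_mul (he i) _ (by positivity) one_pos.le
          exact mul_le_mul_of_nonneg_left h2 hd.le
      _ = _ := by ring
  refine (norm_sum_le _ _).trans ((Finset.sum_le_sum h1).trans ?_)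
  rw [← Finset.mul_sum]
  have h4 := sum_prod_le (b := fun k => YY k / (x ^ 2 + YY k ^ 2)) (fun k => by
    have := YY_pos k; positivity) (sum_Y x hx) F
  calc (8 * (|x - x'| / |x|)) * ∑ i ∈ F, dmp i.2 * ((i.2 + 1 : ℝ) * (i.2 + 2)) *
        (YY i.1 / (x ^ 2 + YY i.1 ^ 2))
      ≤ (8 * (|x - x'| / |x|)) * (gam * (8 / |x|)) := by
        apply mul_le_mul_of_nonneg_left h4 (by positivity)
    _ = _ := by ring

lemma psi_nice {Y : ℝ} (hY : 0 < Y) (n : ℕ) : Nice (psi Y n) := by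
  refine ⟨psi_cont hY n, psi_int hY n, (n + 1 : ℝ) * (1 / Y), fun x => ?_⟩
  refine (psi_le hY n x).trans ?_
  apply mul_le_mul_of_nonneg_left _ (by positivity)
  rw [div_le_div_iff₀ (by positivity) hY]
  nlinarith [sq_nonneg x]

lemma Nice.const_mul {κ : ℝ → ℂ} (h : Nice κ) (c : ℂ) : Nice (fun x => c * κ x) := by
  obtain ⟨B, hB⟩ := h.bdd
  refine ⟨continuous_const.mul h.cont, h.int.const_mul c, ‖c‖ * B, fun x => ?_⟩
  rw [norm_mul]; exact mul_le_mul_of_nonneg_left (hB x) (norm_nonneg _)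

lemma nice_sum {ι : Type*} (F : Finset ι) {κ : ι → ℝ → ℂ} (h : ∀ i ∈ F, Nice (κ i)) :
    Nice (fun x => ∑ i ∈ F, κ i x) := by
  refine ⟨continuous_finsetSum _ fun i hi => (h i hi).cont,
    integrable_finsetSum _ fun i hi => (h i hi).int, ?_⟩
  choose! B hB using fun i (hi : i ∈ F) => (h i hi).bdd
  exact ⟨∑ i ∈ F, B i, fun x => (norm_sum_le _ _).trans (Finset.sum_le_sum fun i hi => hB i hi x)⟩

lemma kf_nice (F : Finset (ℤ × ℕ)) (e : ℤ × ℕ → ℂ) : Nice (kf F e) := by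
  unfold kf
  exact nice_sum F fun i _ => ((psi_nice (YY_pos i.1) i.2).const_mul _).const_mul _

lemma fourier_kf (he : ∀ i, ‖e i‖ ≤ 1) {ξ : ℝ} (hξ : ξ ≠ 0) :
    ‖𝓕 (kf F e) ξ‖ ≤ gam * (16 * Real.pi) := by
  have hpi := Real.pi_pos
  have h0 : 𝓕 (kf F e) ξ = ∑ i ∈ F, e i * ((dmp i.2 : ℂ) * 𝓕 (psi (YY i.1) i.2) ξ) := by
    simp only [Real.fourier_real_eq_integral_exp_smul]
    unfold kf
    simp only [smul_eq_mul, Finset.mul_sum]
    rw [integral_finsetSum]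
    · apply Finset.sum_congr rfl
      intro i _
      rw [← integral_const_mul, ← integral_const_mul]
      congr 1
      funext v
      ring
    · intro i _
      have h1 : Integrable (fun x => e i * ((dmp i.2 : ℂ) * psi (YY i.1) i.2 x)) :=
        ((psi_int (YY_pos i.1) i.2).const_mul _).const_mul _
      refine h1.bdd_mul (c := 1) ?_ (Eventually.of_forall fun v => ?_)
      · apply Continuous.aestronglyMeasurable; fun_prop
      · rw [Complex.norm_exp_ofReal_mul_I]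
  rw [h0]
  have h1 : ∀ i ∈ F, ‖e i * ((dmp i.2 : ℂ) * 𝓕 (psi (YY i.1) i.2) ξ)‖ ≤
      (2 * Real.pi) * (dmp i.2 * ((i.2 + 1 : ℝ) * (i.2 + 2)) *
        min ((2:ℝ) ^ i.1 * (8 * Real.pi * |ξ|)) (((2:ℝ) ^ i.1 * (8 * Real.pi * |ξ|))⁻¹)) := by
    intro i _
    have hY := YY_pos i.1
    have hd := dmp_pos i.2
    rw [norm_mul, norm_mul, Complex.norm_real, Real.norm_of_nonneg hd.le]
    have h2 := fourier_psi_le hY i.2 hξ
    have e1 : 2 * Real.pi * YY i.1 * |ξ| = (2:ℝ) ^ i.1 * (8 * Real.pi * |ξ|) := by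
      unfold YY; ring
    rw [e1] at h2
    calc ‖e i‖ * (dmp i.2 * ‖𝓕 (psi (YY i.1) i.2) ξ‖)
        ≤ 1 * (dmp i.2 * (2 * Real.pi * ((i.2 + 1 : ℝ) * (i.2 + 2)) *
        min ((2:ℝ) ^ i.1 * (8 * Real.pi * |ξ|)) (((2:ℝ) ^ i.1 * (8 * Real.pi * |ξ|))⁻¹))) := by
          apply mul_le_mul (he i) _ (by positivity) one_pos.le
          exact mul_le_mul_of_nonneg_left h2 hd.le
      _ = _ := by ring
  refine (norm_sum_le _ _).trans ((Finset.sum_le_sum h1).trans ?_)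
  rw [← Finset.mul_sum]
  have hξ0 : 0 < |ξ| := abs_pos.2 hξ
  have h4 := sum_prod_le (b := fun k => min ((2:ℝ) ^ k * (8 * Real.pi * |ξ|))
    (((2:ℝ) ^ k * (8 * Real.pi * |ξ|))⁻¹)) (fun k => by positivity)
    (sum_min_le _ (by positivity)) F
  calc (2 * Real.pi) * ∑ i ∈ F, dmp i.2 * ((i.2 + 1 : ℝ) * (i.2 + 2)) *
        min ((2:ℝ) ^ i.1 * (8 * Real.pi * |ξ|)) (((2:ℝ) ^ i.1 * (8 * Real.pi * |ξ|))⁻¹)
      ≤ (2 * Real.pi) * (gam * 8) := mul_le_mul_of_nonneg_left h4 (by positivity)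
    _ = _ := by ring

/-- the terms of the square function -/
noncomputable def tm (f : ℝ → ℂ) (i : ℤ × ℕ) (x : ℝ) : ℂ := (dmp i.2 : ℂ) * cv (psi (YY i.1) i.2) f x

end Pool.Agent.L5helper34.GL
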