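import Pool.Agent.L5helper34.GL.U5
import Pool.Agent.L5helper34.GL.Kf
import Pool.Agent.H433R3.Sep24

set_option autoImplicit false
set_option linter.unusedVariables false

/-! The operators with kernel `kf F e` are Calderon-Zygmund operators, uniformly. -/

namespace Pool.Agent.L5helper34.GL

open MeasureTheory Filter Topology
open Pool.Agent.H433R3.Sep Pool.Agent.H433R3.Ml
open scoped ENNReal NNReal FourierTransform

/-- the equivalence between `ℝ^1` and `ℝ` -/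
noncomputable abbrev eq1 : (Fin 1 → ℝ) ≃ᵐ ℝ := MeasurableEquiv.funUnique (Fin 1) ℝ

lemma eq1_mp : MeasurePreserving eq1 volume volume := volume_preserving_funUnique (Fin 1) ℝ

lemma eq1_apply (x : Fin 1 → ℝ) : eq1 x = x 0 := rfl

lemma eq1_symm (t : ℝ) : (eq1.symm t) 0 = t := by
  have : eq1 (eq1.symm t) = t := eq1.apply_symm_apply t
  exact this

lemma el_one (x : Fin 1 → ℝ) : el x = |x 0| := by
  unfold el
  simp [Real.sqrt_sq_eq_abs]

/-- the operator on `ℝ^1` -/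
noncomputable def tf (κ : ℝ → ℂ) (f : (Fin 1 → ℝ) → ℂ) (x : Fin 1 → ℝ) : ℂ :=
  cv κ (fun t => f (eq1.symm t)) (eq1 x)

lemma tf_eq (κ : ℝ → ℂ) (f : (Fin 1 → ℝ) → ℂ) (x : Fin 1 → ℝ) :
    tf κ f x = ∫ y, κ (x 0 - y 0) * f y := by
  unfold tf cv
  rw [← eq1_mp.integral_comp' (g := fun t => κ (eq1 x - t) * f (eq1.symm t))]
  congr 1
  funext y
  rw [eq1.symm_apply_apply]
  rfl

lemma memLp_tr {f : (Fin 1 → ℝ) → ℂ} (hf : MemLp f 2 volume) : MemLp (fun t => f (eq1.symm t)) 2 volume :=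
  hf.comp_measurePreserving eq1_mp.symm

lemma lint_tr (g : ℝ → ℝ≥0∞) : ∫⁻ x : Fin 1 → ℝ, g (eq1 x) = ∫⁻ t, g t :=
  eq1_mp.lintegral_comp_emb eq1.measurableEmbedding g

lemma sq_eLp {α : Type*} [MeasurableSpace α] (μ : Measure α) (g : α → ℂ) :
    eLpNorm g 2 μ ^ 2 = ∫⁻ x, ‖g x‖ₑ ^ 2 ∂μ := by
  rw [eLpNorm_eq_lintegral_rpow_enorm_toReal (by norm_num) (by norm_num)]
  rw [← ENNReal.rpow_natCast, ← ENNReal.rpow_mul]
  simp

lemma tf_bound {κ : ℝ → ℂ} (hκ : Nice κ) {A : ℝ≥0} (hA : ∀ᵐ ξ, ‖𝓕 κ ξ‖ ≤ A)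
    {f : (Fin 1 → ℝ) → ℂ} (hf : MemLp f 2 volume) :
    eLpNorm (tf κ f) 2 volume ≤ A * eLpNorm f 2 volume := by
  have h1 := cv_L2 hκ hA (memLp_tr hf)
  have h2 : ∫⁻ x, ‖tf κ f x‖ₑ ^ 2 = ∫⁻ t, ‖cv κ (fun t => f (eq1.symm t)) t‖ₑ ^ 2 :=
    lint_tr (fun t => ‖cv κ (fun t => f (eq1.symm t)) t‖ₑ ^ 2)
  have h3 : ∫⁻ x, ‖f x‖ₑ ^ 2 = ∫⁻ t, ‖f (eq1.symm t)‖ₑ ^ 2 := by
    rw [← lint_tr]
    simp only [eq1.symm_apply_apply]
  rw [← h2, ← h3, ← sq_eLp, ← sq_eLp, ← mul_pow] at h1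
  exact (ENNReal.pow_le_pow_left_iff (by norm_num)).1 h1

lemma tf_mem {κ : ℝ → ℂ} (hκ : Nice κ) {A : ℝ≥0} (hA : ∀ᵐ ξ, ‖𝓕 κ ξ‖ ≤ A)
    {f : (Fin 1 → ℝ) → ℂ} (hf : MemLp f 2 volume) : MemLp (tf κ f) 2 volume := by
  refine ⟨?_, lt_of_le_of_lt (tf_bound hκ hA hf) (ENNReal.mul_lt_top ENNReal.coe_lt_top hf.2)⟩
  have := cv_aesm hκ (memLp_tr hf).1
  exact this.comp_measurePreserving eq1_mp

lemma tf_clm {κ : ℝ → ℂ} (hκ : Nice κ) {A : ℝ≥0} (hA : ∀ᵐ ξ, ‖𝓕 κ ξ‖ ≤ A) :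
    ∃ T' : Lp ℂ 2 (volume : Measure (Fin 1 → ℝ)) →L[ℂ] Lp ℂ 2 (volume : Measure (Fin 1 → ℝ)),
      (∀ f (hf : MemLp f 2 volume), T' (hf.toLp f) =ᵐ[volume] tf κ f) ∧ ‖T'‖₊ ≤ A := by
  obtain ⟨T', hT'⟩ := exists_clm (𝕜 := ℂ) (d := 1) (T := tf κ) (fun f hf => tf_mem hκ hA hf)
    (by
      intro f g hf hg
      refine Eventually.of_forall fun x => ?_
      unfold tf cv
      simp only
      rw [← integral_add (hκ.intg (memLp_tr hf) _) (hκ.intg (memLp_tr hg) _)]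
      congr 1
      funext t
      ring)
    (by
      intro c f hf
      refine Eventually.of_forall fun x => ?_
      unfold tf cv
      simp only
      rw [← integral_const_mul]
      congr 1
      funext t
      ring)
    ⟨A, fun f hf => tf_bound hκ hA hf⟩
  refine ⟨T', hT', ?_⟩
  have : ‖T'‖ ≤ A := by
    apply ContinuousLinearMap.opNorm_le_bound _ A.coe_nonneg
    intro g
    have hg := Lp.memLp g
    have h1 := tf_bound hκ hA hg
    have h2 := hT' g hg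
    rw [Lp.toLp_coeFn] at h2
    rw [← eLpNorm_congr_ae h2, ← Lp.enorm_def, ← Lp.enorm_def] at h1
    have h3 : ((‖T' g‖₊ : ℝ≥0) : ℝ≥0∞) ≤ ((A * ‖g‖₊ : ℝ≥0) : ℝ≥0∞) := by
      rw [ENNReal.coe_mul]; exact h1
    exact_mod_cast h3
  exact_mod_cast this

/-- the constant for the `L²` norm -/
noncomputable def cTT : ℝ≥0 := (gam * (16 * Real.pi)).toNNReal

lemma kf_czu (F : Finset (ℤ × ℕ)) (e : ℤ × ℕ → ℂ) (he : ∀ i, ‖e i‖ ≤ 1) :
    ∃ T' : Lp ℂ 2 (volume : Measure (Fin 1 → ℝ)) →L[ℂ] Lp ℂ 2 (volume : Measure (Fin 1 → ℝ)),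
      CZU (d := 1) cTT (gam * 8) (gam * 128) 1 T' (fun x y => kf F e (x 0 - y 0)) ∧
      ∀ f (hf : MemLp f 2 volume), TT T' f =ᵐ[volume] tf (kf F e) f := by
  have hA : ∀ᵐ ξ : ℝ, ‖𝓕 (kf F e) ξ‖ ≤ cTT := by
    have h0 : ∀ᵐ ξ : ℝ, ξ ≠ 0 := by
      rw [ae_iff]; simp
    filter_upwards [h0] with ξ hξ
    have := fourier_kf (F := F) he hξ
    exact this.trans (Real.le_coe_toNNReal _)
  obtain ⟨T', hT', hn⟩ := tf_clm (kf_nice F e) hA
  have hsiz : ∀ x y : Fin 1 → ℝ, x ≠ y → ‖kf F e (x 0 - y 0)‖ ≤ (gam * 8) / el (x - y) ^ 1 := by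
    intro x y hxy
    rw [el_one, pow_one, Pi.sub_apply]
    apply kf_size he
    intro h
    apply hxy
    funext i
    rw [Fin.fin_one_eq_zero i]
    linarith
  have hrgl : ∀ x x' y : Fin 1 → ℝ, x ≠ y → el (x - x') ≤ el (x - y) / 2 →
      ‖kf F e (x 0 - y 0) - kf F e (x' 0 - y 0)‖ + ‖kf F e (y 0 - x 0) - kf F e (y 0 - x' 0)‖ ≤
        (gam * 128) * el (x - x') ^ (1:ℝ) / el (x - y) ^ (((1:ℕ) : ℝ) + 1) := by
    intro x x' y hxy h
    have hne : x 0 - y 0 ≠ 0 := by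
      intro h
      apply hxy
      funext i
      rw [Fin.fin_one_eq_zero i]
      linarith
    rw [el_one, el_one, Pi.sub_apply, Pi.sub_apply] at h
    rw [el_one, el_one, Pi.sub_apply, Pi.sub_apply, Real.rpow_one]
    have e2 : (((1:ℕ) : ℝ) + 1) = ((2:ℕ):ℝ) := by norm_num
    rw [e2, Real.rpow_natCast]
    have h1 := kf_sub (F := F) he (x := x 0 - y 0) (x' := x' 0 - y 0) hne (by
      have : x 0 - y 0 - (x' 0 - y 0) = x 0 - x' 0 := by ring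
      rw [this]; exact h)
    have h2 := kf_sub (F := F) he (x := y 0 - x 0) (x' := y 0 - x' 0) (by
      intro h; apply hne; linarith) (by
      have : y 0 - x 0 - (y 0 - x' 0) = -(x 0 - x' 0) := by ring
      rw [this, abs_neg, abs_sub_comm (y 0)]; exact h)
    have e3 : x 0 - y 0 - (x' 0 - y 0) = x 0 - x' 0 := by ring
    have e4 : y 0 - x 0 - (y 0 - x' 0) = -(x 0 - x' 0) := by ring
    rw [e3] at h1
    rw [e4, abs_neg, abs_sub_comm (y 0)] at h2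
    calc _ ≤ gam * 64 * |x 0 - x' 0| / |x 0 - y 0| ^ 2 + gam * 64 * |x 0 - x' 0| / |x 0 - y 0| ^ 2 :=
          add_le_add h1 h2
      _ = _ := by ring
  refine ⟨T', ⟨⟨?_, ⟨_, hsiz⟩, ⟨gam * 128, 1, one_pos, le_rfl, hrgl⟩⟩, hn, hsiz, hrgl⟩, ?_⟩
  · intro f hf _ _
    filter_upwards [hT' f hf] with x hx _
    rw [hx, tf_eq]
  · intro f hf
    rw [TT_eq hf]
    exact hT' f hf

/-- The hypotheses on the weight, on the line. -/
structure Wt (p q N : ℝ) (W : ℝ → ℝ) : Prop where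
  meas : Measurable W
  pos : ∀ x, 0 < W x
  intW : ∀ a b : ℝ, IntegrableOn W (Set.Ico a b)
  intS : ∀ a b : ℝ, IntegrableOn (fun x => W x ^ (1 - q)) (Set.Ico a b)
  ap : ∀ a l : ℝ, 0 < l → (l⁻¹ * ∫ x in Set.Ico a (a + l), W x) *
    (l⁻¹ * ∫ x in Set.Ico a (a + l), W x ^ (1 - q)) ^ (p - 1) ≤ N

lemma cube_one (c : Fin 1 → ℝ) (l : ℝ) : cube c l = eq1 ⁻¹' (Set.Ico (c 0) (c 0 + l)) := by
  ext x
  constructor
  · intro h; exact h 0
  · intro h i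
    rw [Fin.fin_one_eq_zero i]; exact h

lemma intOn_tr {V : ℝ → ℝ} {a l : ℝ} (h : IntegrableOn V (Set.Ico a (a + l))) (c : Fin 1 → ℝ) (hc : c 0 = a) :
    IntegrableOn (fun x => V (x 0)) (cube c l) := by
  rw [cube_one, hc]
  exact (eq1_mp.integrableOn_comp_preimage eq1.measurableEmbedding).2 h

lemma AV_tr (V : ℝ → ℝ) (c : Fin 1 → ℝ) {l : ℝ} (hl : 0 < l) :
    AV (fun x : Fin 1 → ℝ => V (x 0)) (cube c l) = l⁻¹ * ∫ x in Set.Ico (c 0) (c 0 + l), V x := by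
  unfold AV
  have h1 : volume (cube c l) = ENNReal.ofReal l := by
    rw [cube_one, eq1_mp.measure_preimage measurableSet_Ico.nullMeasurableSet, Real.volume_Ico]
    congr 1; ring
  have h2 : ∫ x in cube c l, V (x 0) = ∫ x in Set.Ico (c 0) (c 0 + l), V x := by
    rw [cube_one]
    exact eq1_mp.setIntegral_preimage_emb eq1.measurableEmbedding V _
  rw [h1, h2, ENNReal.toReal_ofReal hl.le]

/-- **Uniform weighted bound** for the convolutions with `kf F e`. -/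
theorem kf_weighted {p q N : ℝ} (hpq : p.HolderConjugate q) {W : ℝ → ℝ} (hW : Wt p q N W) :
    ∃ C : ℝ≥0, ∀ (F : Finset (ℤ × ℕ)) (e : ℤ × ℕ → ℂ), (∀ i, ‖e i‖ ≤ 1) →
      ∀ f : ℝ → ℂ, MemLp f 2 → ∫⁻ x, ‖f x‖ₑ ^ p * ENNReal.ofReal (W x) ≠ ∞ →
      ∫⁻ x, ‖cv (kf F e) f x‖ₑ ^ p * ENNReal.ofReal (W x) ≤
        C * ∫⁻ x, ‖f x‖ₑ ^ p * ENNReal.ofReal (W x) := by
  have hp := hpq.pos
  have hp1 : 1 < p := hpq.lt
  have hq1 : 1 < q := hpq.symm.lt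
  have hq := hpq.symm.pos
  obtain ⟨C, hC⟩ := czoGenU (𝕜 := ℂ) (d := 1) one_pos cTT (gam * 8) (gam * 128) 1 one_pos hpq
    (θ := 1) (η := 1) (by rw [div_lt_one hp]; exact hp1) (by rw [div_lt_one hq]; exact hq1)
  set w : (Fin 1 → ℝ) → ℝ := fun x => W (x 0) with hw
  have hN : 0 ≤ N := by
    refine le_trans ?_ (hW.ap 0 1 one_pos)
    have h1 : 0 ≤ ∫ x in Set.Ico (0:ℝ) (0 + 1), W x := setIntegral_nonneg measurableSet_Ico
      fun x _ => (hW.pos x).le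
    have h2 : 0 ≤ ∫ x in Set.Ico (0:ℝ) (0 + 1), W x ^ (1 - q) := setIntegral_nonneg measurableSet_Ico
      fun x _ => Real.rpow_nonneg (hW.pos x).le _
    positivity
  have hWD : WData q w := by
    refine ⟨hW.meas.comp (measurable_pi_apply 0), fun x => hW.pos _, ?_, ?_⟩
    · intro c l _
      exact intOn_tr (hW.intW _ _) c rfl
    · intro c l _
      exact intOn_tr (V := fun x => W x ^ (1 - q)) (hW.intS _ _) c rfl
  have hsg : sg q w = fun x : Fin 1 → ℝ => (fun t => W t ^ (1 - q)) (x 0) := rfl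
  have hS1 : OneSup p 1 N w (sg q w) := by
    intro c l hl
    rw [sub_self, Real.rpow_zero, mul_one, Real.rpow_one, hsg, AV_tr W c hl, AV_tr (fun t => W t ^ (1 - q)) c hl]
    exact hW.ap _ _ hl
  have hS2 : OneSup q 1 (N ^ (q - 1)) (sg q w) w := by
    intro c l hl
    rw [sub_self, Real.rpow_zero, mul_one, Real.rpow_one, hsg, AV_tr W c hl, AV_tr (fun t => W t ^ (1 - q)) c hl]
    have h0 := hW.ap (c 0) l hl
    have h1 : 0 ≤ ∫ x in Set.Ico (c 0) (c 0 + l), W x := setIntegral_nonneg measurableSet_Ico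
      fun x _ => (hW.pos x).le
    have h2 : 0 ≤ ∫ x in Set.Ico (c 0) (c 0 + l), W x ^ (1 - q) := setIntegral_nonneg measurableSet_Ico
      fun x _ => Real.rpow_nonneg (hW.pos x).le _
    have h3 := Real.rpow_le_rpow (by positivity) h0 (show 0 ≤ q - 1 by linarith)
    rw [Real.mul_rpow (by positivity) (by positivity), ← Real.rpow_mul (by positivity)] at h3
    have h4 : (p - 1) * (q - 1) = 1 := by
      have := hpq.mul_eq_add
      nlinarith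
    rw [h4, Real.rpow_one] at h3
    rw [mul_comm]
    exact h3
  refine ⟨C * ((N + N ^ (q - 1)) ^ p).toNNReal, ?_⟩
  intro F e he f hf hfin
  obtain ⟨T', hT', hTf⟩ := kf_czu F e he
  set g : (Fin 1 → ℝ) → ℂ := fun x => f (eq1 x) with hg
  have hg2 : MemLp g 2 volume := hf.comp_measurePreserving eq1_mp
  have hwd : ∀ G : ℝ → ℝ≥0∞, ∫⁻ x, G (eq1 x) ∂(WM w) = ∫⁻ x, G x * ENNReal.ofReal (W x) := by
    intro G
    unfold WM
    rw [lintegral_withDensity_eq_lintegral_mul_non_measurable _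
      (hWD.meas.ennreal_ofReal) (Eventually.of_forall fun x => ENNReal.ofReal_lt_top)]
    rw [← lint_tr]
    apply lintegral_congr
    intro x
    rw [Pi.mul_apply, mul_comm]
    rfl
  have e1 : ∫⁻ x, ‖g x‖ₑ ^ p ∂(WM w) = ∫⁻ x, ‖f x‖ₑ ^ p * ENNReal.ofReal (W x) :=
    hwd (fun t => ‖f t‖ₑ ^ p)
  have hac : WM w ≪ volume := withDensity_absolutelyContinuous _ _
  have e2 : ∫⁻ x, ‖TT T' g x‖ₑ ^ p ∂(WM w) = ∫⁻ x, ‖cv (kf F e) f x‖ₑ ^ p * ENNReal.ofReal (W x) := by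
    rw [← hwd (fun t => ‖cv (kf F e) f t‖ₑ ^ p)]
    apply lintegral_congr_ae
    filter_upwards [hac.ae_le (hTf g hg2)] with x hx
    rw [hx]
    unfold tf
    simp only [hg, eq1.apply_symm_apply]
  have key := (hC T' _ hT' w hWD N hN hS1 g hg2 (by rw [e1]; exact hfin)).2 (N ^ (q - 1))
    (Real.rpow_nonneg hN _) hS2
  rw [e1, e2] at key
  rw [ENNReal.coe_mul]
  exact key

end Pool.Agent.L5helper34.GL
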