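import Pool.Agent.L5helper34.GL.Ker

set_option autoImplicit false
set_option linter.unusedVariables false

/-! The Fourier transform of the kernels `psi Y n`. -/

namespace Pool.Agent.L5helper34.GL

open MeasureTheory Filter Topology
open scoped ENNReal NNReal FourierTransform

lemma intOn_pow_exp {r : ℂ} (hr : 0 < r.re) (m : ℕ) :
    IntegrableOn (fun t : ℝ => (t:ℂ) ^ m * Complex.exp (-r * t)) (Set.Ioi 0) := by
  have h := integrableOn_rpow_mul_exp_neg_mul_rpow (p := 1) (s := m) (b := r.re)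
    (by have : (0:ℝ) ≤ m := Nat.cast_nonneg m
        linarith) one_pos hr
  refine Integrable.mono' h ?_ ?_
  · apply Continuous.aestronglyMeasurable
    fun_prop
  · rw [ae_restrict_iff' measurableSet_Ioi]
    refine Eventually.of_forall (fun t ht => ?_)
    have ht0 : 0 < t := ht
    rw [norm_mul, norm_pow, Complex.norm_real, Real.norm_of_nonneg ht0.le, Complex.norm_exp,
      Real.rpow_one, Real.rpow_natCast]
    apply le_of_eq
    congr 2
    simp

lemma int_pow_exp {r : ℂ} (hr : 0 < r.re) (m : ℕ) :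
    ∫ t : ℝ in Set.Ioi 0, (t:ℂ) ^ m * Complex.exp (-r * t) = m.factorial / r ^ (m + 1) := by
  have hr0 : r ≠ 0 := by
    intro h; rw [h] at hr; simp at hr
  induction m with
  | zero =>
    have := integral_exp_mul_complex_Ioi (a := -r) (by simpa using hr) 0
    simp only [pow_zero, one_mul, Nat.factorial_zero, Nat.cast_one, zero_add, pow_one]
    rw [this]
    simp
  | succ m ih =>
    have hd : ∀ x ∈ Set.Ici (0:ℝ), HasDerivAt (fun t : ℝ => (t:ℂ) ^ (m + 1) * Complex.exp (-r * t))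
        ((m + 1) * ((x:ℂ) ^ m * Complex.exp (-r * x)) - r * ((x:ℂ) ^ (m + 1) * Complex.exp (-r * x))) x := by
      intro x _
      have h1 : HasDerivAt (fun z : ℂ => z ^ (m + 1) * Complex.exp (-r * z))
          ((m + 1) * ((x:ℂ) ^ m * Complex.exp (-r * x)) -
            r * ((x:ℂ) ^ (m + 1) * Complex.exp (-r * x))) (x:ℂ) := by
        have h2 := (hasDerivAt_pow (m + 1) (x:ℂ)).mul
          (((hasDerivAt_id (x:ℂ)).const_mul (-r)).cexp)
        refine h2.congr_deriv ?_
        push_cast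
        simp only [id, mul_one]
        ring
      exact h1.comp_ofReal
    have hi1 := (intOn_pow_exp hr m).const_mul ((m:ℂ) + 1)
    have hi2 := (intOn_pow_exp hr (m + 1)).const_mul r
    have ht : Tendsto (fun t : ℝ => (t:ℂ) ^ (m + 1) * Complex.exp (-r * t)) atTop (𝓝 0) := by
      rw [tendsto_zero_iff_norm_tendsto_zero]
      have := tendsto_rpow_mul_exp_neg_mul_atTop_nhds_zero ((m + 1 : ℕ) : ℝ) r.re hr
      refine this.congr' ?_
      filter_upwards [eventually_gt_atTop 0] with t ht0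
      rw [norm_mul, norm_pow, Complex.norm_real, Real.norm_of_nonneg ht0.le, Complex.norm_exp,
        Real.rpow_natCast]
      congr 2
      simp
    have key := integral_Ioi_of_hasDerivAt_of_tendsto' hd (hi1.sub hi2) ht
    have e0 : ∫ x : ℝ in Set.Ioi 0, ((m + 1) * ((x:ℂ) ^ m * Complex.exp (-r * x)) -
        r * ((x:ℂ) ^ (m + 1) * Complex.exp (-r * x))) =
        (m + 1) * (m.factorial / r ^ (m + 1)) -
          r * ∫ t : ℝ in Set.Ioi 0, (t:ℂ) ^ (m + 1) * Complex.exp (-r * t) := by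
      rw [integral_sub hi1 hi2, integral_const_mul, integral_const_mul, ih]
    rw [e0] at key
    have e1 : ((0:ℝ):ℂ) ^ (m + 1) * Complex.exp (-r * (0:ℝ)) = 0 := by simp
    rw [e1, sub_zero, sub_eq_zero] at key
    have e2 : ∫ t : ℝ in Set.Ioi 0, (t:ℂ) ^ (m + 1) * Complex.exp (-r * t) =
        r⁻¹ * ((m + 1) * (m.factorial / r ^ (m + 1))) := by
      rw [key, ← mul_assoc, inv_mul_cancel₀ hr0, one_mul]
    rw [e2, Nat.factorial_succ, pow_succ r (m + 1)]
    push_cast
    field_simp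

/-- the function whose Fourier transform is the kernel -/
noncomputable def gg (Y : ℝ) (n : ℕ) (t : ℝ) : ℂ :=
  (((max t 0) ^ (n + 1) : ℝ) : ℂ) * Complex.exp (((-(2 * Real.pi * Y * t) : ℝ)) : ℂ)

lemma gg_cont (Y : ℝ) (n : ℕ) : Continuous (gg Y n) := by
  unfold gg; fun_prop

lemma gg_norm (Y : ℝ) (n : ℕ) (t : ℝ) :
    ‖gg Y n t‖ = (max t 0) ^ (n + 1) * Real.exp (-(2 * Real.pi * Y * t)) := by
  unfold gg
  rw [norm_mul, Complex.norm_real, Complex.norm_exp, Complex.ofReal_re,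
    Real.norm_of_nonneg (by positivity)]

lemma gg_neg (Y : ℝ) (n : ℕ) {t : ℝ} (ht : t ≤ 0) : gg Y n t = 0 := by
  unfold gg; rw [max_eq_right ht]; simp

lemma gg_pos (Y : ℝ) (n : ℕ) {t : ℝ} (ht : 0 < t) :
    gg Y n t = (t:ℂ) ^ (n + 1) * Complex.exp (-((2 * Real.pi * Y : ℝ) : ℂ) * t) := by
  unfold gg; rw [max_eq_left ht.le]; push_cast; ring_nf

lemma gg_int {Y : ℝ} (hY : 0 < Y) (n : ℕ) : Integrable (gg Y n) := by
  have h1 : IntegrableOn (gg Y n) (Set.Ioi 0) := by
    refine (intOn_pow_exp (r := ((2 * Real.pi * Y : ℝ) : ℂ)) (by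
      rw [Complex.ofReal_re]; positivity) (n + 1)).congr_fun ?_ measurableSet_Ioi
    intro t ht
    exact (gg_pos Y n ht).symm
  have h2 : IntegrableOn (gg Y n) (Set.Iic 0) := by
    refine (integrableOn_zero : IntegrableOn (fun _ : ℝ => (0:ℂ)) (Set.Iic 0) volume).congr_fun ?_
      measurableSet_Iic
    intro t ht
    exact (gg_neg Y n ht).symm
  have := h2.union h1
  rwa [Set.Iic_union_Ioi, integrableOn_univ] at this

lemma gg_fourier {Y : ℝ} (hY : 0 < Y) (n : ℕ) (x : ℝ) :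
    𝓕 (gg Y n) x = (n + 1).factorial / (2 * Real.pi * ((Y:ℂ) + x * Complex.I)) ^ (n + 2) := by
  rw [Real.fourier_real_eq_integral_exp_smul]
  have h0 : ∀ t : ℝ, Complex.exp (((-2 * Real.pi * t * x : ℝ) : ℂ) * Complex.I) • gg Y n t =
      Set.indicator (Set.Ioi 0) (fun t : ℝ => (t:ℂ) ^ (n + 1) *
        Complex.exp (-(2 * Real.pi * ((Y:ℂ) + x * Complex.I)) * t)) t := by
    intro t
    by_cases ht : 0 < t
    · rw [Set.indicator_of_mem (show t ∈ Set.Ioi 0 from ht), gg_pos Y n ht, smul_eq_mul]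
      have : Complex.exp (-(2 * Real.pi * ((Y:ℂ) + x * Complex.I)) * t) =
          Complex.exp (((-2 * Real.pi * t * x : ℝ) : ℂ) * Complex.I) *
            Complex.exp (-((2 * Real.pi * Y : ℝ) : ℂ) * t) := by
        rw [← Complex.exp_add]; congr 1; push_cast; ring
      rw [this]; ring
    · rw [Set.indicator_of_notMem (show t ∉ Set.Ioi 0 from ht), gg_neg Y n (not_lt.1 ht), smul_zero]
  rw [integral_congr_ae (Eventually.of_forall h0), integral_indicator measurableSet_Ioi,
    int_pow_exp (r := 2 * Real.pi * ((Y:ℂ) + x * Complex.I))]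
  have : (2 * (Real.pi:ℂ) * ((Y:ℂ) + x * Complex.I)).re = 2 * Real.pi * Y := by
    simp
  rw [this]; positivity

/-- kernel as inverse Fourier transform -/
lemma psi_eq {Y : ℝ} (hY : 0 < Y) (n : ℕ) : ∃ c : ℂ,
    ‖c‖ = (n + 1 : ℝ) * Y ^ (n + 1) * (2 * Real.pi) ^ (n + 2) / (n + 1).factorial ∧
    psi Y n = fun x => c * 𝓕 (gg Y n) (-x) := by
  refine ⟨(((n + 1 : ℝ) * Y ^ (n + 1) * (2 * Real.pi) ^ (n + 2) / (n + 1).factorial : ℝ) : ℂ) *
    (-Complex.I) ^ (n + 2), ?_, ?_⟩
  · rw [norm_mul, norm_pow, norm_neg, Complex.norm_I, one_pow, mul_one, Complex.norm_real,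
      Real.norm_of_nonneg (by positivity)]
  · funext x
    rw [gg_fourier hY]
    have e1 : (2 * (Real.pi:ℂ) * ((Y:ℂ) + ((-x : ℝ):ℂ) * Complex.I)) = 2 * Real.pi * (-Complex.I * pt Y x) := by
      unfold pt
      have := Complex.I_mul_I
      push_cast
      linear_combination (2 * (Real.pi:ℂ) * (Y:ℂ)) * this
    rw [e1, mul_pow (2 * (Real.pi:ℂ)), mul_pow (-Complex.I)]
    unfold psi
    have h1 : ((n + 1).factorial : ℂ) ≠ 0 := by exact_mod_cast (n + 1).factorial_ne_zero
    have h2 : (-Complex.I) ^ (n + 2) ≠ 0 := pow_ne_zero _ (neg_ne_zero.2 Complex.I_ne_zero)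
    have h3 : (2 * (Real.pi:ℂ)) ^ (n + 2) ≠ 0 := by
      apply pow_ne_zero
      simp [Real.pi_ne_zero]
    have h4 : pt Y x ^ (n + 2) ≠ 0 := pow_ne_zero _ (pt_ne hY x)
    push_cast
    generalize (-Complex.I) ^ (n + 2) = A at *
    generalize (2 * (Real.pi:ℂ)) ^ (n + 2) = B at *
    generalize pt Y x ^ (n + 2) = D at *
    field_simp

lemma int_Y {Y : ℝ} (hY : 0 < Y) : Integrable (fun x : ℝ => Y / (x ^ 2 + Y ^ 2)) := by
  have h1 := (integrable_inv_one_add_sq).comp_div hY.ne'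
  have h2 := h1.const_mul (1 / Y)
  refine h2.congr (Eventually.of_forall (fun x => ?_))
  simp only
  have : (1 + (x / Y) ^ 2) = (x ^ 2 + Y ^ 2) / Y ^ 2 := by
    field_simp; ring
  rw [this, inv_div]
  field_simp

lemma psi_int {Y : ℝ} (hY : 0 < Y) (n : ℕ) : Integrable (psi Y n) := by
  refine Integrable.mono' ((int_Y hY).const_mul (n + 1 : ℝ)) (psi_cont hY n).aestronglyMeasurable
    (Eventually.of_forall (fun x => ?_))
  exact psi_le hY n x

lemma fourier_psi {Y : ℝ} (hY : 0 < Y) (n : ℕ) (ξ : ℝ) :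
    ‖𝓕 (psi Y n) ξ‖ = (n + 1 : ℝ) * Y ^ (n + 1) * (2 * Real.pi) ^ (n + 2) / (n + 1).factorial *
      ((max ξ 0) ^ (n + 1) * Real.exp (-(2 * Real.pi * Y * ξ))) := by
  obtain ⟨c, hc1, hc2⟩ := psi_eq hY n
  have hc0 : c ≠ 0 := by
    rw [← norm_pos_iff, hc1]
    have := (n + 1).factorial_pos
    positivity
  have hF : Integrable (𝓕 (gg Y n)) := by
    have h1 : (fun x => 𝓕 (gg Y n) (-x)) = fun x => c⁻¹ * psi Y n x := by
      funext x
      rw [hc2]
      simp only
      rw [← mul_assoc, inv_mul_cancel₀ hc0, one_mul]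
    have h2 : Integrable (fun x => 𝓕 (gg Y n) (-x)) := by
      rw [h1]; exact (psi_int hY n).const_mul _
    have h3 := h2.comp_neg
    simpa using h3
  have e1 : psi Y n = c • 𝓕⁻ (gg Y n) := by
    rw [hc2]
    funext x
    rw [Pi.smul_apply, Real.fourierInv_eq_fourier_neg, smul_eq_mul]
  have e2 : 𝓕 (psi Y n) = c • gg Y n := by
    rw [e1]
    have : 𝓕 (c • 𝓕⁻ (gg Y n)) = c • 𝓕 (𝓕⁻ (gg Y n)) := by
      funext w
      rw [Pi.smul_apply]
      simp only [Real.fourier_real_eq_integral_exp_smul]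
      rw [← integral_smul]
      congr 1
      funext v
      rw [Pi.smul_apply, smul_comm]
    rw [this, (gg_cont Y n).fourier_fourierInv_eq (gg_int hY n) hF]
  rw [e2, Pi.smul_apply, norm_smul, hc1, gg_norm]

/-- `s^m e^{-s} ≤ m!` for `s ≥ 0` -/
lemma pow_exp_le (m : ℕ) {s : ℝ} (hs : 0 ≤ s) : s ^ m * Real.exp (-s) ≤ m.factorial := by
  have h := Real.pow_div_factorial_le_exp s hs m
  have h1 : (0:ℝ) < m.factorial := by exact_mod_cast m.factorial_pos
  rw [div_le_iff₀ h1] at h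
  calc s ^ m * Real.exp (-s) ≤ (Real.exp s * m.factorial) * Real.exp (-s) :=
        mul_le_mul_of_nonneg_right h (Real.exp_nonneg _)
    _ = m.factorial * (Real.exp s * Real.exp (-s)) := by ring
    _ = m.factorial := by rw [← Real.exp_add]; simp

lemma fourier_psi_le {Y : ℝ} (hY : 0 < Y) (n : ℕ) {ξ : ℝ} (hξ : ξ ≠ 0) :
    ‖𝓕 (psi Y n) ξ‖ ≤ 2 * Real.pi * ((n + 1 : ℝ) * (n + 2)) *
      min (2 * Real.pi * Y * |ξ|) ((2 * Real.pi * Y * |ξ|)⁻¹) := by
  rw [fourier_psi hY]
  have hpi := Real.pi_pos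
  rcases lt_or_gt_of_ne hξ with h | h
  · rw [max_eq_right h.le, zero_pow (Nat.succ_ne_zero n), zero_mul, mul_zero]
    have : 0 < |ξ| := abs_pos.2 hξ
    positivity
  · rw [max_eq_left h.le, abs_of_pos h]
    set s := 2 * Real.pi * Y * ξ with hs
    have hs0 : 0 < s := by positivity
    have e1 : (n + 1 : ℝ) * Y ^ (n + 1) * (2 * Real.pi) ^ (n + 2) / (n + 1).factorial *
      (ξ ^ (n + 1) * Real.exp (-s)) = 2 * Real.pi * (n + 1) *
        (s ^ (n + 1) * Real.exp (-s) / (n + 1).factorial) := by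
      rw [hs]; ring
    rw [e1, mul_assoc (2 * Real.pi) ((n:ℝ)+1), mul_assoc (2 * Real.pi), mul_assoc ((n:ℝ)+1)]
    apply mul_le_mul_of_nonneg_left _ (by positivity)
    apply mul_le_mul_of_nonneg_left _ (by positivity)
    have hf : (0:ℝ) < (n + 1).factorial := by exact_mod_cast (n + 1).factorial_pos
    rw [mul_min_of_nonneg _ _ (by positivity), le_min_iff]
    constructor
    · rw [div_le_iff₀ hf]
      have h1 := pow_exp_le n hs0.le
      have h2 : ((n + 1).factorial : ℝ) = (n + 1) * n.factorial := by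
        rw [Nat.factorial_succ]; push_cast; ring
      have h3 : (0:ℝ) < n.factorial := by exact_mod_cast n.factorial_pos
      calc s ^ (n + 1) * Real.exp (-s) = s * (s ^ n * Real.exp (-s)) := by ring
        _ ≤ s * n.factorial := mul_le_mul_of_nonneg_left h1 hs0.le
        _ ≤ (n + 2) * s * (n + 1).factorial := by
            rw [h2]
            have h4 : (0:ℝ) ≤ n := Nat.cast_nonneg n
            have h5 : 0 < s * n.factorial := by positivity
            nlinarith [mul_nonneg h4 h5.le, mul_nonneg h4 (mul_nonneg h4 h5.le)]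
    · rw [div_le_iff₀ hf]
      have h1 := pow_exp_le (n + 2) hs0.le
      have h2 : ((n + 2).factorial : ℝ) = (n + 2) * (n + 1).factorial := by
        rw [Nat.factorial_succ]; push_cast; ring
      calc s ^ (n + 1) * Real.exp (-s) = s⁻¹ * (s ^ (n + 2) * Real.exp (-s)) := by
            rw [pow_succ s (n + 1)]; field_simp
        _ ≤ s⁻¹ * (n + 2).factorial := mul_le_mul_of_nonneg_left h1 (by positivity)
        _ = (n + 2) * s⁻¹ * (n + 1).factorial := by rw [h2]; ring

end Pool.Agent.L5helper34.GL
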