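import Pool.Agent.L5helper34.GL.Gr
import Pool.Agent.L5helper34.GL.Kf

set_option autoImplicit false
set_option linter.unusedVariables false

/-! The Taylor expansion of the holomorphic derivative, and the bound for the area integrals. -/

namespace Pool.Agent.L5helper34.GL

open MeasureTheory Filter Topology
open scoped ENNReal NNReal

lemma cc_hasSum {Y y : ℝ} (hY : 0 < Y) (hy : 0 < y) {x z : ℝ}
    (h : ‖((z - x : ℝ) : ℂ) + ((y - Y : ℝ) : ℂ) * Complex.I‖ ≤ 4 / 5 * Y) (t : ℝ) :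
    HasSum (fun n : ℕ => ((-(((z - x : ℝ) : ℂ) + ((y - Y : ℝ) : ℂ) * Complex.I) / Y) ^ n * (Y:ℂ)⁻¹) *
      psi Y n (x - t)) (cc (z - t) y) := by
  set d : ℂ := ((z - x : ℝ) : ℂ) + ((y - Y : ℝ) : ℂ) * Complex.I with hd
  set a : ℂ := pt Y (x - t) with ha
  have ha0 : a ≠ 0 := pt_ne hY _
  have haY : Y ≤ ‖a‖ := le_pt hY _
  have had : a + d = pt y (z - t) := by
    rw [ha, hd]; unfold pt; push_cast; ring
  have hr : ‖-d / a‖ < 1 := by
    rw [norm_div, norm_neg, div_lt_one (lt_of_lt_of_le hY haY)]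
    linarith
  have h1 := hasSum_choose_mul_geometric_of_norm_lt_one 1 hr
  have h2 := h1.mul_left (1 / a ^ 2)
  have hYC : (Y:ℂ) ≠ 0 := by exact_mod_cast hY.ne'
  have e1 : (1 / a ^ 2) * (1 / (1 - -d / a) ^ (1 + 1)) = cc (z - t) y := by
    unfold cc
    rw [← had]
    have h3 : (1 - -d / a) = (a + d) / a := by field_simp; ring
    have h4 : a + d ≠ 0 := by rw [had]; exact pt_ne hy _
    rw [h3]
    norm_num
    field_simp
  rw [e1] at h2
  refine h2.congr_fun (fun n => ?_)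
  unfold psi
  rw [← ha, Nat.choose_one_right, div_pow, div_pow]
  push_cast
  field_simp
  ring

variable {f : ℝ → ℂ}

lemma Adm.psi_int (hf : Adm f) {Y : ℝ} (hY : 0 < Y) (n : ℕ) (x : ℝ) :
    Integrable (fun t => psi Y n (x - t) * f t) ∧
      ∫ t, ‖psi Y n (x - t) * f t‖ ≤
        (n + 1 : ℝ) * ∫ t, Y * ((1 + 2 * x ^ 2) / Y ^ 2 + 2) * ((1 + t ^ 2)⁻¹ * ‖f t‖) := by
  have hle : ∀ t, ‖psi Y n (x - t) * f t‖ ≤ (n + 1 : ℝ) *
      (Y * ((1 + 2 * x ^ 2) / Y ^ 2 + 2) * ((1 + t ^ 2)⁻¹ * ‖f t‖)) := by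
    intro t
    rw [norm_mul]
    have h1 := psi_le hY n (x - t)
    have h2 := adm_bd hY x t
    have h3 : Y / ((x - t) ^ 2 + Y ^ 2) ≤ Y * (((1 + 2 * x ^ 2) / Y ^ 2 + 2) * (1 + t ^ 2)⁻¹) := by
      rw [div_eq_mul_inv]; exact mul_le_mul_of_nonneg_left h2 hY.le
    calc ‖psi Y n (x - t)‖ * ‖f t‖ ≤ ((n + 1 : ℝ) * (Y * (((1 + 2 * x ^ 2) / Y ^ 2 + 2) * (1 + t ^ 2)⁻¹))) * ‖f t‖ := by
          apply mul_le_mul_of_nonneg_right _ (norm_nonneg _)
          exact h1.trans (mul_le_mul_of_nonneg_left h3 (by positivity))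
      _ = _ := by ring
  have hb : Integrable (fun t => (n + 1 : ℝ) * (Y * ((1 + 2 * x ^ 2) / Y ^ 2 + 2) * ((1 + t ^ 2)⁻¹ * ‖f t‖))) :=
    (hf.int.const_mul _).const_mul _
  have hi : Integrable (fun t => psi Y n (x - t) * f t) := by
    refine Integrable.mono' hb ?_ (Eventually.of_forall hle)
    exact ((psi_cont hY n).comp (continuous_const.sub continuous_id)).aestronglyMeasurable.mul hf.meas
  refine ⟨hi, ?_⟩
  rw [← integral_const_mul]
  exact integral_mono hi.norm hb hle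

lemma GG_le (hf : Adm f) {Y y : ℝ} (hY : 0 < Y) (hy : 0 < y) {x z : ℝ}
    (h : ‖((z - x : ℝ) : ℂ) + ((y - Y : ℝ) : ℂ) * Complex.I‖ ≤ 4 / 5 * Y) :
    ‖GG f z y‖ₑ ≤ ENNReal.ofReal (1 / Y) * ∑' n : ℕ, ENNReal.ofReal ((4/5) ^ n) * ‖cv (psi Y n) f x‖ₑ := by
  set d : ℂ := ((z - x : ℝ) : ℂ) + ((y - Y : ℝ) : ℂ) * Complex.I with hd
  set F : ℕ → ℝ → ℂ := fun n t => ((-d / Y) ^ n * (Y:ℂ)⁻¹) * (psi Y n (x - t) * f t) with hF
  have hdY : ‖-d / Y‖ ≤ 4 / 5 := by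
    rw [norm_div, norm_neg, Complex.norm_real, Real.norm_of_nonneg hY.le, div_le_iff₀ hY]
    exact h
  have hcn : ∀ n, ‖(-d / Y) ^ n * (Y:ℂ)⁻¹‖ ≤ (4/5) ^ n * (1 / Y) := by
    intro n
    rw [norm_mul, norm_pow, norm_inv, Complex.norm_real, Real.norm_of_nonneg hY.le, one_div]
    exact mul_le_mul_of_nonneg_right (pow_le_pow_left₀ (norm_nonneg _) hdY n) (by positivity)
  have hFi : ∀ n, Integrable (F n) := fun n => (hf.psi_int hY n x).1.const_mul _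
  obtain ⟨M, hM⟩ : ∃ M : ℝ, M = ∫ t, Y * ((1 + 2 * x ^ 2) / Y ^ 2 + 2) * ((1 + t ^ 2)⁻¹ * ‖f t‖) := ⟨_, rfl⟩
  have hFs : Summable fun n => ∫ t, ‖F n t‖ := by
    have h0 := summable_pow_mul_geometric_of_norm_lt_one 0 (R := ℝ) (r := 4/5) (by norm_num)
    have h1 := summable_pow_mul_geometric_of_norm_lt_one 1 (R := ℝ) (r := 4/5) (by norm_num)
    have hs : Summable fun n : ℕ => (4/5 : ℝ) ^ n * (1 / Y) * ((n + 1 : ℝ) * M) := by
      refine ((h1.add h0).mul_left (1 / Y * M)).congr ?_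
      intro n; ring
    refine hs.of_nonneg_of_le (fun n => integral_nonneg fun t => norm_nonneg _) (fun n => ?_)
    have e1 : ∫ t, ‖F n t‖ = ‖(-d / Y) ^ n * (Y:ℂ)⁻¹‖ * ∫ t, ‖psi Y n (x - t) * f t‖ := by
      rw [← integral_const_mul]
      congr 1
      funext t
      rw [hF]
      simp only [norm_mul]
    rw [e1]
    apply mul_le_mul (hcn n) _ (integral_nonneg fun t => norm_nonneg _) (by positivity)
    rw [hM]
    exact (hf.psi_int hY n x).2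
  have hsum := hasSum_integral_of_summable_integral_norm hFi hFs
  have hT : (fun t => ∑' n, F n t) = fun t => cc (z - t) y * f t := by
    funext t
    have h2 := (cc_hasSum hY hy h t).mul_right (f t)
    have h3 : (fun n => F n t) = fun n => ((-d / Y) ^ n * (Y:ℂ)⁻¹) * psi Y n (x - t) * f t := by
      funext n; rw [hF]; ring
    rw [h3]
    exact h2.tsum_eq
  rw [hT] at hsum
  have e2 : ∀ n, ‖∫ t, F n t‖ₑ ≤ ENNReal.ofReal (1 / Y) * (ENNReal.ofReal ((4/5) ^ n) * ‖cv (psi Y n) f x‖ₑ) := by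
    intro n
    have : ∫ t, F n t = ((-d / Y) ^ n * (Y:ℂ)⁻¹) * cv (psi Y n) f x := by
      unfold cv
      rw [← integral_const_mul]
    rw [this, enorm_mul, ← mul_assoc, ← ENNReal.ofReal_mul (by positivity)]
    apply mul_le_mul' _ le_rfl
    rw [← ofReal_norm]
    apply ENNReal.ofReal_le_ofReal
    rw [mul_comm (1 / Y)]
    exact hcn n
  unfold GG
  rw [← hsum.tsum_eq]
  have e3 : ‖(1 / Real.pi) • ∑' n, ∫ t, F n t‖ₑ ≤ ‖∑' n, ∫ t, F n t‖ₑ := by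
    rw [enorm_smul]
    have h4 : ‖(1 / Real.pi : ℝ)‖ₑ ≤ 1 := by
      rw [← ofReal_norm, Real.norm_of_nonneg (by positivity)]
      apply ENNReal.ofReal_le_one.2
      rw [div_le_one Real.pi_pos]
      linarith [Real.pi_gt_three]
    calc _ ≤ 1 * ‖∑' n, ∫ t, F n t‖ₑ := mul_le_mul' h4 le_rfl
      _ = _ := one_mul _
  refine e3.trans ((enorm_tsum_le_tsum_enorm).trans ?_)
  rw [← ENNReal.tsum_mul_left]
  exact ENNReal.tsum_le_tsum e2

/-- Cauchy-Schwarz for sums -/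
lemma cs_tsum (a b : ℕ → ℝ≥0∞) : (∑' n, a n * b n) ^ 2 ≤ (∑' n, a n ^ 2) * ∑' n, b n ^ 2 := by
  have h1 : ∑' n, a n * b n ≤ ((∑' n, a n ^ 2) * ∑' n, b n ^ 2) ^ (1 / 2 : ℝ) := by
    rw [ENNReal.tsum_eq_iSup_sum]
    apply iSup_le
    intro s
    have h2 := ENNReal.inner_le_Lp_mul_Lq s a b (Real.HolderConjugate.two_two)
    refine h2.trans ?_
    rw [← ENNReal.mul_rpow_of_nonneg _ _ (by norm_num)]
    apply ENNReal.rpow_le_rpow _ (by norm_num)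
    simp only [ENNReal.rpow_two]
    exact mul_le_mul' (ENNReal.sum_le_tsum s) (ENNReal.sum_le_tsum s)
  calc (∑' n, a n * b n) ^ 2 ≤ (((∑' n, a n ^ 2) * ∑' n, b n ^ 2) ^ (1 / 2 : ℝ)) ^ 2 :=
        pow_le_pow_left' h1 2
    _ = _ := by
        rw [← ENNReal.rpow_two, ← ENNReal.rpow_mul]; norm_num

/-- the constant of the geometric sum -/
noncomputable def cG : ℝ≥0∞ := ∑' n : ℕ, ENNReal.ofReal ((8/9) ^ n) ^ 2

lemma cG_ne : cG ≠ ∞ := by
  unfold cG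
  have : ∀ n : ℕ, ENNReal.ofReal ((8/9 : ℝ) ^ n) ^ 2 = ENNReal.ofReal ((64/81) ^ n) := by
    intro n
    rw [← ENNReal.ofReal_pow (by positivity)]
    congr 1
    rw [← pow_mul, mul_comm, pow_mul]; norm_num
  simp only [this]
  rw [← ENNReal.ofReal_tsum_of_nonneg (fun n => by positivity)
    (summable_geometric_of_lt_one (by norm_num) (by norm_num))]
  exact ENNReal.ofReal_ne_top

lemma GG_sq_le (hf : Adm f) (k : ℤ) {y : ℝ} (hy : 0 < y) {x z : ℝ}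
    (h : ‖((z - x : ℝ) : ℂ) + ((y - YY k : ℝ) : ℂ) * Complex.I‖ ≤ 4 / 5 * YY k) :
    ‖GG f z y‖ₑ ^ 2 ≤ ENNReal.ofReal (1 / YY k) ^ 2 * (cG * ∑' n : ℕ, ‖tm f (k, n) x‖ₑ ^ 2) := by
  have h1 := GG_le hf (YY_pos k) hy h
  have h2 : ∀ n : ℕ, ENNReal.ofReal ((4/5) ^ n) * ‖cv (psi (YY k) n) f x‖ₑ =
      ENNReal.ofReal ((8/9) ^ n) * ‖tm f (k, n) x‖ₑ := by
    intro n
    unfold tm
    rw [enorm_mul, ← mul_assoc]
    congr 1
    rw [← ofReal_norm (dmp n : ℂ), Complex.norm_real, Real.norm_of_nonneg (dmp_pos n).le,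
      ← ENNReal.ofReal_mul (by positivity)]
    congr 1
    unfold dmp
    rw [← mul_pow]; norm_num
  simp only [h2] at h1
  calc ‖GG f z y‖ₑ ^ 2 ≤ (ENNReal.ofReal (1 / YY k) *
        ∑' n : ℕ, ENNReal.ofReal ((8/9) ^ n) * ‖tm f (k, n) x‖ₑ) ^ 2 := pow_le_pow_left' h1 2
    _ = ENNReal.ofReal (1 / YY k) ^ 2 * (∑' n : ℕ, ENNReal.ofReal ((8/9) ^ n) * ‖tm f (k, n) x‖ₑ) ^ 2 :=
        mul_pow _ _ _
    _ ≤ _ := mul_le_mul' le_rfl (cs_tsum _ _)

/-- the area integral over a Whitney box -/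
noncomputable def aW (f : ℝ → ℂ) (i : ℤ × ℤ) : ℝ≥0∞ :=
  ∫⁻ z in Set.Ico (i.2 * (2:ℝ) ^ i.1) ((i.2 + 1) * (2:ℝ) ^ i.1),
    ∫⁻ y in Set.Ico ((2:ℝ) ^ i.1) (2 * (2:ℝ) ^ i.1), ENNReal.ofReal (grSq f z y)

/-- the bound for the area integral -/
lemma aW_le (hf : Adm f) (i : ℤ × ℤ) {x : ℝ}
    (hx : x ∈ Set.Ico (i.2 * (2:ℝ) ^ i.1) ((i.2 + 1) * (2:ℝ) ^ i.1)) :
    aW f i ≤ cG * (∑' n : ℕ, ‖tm f (i.1, n) x‖ₑ ^ 2 +
      ∑' n : ℕ, ‖tm (fun t => (starRingEnd ℂ) (f t)) (i.1, n) x‖ₑ ^ 2) := by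
  obtain ⟨k, j⟩ := i
  simp only at hx ⊢
  have hk : (0:ℝ) < 2 ^ k := by positivity
  set S := cG * (∑' n : ℕ, ‖tm f (k, n) x‖ₑ ^ 2 +
      ∑' n : ℕ, ‖tm (fun t => (starRingEnd ℂ) (f t)) (k, n) x‖ₑ ^ 2) with hS
  have hpt : ∀ z ∈ Set.Ico ((j:ℝ) * (2:ℝ) ^ k) (((j:ℝ) + 1) * (2:ℝ) ^ k),
      ∀ y ∈ Set.Ico ((2:ℝ) ^ k) (2 * (2:ℝ) ^ k),
      ENNReal.ofReal (grSq f z y) ≤ ENNReal.ofReal (1 / YY k) ^ 2 * S := by
    intro z hz y hy
    have hy0 : 0 < y := lt_of_lt_of_le hk hy.1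
    have hd : ‖((z - x : ℝ) : ℂ) + ((y - YY k : ℝ) : ℂ) * Complex.I‖ ≤ 4 / 5 * YY k := by
      refine (abs_le_of_sq_le_sq' ?_ (by have := YY_pos k; positivity)).2
      rw [← Complex.normSq_eq_norm_sq, Complex.normSq_add_mul_I]
      have h1 : |z - x| ≤ 2 ^ k := by
        rw [abs_le]
        have h2 := hz.1; have h3 := hz.2; have h4 := hx.1; have h5 := hx.2
        constructor <;> linarith
      have h2 : |y - YY k| ≤ 3 * 2 ^ k := by
        unfold YY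
        rw [abs_le]
        have h2 := hy.1; have h3 := hy.2
        constructor <;> linarith
      have h3 : (z - x) ^ 2 ≤ (2 ^ k) ^ 2 := by
        rw [← sq_abs (z - x)]; exact pow_le_pow_left₀ (abs_nonneg _) h1 2
      have h4 : (y - YY k) ^ 2 ≤ (3 * 2 ^ k) ^ 2 := by
        rw [← sq_abs (y - YY k)]; exact pow_le_pow_left₀ (abs_nonneg _) h2 2
      unfold YY at h4 ⊢
      nlinarith [sq_nonneg ((2:ℝ) ^ k)]
    have h1 := GG_sq_le hf k hy0 hd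
    have h2 := GG_sq_le hf.conj k hy0 hd
    calc ENNReal.ofReal (grSq f z y)
        ≤ ENNReal.ofReal (‖GG f z y‖ ^ 2 + ‖GG (fun t => (starRingEnd ℂ) (f t)) z y‖ ^ 2) :=
          ENNReal.ofReal_le_ofReal (grSq_le hf hy0 z)
      _ = ‖GG f z y‖ₑ ^ 2 + ‖GG (fun t => (starRingEnd ℂ) (f t)) z y‖ₑ ^ 2 := by
          rw [ENNReal.ofReal_add (by positivity) (by positivity), ENNReal.ofReal_pow (norm_nonneg _),
            ENNReal.ofReal_pow (norm_nonneg _), ofReal_norm, ofReal_norm]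
      _ ≤ _ := by
          refine (add_le_add h1 h2).trans (le_of_eq ?_)
          rw [hS]; ring
  unfold aW
  calc ∫⁻ z in Set.Ico ((j:ℝ) * (2:ℝ) ^ k) (((j:ℝ) + 1) * (2:ℝ) ^ k),
        ∫⁻ y in Set.Ico ((2:ℝ) ^ k) (2 * (2:ℝ) ^ k), ENNReal.ofReal (grSq f z y)
      ≤ ∫⁻ z in Set.Ico ((j:ℝ) * (2:ℝ) ^ k) (((j:ℝ) + 1) * (2:ℝ) ^ k),
        ∫⁻ y in Set.Ico ((2:ℝ) ^ k) (2 * (2:ℝ) ^ k), ENNReal.ofReal (1 / YY k) ^ 2 * S := by
        apply setLIntegral_mono' measurableSet_Ico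
        intro z hz
        apply setLIntegral_mono' measurableSet_Ico
        intro y hy
        exact hpt z hz y hy
    _ = ENNReal.ofReal (1 / YY k) ^ 2 * S * ENNReal.ofReal (2 ^ k) * ENNReal.ofReal (2 ^ k) := by
        rw [setLIntegral_const, setLIntegral_const, Real.volume_Ico, Real.volume_Ico]
        congr 2
        · congr 1
          congr 1
          ring
        · ring
    _ = S * (ENNReal.ofReal (1 / YY k) ^ 2 * ENNReal.ofReal (2 ^ k) * ENNReal.ofReal (2 ^ k)) := by ring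
    _ ≤ S * 1 := by
        apply mul_le_mul' le_rfl
        rw [← ENNReal.ofReal_pow (by have := YY_pos k; positivity),
          ← ENNReal.ofReal_mul (by have := YY_pos k; positivity),
          ← ENNReal.ofReal_mul (by have := YY_pos k; positivity)]
        apply ENNReal.ofReal_le_one.2
        unfold YY
        have : (1 / (4 * (2:ℝ) ^ k)) ^ 2 * 2 ^ k * 2 ^ k = 1 / 16 := by
          field_simp
          norm_num
        rw [this]; norm_num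
    _ = S := mul_one S

end Pool.Agent.L5helper34.GL
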