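import Pool.Agent.L5helper34.GL.Sq
import Pool.Agent.L5helper34.GL.Ta
import Pool.Agent.L5helper34.GL.Aw

set_option autoImplicit false
set_option linter.unusedVariables false

/-! The weighted bound for the area function, general `f`. -/

namespace Pool.Agent.L5helper34.GL

open MeasureTheory Filter Topology Metric
open scoped ENNReal NNReal

lemma tm_congr {f g : ℝ → ℂ} (h : f =ᵐ[volume] g) (i : ℤ × ℕ) : tm f i = tm g i := by
  funext x
  unfold tm cv
  congr 1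
  apply integral_congr_ae
  filter_upwards [h] with t ht
  rw [ht]

/-- truncations -/
noncomputable def trn (g : ℝ → ℂ) (n : ℕ) : ℝ → ℂ :=
  ({x : ℝ | |x| ≤ (n:ℝ)} ∩ {x : ℝ | ‖g x‖ ≤ (n:ℝ)}).indicator g

lemma trn_meas {g : ℝ → ℂ} (hg : Measurable g) (n : ℕ) : Measurable (trn g n) := by
  apply hg.indicator
  exact (measurableSet_le (by fun_prop) measurable_const).inter
    (measurableSet_le hg.norm measurable_const)

lemma trn_le (g : ℝ → ℂ) (n : ℕ) (x : ℝ) : ‖trn g n x‖ ≤ ‖g x‖ := norm_indicator_le_norm_self _ _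

lemma trn_bdd (g : ℝ → ℂ) (n : ℕ) (x : ℝ) : ‖trn g n x‖ ≤ n := by
  unfold trn
  by_cases h : x ∈ ({x : ℝ | |x| ≤ (n:ℝ)} ∩ {x : ℝ | ‖g x‖ ≤ (n:ℝ)} : Set ℝ)
  · rw [Set.indicator_of_mem h]; exact h.2
  · rw [Set.indicator_of_notMem h, norm_zero]; exact Nat.cast_nonneg n

lemma trn_int {g : ℝ → ℂ} (hg : Measurable g) (n : ℕ) : Integrable (trn g n) := by
  have h1 : Integrable ((Set.Icc (-(n:ℝ)) n).indicator (fun _ => (n:ℝ))) := by
    rw [integrable_indicator_iff measurableSet_Icc]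
    exact integrableOn_const (by simp)
  refine Integrable.mono' h1 (trn_meas hg n).aestronglyMeasurable (Eventually.of_forall fun x => ?_)
  by_cases h : x ∈ Set.Icc (-(n:ℝ)) n
  · rw [Set.indicator_of_mem h]; exact trn_bdd g n x
  · rw [Set.indicator_of_notMem h]
    unfold trn
    rw [Set.indicator_of_notMem, norm_zero]
    intro h'
    exact h (abs_le.1 h'.1)

lemma trn_mem {g : ℝ → ℂ} (hg : Measurable g) (n : ℕ) : MemLp (trn g n) 2 :=
  memLp2_of_bdd (trn_int hg n) (trn_bdd g n)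

lemma trn_lim (g : ℝ → ℂ) (x : ℝ) : ∀ᶠ n : ℕ in atTop, trn g n x = g x := by
  obtain ⟨N, hN⟩ := exists_nat_ge (max |x| ‖g x‖)
  filter_upwards [eventually_ge_atTop N] with n hn
  have h : (max |x| ‖g x‖) ≤ n := hN.trans (by exact_mod_cast hn)
  unfold trn
  rw [Set.indicator_of_mem]
  exact ⟨(le_max_left _ _).trans h, (le_max_right _ _).trans h⟩

lemma tm_lim {g : ℝ → ℂ} (hg : Measurable g) (ha : Adm g) (i : ℤ × ℕ) (x : ℝ) :
    Tendsto (fun n => tm (trn g n) i x) atTop (𝓝 (tm g i x)) := by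
  unfold tm cv
  apply Tendsto.const_mul
  have hY := YY_pos i.1
  apply tendsto_integral_of_dominated_convergence (fun t => ‖psi (YY i.1) i.2 (x - t) * g t‖)
  · intro n
    exact ((psi_cont hY i.2).comp (continuous_const.sub continuous_id)).aestronglyMeasurable.mul
      (trn_meas hg n).aestronglyMeasurable
  · exact (ha.psi_int hY i.2 x).1.norm
  · intro n
    refine Eventually.of_forall fun t => ?_
    rw [norm_mul, norm_mul]
    exact mul_le_mul_of_nonneg_left (trn_le g n t) (norm_nonneg _)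
  · refine Eventually.of_forall fun t => ?_
    apply Tendsto.const_mul
    apply tendsto_const_nhds.congr'
    filter_upwards [trn_lim g t] with n hn
    exact hn.symm

variable {p q N : ℝ} {W : ℝ → ℝ}

theorem sq_gen (hpq : p.HolderConjugate q) (hW : Wt p q N W) :
    ∃ C : ℝ≥0, ∀ f : ℝ → ℂ, AEStronglyMeasurable f volume →
      ∫⁻ x, ‖f x‖ₑ ^ p * ENNReal.ofReal (W x) ≠ ∞ →
      ∫⁻ x, (∑' i, ‖tm f i x‖ₑ ^ 2) ^ (p / 2) * ENNReal.ofReal (W x) ≤
        C * ∫⁻ x, ‖f x‖ₑ ^ p * ENNReal.ofReal (W x) := by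
  obtain ⟨C, hC⟩ := sq_full hpq hW
  have hp := hpq.pos
  refine ⟨C, ?_⟩
  intro f hf hfin
  obtain ⟨g, hg, hfg⟩ := hf.aemeasurable
  have e0 : ∫⁻ x, ‖f x‖ₑ ^ p * ENNReal.ofReal (W x) = ∫⁻ x, ‖g x‖ₑ ^ p * ENNReal.ofReal (W x) := by
    apply lintegral_congr_ae
    filter_upwards [hfg] with x hx
    rw [hx]
  simp only [tm_congr hfg]
  rw [e0] at hfin ⊢
  have ha : Adm g := adm_of hpq hW hg.aestronglyMeasurable hfin
  have hle : ∀ n, ∫⁻ x, ‖trn g n x‖ₑ ^ p * ENNReal.ofReal (W x) ≤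
      ∫⁻ x, ‖g x‖ₑ ^ p * ENNReal.ofReal (W x) := by
    intro n
    apply lintegral_mono
    intro x
    apply mul_le_mul' _ le_rfl
    apply ENNReal.rpow_le_rpow _ hp.le
    rw [← ofReal_norm, ← ofReal_norm]
    exact ENNReal.ofReal_le_ofReal (trn_le g n x)
  -- convergence of the square functions: by Fatou for the counting measure
  have hF1 : ∀ x, ∑' i, ‖tm g i x‖ₑ ^ 2 ≤ liminf (fun n => ∑' i, ‖tm (trn g n) i x‖ₑ ^ 2) atTop := by
    intro x
    have h1 : ∑' i, ‖tm g i x‖ₑ ^ 2 = ∫⁻ i, liminf (fun n => ‖tm (trn g n) i x‖ₑ ^ 2) atTop ∂Measure.count := by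
      rw [lintegral_count]
      apply tsum_congr
      intro i
      have h2 : Tendsto (fun n => ‖tm (trn g n) i x‖ₑ ^ 2) atTop (𝓝 (‖tm g i x‖ₑ ^ 2)) :=
        ((ENNReal.continuous_pow 2).tendsto _).comp ((tm_lim hg ha i x).enorm)
      exact h2.liminf_eq.symm
    rw [h1]
    refine (lintegral_liminf_le fun n => measurable_of_countable _).trans (le_of_eq ?_)
    congr 1
    funext n
    rw [lintegral_count]
  have hF2 : ∀ x, (∑' i, ‖tm g i x‖ₑ ^ 2) ^ (p / 2) * ENNReal.ofReal (W x) ≤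
      liminf (fun n => (∑' i, ‖tm (trn g n) i x‖ₑ ^ 2) ^ (p / 2) * ENNReal.ofReal (W x)) atTop := by
    intro x
    set Φ : ℝ≥0∞ → ℝ≥0∞ := fun y => y ^ (p / 2) * ENNReal.ofReal (W x) with hΦ
    have hmono : Monotone Φ := fun a b hab =>
      mul_le_mul' (ENNReal.rpow_le_rpow hab (by positivity)) le_rfl
    have hcont : Continuous Φ := by
      rw [continuous_iff_continuousAt]
      intro y
      exact ENNReal.Tendsto.mul_const ((ENNReal.continuous_rpow_const).tendsto y) (Or.inr ENNReal.ofReal_ne_top)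
    have h3 := hmono.map_liminf_of_continuousAt (fun n => ∑' i, ‖tm (trn g n) i x‖ₑ ^ 2) (F := atTop)
      hcont.continuousAt
    calc Φ (∑' i, ‖tm g i x‖ₑ ^ 2) ≤ Φ (liminf (fun n => ∑' i, ‖tm (trn g n) i x‖ₑ ^ 2) atTop) :=
          hmono (hF1 x)
      _ = liminf (Φ ∘ fun n => ∑' i, ‖tm (trn g n) i x‖ₑ ^ 2) atTop := h3
      _ = _ := rfl
  have hm : ∀ n, AEMeasurable (fun x => (∑' i, ‖tm (trn g n) i x‖ₑ ^ 2) ^ (p / 2) * ENNReal.ofReal (W x))
      volume := by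
    intro n
    apply AEMeasurable.mul _ hW.meas.ennreal_ofReal.aemeasurable
    apply AEMeasurable.pow_const
    apply AEMeasurable.tsum
    intro i
    exact ((tm_aesm (trn_meas hg n).aestronglyMeasurable i).enorm).pow_const 2
  calc ∫⁻ x, (∑' i, ‖tm g i x‖ₑ ^ 2) ^ (p / 2) * ENNReal.ofReal (W x)
      ≤ ∫⁻ x, liminf (fun n => (∑' i, ‖tm (trn g n) i x‖ₑ ^ 2) ^ (p / 2) * ENNReal.ofReal (W x)) atTop :=
        lintegral_mono hF2
    _ ≤ liminf (fun n => ∫⁻ x, (∑' i, ‖tm (trn g n) i x‖ₑ ^ 2) ^ (p / 2) * ENNReal.ofReal (W x)) atTop :=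
        lintegral_liminf_le' hm
    _ ≤ liminf (fun _ : ℕ => C * ∫⁻ x, ‖g x‖ₑ ^ p * ENNReal.ofReal (W x)) atTop := by
        apply liminf_le_liminf (Eventually.of_forall fun n => ?_)
        refine (hC (trn g n) (trn_mem hg n) (ne_top_of_le_ne_top hfin (hle n))).trans ?_
        exact mul_le_mul' le_rfl (hle n)
    _ = _ := by simp

/-- the discrete area function -/
noncomputable def Af (f : ℝ → ℂ) (x : ℝ) : ℝ≥0∞ := ∑' i, (dI i).indicator (fun _ => aW f i) x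

lemma Af_le {f : ℝ → ℂ} (hf : Adm f) (x : ℝ) :
    Af f x ≤ cG * (∑' i, ‖tm f i x‖ₑ ^ 2 + ∑' i, ‖tm (fun t => (starRingEnd ℂ) (f t)) i x‖ₑ ^ 2) := by
  unfold Af
  rw [ENNReal.tsum_prod', ENNReal.tsum_prod', ENNReal.tsum_prod', ← ENNReal.tsum_add,
    ← ENNReal.tsum_mul_left]
  apply ENNReal.tsum_le_tsum
  intro k
  have hk : (0:ℝ) < 2 ^ k := by positivity
  have hsing : ∀ j : ℤ, x ∈ dI (k, j) → j = ⌊x / 2 ^ k⌋ := by
    intro j hj
    have h1 := hj.1; have h2 := hj.2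
    simp only at h1 h2
    symm
    rw [Int.floor_eq_iff]
    constructor
    · rw [le_div_iff₀ hk]; exact h1
    · rw [div_lt_iff₀ hk]; exact h2
  rw [tsum_eq_single ⌊x / 2 ^ k⌋]
  · by_cases h : x ∈ dI (k, ⌊x / 2 ^ k⌋)
    · rw [Set.indicator_of_mem h]
      exact aW_le hf (k, ⌊x / 2 ^ k⌋) h
    · rw [Set.indicator_of_notMem h]; exact bot_le
  · intro j hj
    rw [Set.indicator_of_notMem]
    intro h
    exact hj (hsing j h)

theorem area_bd (hpq : p.HolderConjugate q) (hp2 : p ≤ 2) (hW : Wt p q N W) :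
    ∃ C : ℝ≥0, ∀ f : ℝ → ℂ, AEStronglyMeasurable f volume →
      ∫⁻ x, ‖f x‖ₑ ^ p * ENNReal.ofReal (W x) ≠ ∞ →
      ∫⁻ x, Af f x ^ (p / 2) * ENNReal.ofReal (W x) ≤
        C * ∫⁻ x, ‖f x‖ₑ ^ p * ENNReal.ofReal (W x) := by
  obtain ⟨C, hC⟩ := sq_gen hpq hW
  have hp := hpq.pos
  refine ⟨(cG ^ (p / 2)).toNNReal * (2 * C), ?_⟩
  intro f hf hfin
  have ha : Adm f := adm_of hpq hW hf hfin
  set f' : ℝ → ℂ := fun t => (starRingEnd ℂ) (f t) with hf'
  have hf'm : AEStronglyMeasurable f' volume := ha.conj.meas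
  have e0 : ∫⁻ x, ‖f' x‖ₑ ^ p * ENNReal.ofReal (W x) = ∫⁻ x, ‖f x‖ₑ ^ p * ENNReal.ofReal (W x) := by
    apply lintegral_congr
    intro x
    rw [hf', ← ofReal_norm, ← ofReal_norm, RCLike.norm_conj]
  have h1 := hC f hf hfin
  have h2 := hC f' hf'm (by rw [e0]; exact hfin)
  rw [e0] at h2
  have hm : AEMeasurable (fun x => (∑' i, ‖tm f i x‖ₑ ^ 2) ^ (p / 2) * ENNReal.ofReal (W x)) volume := by
    apply AEMeasurable.mul _ hW.meas.ennreal_ofReal.aemeasurable
    apply AEMeasurable.pow_const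
    apply AEMeasurable.tsum
    intro i
    exact ((tm_aesm hf i).enorm).pow_const 2
  have hcG : (((cG ^ (p / 2)).toNNReal : ℝ≥0) : ℝ≥0∞) = cG ^ (p / 2) :=
    ENNReal.coe_toNNReal (ENNReal.rpow_ne_top_of_nonneg (by positivity) cG_ne)
  calc ∫⁻ x, Af f x ^ (p / 2) * ENNReal.ofReal (W x)
      ≤ ∫⁻ x, cG ^ (p / 2) * ((∑' i, ‖tm f i x‖ₑ ^ 2) ^ (p / 2) * ENNReal.ofReal (W x) +
          (∑' i, ‖tm f' i x‖ₑ ^ 2) ^ (p / 2) * ENNReal.ofReal (W x)) := by
        apply lintegral_mono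
        intro x
        show Af f x ^ (p / 2) * ENNReal.ofReal (W x) ≤ cG ^ (p / 2) *
          ((∑' i, ‖tm f i x‖ₑ ^ 2) ^ (p / 2) * ENNReal.ofReal (W x) +
          (∑' i, ‖tm f' i x‖ₑ ^ 2) ^ (p / 2) * ENNReal.ofReal (W x))
        rw [← add_mul, ← mul_assoc]
        apply mul_le_mul' _ le_rfl
        refine (ENNReal.rpow_le_rpow (Af_le ha x) (by positivity)).trans ?_
        rw [ENNReal.mul_rpow_of_nonneg _ _ (by positivity)]
        apply mul_le_mul' le_rfl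
        exact ENNReal.rpow_add_le_add_rpow _ _ (by positivity) (by linarith)
    _ = cG ^ (p / 2) * ((∫⁻ x, (∑' i, ‖tm f i x‖ₑ ^ 2) ^ (p / 2) * ENNReal.ofReal (W x)) +
          ∫⁻ x, (∑' i, ‖tm f' i x‖ₑ ^ 2) ^ (p / 2) * ENNReal.ofReal (W x)) := by
        rw [lintegral_const_mul' _ _ (ENNReal.rpow_ne_top_of_nonneg (by positivity) cG_ne),
          lintegral_add_left' hm]
    _ ≤ cG ^ (p / 2) * ((C * ∫⁻ x, ‖f x‖ₑ ^ p * ENNReal.ofReal (W x)) +
          C * ∫⁻ x, ‖f x‖ₑ ^ p * ENNReal.ofReal (W x)) := mul_le_mul' le_rfl (add_le_add h1 h2)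
    _ = _ := by
        rw [ENNReal.coe_mul, hcG, ENNReal.coe_mul]
        push_cast
        ring

/-- the area integrals are finite -/
lemma aW_ne {f : ℝ → ℂ} (hf : Adm f) (i : ℤ × ℤ) : aW f i ≠ ∞ := by
  obtain ⟨k, j⟩ := i
  have hk : (0:ℝ) < 2 ^ k := by positivity
  set Z : ℝ := (|(j:ℝ)| + 1) * 2 ^ k with hZ
  set B : ℝ := (1 + 2 * Z ^ 2) / (2 ^ k) ^ 2 + 2 with hB
  have hB0 : 0 ≤ B := by positivity
  have hG : ∀ g : ℝ → ℂ, Adm g → ∀ z y : ℝ, |z| ≤ Z → 2 ^ k ≤ y →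
      ‖GG g z y‖ ≤ B * ∫ t, (1 + t ^ 2)⁻¹ * ‖g t‖ := by
    intro g hg z y hz hy
    have hy0 : 0 < y := lt_of_lt_of_le hk hy
    unfold GG
    rw [norm_smul]
    have h1 : ‖(1 / Real.pi : ℝ)‖ ≤ 1 := by
      rw [Real.norm_of_nonneg (by positivity), div_le_one Real.pi_pos]
      linarith [Real.pi_gt_three]
    have h2 : ‖∫ t, cc (z - t) y * g t‖ ≤ ∫ t, B * ((1 + t ^ 2)⁻¹ * ‖g t‖) := by
      refine (norm_integral_le_integral_norm _).trans ?_
      apply integral_mono_of_nonneg (Eventually.of_forall fun t => norm_nonneg _) (hg.int.const_mul B)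
      refine Eventually.of_forall fun t => ?_
      show ‖cc (z - t) y * g t‖ ≤ B * ((1 + t ^ 2)⁻¹ * ‖g t‖)
      rw [norm_mul, ← mul_assoc]
      apply mul_le_mul_of_nonneg_right _ (norm_nonneg _)
      refine le_trans (le_of_eq ?_) (adm_bd2 hk hy hz t)
      unfold cc
      rw [norm_div, norm_one, norm_pow, pt_normSq, one_div]
    calc _ ≤ 1 * ∫ t, B * ((1 + t ^ 2)⁻¹ * ‖g t‖) :=
          mul_le_mul h1 h2 (norm_nonneg _) one_pos.le
      _ = _ := by rw [one_mul, integral_const_mul]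
  set M : ℝ := B * ∫ t, (1 + t ^ 2)⁻¹ * ‖f t‖ with hM
  have hM' : B * ∫ t, (1 + t ^ 2)⁻¹ * ‖(starRingEnd ℂ) (f t)‖ = M := by
    rw [hM]; simp only [RCLike.norm_conj]
  have hbound : aW f (k, j) ≤ ENNReal.ofReal (M ^ 2 + M ^ 2) * ENNReal.ofReal (2 ^ k) * ENNReal.ofReal (2 ^ k) := by
    unfold aW
    calc _ ≤ ∫⁻ z in Set.Ico ((j:ℝ) * (2:ℝ) ^ k) (((j:ℝ) + 1) * (2:ℝ) ^ k),
        ∫⁻ y in Set.Ico ((2:ℝ) ^ k) (2 * (2:ℝ) ^ k), ENNReal.ofReal (M ^ 2 + M ^ 2) := by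
          apply setLIntegral_mono' measurableSet_Ico
          intro z hz
          apply setLIntegral_mono' measurableSet_Ico
          intro y hy
          have hy0 : 0 < y := lt_of_lt_of_le hk hy.1
          have hz' : |z| ≤ Z := by
            rw [hZ, abs_le]
            have h1 := hz.1; have h2 := hz.2
            have h3 := neg_abs_le (j:ℝ); have h4 := le_abs_self (j:ℝ)
            constructor <;> nlinarith
          apply ENNReal.ofReal_le_ofReal
          refine (grSq_le hf hy0 z).trans (add_le_add ?_ ?_)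
          · exact pow_le_pow_left₀ (norm_nonneg _) (hG f hf z y hz' hy.1) 2
          · have := hG _ hf.conj z y hz' hy.1
            rw [hM'] at this
            exact pow_le_pow_left₀ (norm_nonneg _) this 2
      _ = _ := by
          rw [setLIntegral_const, setLIntegral_const, Real.volume_Ico, Real.volume_Ico]
          congr 2
          · congr 1
            ring
          · ring
  exact ne_top_of_le_ne_top (ENNReal.mul_ne_top (ENNReal.mul_ne_top ENNReal.ofReal_ne_top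
    ENNReal.ofReal_ne_top) ENNReal.ofReal_ne_top) hbound

end Pool.Agent.L5helper34.GL
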