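import Pool.Agent.L5helper34.GL.Gf

set_option autoImplicit false
set_option linter.unusedVariables false

/-! The weighted inequality for `g_λ^*`. -/

namespace Pool.Agent.L5helper34.GL

open MeasureTheory Filter Topology Metric
open scoped ENNReal NNReal

/-- The function `g_λ^*`. -/
noncomputable def gst (lam : ℝ) (f : ℝ → ℂ) (x : ℝ) : ℝ≥0∞ :=
  (∫⁻ z : ℝ, ∫⁻ y in Set.Ioi (0:ℝ), ENNReal.ofReal ((y / (|x - z| + y)) ^ lam * grSq f z y)) ^ (1 / 2 : ℝ)

/-- the constants -/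
noncomputable def cw (lam : ℝ) (m : ℕ) : ℝ := (8:ℝ) ^ lam * ((2:ℝ) ^ (-lam)) ^ m

lemma cw_nonneg (lam : ℝ) (m : ℕ) : 0 ≤ cw lam m := by unfold cw; positivity

lemma wgt {lam : ℝ} (hl : 0 < lam) (x : ℝ) (i : ℤ × ℤ) : ∃ m : ℕ, x ∈ dJ m i ∧ ∀ z ∈ dI i,
    ∀ y ∈ Set.Ico ((2:ℝ) ^ i.1) (2 * (2:ℝ) ^ i.1), (y / (|x - z| + y)) ^ lam ≤ cw lam m := by
  classical
  have hk : (0:ℝ) < 2 ^ i.1 := by positivity
  have hex : ∃ m : ℕ, x ∈ dJ m i := by
    obtain ⟨m, hm⟩ := pow_unbounded_of_one_lt (|x - dc i| / 2 ^ i.1) (by norm_num : (1:ℝ) < 2)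
    refine ⟨m, ?_⟩
    unfold dJ
    rw [mem_closedBall, Real.dist_eq]
    rw [div_lt_iff₀ hk] at hm
    exact hm.le
  refine ⟨Nat.find hex, Nat.find_spec hex, ?_⟩
  intro z hz y hy
  have hy0 : 0 < y := lt_of_lt_of_le hk hy.1
  have hratio : 0 ≤ y / (|x - z| + y) := by positivity
  have e8 : cw lam (Nat.find hex) = (8 / 2 ^ (Nat.find hex)) ^ lam := by
    unfold cw
    rw [Real.div_rpow (by norm_num) (by positivity), div_eq_mul_inv]
    congr 1
    rw [← Real.rpow_natCast, ← Real.rpow_mul (by norm_num), ← Real.rpow_natCast 2,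
      ← Real.rpow_mul (by norm_num), ← Real.rpow_neg (by norm_num)]
    congr 1
    ring
  rw [e8]
  apply Real.rpow_le_rpow hratio _ hl.le
  set m := Nat.find hex with hm
  rcases Nat.eq_zero_or_pos m with h0 | h0
  · rw [h0, pow_zero, div_one, div_le_iff₀ (by positivity)]
    have := abs_nonneg (x - z)
    nlinarith
  · have hn := Nat.find_min hex (show m - 1 < Nat.find hex by omega)
    unfold dJ at hn
    rw [mem_closedBall, Real.dist_eq, not_le] at hn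
    have h2 : (2:ℝ) ^ m = 2 ^ (m - 1) * 2 := by
      rw [← pow_succ]; congr 1; omega
    have h3 : (1:ℝ) ≤ 2 ^ (m - 1) := one_le_pow₀ (by norm_num)
    have hzc : |z - dc i| ≤ 2 ^ i.1 / 2 := by
      have h4 := hz.1; have h5 := hz.2
      rw [abs_le]
      unfold dc
      constructor <;> nlinarith
    have hxz : 2 ^ (m - 1) * 2 ^ i.1 / 2 ≤ |x - z| := by
      have h6 : |x - dc i| ≤ |x - z| + |z - dc i| := abs_sub_le _ _ _
      nlinarith
    rw [div_le_div_iff₀ (by positivity) (by positivity), h2]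
    have h7 := hy.2
    have h8 : 0 < (2:ℝ) ^ (m - 1) := by positivity
    calc y * (2 ^ (m - 1) * 2) ≤ (2 * 2 ^ i.1) * (2 ^ (m - 1) * 2) :=
          mul_le_mul_of_nonneg_right h7.le (by positivity)
      _ = 8 * (2 ^ (m - 1) * 2 ^ i.1 / 2) := by ring
      _ ≤ 8 * (|x - z| + y) := by linarith

lemma union_y : (⋃ k : ℤ, Set.Ico ((2:ℝ) ^ k) (2 * (2:ℝ) ^ k)) = Set.Ioi (0:ℝ) := by
  ext y
  simp only [Set.mem_iUnion, Set.mem_Ioi]
  constructor
  · rintro ⟨k, hk⟩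
    exact lt_of_lt_of_le (by positivity) hk.1
  · intro hy
    obtain ⟨k, hk⟩ := exists_mem_Ico_zpow hy (by norm_num : (1:ℝ) < 2)
    refine ⟨k, hk.1, ?_⟩
    have := hk.2
    rw [zpow_add₀ (by norm_num), zpow_one] at this
    linarith

lemma disj_y : Pairwise (Function.onFun Disjoint fun k : ℤ => Set.Ico ((2:ℝ) ^ k) (2 * (2:ℝ) ^ k)) := by
  intro a b hab
  rw [Function.onFun, Set.disjoint_left]
  intro y h1 h2
  apply hab
  have e : ∀ k : ℤ, 2 * (2:ℝ) ^ k = 2 ^ (k + 1) := by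
    intro k; rw [zpow_add₀ (by norm_num), zpow_one]; ring
  have h3 := lt_of_le_of_lt h1.1 h2.2
  have h4 := lt_of_le_of_lt h2.1 h1.2
  rw [e] at h3 h4
  have h5 := (zpow_lt_zpow_iff_right₀ (by norm_num : (1:ℝ) < 2)).1 h3
  have h6 := (zpow_lt_zpow_iff_right₀ (by norm_num : (1:ℝ) < 2)).1 h4
  omega

lemma union_z (k : ℤ) : (⋃ j : ℤ, dI (k, j)) = Set.univ := by
  apply Set.eq_univ_of_forall
  intro x
  have hk : (0:ℝ) < 2 ^ k := by positivity
  refine Set.mem_iUnion.2 ⟨⌊x / 2 ^ k⌋, ?_, ?_⟩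
  · have := Int.floor_le (x / 2 ^ k)
    rwa [le_div_iff₀ hk] at this
  · have := Int.lt_floor_add_one (x / 2 ^ k)
    rwa [div_lt_iff₀ hk] at this

lemma disj_z (k : ℤ) : Pairwise (Function.onFun Disjoint fun j : ℤ => dI (k, j)) := by
  intro a b hab
  rw [Function.onFun, Set.disjoint_left]
  intro y h1 h2
  apply hab
  have hk : (0:ℝ) < 2 ^ k := by positivity
  have h3 := lt_of_le_of_lt h1.1 h2.2
  have h4 := lt_of_le_of_lt h2.1 h1.2
  simp only at h3 h4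
  have h5 := lt_of_mul_lt_mul_right h3 hk.le
  have h6 := lt_of_mul_lt_mul_right h4 hk.le
  have h7 : a < b + 1 := by exact_mod_cast h5
  have h8 : b < a + 1 := by exact_mod_cast h6
  omega

/-- the explicit gradient -/
noncomputable def gx (f : ℝ → ℂ) (z y : ℝ) : ℝ :=
  ‖(1 / Real.pi) • ∫ t : ℝ, pz (z - t) y • f t‖ ^ 2 + ‖(1 / Real.pi) • ∫ t : ℝ, py (z - t) y • f t‖ ^ 2

lemma gx_meas {g : ℝ → ℂ} (hg : Measurable g) : Measurable (fun w : ℝ × ℝ => gx g w.1 w.2) := by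
  unfold gx
  have h1 : StronglyMeasurable (fun w : ℝ × ℝ => ∫ t : ℝ, pz (w.1 - t) w.2 • g t) := by
    apply StronglyMeasurable.integral_prod_right'
      (f := fun v : (ℝ × ℝ) × ℝ => pz (v.1.1 - v.2) v.1.2 • g v.2)
    apply Measurable.stronglyMeasurable
    have hm : Measurable (fun v : (ℝ × ℝ) × ℝ => pz (v.1.1 - v.2) v.1.2) := by
      unfold pz; fun_prop
    exact hm.smul (hg.comp measurable_snd)
  have h2 : StronglyMeasurable (fun w : ℝ × ℝ => ∫ t : ℝ, py (w.1 - t) w.2 • g t) := by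
    apply StronglyMeasurable.integral_prod_right'
      (f := fun v : (ℝ × ℝ) × ℝ => py (v.1.1 - v.2) v.1.2 • g v.2)
    apply Measurable.stronglyMeasurable
    have hm : Measurable (fun v : (ℝ × ℝ) × ℝ => py (v.1.1 - v.2) v.1.2) := by
      unfold py; fun_prop
    exact hm.smul (hg.comp measurable_snd)
  have h3 : Measurable (fun w : ℝ × ℝ => (1 / Real.pi) • ∫ t : ℝ, pz (w.1 - t) w.2 • g t) :=
    h1.measurable.const_smul (1 / Real.pi)
  have h4 : Measurable (fun w : ℝ × ℝ => (1 / Real.pi) • ∫ t : ℝ, py (w.1 - t) w.2 • g t) :=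
    h2.measurable.const_smul (1 / Real.pi)
  exact (h3.norm.pow_const 2).add (h4.norm.pow_const 2)

/-- pointwise bound for `g_λ^*` by the area functions of all apertures -/
lemma gst_le {lam : ℝ} (hl : 0 < lam) {f : ℝ → ℂ} (ha : Adm f) (x : ℝ) :
    ∫⁻ z : ℝ, ∫⁻ y in Set.Ioi (0:ℝ), ENNReal.ofReal ((y / (|x - z| + y)) ^ lam * grSq f z y) ≤
      ∑' m : ℕ, ENNReal.ofReal (cw lam m) * AT (dJ m) (fun i => (aW f i).toNNReal) x := by
  obtain ⟨g, hg, hfg⟩ := ha.meas.aemeasurable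
  have hgx : ∀ z y : ℝ, 0 < y → grSq f z y = gx g z y := by
    intro z y hy
    rw [ha.grSq_eq hy z]
    unfold gx
    have e1 : ∀ φ : ℝ → ℝ, ∫ t : ℝ, φ t • f t = ∫ t : ℝ, φ t • g t := by
      intro φ
      apply integral_congr_ae
      filter_upwards [hfg] with t ht
      rw [ht]
    rw [e1 (fun t => pz (z - t) y), e1 (fun t => py (z - t) y)]
  set Φ : ℝ → ℝ → ℝ≥0∞ := fun z y => ENNReal.ofReal ((y / (|x - z| + y)) ^ lam * gx g z y) with hΦ
  have hΦm : Measurable (fun w : ℝ × ℝ => Φ w.1 w.2) := by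
    rw [hΦ]
    apply Measurable.ennreal_ofReal
    apply Measurable.mul _ (gx_meas hg)
    apply Measurable.pow_const
    fun_prop
  have e0 : ∫⁻ z : ℝ, ∫⁻ y in Set.Ioi (0:ℝ), ENNReal.ofReal ((y / (|x - z| + y)) ^ lam * grSq f z y) =
      ∫⁻ z : ℝ, ∫⁻ y in Set.Ioi (0:ℝ), Φ z y := by
    apply lintegral_congr
    intro z
    apply setLIntegral_congr_fun measurableSet_Ioi
    intro y hy
    simp only [hΦ]
    rw [hgx z y hy]
  rw [e0]
  have e1 : ∫⁻ z : ℝ, ∫⁻ y in Set.Ioi (0:ℝ), Φ z y = ∑' k : ℤ, ∑' j : ℤ,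
      ∫⁻ z in dI (k, j), ∫⁻ y in Set.Ico ((2:ℝ) ^ k) (2 * (2:ℝ) ^ k), Φ z y := by
    have h1 : ∀ z, ∫⁻ y in Set.Ioi (0:ℝ), Φ z y =
        ∑' k : ℤ, ∫⁻ y in Set.Ico ((2:ℝ) ^ k) (2 * (2:ℝ) ^ k), Φ z y := by
      intro z
      rw [← union_y, lintegral_iUnion (fun k => measurableSet_Ico) disj_y]
    simp only [h1]
    rw [lintegral_tsum]
    · apply tsum_congr
      intro k
      rw [← setLIntegral_univ, ← union_z k, lintegral_iUnion (fun j => dI_meas (k, j)) (disj_z k)]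
    · intro k
      exact (hΦm.lintegral_prod_right').aemeasurable
  rw [e1, ← ENNReal.tsum_prod (f := fun k j => ∫⁻ z in dI (k, j),
    ∫⁻ y in Set.Ico ((2:ℝ) ^ k) (2 * (2:ℝ) ^ k), Φ z y)]
  have h2 : ∀ i : ℤ × ℤ, ∫⁻ z in dI (i.1, i.2), ∫⁻ y in Set.Ico ((2:ℝ) ^ i.1) (2 * (2:ℝ) ^ i.1), Φ z y ≤
      ∑' m : ℕ, ENNReal.ofReal (cw lam m) *
        (dJ m i).indicator (fun _ => (((aW f i).toNNReal : ℝ≥0) : ℝ≥0∞)) x := by
    intro i
    obtain ⟨m, hm1, hm2⟩ := wgt hl x i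
    refine le_trans ?_ (ENNReal.le_tsum m)
    rw [Set.indicator_of_mem hm1, ENNReal.coe_toNNReal (aW_ne ha i)]
    unfold aW
    rw [← lintegral_const_mul' _ _ ENNReal.ofReal_ne_top]
    apply setLIntegral_mono' (dI_meas i)
    intro z hz
    rw [← lintegral_const_mul' _ _ ENNReal.ofReal_ne_top]
    apply setLIntegral_mono' measurableSet_Ico
    intro y hy
    have hy0 : 0 < y := lt_of_lt_of_le (by positivity) hy.1
    rw [← ENNReal.ofReal_mul (cw_nonneg lam m), hgx z y hy0]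
    apply ENNReal.ofReal_le_ofReal
    apply mul_le_mul_of_nonneg_right (hm2 z hz y hy)
    unfold gx
    positivity
  refine (ENNReal.tsum_le_tsum h2).trans (le_of_eq ?_)
  rw [ENNReal.tsum_comm]
  apply tsum_congr
  intro m
  unfold AT
  rw [ENNReal.tsum_mul_left]

/-- `(∑ b)^s ≤ ∑ b^s` -/
lemma tsum_rpow_le {ι : Type*} (b : ι → ℝ≥0∞) {s : ℝ} (hs0 : 0 < s) (hs1 : s ≤ 1) :
    (∑' i, b i) ^ s ≤ ∑' i, b i ^ s := by
  have hfin : ∀ F : Finset ι, (∑ i ∈ F, b i) ^ s ≤ ∑ i ∈ F, b i ^ s := by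
    intro F
    induction F using Finset.cons_induction with
    | empty => simp [ENNReal.zero_rpow_of_pos hs0]
    | cons a F ha ih =>
      rw [Finset.sum_cons, Finset.sum_cons]
      exact (ENNReal.rpow_add_le_add_rpow _ _ hs0.le hs1).trans (add_le_add le_rfl ih)
  have h1 : ∑' i, b i ≤ (∑' i, b i ^ s) ^ (s⁻¹) := by
    rw [ENNReal.tsum_eq_iSup_sum]
    apply iSup_le
    intro F
    rw [ENNReal.le_rpow_inv_iff hs0]
    exact (hfin F).trans (ENNReal.sum_le_tsum F)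
  exact (ENNReal.le_rpow_inv_iff hs0).1 h1

lemma lint_mU {W : ℝ → ℝ} (hW : Measurable W) (G : ℝ → ℝ≥0∞) :
    ∫⁻ x, G x ∂(mU W) = ∫⁻ x, G x * ENNReal.ofReal (W x) := by
  unfold mU
  rw [lintegral_withDensity_eq_lintegral_mul_non_measurable _ hW.ennreal_ofReal
    (Eventually.of_forall fun x => ENNReal.ofReal_lt_top)]
  apply lintegral_congr
  intro x
  rw [Pi.mul_apply, mul_comm]

theorem main_W {p q N lam : ℝ} {W : ℝ → ℝ} (hpq : p.HolderConjugate q) (hp2 : p < 2) (hlam : 0 < lam)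
    (hW : Wt p q N W) (hB : BrC (lam * p / 2) W) :
    ∃ C : ℝ≥0, ∀ f : ℝ → ℂ, AEStronglyMeasurable f volume →
      ∫⁻ x, ‖f x‖ₑ ^ p * ENNReal.ofReal (W x) ≠ ∞ →
      ∫⁻ x, gst lam f x ^ p * ENNReal.ofReal (W x) ≤
        C * ∫⁻ x, ‖f x‖ₑ ^ p * ENNReal.ofReal (W x) := by
  have hp := hpq.pos
  obtain ⟨C₁, hC₁⟩ := area_bd hpq hp2.le hW
  have hfin : ∀ c ρ, mU W (closedBall c ρ) ≠ ∞ := by
    intro c ρ
    rw [mU_apply _ isClosed_closedBall.measurableSet]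
    have h1 : IntegrableOn W (closedBall c ρ) := by
      rw [Real.closedBall_eq_Icc]
      exact (hW.intW (c - ρ) (c + ρ + 1)).mono_set (fun x hx => ⟨hx.1, by linarith [hx.2]⟩)
    have h2 := h1.2
    rw [hasFiniteIntegral_iff_ofReal (Eventually.of_forall fun x => (hW.pos x).le)] at h2
    exact h2.ne
  obtain ⟨C₀, β, hC₀, hβ, hβr, hD⟩ := br_dbl (by positivity) (fun x => (hW.pos x).le) hfin hB
  set s : ℝ := p / 2 with hs
  have hs0 : 0 < s := by positivity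
  have hs1 : s < 1 := by rw [hs]; linarith
  have : SFinite (mU W) := by unfold mU; infer_instance
  set K : ℝ≥0∞ := 2 * C₀ ^ 2 * β ^ 5 * ENNReal.ofReal (1 / (1 - s)) with hK
  have hKfin : K ≠ ∞ := by
    rw [hK]
    apply ENNReal.mul_ne_top _ ENNReal.ofReal_ne_top
    exact ENNReal.mul_ne_top (ENNReal.mul_ne_top (by norm_num) (ENNReal.pow_ne_top ENNReal.coe_ne_top))
      (ENNReal.pow_ne_top ENNReal.coe_ne_top)
  set ρ : ℝ≥0∞ := ENNReal.ofReal ((2:ℝ) ^ (-(lam * s))) * β with hρ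
  have hρ1 : ρ < 1 := by
    rw [hρ, ← ENNReal.ofReal_coe_nnreal, ← ENNReal.ofReal_mul (by positivity), ← ENNReal.ofReal_one]
    apply (ENNReal.ofReal_lt_ofReal_iff one_pos).2
    have e1 : lam * p / 2 = lam * s := by rw [hs]; ring
    rw [e1] at hβr
    have h2 : 0 < (2:ℝ) ^ (-(lam * s)) := by positivity
    calc (2:ℝ) ^ (-(lam * s)) * β < (2:ℝ) ^ (-(lam * s)) * 2 ^ (lam * s) := mul_lt_mul_of_pos_left hβr h2
      _ = 1 := by rw [← Real.rpow_add (by norm_num)]; simp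
  set D : ℝ≥0∞ := ENNReal.ofReal (8 ^ (lam * s)) * K * (1 - ρ)⁻¹ * C₁ with hDd
  have hDfin : D ≠ ∞ := by
    rw [hDd]
    refine ENNReal.mul_ne_top (ENNReal.mul_ne_top (ENNReal.mul_ne_top ENNReal.ofReal_ne_top hKfin) ?_)
      ENNReal.coe_ne_top
    rw [Ne, ENNReal.inv_eq_top]
    exact (tsub_pos_of_lt hρ1).ne'
  refine ⟨D.toNNReal, ?_⟩
  intro f hf hff
  have ha : Adm f := adm_of hpq hW hf hff
  rw [ENNReal.coe_toNNReal hDfin]
  have hcw : ∀ m, ENNReal.ofReal (cw lam m) ^ s = ENNReal.ofReal (8 ^ (lam * s)) *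
      ENNReal.ofReal ((2:ℝ) ^ (-(lam * s))) ^ m := by
    intro m
    rw [ENNReal.ofReal_rpow_of_nonneg (cw_nonneg lam m) hs0.le, ← ENNReal.ofReal_pow (by positivity),
      ← ENNReal.ofReal_mul (by positivity)]
    congr 1
    unfold cw
    rw [Real.mul_rpow (by positivity) (by positivity), ← Real.rpow_mul (by norm_num)]
    congr 1
    rw [← Real.rpow_natCast ((2:ℝ) ^ (-lam)) m, ← Real.rpow_mul (by norm_num : (0:ℝ) ≤ 2),
      ← Real.rpow_mul (by norm_num : (0:ℝ) ≤ 2), ← Real.rpow_natCast ((2:ℝ) ^ (-(lam * s))) m,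
      ← Real.rpow_mul (by norm_num : (0:ℝ) ≤ 2)]
    congr 1
    ring
  set aw : ℤ × ℤ → ℝ≥0 := fun i => (aW f i).toNNReal with haw
  have hpt : ∀ x, gst lam f x ^ p ≤ ∑' m : ℕ, ENNReal.ofReal (cw lam m) ^ s * AT (dJ m) aw x ^ s := by
    intro x
    unfold gst
    rw [← ENNReal.rpow_mul]
    have e1 : 1 / 2 * p = s := by rw [hs]; ring
    rw [e1]
    refine (ENNReal.rpow_le_rpow (gst_le hlam ha x) hs0.le).trans ?_
    refine (tsum_rpow_le _ hs0 hs1.le).trans (le_of_eq ?_)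
    apply tsum_congr
    intro m
    rw [ENNReal.mul_rpow_of_nonneg _ _ hs0.le]
  have hATm : ∀ m, Measurable (AT (dJ m) aw) := by
    intro m
    unfold AT
    apply Measurable.tsum
    intro i
    exact measurable_const.indicator (dJ_meas m i)
  have hAf : ∀ x, AT dI aw x = Af f x := by
    intro x
    unfold AT Af
    apply tsum_congr
    intro i
    rw [haw]
    simp only
    rw [ENNReal.coe_toNNReal (aW_ne ha i)]
  have hlast : ∫⁻ x, AT dI aw x ^ s ∂(mU W) ≤ C₁ * ∫⁻ x, ‖f x‖ₑ ^ p * ENNReal.ofReal (W x) := by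
    rw [lint_mU hW.meas]
    simp only [hAf]
    exact hC₁ f hf hff
  rw [← lint_mU hW.meas (fun x => gst lam f x ^ p)]
  calc ∫⁻ x, gst lam f x ^ p ∂(mU W)
      ≤ ∫⁻ x, ∑' m : ℕ, ENNReal.ofReal (cw lam m) ^ s * AT (dJ m) aw x ^ s ∂(mU W) := lintegral_mono hpt
    _ = ∑' m : ℕ, ENNReal.ofReal (cw lam m) ^ s * ∫⁻ x, AT (dJ m) aw x ^ s ∂(mU W) := by
        rw [lintegral_tsum (fun m => (((hATm m).pow_const s).const_mul _).aemeasurable)]
        apply tsum_congr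
        intro m
        rw [lintegral_const_mul _ ((hATm m).pow_const s)]
    _ ≤ ∑' m : ℕ, (ENNReal.ofReal (8 ^ (lam * s)) * K * ∫⁻ x, AT dI aw x ^ s ∂(mU W)) * ρ ^ m := by
        apply ENNReal.tsum_le_tsum
        intro m
        refine (mul_le_mul' le_rfl (aper hC₀ hβ hD hfin hs0 hs1 aw m)).trans (le_of_eq ?_)
        rw [hcw, hK, hρ, mul_pow, pow_add (β : ℝ≥0∞) m 5]
        ring
    _ = (ENNReal.ofReal (8 ^ (lam * s)) * K * ∫⁻ x, AT dI aw x ^ s ∂(mU W)) * (1 - ρ)⁻¹ := by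
        rw [ENNReal.tsum_mul_left, ENNReal.tsum_geometric]
    _ ≤ (ENNReal.ofReal (8 ^ (lam * s)) * K * (C₁ * ∫⁻ x, ‖f x‖ₑ ^ p * ENNReal.ofReal (W x))) * (1 - ρ)⁻¹ :=
        mul_le_mul' (mul_le_mul' le_rfl hlast) le_rfl
    _ = _ := by rw [hDd]; ring

/-- **The weighted inequality for `g_λ^*`.** -/
theorem main_U {p lam : ℝ} {U : ℝ → ℝ} (hp1 : 1 < p) (hp2 : p < 2) (hlam : 0 < lam)
    (hU0 : ∀ x, 0 ≤ U x) (hU : LocallyIntegrable U volume) (hA : ApC p U) (hB : BrC (lam * p / 2) U) :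
    ∃ C : ℝ≥0, ∀ f : ℝ → ℂ, AEStronglyMeasurable f volume →
      ∫⁻ x, ‖f x‖ₑ ^ p * ENNReal.ofReal (U x) ≠ ∞ →
      ∫⁻ x, gst lam f x ^ p * ENNReal.ofReal (U x) ≤
        C * ∫⁻ x, ‖f x‖ₑ ^ p * ENNReal.ofReal (U x) := by
  by_cases hne : U =ᵐ[volume] fun _ => 0
  · refine ⟨0, fun f _ _ => ?_⟩
    have : ∫⁻ x, gst lam f x ^ p * ENNReal.ofReal (U x) = ∫⁻ x : ℝ, 0 := by
      apply lintegral_congr_ae
      filter_upwards [hne] with x hx
      rw [hx]; simp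
    rw [this]; simp
  · have hpq : p.HolderConjugate p.conjExponent := Real.HolderConjugate.conjExponent hp1
    obtain ⟨N, W, hW, hUW⟩ := exists_wt hpq hU hU0 hA hne
    have hcongr : ∀ G : ℝ → ℝ≥0∞, ∫⁻ x, G x * ENNReal.ofReal (U x) = ∫⁻ x, G x * ENNReal.ofReal (W x) := by
      intro G
      apply lintegral_congr_ae
      filter_upwards [hUW] with x hx
      rw [hx]
    have hBW : BrC (lam * p / 2) W := by
      obtain ⟨C, hC⟩ := hB
      refine ⟨C, fun a b hab => ?_⟩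
      have h1 := hC a b hab
      have e1 : ∫⁻ x, ENNReal.ofReal ((b - a) ^ (lam * p / 2 - 1) * U x /
          ((b - a) ^ (lam * p / 2) + |x - (a + b) / 2| ^ (lam * p / 2))) =
          ∫⁻ x, ENNReal.ofReal ((b - a) ^ (lam * p / 2 - 1) * W x /
          ((b - a) ^ (lam * p / 2) + |x - (a + b) / 2| ^ (lam * p / 2))) := by
        apply lintegral_congr_ae
        filter_upwards [hUW] with x hx
        rw [hx]
      have e2 : ∫⁻ x in Set.Icc a b, ENNReal.ofReal (U x) = ∫⁻ x in Set.Icc a b, ENNReal.ofReal (W x) := by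
        apply lintegral_congr_ae
        filter_upwards [ae_restrict_of_ae hUW] with x hx
        rw [hx]
      rw [e1, e2] at h1
      exact h1
    obtain ⟨C, hC⟩ := main_W hpq hp2 hlam hW hBW
    refine ⟨C, fun f hf hff => ?_⟩
    rw [hcongr] at hff ⊢
    rw [hcongr]
    exact hC f hf hff

end Pool.Agent.L5helper34.GL
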