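import Mathlib

set_option autoImplicit false
set_option linter.unusedVariables false

/-! The kernels `psi Y n x = (n+1) Y^(n+1) / (x + iY)^(n+2)`: size and regularity. -/

namespace Pool.Agent.L5helper34.GL

open MeasureTheory Filter Topology
open scoped ENNReal NNReal

/-- geometric sums over the integers -/
lemma sum_half_le (S : Finset ℤ) (k₀ : ℤ) : ∑ k ∈ S, ((1:ℝ)/2) ^ (k - k₀).natAbs ≤ 4 := by
  classical
  have hg : ∀ T : Finset ℕ, ∑ n ∈ T, ((1:ℝ)/2) ^ n ≤ 2 := by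
    intro T
    have := summable_geometric_two.sum_le_tsum T (fun i _ => by positivity)
    rwa [tsum_geometric_two] at this
  rw [← Finset.sum_filter_add_sum_filter_not S (fun k => k₀ ≤ k)]
  have h1 : ∑ k ∈ S.filter (fun k => k₀ ≤ k), ((1:ℝ)/2) ^ (k - k₀).natAbs ≤ 2 := by
    have := hg ((S.filter (fun k => k₀ ≤ k)).image (fun k => (k - k₀).natAbs))
    rwa [Finset.sum_image] at this
    intro a ha b hb hab
    simp only [Finset.coe_filter, Set.mem_ofPred_eq] at ha hb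
    have hab' : (a - k₀).natAbs = (b - k₀).natAbs := hab
    omega
  have h2 : ∑ k ∈ S.filter (fun k => ¬ k₀ ≤ k), ((1:ℝ)/2) ^ (k - k₀).natAbs ≤ 2 := by
    have := hg ((S.filter (fun k => ¬ k₀ ≤ k)).image (fun k => (k - k₀).natAbs))
    rwa [Finset.sum_image] at this
    intro a ha b hb hab
    simp only [Finset.coe_filter, Set.mem_ofPred_eq] at ha hb
    have hab' : (a - k₀).natAbs = (b - k₀).natAbs := hab
    omega
  linarith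

lemma sum_min_le (c : ℝ) (hc : 0 < c) (S : Finset ℤ) :
    ∑ k ∈ S, min ((2:ℝ) ^ k * c) (((2:ℝ) ^ k * c)⁻¹) ≤ 8 := by
  obtain ⟨k₀, h1, h2⟩ := exists_mem_Ico_zpow (inv_pos.2 hc) (by norm_num : (1:ℝ) < 2)
  have key : ∀ k ∈ S, min ((2:ℝ) ^ k * c) (((2:ℝ) ^ k * c)⁻¹) ≤
      2 * ((1:ℝ)/2) ^ (k - k₀).natAbs := by
    intro k _
    have hk0 : (0:ℝ) < 2 ^ k := by positivity
    rcases le_total k k₀ with hk | hk
    · refine (min_le_left _ _).trans ?_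
      have e1 : c ≤ ((2:ℝ) ^ k₀)⁻¹ := by
        rw [le_inv_comm₀ hc (by positivity)]; exact h1
      have e2 : ((1:ℝ)/2) ^ (k - k₀).natAbs = (2:ℝ) ^ k * ((2:ℝ) ^ k₀)⁻¹ := by
        have : ((k - k₀).natAbs : ℤ) = k₀ - k := by omega
        rw [one_div, inv_pow, ← zpow_natCast, this, ← zpow_neg, ← zpow_neg, ← zpow_add₀ (by norm_num)]
        congr 1; ring
      rw [e2]
      have e3 : (2:ℝ) ^ k * c ≤ (2:ℝ) ^ k * ((2:ℝ) ^ k₀)⁻¹ := mul_le_mul_of_nonneg_left e1 hk0.le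
      have e4 : 0 ≤ (2:ℝ) ^ k * ((2:ℝ) ^ k₀)⁻¹ := by positivity
      linarith
    · refine (min_le_right _ _).trans ?_
      have e1 : c⁻¹ ≤ (2:ℝ) ^ (k₀ + 1) := h2.le
      have e2 : ((1:ℝ)/2) ^ (k - k₀).natAbs = ((2:ℝ) ^ k)⁻¹ * ((2:ℝ) ^ k₀) := by
        have : ((k - k₀).natAbs : ℤ) = k - k₀ := by omega
        rw [one_div, inv_pow, ← zpow_natCast, this, ← zpow_neg, ← zpow_neg, ← zpow_add₀ (by norm_num)]
        congr 1; ring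
      rw [e2, mul_inv]
      rw [zpow_add₀ (by norm_num), zpow_one] at e1
      have e3 : ((2:ℝ) ^ k)⁻¹ * c⁻¹ ≤ ((2:ℝ) ^ k)⁻¹ * ((2:ℝ) ^ k₀ * 2) :=
        mul_le_mul_of_nonneg_left e1 (by positivity)
      linarith
  calc ∑ k ∈ S, min ((2:ℝ) ^ k * c) (((2:ℝ) ^ k * c)⁻¹)
      ≤ ∑ k ∈ S, 2 * ((1:ℝ)/2) ^ (k - k₀).natAbs := Finset.sum_le_sum key
    _ = 2 * ∑ k ∈ S, ((1:ℝ)/2) ^ (k - k₀).natAbs := by rw [Finset.mul_sum]
    _ ≤ 8 := by have := sum_half_le S k₀; linarith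

/-- the point `x + iY` -/
noncomputable def pt (Y x : ℝ) : ℂ := (x : ℂ) + (Y : ℂ) * Complex.I

lemma pt_re (Y x : ℝ) : (pt Y x).re = x := by simp [pt]
lemma pt_im (Y x : ℝ) : (pt Y x).im = Y := by simp [pt]

lemma pt_normSq (Y x : ℝ) : ‖pt Y x‖ ^ 2 = x ^ 2 + Y ^ 2 := by
  rw [← Complex.normSq_eq_norm_sq, Complex.normSq_apply, pt_re, pt_im]; ring

lemma le_pt {Y : ℝ} (hY : 0 < Y) (x : ℝ) : Y ≤ ‖pt Y x‖ := by
  have := Complex.abs_im_le_norm (pt Y x)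
  rw [pt_im, abs_of_pos hY] at this
  exact this

lemma abs_le_pt (Y x : ℝ) : |x| ≤ ‖pt Y x‖ := by
  have := Complex.abs_re_le_norm (pt Y x)
  rwa [pt_re] at this

lemma pt_pos {Y : ℝ} (hY : 0 < Y) (x : ℝ) : 0 < ‖pt Y x‖ := lt_of_lt_of_le hY (le_pt hY x)

lemma pt_ne {Y : ℝ} (hY : 0 < Y) (x : ℝ) : pt Y x ≠ 0 := norm_pos_iff.1 (pt_pos hY x)

/-- The kernel. -/
noncomputable def psi (Y : ℝ) (n : ℕ) (x : ℝ) : ℂ :=
  (((n + 1 : ℝ) * Y ^ (n + 1) : ℝ) : ℂ) / pt Y x ^ (n + 2)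

lemma psi_norm {Y : ℝ} (hY : 0 < Y) (n : ℕ) (x : ℝ) :
    ‖psi Y n x‖ = (n + 1 : ℝ) * Y ^ (n + 1) / ‖pt Y x‖ ^ (n + 2) := by
  unfold psi
  rw [norm_div, norm_pow, Complex.norm_real, Real.norm_of_nonneg (by positivity)]

lemma psi_le {Y : ℝ} (hY : 0 < Y) (n : ℕ) (x : ℝ) :
    ‖psi Y n x‖ ≤ (n + 1 : ℝ) * (Y / (x ^ 2 + Y ^ 2)) := by
  rw [psi_norm hY, ← pt_normSq, mul_div_assoc]
  apply mul_le_mul_of_nonneg_left _ (by positivity)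
  have h0 := pt_pos hY x
  rw [div_le_div_iff₀ (by positivity) (by positivity)]
  have h1 : Y ^ n ≤ ‖pt Y x‖ ^ n := pow_le_pow_left₀ hY.le (le_pt hY x) n
  calc Y ^ (n + 1) * ‖pt Y x‖ ^ 2 = Y ^ n * (Y * ‖pt Y x‖ ^ 2) := by ring
    _ ≤ ‖pt Y x‖ ^ n * (Y * ‖pt Y x‖ ^ 2) := mul_le_mul_of_nonneg_right h1 (by positivity)
    _ = Y * ‖pt Y x‖ ^ (n + 2) := by ring

lemma psi_cont {Y : ℝ} (hY : 0 < Y) (n : ℕ) : Continuous (psi Y n) := by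
  unfold psi
  apply Continuous.div continuous_const
  · unfold pt; fun_prop
  · intro x; exact pow_ne_zero _ (pt_ne hY x)

/-- difference of powers of inverses -/
lemma inv_pow_sub {a b : ℂ} (M : ℝ) (ha : ‖a‖ ≤ M) (hb : ‖b‖ ≤ M) (m : ℕ) :
    ‖a ^ (m + 1) - b ^ (m + 1)‖ ≤ (m + 1) * M ^ m * ‖a - b‖ := by
  have hM : 0 ≤ M := (norm_nonneg a).trans ha
  induction m with
  | zero => simp
  | succ m ih =>
    have e : a ^ (m + 1 + 1) - b ^ (m + 1 + 1) = a * (a ^ (m + 1) - b ^ (m + 1)) + (a - b) * b ^ (m + 1) := by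
      ring
    rw [e]
    refine (norm_add_le _ _).trans ?_
    rw [norm_mul, norm_mul, norm_pow]
    have h1 : ‖a‖ * ‖a ^ (m + 1) - b ^ (m + 1)‖ ≤ M * ((m + 1) * M ^ m * ‖a - b‖) :=
      mul_le_mul ha ih (norm_nonneg _) hM
    have h2 : ‖a - b‖ * ‖b‖ ^ (m + 1) ≤ ‖a - b‖ * M ^ (m + 1) :=
      mul_le_mul_of_nonneg_left (pow_le_pow_left₀ (norm_nonneg _) hb _) (norm_nonneg _)
    calc ‖a‖ * ‖a ^ (m + 1) - b ^ (m + 1)‖ + ‖a - b‖ * ‖b‖ ^ (m + 1)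
        ≤ M * ((m + 1) * M ^ m * ‖a - b‖) + ‖a - b‖ * M ^ (m + 1) := add_le_add h1 h2
      _ = ((m + 1 : ℕ) + 1 : ℝ) * M ^ (m + 1) * ‖a - b‖ := by push_cast; ring

lemma psi_sub {Y : ℝ} (hY : 0 < Y) (n : ℕ) {x x' : ℝ} (hx : x ≠ 0) (h : |x - x'| ≤ |x| / 2) :
    ‖psi Y n x - psi Y n x'‖ ≤
      8 * ((n + 1 : ℝ) * (n + 2)) * (|x - x'| / |x|) * (Y / (x ^ 2 + Y ^ 2)) := by
  set a := pt Y x with ha
  set b := pt Y x' with hb
  have ha0 : 0 < ‖a‖ := pt_pos hY x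
  have hb0 : 0 < ‖b‖ := pt_pos hY x'
  have hx0 : 0 < |x| := abs_pos.2 hx
  have hYa : Y ≤ ‖a‖ := le_pt hY x
  have hYb : Y ≤ ‖b‖ := le_pt hY x'
  have hxa : |x| ≤ ‖a‖ := abs_le_pt Y x
  have hba : ‖a‖ / 2 ≤ ‖b‖ := by
    have h1 : |x| / 2 ≤ |x'| := by
      have := abs_sub_abs_le_abs_sub x x'
      linarith
    have h2 : (‖a‖ / 2) ^ 2 ≤ ‖b‖ ^ 2 := by
      rw [div_pow, ha, hb, pt_normSq, pt_normSq]
      have h3 : (|x| / 2) ^ 2 ≤ |x'| ^ 2 := pow_le_pow_left₀ (by positivity) h1 2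
      rw [div_pow, sq_abs, sq_abs] at h3
      nlinarith [sq_nonneg Y]
    exact abs_le_of_sq_le_sq' h2 hb0.le |>.2
  have hsub : ‖b - a‖ = |x - x'| := by
    have : b - a = ((x' - x : ℝ) : ℂ) := by
      rw [ha, hb]; unfold pt; push_cast; ring
    rw [this, Complex.norm_real, Real.norm_eq_abs, abs_sub_comm]
  -- the inverses
  have hai : ‖a⁻¹‖ ≤ Y⁻¹ := by rw [norm_inv]; exact inv_anti₀ hY hYa
  have hbi : ‖b⁻¹‖ ≤ Y⁻¹ := by rw [norm_inv]; exact inv_anti₀ hY hYb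
  have e1 : psi Y n x - psi Y n x' = (((n + 1 : ℝ) * Y ^ (n + 1) : ℝ) : ℂ) *
      (a⁻¹ ^ (n + 2) - b⁻¹ ^ (n + 2)) := by
    unfold psi
    rw [← ha, ← hb, inv_pow, inv_pow]; ring
  -- bound the difference: a⁻¹^(n+2) - b⁻¹^(n+2) through the M = 2/‖a‖ and Y⁻¹
  have e2 : ∀ m : ℕ, ‖a⁻¹ ^ (m + 2) - b⁻¹ ^ (m + 2)‖ ≤ (m + 2) * (Y⁻¹) ^ m * (2 / ‖a‖) *
      ‖a⁻¹ - b⁻¹‖ := by
    have hA : ‖a⁻¹‖ ≤ 2 / ‖a‖ := by
      rw [norm_inv, inv_eq_one_div]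
      exact div_le_div_of_nonneg_right (by norm_num) ha0.le
    have hB : ‖b⁻¹‖ ≤ 2 / ‖a‖ := by
      rw [norm_inv, inv_eq_one_div, div_le_div_iff₀ hb0 ha0]; linarith
    intro m
    induction m with
    | zero =>
      have := inv_pow_sub (2 / ‖a‖) hA hB 1
      simp only [pow_one] at this
      norm_num at this ⊢
      convert this using 1
    | succ m ih =>
      have e : a⁻¹ ^ (m + 1 + 2) - b⁻¹ ^ (m + 1 + 2) = a⁻¹ * (a⁻¹ ^ (m + 2) - b⁻¹ ^ (m + 2)) +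
          (a⁻¹ - b⁻¹) * b⁻¹ ^ (m + 2) := by ring
      rw [e]
      refine (norm_add_le _ _).trans ?_
      rw [norm_mul, norm_mul, norm_pow]
      have h1 : ‖a⁻¹‖ * ‖a⁻¹ ^ (m + 2) - b⁻¹ ^ (m + 2)‖ ≤ Y⁻¹ * ((m + 2) * (Y⁻¹) ^ m * (2 / ‖a‖) *
          ‖a⁻¹ - b⁻¹‖) := mul_le_mul hai ih (norm_nonneg _) (by positivity)
      have h2 : ‖b⁻¹‖ ^ (m + 2) ≤ (Y⁻¹) ^ (m + 1) * (2 / ‖a‖) := by
        rw [pow_succ]
        exact mul_le_mul (pow_le_pow_left₀ (norm_nonneg _) hbi _) hB (norm_nonneg _) (by positivity)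
      have h3 : ‖a⁻¹ - b⁻¹‖ * ‖b⁻¹‖ ^ (m + 2) ≤ ‖a⁻¹ - b⁻¹‖ * ((Y⁻¹) ^ (m + 1) * (2 / ‖a‖)) :=
        mul_le_mul_of_nonneg_left h2 (norm_nonneg _)
      calc ‖a⁻¹‖ * ‖a⁻¹ ^ (m + 2) - b⁻¹ ^ (m + 2)‖ + ‖a⁻¹ - b⁻¹‖ * ‖b⁻¹‖ ^ (m + 2)
          ≤ Y⁻¹ * ((m + 2) * (Y⁻¹) ^ m * (2 / ‖a‖) * ‖a⁻¹ - b⁻¹‖) +
            ‖a⁻¹ - b⁻¹‖ * ((Y⁻¹) ^ (m + 1) * (2 / ‖a‖)) := add_le_add h1 h3
        _ = _ := by push_cast; ring
  have e3 : ‖a⁻¹ - b⁻¹‖ ≤ 2 / ‖a‖ ^ 2 * |x - x'| := by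
    have : a⁻¹ - b⁻¹ = (b - a) / (a * b) := by
      rw [inv_sub_inv (pt_ne hY x) (pt_ne hY x')]
    rw [this, norm_div, norm_mul, hsub, div_mul_eq_mul_div, div_le_div_iff₀ (by positivity) (by positivity)]
    have h5 : 0 ≤ |x - x'| := abs_nonneg _
    nlinarith [mul_nonneg h5 ha0.le, mul_le_mul_of_nonneg_left hba (mul_nonneg h5 ha0.le)]
  rw [e1, norm_mul, Complex.norm_real, Real.norm_of_nonneg (by positivity)]
  have h6 : 0 ≤ |x - x'| := abs_nonneg _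
  calc (n + 1 : ℝ) * Y ^ (n + 1) * ‖a⁻¹ ^ (n + 2) - b⁻¹ ^ (n + 2)‖
      ≤ (n + 1 : ℝ) * Y ^ (n + 1) * ((n + 2) * (Y⁻¹) ^ n * (2 / ‖a‖) * (2 / ‖a‖ ^ 2 * |x - x'|)) := by
        apply mul_le_mul_of_nonneg_left _ (by positivity)
        exact (e2 n).trans (mul_le_mul_of_nonneg_left e3 (by positivity))
    _ = 4 * ((n + 1 : ℝ) * (n + 2)) * (Y * |x - x'|) * (1 / ‖a‖) * (1 / ‖a‖ ^ 2) := by
        have : Y ^ (n + 1) * (Y⁻¹) ^ n = Y := by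
          rw [inv_pow, pow_succ]; field_simp
        calc _ = (Y ^ (n + 1) * (Y⁻¹) ^ n) * (4 * ((n + 1 : ℝ) * (n + 2)) * |x - x'| * (1 / ‖a‖) * (1 / ‖a‖ ^ 2)) := by
              ring
          _ = _ := by rw [this]; ring
    _ ≤ 4 * ((n + 1 : ℝ) * (n + 2)) * (Y * |x - x'|) * (1 / |x|) * (1 / ‖a‖ ^ 2) := by
        apply mul_le_mul_of_nonneg_right _ (by positivity)
        apply mul_le_mul_of_nonneg_left _ (by positivity)
        exact one_div_le_one_div_of_le hx0 hxa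
    _ = 4 * ((n + 1 : ℝ) * (n + 2)) * (|x - x'| / |x|) * (Y / (x ^ 2 + Y ^ 2)) := by
        rw [← pt_normSq]; ring
    _ ≤ _ := by
        apply mul_le_mul_of_nonneg_right _ (by positivity)
        apply mul_le_mul_of_nonneg_right _ (by positivity)
        apply mul_le_mul_of_nonneg_right (by norm_num) (by positivity)

/-- The scale. -/
noncomputable def YY (k : ℤ) : ℝ := 4 * 2 ^ k

lemma YY_pos (k : ℤ) : 0 < YY k := by unfold YY; positivity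

lemma sum_Y (x : ℝ) (hx : x ≠ 0) (S : Finset ℤ) : ∑ k ∈ S, YY k / (x ^ 2 + YY k ^ 2) ≤ 8 / |x| := by
  have hx0 : 0 < |x| := abs_pos.2 hx
  have h1 : ∀ k ∈ S, YY k / (x ^ 2 + YY k ^ 2) ≤ (1 / |x|) * min ((2:ℝ) ^ k * (4 / |x|)) (((2:ℝ) ^ k * (4 / |x|))⁻¹) := by
    intro k _
    have hY := YY_pos k
    have e1 : (2:ℝ) ^ k * (4 / |x|) = YY k / |x| := by unfold YY; ring
    rw [e1, mul_min_of_nonneg _ _ (by positivity), le_min_iff, ← sq_abs x]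
    constructor
    · rw [div_mul_div_comm, one_mul, div_le_div_iff_of_pos_left hY (by positivity) (by positivity)]
      nlinarith [sq_nonneg (YY k)]
    · rw [inv_div, div_mul_div_comm, one_mul, div_le_div_iff₀ (by positivity) (by positivity)]
      nlinarith [sq_nonneg (YY k), sq_nonneg |x|]
  calc ∑ k ∈ S, YY k / (x ^ 2 + YY k ^ 2)
      ≤ ∑ k ∈ S, (1 / |x|) * min ((2:ℝ) ^ k * (4 / |x|)) (((2:ℝ) ^ k * (4 / |x|))⁻¹) :=
        Finset.sum_le_sum h1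
    _ = (1 / |x|) * ∑ k ∈ S, min ((2:ℝ) ^ k * (4 / |x|)) (((2:ℝ) ^ k * (4 / |x|))⁻¹) := by
        rw [Finset.mul_sum]
    _ ≤ (1 / |x|) * 8 := by
        apply mul_le_mul_of_nonneg_left _ (by positivity)
        exact sum_min_le _ (by positivity) S
    _ = 8 / |x| := by ring

end Pool.Agent.L5helper34.GL
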