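import Pool.Agent.L5helper34.GL.Gs

set_option autoImplicit false
set_option linter.unusedVariables false

/-! The necessity of `A_p` and `B_{λp/2}`. -/

namespace Pool.Agent.L5helper34.GL

open MeasureTheory Filter Topology Metric
open scoped ENNReal NNReal

/-- the constant in the lower bound -/
noncomputable def cl (lam : ℝ) : ℝ := (2 / 7) ^ lam * (2 / (169 * Real.pi)) ^ 2

lemma cl_pos (lam : ℝ) : 0 < cl lam := by
  unfold cl
  have := Real.pi_pos
  have h : (0:ℝ) < (2/7 : ℝ) ^ lam := Real.rpow_pos_of_pos (by norm_num) _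
  positivity

lemma adm_of_int {f : ℝ → ℂ} (hf : Integrable f) : Adm f := by
  refine ⟨hf.1, ?_⟩
  have hm : AEStronglyMeasurable (fun t : ℝ => (1 + t ^ 2)⁻¹ * ‖f t‖) volume := by
    apply AEStronglyMeasurable.mul _ hf.1.norm
    apply Continuous.aestronglyMeasurable
    apply Continuous.inv₀ (by fun_prop)
    intro t; positivity
  refine Integrable.mono' hf.norm hm (Eventually.of_forall fun t => ?_)
  rw [Real.norm_of_nonneg (by positivity)]
  have h1 : (1 + t ^ 2)⁻¹ ≤ 1 := inv_le_one_of_one_le₀ (by nlinarith [sq_nonneg t])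
  exact mul_le_of_le_one_left (norm_nonneg _) h1

lemma gst_ge {lam : ℝ} (hlam : 0 < lam) {φ : ℝ → ℝ} (hφ0 : ∀ t, 0 ≤ φ t) (hφ : Integrable φ) {a b : ℝ}
    (hab : a < b) (hs : ∀ t, t ∉ Set.Icc a b → φ t = 0) (x : ℝ) :
    ENNReal.ofReal (cl lam * ((b - a) / (|x - (a + b) / 2| + (b - a))) ^ lam * ((∫ t, φ t) / (b - a)) ^ 2) ≤
      ∫⁻ z : ℝ, ∫⁻ y in Set.Ioi (0:ℝ), ENNReal.ofReal ((y / (|x - z| + y)) ^ lam *
        grSq (fun t => (φ t : ℂ)) z y) := by
  obtain ⟨L, hL⟩ : ∃ L : ℝ, L = b - a := ⟨_, rfl⟩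
  have hL0 : 0 < L := by rw [hL]; linarith
  rw [← hL]
  set m : ℝ := (a + b) / 2 with hm
  set J : ℝ := ∫ t, φ t with hJ
  have hJ0 : 0 ≤ J := integral_nonneg hφ0
  have ha : Adm (fun t => (φ t : ℂ)) := adm_of_int hφ.ofReal
  have hpt : ∀ z ∈ Set.Icc (b + L) (b + 2 * L), ∀ y ∈ Set.Icc L (2 * L),
      cl lam * (L / (|x - m| + L)) ^ lam * (J / L) ^ 2 / L ^ 2 ≤
        (y / (|x - z| + y)) ^ lam * grSq (fun t => (φ t : ℂ)) z y := by
    intro z hz y hy
    have hy0 : 0 < y := lt_of_lt_of_le hL0 hy.1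
    have hw : (2 / 7) ^ lam * (L / (|x - m| + L)) ^ lam ≤ (y / (|x - z| + y)) ^ lam := by
      rw [← Real.mul_rpow (by norm_num) (by positivity)]
      apply Real.rpow_le_rpow (by positivity) _ hlam.le
      have h1 : |x - z| ≤ |x - m| + |m - z| := abs_sub_le _ _ _
      have h2 : |m - z| ≤ 5 / 2 * L := by
        rw [abs_le, hm]
        have := hz.1; have := hz.2
        constructor <;> linarith
      rw [div_mul_div_comm, div_le_div_iff₀ (by positivity) (by positivity)]
      have h3 := hy.1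
      have h4 := abs_nonneg (x - z)
      have h5 := abs_nonneg (x - m)
      nlinarith [mul_nonneg h5 hL0.le, mul_nonneg h5 hy0.le, mul_nonneg h5 (sub_nonneg.2 h3),
        mul_nonneg hL0.le (sub_nonneg.2 h3)]
    have hg : (2 / (169 * Real.pi)) ^ 2 * (J / L) ^ 2 / L ^ 2 ≤ grSq (fun t => (φ t : ℂ)) z y := by
      rw [ha.grSq_eq hy0]
      have h1 : ∫ t : ℝ, pz (z - t) y • ((φ t : ℝ) : ℂ) = ((∫ t : ℝ, pz (z - t) y * φ t : ℝ) : ℂ) := by
        have e := integral_ofReal (𝕜 := ℂ) (μ := volume) (f := fun t => pz (z - t) y * φ t)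
        refine Eq.trans ?_ e
        congr 1
        funext t
        simp
      have hpi := Real.pi_pos
      have hi : Integrable (fun t => pz (z - t) y * φ t) := by
        have := ha.pz_int hy0 z
        have h2 := this.re
        refine h2.congr (Eventually.of_forall fun t => ?_)
        simp
      have h2 : 2 / (169 * L ^ 2) * J ≤ -∫ t : ℝ, pz (z - t) y * φ t := by
        rw [hJ, ← integral_const_mul, ← integral_neg]
        apply integral_mono (hφ.const_mul _) hi.neg
        intro t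
        show 2 / (169 * L ^ 2) * φ t ≤ -(pz (z - t) y * φ t)
        by_cases ht : t ∈ Set.Icc a b
        · rw [← neg_mul]
          apply mul_le_mul_of_nonneg_right _ (hφ0 t)
          unfold pz
          have e : -(-(2 * (z - t) * y) / ((z - t) ^ 2 + y ^ 2) ^ 2) =
              (2 * (z - t) * y) / ((z - t) ^ 2 + y ^ 2) ^ 2 := by ring
          rw [e, div_le_div_iff₀ (by positivity) (by positivity)]
          have h3 : L ≤ z - t := by have := hz.1; have := ht.2; linarith
          have h4 : z - t ≤ 3 * L := by have := hz.2; have := ht.1; linarith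
          have h5 : (z - t) ^ 2 + y ^ 2 ≤ 13 * L ^ 2 := by
            have := pow_le_pow_left₀ (by linarith) h4 2
            have := pow_le_pow_left₀ hy0.le hy.2 2
            nlinarith
          have h6 : ((z - t) ^ 2 + y ^ 2) ^ 2 ≤ (13 * L ^ 2) ^ 2 := pow_le_pow_left₀ (by positivity) h5 2
          have h7 : L * L ≤ (z - t) * y := mul_le_mul h3 hy.1 hL0.le (by linarith)
          calc 2 * ((z - t) ^ 2 + y ^ 2) ^ 2 ≤ 2 * (13 * L ^ 2) ^ 2 := by linarith
            _ = 2 * (L * L) * (169 * L ^ 2) := by ring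
            _ ≤ 2 * ((z - t) * y) * (169 * L ^ 2) := by
                apply mul_le_mul_of_nonneg_right _ (by positivity); linarith
            _ = _ := by ring
        · rw [hs t ht]; simp
      have h3 : 2 / (169 * L ^ 2) * J ≤ |∫ t : ℝ, pz (z - t) y * φ t| := h2.trans (neg_le_abs _)
      have h4 : ‖(1 / Real.pi) • ∫ t : ℝ, pz (z - t) y • ((φ t : ℝ) : ℂ)‖ =
          (1 / Real.pi) * |∫ t : ℝ, pz (z - t) y * φ t| := by
        rw [norm_smul, h1, Complex.norm_real, Real.norm_of_nonneg (by positivity), Real.norm_eq_abs]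
      rw [h4]
      have h5 : (2 / (169 * Real.pi)) * (J / L) / L ≤ (1 / Real.pi) * |∫ t : ℝ, pz (z - t) y * φ t| := by
        calc _ = (1 / Real.pi) * (2 / (169 * L ^ 2) * J) := by field_simp
          _ ≤ _ := mul_le_mul_of_nonneg_left h3 (by positivity)
      have h6 := pow_le_pow_left₀ (by positivity) h5 2
      have h7 : 0 ≤ ‖(1 / Real.pi) • ∫ t : ℝ, py (z - t) y • ((φ t : ℝ) : ℂ)‖ ^ 2 := by positivity
      calc _ = ((2 / (169 * Real.pi)) * (J / L) / L) ^ 2 := by ring
        _ ≤ _ := h6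
        _ ≤ _ := by linarith
    calc cl lam * (L / (|x - m| + L)) ^ lam * (J / L) ^ 2 / L ^ 2
        = ((2 / 7) ^ lam * (L / (|x - m| + L)) ^ lam) * ((2 / (169 * Real.pi)) ^ 2 * (J / L) ^ 2 / L ^ 2) := by
          unfold cl; ring
      _ ≤ _ := mul_le_mul hw hg (by positivity) (by positivity)
  have hA0 : 0 ≤ cl lam * (L / (|x - m| + L)) ^ lam * (J / L) ^ 2 := by
    have := cl_pos lam; positivity
  calc ENNReal.ofReal (cl lam * (L / (|x - m| + L)) ^ lam * (J / L) ^ 2)
      = ENNReal.ofReal (cl lam * (L / (|x - m| + L)) ^ lam * (J / L) ^ 2 / L ^ 2) *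
          ENNReal.ofReal L * ENNReal.ofReal L := by
        rw [← ENNReal.ofReal_mul (by positivity), ← ENNReal.ofReal_mul (by positivity)]
        congr 1
        field_simp
    _ = ∫⁻ z in Set.Icc (b + L) (b + 2 * L), ∫⁻ y in Set.Icc L (2 * L),
          ENNReal.ofReal (cl lam * (L / (|x - m| + L)) ^ lam * (J / L) ^ 2 / L ^ 2) := by
        rw [setLIntegral_const, setLIntegral_const, Real.volume_Icc, Real.volume_Icc]
        congr 2
        · congr 1
          ring
        · ring
    _ ≤ ∫⁻ z in Set.Icc (b + L) (b + 2 * L), ∫⁻ y in Set.Icc L (2 * L),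
          ENNReal.ofReal ((y / (|x - z| + y)) ^ lam * grSq (fun t => (φ t : ℂ)) z y) := by
        apply setLIntegral_mono' measurableSet_Icc
        intro z hz
        apply setLIntegral_mono' measurableSet_Icc
        intro y hy
        exact ENNReal.ofReal_le_ofReal (hpt z hz y hy)
    _ ≤ ∫⁻ z in Set.Icc (b + L) (b + 2 * L), ∫⁻ y in Set.Ioi (0:ℝ),
          ENNReal.ofReal ((y / (|x - z| + y)) ^ lam * grSq (fun t => (φ t : ℂ)) z y) := by
        apply lintegral_mono
        intro z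
        exact lintegral_mono_set (fun y hy => lt_of_lt_of_le hL0 hy.1)
    _ ≤ _ := setLIntegral_le_lintegral _ _

/-- The inequality `(∗)`. -/
def Star (lam p : ℝ) (U : ℝ → ℝ) : Prop :=
  ∃ C : ℝ≥0, ∀ f : ℝ → ℂ, AEStronglyMeasurable f volume →
      ∫⁻ x, ‖f x‖ₑ ^ p * ENNReal.ofReal (U x) ≠ ∞ →
      ∫⁻ x, gst lam f x ^ p * ENNReal.ofReal (U x) ≤
        C * ∫⁻ x, ‖f x‖ₑ ^ p * ENNReal.ofReal (U x)

/-- the basic consequence of `(∗)` -/
lemma star_test {lam p : ℝ} (hp : 0 < p) (hlam : 0 < lam) {U : ℝ → ℝ} {C : ℝ≥0}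
    (hC : ∀ f : ℝ → ℂ, AEStronglyMeasurable f volume →
      ∫⁻ x, ‖f x‖ₑ ^ p * ENNReal.ofReal (U x) ≠ ∞ →
      ∫⁻ x, gst lam f x ^ p * ENNReal.ofReal (U x) ≤
        C * ∫⁻ x, ‖f x‖ₑ ^ p * ENNReal.ofReal (U x))
    {φ : ℝ → ℝ} (hφ0 : ∀ t, 0 ≤ φ t) (hφ : Integrable φ) {a b : ℝ}
    (hab : a < b) (hs : ∀ t, t ∉ Set.Icc a b → φ t = 0)
    (hfin : ∫⁻ x, ENNReal.ofReal (φ x) ^ p * ENNReal.ofReal (U x) ≠ ∞) :
    ∫⁻ x, ENNReal.ofReal (cl lam ^ (p / 2) * ((b - a) / (|x - (a + b) / 2| + (b - a))) ^ (lam * p / 2) *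
      ((∫ t, φ t) / (b - a)) ^ p) * ENNReal.ofReal (U x) ≤
      C * ∫⁻ x, ENNReal.ofReal (φ x) ^ p * ENNReal.ofReal (U x) := by
  have hL0 : 0 < b - a := by linarith
  have e1 : ∀ x, ‖((φ x : ℝ) : ℂ)‖ₑ = ENNReal.ofReal (φ x) := by
    intro x
    rw [← ofReal_norm, Complex.norm_real, Real.norm_of_nonneg (hφ0 x)]
  have h1 := hC (fun t => (φ t : ℂ)) hφ.ofReal.1 (by simp only [e1]; exact hfin)
  simp only [e1] at h1
  refine le_trans (lintegral_mono fun x => ?_) h1
  apply mul_le_mul' _ le_rfl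
  unfold gst
  rw [← ENNReal.rpow_mul]
  have h2 := ENNReal.rpow_le_rpow (gst_ge hlam hφ0 hφ hab hs x) (show 0 ≤ 1 / 2 * p by positivity)
  refine le_trans (le_of_eq ?_) h2
  have hc := cl_pos lam
  have hJ0 : 0 ≤ ∫ t, φ t := integral_nonneg hφ0
  rw [ENNReal.ofReal_rpow_of_nonneg (by positivity) (by positivity), Real.mul_rpow (by positivity) (by positivity),
    Real.mul_rpow (by positivity) (by positivity)]
  congr 2
  · congr 1
    · congr 1; ring
    · rw [← Real.rpow_mul (by positivity)]; congr 1; ring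
  · rw [← Real.rpow_natCast, ← Real.rpow_mul (by positivity)]
    congr 1
    push_cast; ring

lemma star_br {lam p : ℝ} (hp : 0 < p) (hlam : 0 < lam) {U : ℝ → ℝ} (hU0 : ∀ x, 0 ≤ U x)
    (hU : LocallyIntegrable U volume) (h : Star lam p U) : BrC (lam * p / 2) U := by
  obtain ⟨C, hC⟩ := h
  set r := lam * p / 2 with hr
  have hr0 : 0 < r := by positivity
  have hc := cl_pos lam
  refine ⟨(2 ^ r * (cl lam ^ (p / 2))⁻¹).toNNReal * C, fun a b hab => ?_⟩
  have hL0 : 0 < b - a := by linarith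
  set φ : ℝ → ℝ := (Set.Icc a b).indicator (fun _ => 1) with hφd
  have hφ0 : ∀ t, 0 ≤ φ t := fun t => Set.indicator_nonneg (fun _ _ => zero_le_one) _
  have hφ : Integrable φ := by
    rw [hφd, integrable_indicator_iff measurableSet_Icc]
    exact integrableOn_const (by simp)
  have hφs : ∀ t, t ∉ Set.Icc a b → φ t = 0 := fun t ht => Set.indicator_of_notMem ht _
  have hφi : ∫ t, φ t = b - a := by
    rw [hφd, integral_indicator measurableSet_Icc]
    simp [hab.le]
  have e1 : ∫⁻ x, ENNReal.ofReal (φ x) ^ p * ENNReal.ofReal (U x) = ∫⁻ x in Set.Icc a b, ENNReal.ofReal (U x) := by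
    rw [← lintegral_indicator measurableSet_Icc]
    apply lintegral_congr
    intro x
    by_cases hx : x ∈ Set.Icc a b
    · rw [hφd, Set.indicator_of_mem hx, Set.indicator_of_mem hx]; simp
    · rw [hφd, Set.indicator_of_notMem hx, Set.indicator_of_notMem hx, ENNReal.ofReal_zero,
        ENNReal.zero_rpow_of_pos hp, zero_mul]
  have hfin : ∫⁻ x in Set.Icc a b, ENNReal.ofReal (U x) ≠ ∞ := by
    have h2 := (hU.integrableOn_isCompact (isCompact_Icc (a := a) (b := b))).2
    rw [hasFiniteIntegral_iff_ofReal (Eventually.of_forall fun x => hU0 x)] at h2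
    exact h2.ne
  have h1 := star_test hp hlam hC hφ0 hφ hab hφs (by rw [e1]; exact hfin)
  rw [e1, hφi, div_self hL0.ne', Real.one_rpow] at h1
  have hcp : 0 < cl lam ^ (p / 2) := Real.rpow_pos_of_pos hc _
  calc ∫⁻ x, ENNReal.ofReal ((b - a) ^ (r - 1) * U x / ((b - a) ^ r + |x - (a + b) / 2| ^ r))
      ≤ ∫⁻ x, ENNReal.ofReal (2 ^ r * (cl lam ^ (p / 2))⁻¹ / (b - a)) * (ENNReal.ofReal (cl lam ^ (p / 2) *
          ((b - a) / (|x - (a + b) / 2| + (b - a))) ^ r * 1) * ENNReal.ofReal (U x)) := by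
        apply lintegral_mono
        intro x
        show ENNReal.ofReal ((b - a) ^ (r - 1) * U x / ((b - a) ^ r + |x - (a + b) / 2| ^ r)) ≤
          ENNReal.ofReal (2 ^ r * (cl lam ^ (p / 2))⁻¹ / (b - a)) * (ENNReal.ofReal (cl lam ^ (p / 2) *
          ((b - a) / (|x - (a + b) / 2| + (b - a))) ^ r * 1) * ENNReal.ofReal (U x))
        rw [← ENNReal.ofReal_mul (by positivity), ← ENNReal.ofReal_mul (by positivity)]
        apply ENNReal.ofReal_le_ofReal
        set u := |x - (a + b) / 2| with hu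
        have hu0 : 0 ≤ u := abs_nonneg _
        set L := b - a with hL
        have hLr : 0 < L ^ r := Real.rpow_pos_of_pos hL0 _
        have hur : 0 ≤ u ^ r := Real.rpow_nonneg hu0 _
        have h3 : (u + L) ^ r ≤ 2 ^ r * (L ^ r + u ^ r) := by
          rcases le_total u L with h | h
          · calc (u + L) ^ r ≤ (2 * L) ^ r := Real.rpow_le_rpow (by positivity) (by linarith) hr0.le
              _ = 2 ^ r * L ^ r := Real.mul_rpow (by norm_num) hL0.le
              _ ≤ _ := mul_le_mul_of_nonneg_left (by linarith) (by positivity)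
          · calc (u + L) ^ r ≤ (2 * u) ^ r := Real.rpow_le_rpow (by positivity) (by linarith) hr0.le
              _ = 2 ^ r * u ^ r := Real.mul_rpow (by norm_num) hu0
              _ ≤ _ := mul_le_mul_of_nonneg_left (by linarith) (by positivity)
        have h4 : L ^ r / (L ^ r + u ^ r) ≤ 2 ^ r * (L / (u + L)) ^ r := by
          rw [Real.div_rpow hL0.le (by positivity), ← mul_div_assoc, div_le_div_iff₀ (by positivity)
            (Real.rpow_pos_of_pos (by positivity) _)]
          calc L ^ r * (u + L) ^ r ≤ L ^ r * (2 ^ r * (L ^ r + u ^ r)) := mul_le_mul_of_nonneg_left h3 hLr.le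
            _ = _ := by ring
        have h5 : L ^ (r - 1) = L ^ r / L := by rw [Real.rpow_sub_one hL0.ne']
        have hUx := hU0 x
        calc L ^ (r - 1) * U x / (L ^ r + u ^ r) = (L ^ r / (L ^ r + u ^ r)) * (U x / L) := by
              rw [h5]; ring
          _ ≤ (2 ^ r * (L / (u + L)) ^ r) * (U x / L) := mul_le_mul_of_nonneg_right h4 (by positivity)
          _ = _ := by field_simp
    _ = ENNReal.ofReal (2 ^ r * (cl lam ^ (p / 2))⁻¹ / (b - a)) * ∫⁻ x, (ENNReal.ofReal (cl lam ^ (p / 2) *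
          ((b - a) / (|x - (a + b) / 2| + (b - a))) ^ r * 1) * ENNReal.ofReal (U x)) := by
        rw [lintegral_const_mul' _ _ ENNReal.ofReal_ne_top]
    _ ≤ ENNReal.ofReal (2 ^ r * (cl lam ^ (p / 2))⁻¹ / (b - a)) *
          (C * ∫⁻ x in Set.Icc a b, ENNReal.ofReal (U x)) := mul_le_mul' le_rfl h1
    _ = _ := by
        rw [ENNReal.ofReal_div_of_pos hL0, ENNReal.coe_mul]
        have : ENNReal.ofReal (2 ^ r * (cl lam ^ (p / 2))⁻¹) =
          (((2 ^ r * (cl lam ^ (p / 2))⁻¹).toNNReal : ℝ≥0) : ℝ≥0∞) := rfl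
        rw [this]
        generalize (((2 ^ r * (cl lam ^ (p / 2))⁻¹).toNNReal : ℝ≥0) : ℝ≥0∞) = κ
        simp only [div_eq_mul_inv]
        ring

lemma star_ap {lam p : ℝ} (hp1 : 1 < p) (hlam : 0 < lam) {U : ℝ → ℝ} (hU0 : ∀ x, 0 ≤ U x)
    (hU : LocallyIntegrable U volume) (h : Star lam p U) : ApC p U := by
  obtain ⟨C, hC⟩ := h
  have hp : 0 < p := by linarith
  have hp1' : 0 < p - 1 := by linarith
  have hc := cl_pos lam
  set r := lam * p / 2 with hr
  have hr0 : 0 < r := by positivity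
  set κ : ℝ := cl lam ^ (p / 2) * (2 / 3) ^ r with hκ
  have hκ0 : 0 < κ := mul_pos (Real.rpow_pos_of_pos hc _) (Real.rpow_pos_of_pos (by norm_num) _)
  refine ⟨C * (κ⁻¹).toNNReal, fun a b hab => ?_⟩
  set L := b - a with hL
  have hL0 : 0 < L := by rw [hL]; linarith
  have hLne : ENNReal.ofReal L ≠ 0 := by simpa using hL0
  have hUfin : ∫⁻ x in Set.Icc a b, ENNReal.ofReal (U x) ≠ ∞ := by
    have h2 := (hU.integrableOn_isCompact (isCompact_Icc (a := a) (b := b))).2
    rw [hasFiniteIntegral_iff_ofReal (Eventually.of_forall fun x => hU0 x)] at h2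
    exact h2.ne
  set V : ℝ≥0∞ := ∫⁻ x in Set.Icc a b, ENNReal.ofReal (U x) with hV
  -- the test functions
  set ψ : ℕ → ℝ → ℝ := fun n x => (U x + 1 / ((n:ℝ) + 1)) ^ (-(1 / (p - 1))) with hψ
  have hUe : ∀ (n : ℕ) x, 0 < U x + 1 / ((n:ℝ) + 1) := by
    intro n x
    have := hU0 x
    positivity
  have hψ0 : ∀ n x, 0 < ψ n x := fun n x => Real.rpow_pos_of_pos (hUe n x) _
  have hψb : ∀ (n : ℕ) x, ψ n x ≤ (1 / ((n:ℝ) + 1)) ^ (-(1 / (p - 1))) := by
    intro n x
    apply Real.rpow_le_rpow_of_nonpos (by positivity) (by have := hU0 x; linarith)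
    have : 0 < 1 / (p - 1) := by positivity
    linarith
  have hψm : ∀ n, AEStronglyMeasurable (ψ n) volume := by
    intro n
    apply AEMeasurable.aestronglyMeasurable
    exact (hU.aestronglyMeasurable.aemeasurable.add_const _).pow_const _
  set X : ℕ → ℝ≥0∞ := fun n => ∫⁻ x in Set.Icc a b, ENNReal.ofReal (ψ n x) with hX
  have hXint : ∀ n, IntegrableOn (ψ n) (Set.Icc a b) := by
    intro n
    refine Integrable.mono' (g := fun _ => (1 / ((n:ℝ) + 1)) ^ (-(1 / (p - 1)))) ?_ (hψm n).restrict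
      (Eventually.of_forall fun x => ?_)
    · exact integrableOn_const (by simp)
    · rw [Real.norm_of_nonneg (hψ0 n x).le]; exact hψb n x
  have hXfin : ∀ n, X n ≠ ∞ := by
    intro n
    have h2 := (hXint n).2
    rw [hasFiniteIntegral_iff_ofReal (Eventually.of_forall fun x => (hψ0 n x).le)] at h2
    exact h2.ne
  have hXpos : ∀ n, X n ≠ 0 := by
    intro n h0
    rw [hX] at h0
    simp only at h0
    rw [lintegral_eq_zero_iff' ((hψm n).aemeasurable.restrict.ennreal_ofReal)] at h0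
    have h1 : ∀ᵐ x ∂(volume.restrict (Set.Icc a b)), False := by
      filter_upwards [h0] with x hx
      have h2 : ENNReal.ofReal (ψ n x) = 0 := hx
      rw [ENNReal.ofReal_eq_zero] at h2
      exact absurd (hψ0 n x) (not_lt.2 h2)
    rw [ae_iff] at h1
    have h2 : {x : ℝ | ¬ False} = Set.univ := by ext x; simp
    rw [h2, Measure.restrict_apply_univ, Real.volume_Icc, ENNReal.ofReal_eq_zero] at h1
    linarith
  -- the inequality for each n
  have hkey : ∀ n, (V / ENNReal.ofReal L) * (X n / ENNReal.ofReal L) ^ (p - 1) ≤ C * ENNReal.ofReal κ⁻¹ := by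
    intro n
    set φ : ℝ → ℝ := (Set.Icc a b).indicator (ψ n) with hφd
    have hφ0 : ∀ t, 0 ≤ φ t := fun t => Set.indicator_nonneg (fun x _ => (hψ0 n x).le) _
    have hφ : Integrable φ := by
      rw [hφd, integrable_indicator_iff measurableSet_Icc]; exact hXint n
    have hφs : ∀ t, t ∉ Set.Icc a b → φ t = 0 := fun t ht => Set.indicator_of_notMem ht _
    have hφi : ENNReal.ofReal (∫ t, φ t) = X n := by
      rw [hφd, integral_indicator measurableSet_Icc,
        ofReal_integral_eq_lintegral_ofReal (hXint n) (Eventually.of_forall fun x => (hψ0 n x).le)]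
    have e1 : ∫⁻ x, ENNReal.ofReal (φ x) ^ p * ENNReal.ofReal (U x) ≤ X n := by
      rw [hX]
      simp only
      rw [← lintegral_indicator measurableSet_Icc]
      apply lintegral_mono
      intro x
      by_cases hx : x ∈ Set.Icc a b
      · rw [hφd]
        simp only
        rw [Set.indicator_of_mem hx, Set.indicator_of_mem hx,
          ENNReal.ofReal_rpow_of_nonneg (hψ0 n x).le hp.le, ← ENNReal.ofReal_mul (by
            have := hψ0 n x; positivity)]
        apply ENNReal.ofReal_le_ofReal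
        have h3 : U x ≤ U x + 1 / ((n:ℝ) + 1) := by
          have : 0 < 1 / ((n:ℝ) + 1) := by positivity
          linarith
        calc ψ n x ^ p * U x ≤ ψ n x ^ p * (U x + 1 / ((n:ℝ) + 1)) :=
              mul_le_mul_of_nonneg_left h3 (by have := hψ0 n x; positivity)
          _ = ψ n x := by
              rw [hψ]
              simp only
              rw [← Real.rpow_mul (hUe n x).le]
              nth_rw 2 [← Real.rpow_one (U x + 1 / ((n:ℝ) + 1))]
              rw [← Real.rpow_add (hUe n x)]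
              congr 1
              field_simp
              ring
      · rw [hφd]
        simp only
        rw [Set.indicator_of_notMem hx, Set.indicator_of_notMem hx, ENNReal.ofReal_zero,
          ENNReal.zero_rpow_of_pos hp, zero_mul]
    have h1 := star_test hp hlam hC hφ0 hφ hab hφs (ne_top_of_le_ne_top (hXfin n) e1)
    have hJ0 : 0 ≤ ∫ t, φ t := integral_nonneg hφ0
    have h2 : ENNReal.ofReal κ * (X n / ENNReal.ofReal L) ^ p * V ≤ C * X n := by
      refine le_trans ?_ (h1.trans (mul_le_mul' le_rfl e1))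
      have e3 : (X n / ENNReal.ofReal L) ^ p = ENNReal.ofReal (((∫ t, φ t) / L) ^ p) := by
        rw [← hφi, ← ENNReal.ofReal_div_of_pos hL0, ENNReal.ofReal_rpow_of_nonneg (by positivity) hp.le]
      rw [e3, ← ENNReal.ofReal_mul hκ0.le, hV, ← lintegral_const_mul' _ _ ENNReal.ofReal_ne_top]
      refine le_trans ?_ (setLIntegral_le_lintegral (Set.Icc a b) _)
      apply setLIntegral_mono' measurableSet_Icc
      intro x hx
      apply mul_le_mul' _ le_rfl
      apply ENNReal.ofReal_le_ofReal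
      apply mul_le_mul_of_nonneg_right _ (by positivity)
      rw [hκ]
      apply mul_le_mul_of_nonneg_left _ (Real.rpow_nonneg hc.le _)
      apply Real.rpow_le_rpow (by norm_num) _ hr0.le
      rw [div_le_div_iff₀ (by norm_num) (by positivity)]
      have h4 : |x - (a + b) / 2| ≤ (b - a) / 2 := by
        rw [abs_le]; have := hx.1; have := hx.2
        constructor <;> linarith
      linarith
    -- divide
    have h5 : X n * (ENNReal.ofReal κ * ((V / ENNReal.ofReal L) * (X n / ENNReal.ofReal L) ^ (p - 1))) ≤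
        X n * C := by
      refine le_trans (le_of_eq ?_) (h2.trans (le_of_eq (mul_comm _ _)))
      have e4 : (X n / ENNReal.ofReal L) ^ p = (X n / ENNReal.ofReal L) ^ (p - 1) * (X n / ENNReal.ofReal L) := by
        have hne0 : X n / ENNReal.ofReal L ≠ 0 := ENNReal.div_ne_zero.2 ⟨hXpos n, ENNReal.ofReal_ne_top⟩
        have hneT : X n / ENNReal.ofReal L ≠ ∞ := ENNReal.div_ne_top (hXfin n) hLne
        conv_rhs => rw [← ENNReal.rpow_one (X n / ENNReal.ofReal L), ← ENNReal.rpow_mul, one_mul,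
          ← ENNReal.rpow_add _ _ hne0 hneT]
        congr 1; ring
      rw [e4]
      simp only [div_eq_mul_inv]
      ring
    have h6 := (ENNReal.mul_le_mul_iff_right (hXpos n) (hXfin n)).1 h5
    have h7 : ENNReal.ofReal κ⁻¹ * (ENNReal.ofReal κ * ((V / ENNReal.ofReal L) * (X n / ENNReal.ofReal L) ^ (p - 1))) ≤
        ENNReal.ofReal κ⁻¹ * C := mul_le_mul' le_rfl h6
    rw [← mul_assoc, ← ENNReal.ofReal_mul (by positivity), inv_mul_cancel₀ hκ0.ne', ENNReal.ofReal_one,
      one_mul, mul_comm (ENNReal.ofReal κ⁻¹)] at h7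
    exact h7
  -- the limit
  have hsig : ∫⁻ x in Set.Icc a b, ENNReal.ofReal (U x) ^ (-(1 / (p - 1))) ≤ liminf X atTop := by
    have h1 : ∫⁻ x in Set.Icc a b, ENNReal.ofReal (U x) ^ (-(1 / (p - 1))) =
        ∫⁻ x in Set.Icc a b, liminf (fun n => ENNReal.ofReal (ψ n x)) atTop := by
      apply lintegral_congr
      intro x
      symm
      apply Tendsto.liminf_eq
      have h2 : ∀ n, ENNReal.ofReal (ψ n x) = ENNReal.ofReal (U x + 1 / ((n:ℝ) + 1)) ^ (-(1 / (p - 1))) := by
        intro n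
        rw [ENNReal.ofReal_rpow_of_pos (hUe n x)]
      simp only [h2]
      apply Tendsto.ennrpow_const
      apply ENNReal.tendsto_ofReal
      have h3 := tendsto_one_div_add_atTop_nhds_zero_nat (𝕜 := ℝ)
      have h4 := h3.const_add (U x)
      rwa [add_zero] at h4
    rw [h1]
    exact lintegral_liminf_le' (fun n => (hψm n).aemeasurable.restrict.ennreal_ofReal)
  set Φ : ℝ≥0∞ → ℝ≥0∞ := fun Y => (V / ENNReal.ofReal L) * (Y / ENNReal.ofReal L) ^ (p - 1) with hΦ
  have hmono : Monotone Φ := fun A B hAB =>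
    mul_le_mul' le_rfl (ENNReal.rpow_le_rpow (ENNReal.div_le_div_right hAB _) hp1'.le)
  have hVL : V / ENNReal.ofReal L ≠ ∞ := ENNReal.div_ne_top hUfin hLne
  have hcont : Continuous Φ := by
    rw [continuous_iff_continuousAt]
    intro Y
    apply ENNReal.Tendsto.const_mul _ (Or.inr hVL)
    apply Tendsto.ennrpow_const
    exact ENNReal.Tendsto.div_const tendsto_id (Or.inr hLne)
  have h3 := hmono.map_liminf_of_continuousAt X (F := atTop) hcont.continuousAt
  calc V / ENNReal.ofReal L * ((∫⁻ x in Set.Icc a b, ENNReal.ofReal (U x) ^ (-(1 / (p - 1)))) /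
        ENNReal.ofReal L) ^ (p - 1) ≤ Φ (liminf X atTop) := hmono hsig
    _ = liminf (Φ ∘ X) atTop := h3
    _ ≤ liminf (fun _ : ℕ => C * ENNReal.ofReal κ⁻¹) atTop :=
        liminf_le_liminf (Eventually.of_forall hkey)
    _ = C * ENNReal.ofReal κ⁻¹ := by simp
    _ = _ := by rw [ENNReal.coe_mul]; rfl

/-- **The characterization.** -/
theorem star_iff {lam p : ℝ} (hlam : 0 < lam) (hp1 : 1 < p) (hp2 : p < 2) {U : ℝ → ℝ}
    (hU0 : ∀ x, 0 ≤ U x) (hU : LocallyIntegrable U volume) :
    Star lam p U ↔ ApC p U ∧ BrC (lam * p / 2) U :=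
  ⟨fun h => ⟨star_ap hp1 hlam hU0 hU h, star_br (by linarith) hlam hU0 hU h⟩,
    fun h => main_U hp1 hp2 hlam hU0 hU h.1 h.2⟩

end Pool.Agent.L5helper34.GL
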