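import Pool.Agent.L5helper34.GL.Cz
import Pool.Agent.Helper623_LS.Khin

set_option autoImplicit false
set_option linter.unusedVariables false

/-! The weighted bound for the square function of the kernels `psi`. -/

namespace Pool.Agent.L5helper34.GL

open MeasureTheory Filter Topology
open Pool.Agent.Helper623_LS (avg sg khin_lower)
open scoped ENNReal NNReal FourierTransform

lemma cv_kf (F : Finset (ℤ × ℕ)) (e : ℤ × ℕ → ℂ) {f : ℝ → ℂ} (hf : MemLp f 2) (x : ℝ) :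
    cv (kf F e) f x = ∑ i ∈ F, e i * ((dmp i.2 : ℂ) * cv (psi (YY i.1) i.2) f x) := by
  unfold cv kf
  simp only [Finset.sum_mul]
  rw [integral_finsetSum]
  · apply Finset.sum_congr rfl
    intro i _
    rw [← integral_const_mul, ← integral_const_mul]
    congr 1
    funext t
    ring
  · intro i _
    have h := (((psi_nice (YY_pos i.1) i.2).const_mul (dmp i.2 : ℂ)).const_mul (e i)).intg hf x
    exact h

lemma tm_aesm {f : ℝ → ℂ} (hf : AEStronglyMeasurable f volume) (i : ℤ × ℕ) :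
    AEStronglyMeasurable (tm f i) volume :=
  (cv_aesm (psi_nice (YY_pos i.1) i.2) hf).const_mul _

lemma sg_norm (b : Bool) : ‖sg b‖ = 1 := by
  unfold Pool.Agent.Helper623_LS.sg
  cases b <;> simp

theorem sq_fin {p q N : ℝ} (hpq : p.HolderConjugate q) {W : ℝ → ℝ} (hW : Wt p q N W) :
    ∃ C : ℝ≥0, ∀ F : Finset (ℤ × ℕ), ∀ f : ℝ → ℂ, MemLp f 2 →
      ∫⁻ x, ‖f x‖ₑ ^ p * ENNReal.ofReal (W x) ≠ ∞ →
      ∫⁻ x, (∑ i ∈ F, ‖tm f i x‖ₑ ^ 2) ^ (p / 2) * ENNReal.ofReal (W x) ≤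
        C * ∫⁻ x, ‖f x‖ₑ ^ p * ENNReal.ofReal (W x) := by
  classical
  obtain ⟨C, hC⟩ := kf_weighted hpq hW
  obtain ⟨K, hK, hkh⟩ := khin_lower p hpq.lt
  have hp := hpq.pos
  refine ⟨K.toNNReal * C, ?_⟩
  intro F f hf hfin
  set n := F.card with hn
  let σ : F ≃ Fin n := F.equivFin
  set e : (Fin n → Bool) → ℤ × ℕ → ℂ := fun ε i => if h : i ∈ F then sg (ε (σ ⟨i, h⟩)) else 0 with he
  have hen : ∀ ε i, ‖e ε i‖ ≤ 1 := by
    intro ε i
    simp only [he]
    split_ifs with h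
    · rw [sg_norm]
    · simp
  have hpt : ∀ x, (∑ i ∈ F, ‖tm f i x‖ₑ ^ 2) ^ (p / 2) ≤
      ENNReal.ofReal (K * ((2:ℝ) ^ n)⁻¹) * ∑ ε : Fin n → Bool, ‖cv (kf F (e ε)) f x‖ₑ ^ p := by
    intro x
    have h1 := hkh n ℂ (fun k => tm f (σ.symm k).1 x)
    have h2 : ∑ k, ‖tm f (σ.symm k).1 x‖ ^ 2 = ∑ i ∈ F, ‖tm f i x‖ ^ 2 := by
      rw [σ.symm.sum_comp (fun i : F => ‖tm f i.1 x‖ ^ 2)]
      exact Finset.sum_coe_sort F (fun i => ‖tm f i x‖ ^ 2)
    have h3 : ∀ ε : Fin n → Bool, ∑ k, sg (ε k) • tm f (σ.symm k).1 x = cv (kf F (e ε)) f x := by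
      intro ε
      rw [cv_kf F _ hf, ← Finset.sum_coe_sort F]
      rw [← σ.symm.sum_comp]
      apply Finset.sum_congr rfl
      intro k _
      have : e ε (σ.symm k).1 = sg (ε k) := by
        simp only [he]
        rw [dif_pos (σ.symm k).2]
        congr 2
        exact σ.apply_symm_apply k
      rw [this]
      rfl
    rw [h2] at h1
    simp only [h3] at h1
    have h4 : (∑ i ∈ F, ‖tm f i x‖ₑ ^ 2) ^ (p / 2) =
        ENNReal.ofReal ((∑ i ∈ F, ‖tm f i x‖ ^ 2) ^ (p / 2)) := by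
      rw [← ENNReal.ofReal_rpow_of_nonneg (Finset.sum_nonneg fun i _ => by positivity) (by positivity),
        ENNReal.ofReal_sum_of_nonneg (fun i _ => by positivity)]
      congr 1
      apply Finset.sum_congr rfl
      intro i _
      rw [← ofReal_norm, ENNReal.ofReal_pow (norm_nonneg _)]
    have h5 : ∀ ε : Fin n → Bool, ‖cv (kf F (e ε)) f x‖ₑ ^ p =
        ENNReal.ofReal (‖cv (kf F (e ε)) f x‖ ^ p) := by
      intro ε
      rw [← ofReal_norm, ENNReal.ofReal_rpow_of_nonneg (norm_nonneg _) hp.le]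
    rw [h4]
    simp only [h5]
    rw [← ENNReal.ofReal_sum_of_nonneg (fun ε _ => Real.rpow_nonneg (norm_nonneg _) _),
      ← ENNReal.ofReal_mul (by positivity)]
    apply ENNReal.ofReal_le_ofReal
    refine h1.trans (le_of_eq ?_)
    unfold Pool.Agent.Helper623_LS.avg
    ring
  have hWm : Measurable (fun x => ENNReal.ofReal (W x)) := hW.meas.ennreal_ofReal
  have hm : ∀ ε : Fin n → Bool, AEMeasurable (fun x => ‖cv (kf F (e ε)) f x‖ₑ ^ p *
      ENNReal.ofReal (W x)) volume := by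
    intro ε
    exact (((cv_aesm (kf_nice F _) hf.1).enorm).pow_const p).mul hWm.aemeasurable
  calc ∫⁻ x, (∑ i ∈ F, ‖tm f i x‖ₑ ^ 2) ^ (p / 2) * ENNReal.ofReal (W x)
      ≤ ∫⁻ x, ENNReal.ofReal (K * ((2:ℝ) ^ n)⁻¹) * ∑ ε : Fin n → Bool, ‖cv (kf F (e ε)) f x‖ₑ ^ p *
          ENNReal.ofReal (W x) := by
        apply lintegral_mono
        intro x
        simp only
        rw [← Finset.sum_mul, ← mul_assoc]
        exact mul_le_mul' (hpt x) le_rfl
    _ = ENNReal.ofReal (K * ((2:ℝ) ^ n)⁻¹) * ∑ ε : Fin n → Bool, ∫⁻ x, ‖cv (kf F (e ε)) f x‖ₑ ^ p *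
          ENNReal.ofReal (W x) := by
        rw [lintegral_const_mul' _ _ ENNReal.ofReal_ne_top, lintegral_finsetSum' _ (fun ε _ => hm ε)]
    _ ≤ ENNReal.ofReal (K * ((2:ℝ) ^ n)⁻¹) * ∑ ε : Fin n → Bool,
          (C * ∫⁻ x, ‖f x‖ₑ ^ p * ENNReal.ofReal (W x)) := by
        apply mul_le_mul' le_rfl
        apply Finset.sum_le_sum
        intro ε _
        exact hC F (e ε) (hen ε) f hf hfin
    _ = _ := by
        rw [Finset.sum_const, nsmul_eq_mul]
        have hc : ((Finset.univ : Finset (Fin n → Bool)).card : ℝ≥0∞) = ENNReal.ofReal (2 ^ n) := by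
          rw [Finset.card_univ, Fintype.card_fun, Fintype.card_bool, Fintype.card_fin]
          rw [ENNReal.ofReal_pow (by norm_num)]
          norm_num
        rw [hc, ← mul_assoc, ← ENNReal.ofReal_mul (by positivity)]
        have : K * ((2:ℝ) ^ n)⁻¹ * 2 ^ n = K := by field_simp
        rw [this, ENNReal.coe_mul, mul_assoc]
        rfl

theorem sq_full {p q N : ℝ} (hpq : p.HolderConjugate q) {W : ℝ → ℝ} (hW : Wt p q N W) :
    ∃ C : ℝ≥0, ∀ f : ℝ → ℂ, MemLp f 2 →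
      ∫⁻ x, ‖f x‖ₑ ^ p * ENNReal.ofReal (W x) ≠ ∞ →
      ∫⁻ x, (∑' i, ‖tm f i x‖ₑ ^ 2) ^ (p / 2) * ENNReal.ofReal (W x) ≤
        C * ∫⁻ x, ‖f x‖ₑ ^ p * ENNReal.ofReal (W x) := by
  obtain ⟨C, hC⟩ := sq_fin hpq hW
  have hp := hpq.pos
  refine ⟨C, ?_⟩
  intro f hf hfin
  obtain ⟨G, hG⟩ : ∃ G : ℕ → Finset (ℤ × ℕ), Tendsto G atTop atTop := by
    refine ⟨fun n => (Finset.Icc (-(n:ℤ)) n) ×ˢ Finset.range n, ?_⟩
    apply tendsto_atTop_finset_of_monotone
    · intro a b hab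
      apply Finset.product_subset_product
      · apply Finset.Icc_subset_Icc <;> omega
      · exact Finset.range_mono hab
    · rintro ⟨k, m⟩
      refine ⟨k.natAbs + m + 1, ?_⟩
      rw [Finset.mem_product, Finset.mem_Icc, Finset.mem_range]
      simp only
      omega
  have hlim : ∀ x, Tendsto (fun n => (∑ i ∈ G n, ‖tm f i x‖ₑ ^ 2) ^ (p / 2) * ENNReal.ofReal (W x)) atTop
      (𝓝 ((∑' i, ‖tm f i x‖ₑ ^ 2) ^ (p / 2) * ENNReal.ofReal (W x))) := by
    intro x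
    apply ENNReal.Tendsto.mul_const _ (Or.inr ENNReal.ofReal_ne_top)
    exact ((ENNReal.summable.hasSum).comp hG).ennrpow_const _
  have hm : ∀ n, AEMeasurable (fun x => (∑ i ∈ G n, ‖tm f i x‖ₑ ^ 2) ^ (p / 2) * ENNReal.ofReal (W x))
      volume := by
    intro n
    apply AEMeasurable.mul _ hW.meas.ennreal_ofReal.aemeasurable
    apply AEMeasurable.pow_const
    apply Finset.aemeasurable_fun_sum
    intro i _
    exact ((tm_aesm hf.1 i).enorm).pow_const 2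
  calc ∫⁻ x, (∑' i, ‖tm f i x‖ₑ ^ 2) ^ (p / 2) * ENNReal.ofReal (W x)
      = ∫⁻ x, liminf (fun n => (∑ i ∈ G n, ‖tm f i x‖ₑ ^ 2) ^ (p / 2) * ENNReal.ofReal (W x)) atTop := by
        apply lintegral_congr
        intro x
        exact (hlim x).liminf_eq.symm
    _ ≤ liminf (fun n => ∫⁻ x, (∑ i ∈ G n, ‖tm f i x‖ₑ ^ 2) ^ (p / 2) * ENNReal.ofReal (W x)) atTop :=
        lintegral_liminf_le' hm
    _ ≤ liminf (fun _ : ℕ => C * ∫⁻ x, ‖f x‖ₑ ^ p * ENNReal.ofReal (W x)) atTop := by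
        apply liminf_le_liminf (Eventually.of_forall fun n => hC (G n) f hf hfin)
    _ = _ := by simp

end Pool.Agent.L5helper34.GL
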