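import Pool.Agent.H433R3.Ml12

set_option autoImplicit false
set_option linter.unusedSectionVars false
set_option linter.unusedVariables false

/-! Calderon-Zygmund operators with explicit constants: the weighted bounds of `Pool.Agent.H433R3.Ml` are
uniform in the operator. The proofs are those of helper433 (H433R3), with the quantifiers moved. -/

namespace Pool.Agent.L5helper34.GL

open MeasureTheory Metric Filter Topology
open Pool.Agent.H433R3.Sep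
open scoped ENNReal NNReal

variable {d : ℕ} {𝕜 : Type*} [RCLike 𝕜]

/-- A Calderon-Zygmund operator with norm at most `cT` and with the kernel constants `cs`, `cr`, `ca`. -/
structure CZU (cT : ℝ≥0) (cs cr ca : ℝ)
    (T : Lp 𝕜 2 (volume : Measure (Fin d → ℝ)) →L[𝕜] Lp 𝕜 2 (volume : Measure (Fin d → ℝ)))
    (K : (Fin d → ℝ) → (Fin d → ℝ) → 𝕜) : Prop where
  czo : IsCZO T K
  nrm : ‖T‖₊ ≤ cT
  siz : ∀ x y, x ≠ y → ‖K x y‖ ≤ cs / el (x - y) ^ d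
  rgl : ∀ x x' y, x ≠ y → el (x - x') ≤ el (x - y) / 2 →
    ‖K x y - K x' y‖ + ‖K y x - K y x'‖ ≤ cr * el (x - x') ^ ca / el (x - y) ^ ((d : ℝ) + ca)

/-- Kernel regularity in the sup norm. -/
lemma kerdiffU (hd : 0 < d) (cT : ℝ≥0) (cs cr ca : ℝ) (hca : 0 < ca) :
    ∃ (D al : ℝ) (Ck : ℝ≥0), 1 ≤ D ∧ 0 < al ∧ ∀ (T : Lp 𝕜 2 (volume : Measure (Fin d → ℝ)) →L[𝕜]
      Lp 𝕜 2 (volume : Measure (Fin d → ℝ))) (K : (Fin d → ℝ) → (Fin d → ℝ) → 𝕜),
      CZU cT cs cr ca T K → ∀ (l : ℝ), 0 < l → ∀ x x' y, ‖x - x'‖ ≤ l →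
      2 * D * l ≤ ‖x - y‖ →
      ‖K x y - K x' y‖ ≤ Ck * ((2 * D * l) ^ al / (‖x - y‖ ^ al * ‖x - y‖ ^ d)) ∧
      ‖K y x - K y x'‖ ≤ Ck * ((2 * D * l) ^ al / (‖x - y‖ ^ al * ‖x - y‖ ^ d)) := by
  have hD1 : (1:ℝ) ≤ √d := by
    rw [Real.one_le_sqrt]; exact_mod_cast hd
  refine ⟨√d, ca, cr.toNNReal, hD1, hca, ?_⟩
  intro T K hT
  have hreg := hT.rgl
  obtain ⟨C, hCC⟩ : ∃ C : ℝ, C = cr := ⟨_, rfl⟩
  obtain ⟨al, hall⟩ : ∃ al : ℝ, al = ca := ⟨_, rfl⟩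
  rw [← hCC, ← hall] at hreg ⊢
  have hal0 : 0 < al := by rw [hall]; exact hca
  intro l hl x x' y hxx' hxy
  have hxy0 : 0 < ‖x - y‖ := lt_of_lt_of_le (by positivity) hxy
  have hne : x ≠ y := by
    intro h; rw [h, sub_self, norm_zero] at hxy0; exact lt_irrefl _ hxy0
  have h1 : el (x - x') ≤ √d * l := (el_le _).trans (mul_le_mul_of_nonneg_left hxx' (by positivity))
  have h2 : ‖x - y‖ ≤ el (x - y) := norm_le_el _
  have h3 := hreg x x' y hne (by linarith)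
  have h4 : el (x - x') ^ al ≤ (2 * √d * l) ^ al :=
    Real.rpow_le_rpow (el_nonneg _) (by nlinarith) hal0.le
  have h5 : ‖x - y‖ ^ al * ‖x - y‖ ^ d ≤ el (x - y) ^ ((d:ℝ) + al) := by
    rw [Real.rpow_add (lt_of_lt_of_le hxy0 h2), Real.rpow_natCast, mul_comm]
    apply mul_le_mul (pow_le_pow_left₀ hxy0.le h2 d) (Real.rpow_le_rpow hxy0.le h2 hal0.le)
      (Real.rpow_nonneg hxy0.le _)
    have := el_nonneg (x - y); positivity
  have hC : C ≤ (C.toNNReal : ℝ) := Real.le_coe_toNNReal C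
  have h6 : C * el (x - x') ^ al / el (x - y) ^ ((d : ℝ) + al) ≤
      (C.toNNReal : ℝ) * ((2 * √d * l) ^ al / (‖x - y‖ ^ al * ‖x - y‖ ^ d)) := by
    have e0 : 0 ≤ el (x - x') ^ al := Real.rpow_nonneg (el_nonneg _) _
    have e1 : 0 < ‖x - y‖ ^ al * ‖x - y‖ ^ d := by
      have := Real.rpow_pos_of_pos hxy0 al; positivity
    calc C * el (x - x') ^ al / el (x - y) ^ ((d : ℝ) + al)
        ≤ (C.toNNReal : ℝ) * el (x - x') ^ al / el (x - y) ^ ((d : ℝ) + al) := by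
          apply div_le_div_of_nonneg_right (mul_le_mul_of_nonneg_right hC e0)
          exact Real.rpow_nonneg (el_nonneg _) _
      _ ≤ (C.toNNReal : ℝ) * el (x - x') ^ al / (‖x - y‖ ^ al * ‖x - y‖ ^ d) :=
          div_le_div_of_nonneg_left (mul_nonneg (NNReal.coe_nonneg _) e0) e1 h5
      _ ≤ (C.toNNReal : ℝ) * (2 * √d * l) ^ al / (‖x - y‖ ^ al * ‖x - y‖ ^ d) := by
          apply div_le_div_of_nonneg_right _ e1.le
          exact mul_le_mul_of_nonneg_left h4 (NNReal.coe_nonneg _)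
      _ = _ := by rw [mul_div_assoc]
  constructor
  · have := norm_nonneg (K y x - K y x'); linarith
  · have := norm_nonneg (K x y - K x' y); linarith

lemma TT_L2U (cT : ℝ≥0) : ∃ CT : ℝ≥0, ∀ (T : Lp 𝕜 2 (volume : Measure (Fin d → ℝ)) →L[𝕜]
      Lp 𝕜 2 (volume : Measure (Fin d → ℝ))), ‖T‖₊ ≤ cT →
    ∀ f : (Fin d → ℝ) → 𝕜, MemLp f 2 volume →
    ∫⁻ x, ‖TT T f x‖ₑ ^ 2 ≤ CT * ∫⁻ x, ‖f x‖ₑ ^ 2 := by
  refine ⟨cT ^ 2, fun T hT f hf => ?_⟩
  rw [← lint_sq, ← lint_sq, TT_eq hf]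
  have h1 : eLpNorm (T (hf.toLp f)) 2 volume ≤ ‖T‖₊ * eLpNorm f 2 volume := by
    have h2 : ‖T (hf.toLp f)‖ₑ ≤ ‖T‖ₑ * ‖hf.toLp f‖ₑ := T.le_opENorm _
    rw [Lp.enorm_def, Lp.enorm_toLp] at h2
    exact h2
  have h3 : eLpNorm (T (hf.toLp f)) 2 volume ≤ cT * eLpNorm f 2 volume :=
    h1.trans (mul_le_mul' (by exact_mod_cast hT) le_rfl)
  calc eLpNorm (T (hf.toLp f)) 2 volume ^ 2 ≤ (cT * eLpNorm f 2 volume) ^ 2 :=
        pow_le_pow_left₀ bot_le h3 2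
    _ = _ := by rw [mul_pow]; push_cast; rfl

/-- bad pieces -/
lemma badPieceU (hd : 0 < d) (cT : ℝ≥0) (cs cr ca : ℝ) (hca : 0 < ca) : ∃ (D : ℝ) (Cb : ℝ≥0), 1 ≤ D ∧
    ∀ (T : Lp 𝕜 2 (volume : Measure (Fin d → ℝ)) →L[𝕜]
      Lp 𝕜 2 (volume : Measure (Fin d → ℝ))) (K : (Fin d → ℝ) → (Fin d → ℝ) → 𝕜),
      CZU cT cs cr ca T K →
    ∀ (t : Fin d → Bool) (I : Idx d) (β : (Fin d → ℝ) → 𝕜), AEStronglyMeasurable β volume →
    (∃ B : ℝ, ∀ x, ‖β x‖ ≤ B) → (∀ x, x ∉ gq t I → β x = 0) → ∫ x, β x = 0 →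
    ∫⁻ x in {x | 2 * D * 2 ^ I.1 ≤ ‖x - ctr t I‖}, ‖TT T β x‖ₑ ≤ Cb * ∫⁻ x, ‖β x‖ₑ := by
  obtain ⟨D, al, Ck, hD, hal, hkerU⟩ := kerdiffU (𝕜 := 𝕜) hd cT cs cr ca hca
  obtain ⟨Ct, hCt⟩ := tail d al hal
  refine ⟨D, Ck * Ct, hD, ?_⟩
  intro T K hT
  have hker := hkerU T K hT
  intro t I β hβm hβB hβ0 hβi
  obtain ⟨B, hB⟩ := hβB
  set l : ℝ := 2 ^ I.1 with hl
  have hl0 : 0 < l := by rw [hl]; positivity
  set c := ctr t I with hc
  have hsub : gq t I ⊆ closedBall c (l / 2) := by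
    have := gq_sub_dil (le_refl (1:ℝ)) t I
    unfold dil at this
    rwa [one_mul] at this
  have hβ0' : ∀ x, x ∉ closedBall c (l/2) → β x = 0 := fun x hx => hβ0 x (fun h => hx (hsub h))
  have hint : Integrable β volume := by
    rw [← memLp_one_iff_integrable]
    exact bddMem hβm hB (gq_meas t I) (gq_vol_pos t I).2 hβ0 1
  have hrep := rep_pt hT.czo hβm hB hβ0' isClosed_closedBall hβ0'
  have hpt : ∀ᵐ x, x ∈ {x : Fin d → ℝ | 2 * D * l ≤ ‖x - c‖} → ‖TT T β x‖ₑ ≤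
      (Ck * ∫⁻ y, ‖β y‖ₑ) * (1 * ENNReal.ofReal ((2 * D * l) ^ al / (‖x - c‖ ^ al * ‖x - c‖ ^ d))) := by
    filter_upwards [hrep] with x hx hxS
    have hxS' : 2 * D * l ≤ ‖x - c‖ := hxS
    set G : ℝ := (2 * D * l) ^ al / (‖x - c‖ ^ al * ‖x - c‖ ^ d) with hG
    have hG0 : 0 ≤ G := by
      have : 0 ≤ (2 * D * l) ^ al := Real.rpow_nonneg (by positivity) _
      have : 0 ≤ ‖x - c‖ ^ al := Real.rpow_nonneg (norm_nonneg _) _
      positivity
    have hxF : x ∉ closedBall c (l/2) := by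
      rw [mem_closedBall, dist_eq_norm]
      have : l ≤ D * l := le_mul_of_one_le_left hl0.le hD
      push Not
      linarith
    rw [hx hxF]
    by_cases hi : Integrable (fun y => K x y * β y) volume
    · have hi2 : Integrable (fun y => K x c * β y) volume := hint.const_mul _
      have e1 : ∫ y, K x y * β y = ∫ y, (K x y * β y - K x c * β y) := by
        rw [integral_sub hi hi2, integral_const_mul, hβi]; simp
      rw [e1]
      refine (enorm_integral_le_lintegral_enorm _).trans ?_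
      rw [one_mul, mul_right_comm, ← lintegral_const_mul' _ _ (by
        exact ENNReal.mul_ne_top ENNReal.coe_ne_top ENNReal.ofReal_ne_top)]
      apply lintegral_mono
      intro y
      show ‖K x y * β y - K x c * β y‖ₑ ≤ (Ck * ENNReal.ofReal G) * ‖β y‖ₑ
      rw [← sub_mul, enorm_mul]
      by_cases hy : y ∈ gq t I
      · apply mul_le_mul' _ le_rfl
        have hyc : ‖c - y‖ ≤ l := by
          have := hsub hy
          rw [mem_closedBall, dist_eq_norm] at this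
          rw [norm_sub_rev]; linarith
        have h1 := (hker l hl0 c y x hyc (by rw [norm_sub_rev]; exact hxS')).2
        rw [norm_sub_rev c x] at h1
        rw [← ofReal_norm, ← ENNReal.ofReal_coe_nnreal, ← ENNReal.ofReal_mul
          (NNReal.coe_nonneg _)]
        apply ENNReal.ofReal_le_ofReal
        rw [norm_sub_rev]
        exact h1
      · rw [hβ0 y hy]; simp
    · rw [integral_undef hi]; simp
  have hmS : MeasurableSet {x : Fin d → ℝ | 2 * D * l ≤ ‖x - c‖} := by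
    apply measurableSet_le measurable_const
    fun_prop
  have ht := hCt (fun _ => 1) c (2 * D * l) 1 measurable_const (by positivity) (by
    intro ρ _
    simp)
  calc ∫⁻ x in {x | 2 * D * l ≤ ‖x - c‖}, ‖TT T β x‖ₑ
      ≤ ∫⁻ x in {x | 2 * D * l ≤ ‖x - c‖}, (Ck * ∫⁻ y, ‖β y‖ₑ) *
        (1 * ENNReal.ofReal ((2 * D * l) ^ al / (‖x - c‖ ^ al * ‖x - c‖ ^ d))) :=
        setLIntegral_mono_ae' hmS hpt
    _ = (Ck * ∫⁻ y, ‖β y‖ₑ) * ∫⁻ x in {x | 2 * D * l ≤ ‖x - c‖},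
        (1 * ENNReal.ofReal ((2 * D * l) ^ al / (‖x - c‖ ^ al * ‖x - c‖ ^ d))) := by
        rw [lintegral_const_mul']
        exact ENNReal.mul_ne_top ENNReal.coe_ne_top (by
          have := hint.2
          exact this.ne)
    _ ≤ (Ck * ∫⁻ y, ‖β y‖ₑ) * (Ct * 1) := mul_le_mul' le_rfl ht
    _ = _ := by push_cast; ring

end Pool.Agent.L5helper34.GL
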