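import Pool.Agent.L5helper34.GL.U1

set_option autoImplicit false
set_option linter.unusedSectionVars false
set_option linter.unusedVariables false

/-! Weak type (1,1), uniformly in the operator (after helper433). -/

namespace Pool.Agent.L5helper34.GL

open MeasureTheory Metric Filter Topology
open Pool.Agent.H433R3.Sep
open scoped ENNReal NNReal

variable {d : ℕ} {𝕜 : Type*} [RCLike 𝕜]

/-- weak type (1,1) with a remainder -/
lemma weakStepU (hd : 0 < d) (cT : ℝ≥0) (cs cr ca : ℝ) (hca : 0 < ca) : ∃ W C₂ : ℝ≥0,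
    ∀ (T : Lp 𝕜 2 (volume : Measure (Fin d → ℝ)) →L[𝕜]
      Lp 𝕜 2 (volume : Measure (Fin d → ℝ))) (K : (Fin d → ℝ) → (Fin d → ℝ) → 𝕜),
      CZU cT cs cr ca T K → ∀ (f : (Fin d → ℝ) → 𝕜),
    Measurable f → ∀ B : ℝ≥0, (∀ x, ‖f x‖ ≤ B) → ∀ (c : Fin d → ℝ) (R : ℝ),
    (∀ x, x ∉ closedBall c R → f x = 0) → ∀ lam : ℝ≥0, 0 < lam → ∀ N : ℕ,
    (lam : ℝ≥0∞) * volume {x | (lam : ℝ≥0∞) < ‖TT T f x‖ₑ} ≤ W * (∫⁻ x, ‖f x‖ₑ) +
      (C₂ * B ^ 2 / lam) * volume ({x | (lam : ℝ≥0∞) < ‖f x‖ₑ} \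
        VN (fun _ => false) (fun x => ‖f x‖ₑ) lam N) := by
  classical
  obtain ⟨D, Cb, hD, hbadU⟩ := badPieceU (𝕜 := 𝕜) hd cT cs cr ca hca
  obtain ⟨CT, hCTU⟩ := TT_L2U (𝕜 := 𝕜) (d := d) cT
  refine ⟨16 * CT + 16 * (2 ^ d * CT) + 8 * Cb + (4 * D.toNNReal) ^ d, 16 * CT, ?_⟩
  intro T K hT
  have hbad := hbadU T K hT
  have hCT := hCTU T hT.nrm
  intro f hf B hB c R h0 lam hlam N
  set t : Fin d → Bool := fun _ => false with ht
  set L1 := ∫⁻ x, ‖f x‖ₑ with hL1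
  have hD0 : 0 < D := by linarith
  have hlne : (lam : ℝ≥0∞) ≠ 0 := by exact_mod_cast hlam.ne'
  have hfL : ∀ p : ℝ≥0∞, MemLp f p volume := fun p =>
    bddMem hf.aestronglyMeasurable hB isClosed_closedBall.measurableSet (vol_cb_fin c R) h0 p
  have hfint : Integrable f volume := memLp_one_iff_integrable.1 (hfL 1)
  have hL1fin : L1 < ∞ := hfint.2
  have hfe : Measurable (fun x => ‖f x‖ₑ) := hf.enorm
  set p : Idx d → Prop := fun I => -(N:ℤ) ≤ I.1 ∧ lam * volume (gq t I) < ∫⁻ x in gq t I, ‖f x‖ₑ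
    with hp
  obtain ⟨j₀, hj₀⟩ := lev_bdd hd L1 lam hL1fin hlne ENNReal.coe_ne_top
  have hplev : ∀ I, p I → I.1 ≤ j₀ := fun I hI =>
    hj₀ t I (lt_of_lt_of_le hI.2 (setLIntegral_le_lintegral _ _))
  obtain ⟨M, hM1, hM2, hM3, hM4⟩ := stop t p (fun x => ⟨j₀, fun j hj => hplev _ hj⟩)
  set U := ⋃ I ∈ M, gq t I with hU
  have hUV : U = VN t (fun x => ‖f x‖ₑ) lam N := by
    apply Set.Subset.antisymm
    · apply Set.iUnion₂_subset
      intro I hI x hx
      exact Set.mem_iUnion₂.2 ⟨I, hM1 I hI, hx⟩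
    · apply Set.iUnion₂_subset
      intro I hI
      exact hM4 I hI
  have hMc : M.Countable := Set.to_countable M
  have hUm : MeasurableSet U := MeasurableSet.biUnion hMc (fun I _ => gq_meas t I)
  have hMdisj : M.PairwiseDisjoint (fun I => gq t I) := fun I hI J hJ hIJ => hM3 I hI J hJ hIJ
  have hUvol : (lam : ℝ≥0∞) * volume U ≤ ∫⁻ x in U, ‖f x‖ₑ := by
    rw [hU, measure_biUnion hMc hMdisj (fun I _ => gq_meas t I), ← ENNReal.tsum_mul_left,
      lintegral_biUnion hMc (fun I _ => gq_meas t I) hMdisj]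
    exact ENNReal.tsum_le_tsum (fun I => (hM1 I I.2).2.le)
  have hUvolfin : volume U ≠ ∞ := by
    intro h
    rw [h, ENNReal.mul_top hlne] at hUvol
    have h2 : ∫⁻ x in U, ‖f x‖ₑ < ∞ := lt_of_le_of_lt (setLIntegral_le_lintegral _ _) hL1fin
    exact absurd (lt_of_le_of_lt hUvol h2) (by simp)
  have hMfin : M.Finite := by
    have h1 := Measure.finite_const_le_meas_of_disjoint_iUnion (volume : Measure (Fin d → ℝ))
      (ε := ENNReal.ofReal (2 ^ (-(N:ℤ))) ^ d) (by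
        apply pos_iff_ne_zero.2
        apply pow_ne_zero
        simp only [ne_eq, ENNReal.ofReal_eq_zero, not_le]; positivity)
      (As := fun I : M => gq t (I : Idx d)) (fun I => gq_meas t I)
      (fun I J hIJ => hM3 I I.2 J J.2 (fun h => hIJ (Subtype.ext h))) (by
        rw [Set.biUnion_eq_iUnion] at hU
        rw [← hU]; exact hUvolfin)
    have h2 : {I : M | ENNReal.ofReal (2 ^ (-(N:ℤ))) ^ d ≤ volume (gq t (I : Idx d))} = Set.univ := by
      ext I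
      simp only [Set.mem_univ, iff_true]
      show ENNReal.ofReal (2 ^ (-(N:ℤ))) ^ d ≤ volume (gq t (I : Idx d))
      rw [gq_vol]
      apply pow_le_pow_left₀ bot_le
      apply ENNReal.ofReal_le_ofReal
      exact zpow_le_zpow_right₀ (by norm_num) (hM1 I I.2).1
    rw [h2] at h1
    exact Set.finite_coe_iff.1 (Set.finite_univ_iff.1 h1)
  set Mf := hMfin.toFinset with hMf
  have hmem : ∀ I, I ∈ Mf ↔ I ∈ M := fun I => hMfin.mem_toFinset
  have hUf : U = ⋃ I ∈ Mf, gq t I := by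
    rw [hU]; ext x; simp only [Set.mem_iUnion, hmem]
  have hsumint : ∑ I ∈ Mf, ∫⁻ x in gq t I, ‖f x‖ₑ = ∫⁻ x in U, ‖f x‖ₑ := by
    rw [hUf, lintegral_biUnion_finset]
    · intro I hI J hJ hIJ
      exact hM3 I ((hmem I).1 hI) J ((hmem J).1 hJ) hIJ
    · intro I _; exact gq_meas t I
  have hsumL1 : ∑ I ∈ Mf, ∫⁻ x in gq t I, ‖f x‖ₑ ≤ L1 := by
    rw [hsumint]; exact setLIntegral_le_lintegral _ _
  -- parents
  have hpar : ∀ I ∈ Mf, ∫⁻ x in gq t I, ‖f x‖ₑ ≤ 2 ^ d * lam * volume (gq t I) := by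
    intro I hI
    have hIM := (hmem I).1 hI
    obtain ⟨x, hx⟩ := gq_nonempty t I
    have h1 := hM2 I hIM x hx (I.1 + 1) (by omega)
    have h2 : (ix t (I.1 + 1) x).1 = I.1 + 1 := rfl
    simp only [hp, h2, not_and, not_lt] at h1
    have h3 := h1 (by have := (hM1 I hIM).1; omega)
    rw [parent_vol t] at h3
    refine (lintegral_mono_set (gq_nest t (I := I) (J := ix t (I.1 + 1) x) (by rw [h2]; omega) hx
      (mem_gq_ix t _ x))).trans (h3.trans (le_of_eq (by ring)))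
  -- averages
  set m : Idx d → 𝕜 := fun I => ⨍ x in gq t I, f x with hm
  have hmI : ∀ I, ‖m I‖ₑ * volume (gq t I) ≤ ∫⁻ x in gq t I, ‖f x‖ₑ := by
    intro I
    have hv := gq_vol_pos t I
    simp only [hm]
    rw [setAverage_eq, enorm_smul]
    have e1 : ‖(volume.real (gq t I))⁻¹‖ₑ = (volume (gq t I))⁻¹ := by
      have hpos : 0 < volume.real (gq t I) := ENNReal.toReal_pos hv.1.ne' hv.2.ne
      rw [Real.enorm_eq_ofReal (by positivity), ENNReal.ofReal_inv_of_pos hpos]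
      congr 1
      exact ENNReal.ofReal_toReal hv.2.ne
    rw [e1, mul_right_comm, ENNReal.inv_mul_cancel hv.1.ne' hv.2.ne, one_mul]
    exact enorm_integral_le_lintegral_enorm _
  have hmI2 : ∀ I ∈ Mf, ‖m I‖ₑ ≤ 2 ^ d * lam := by
    intro I hI
    have hv := gq_vol_pos t I
    have h1 := (hmI I).trans (hpar I hI)
    exact (ENNReal.mul_le_mul_iff_left hv.1.ne' hv.2.ne).1 h1
  -- the pieces
  set β : Idx d → (Fin d → ℝ) → 𝕜 := fun I => (gq t I).indicator (fun x => f x - m I) with hβ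
  have hβm : ∀ I, Measurable (β I) := fun I => (hf.sub_const _).indicator (gq_meas t I)
  have hβ0 : ∀ I x, x ∉ gq t I → β I x = 0 := fun I x hx => Set.indicator_of_notMem hx _
  have hβB : ∀ I, ∀ x, ‖β I x‖ ≤ B + ‖m I‖ := by
    intro I x
    by_cases hx : x ∈ gq t I
    · simp only [hβ]; rw [Set.indicator_of_mem hx]
      exact (norm_sub_le _ _).trans (add_le_add (hB x) le_rfl)
    · rw [hβ0 I x hx, norm_zero]; positivity
  have hβL : ∀ I, MemLp (β I) 2 volume := fun I =>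
    bddMem (hβm I).aestronglyMeasurable (hβB I) (gq_meas t I) (gq_vol_pos t I).2 (hβ0 I) 2
  have hβi : ∀ I, ∫ x, β I x = 0 := by
    intro I
    simp only [hβ]
    rw [integral_indicator (gq_meas t I)]
    have : IsFiniteMeasure (volume.restrict (gq t I)) := ⟨by
      rw [Measure.restrict_apply MeasurableSet.univ, Set.univ_inter]; exact (gq_vol_pos t I).2⟩
    exact integral_sub_average _ _
  have hβ1 : ∀ I, ∫⁻ x, ‖β I x‖ₑ ≤ 2 * ∫⁻ x in gq t I, ‖f x‖ₑ := by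
    intro I
    have h1 : ∀ x, ‖β I x‖ₑ = (gq t I).indicator (fun x => ‖f x - m I‖ₑ) x := by
      intro x
      by_cases hx : x ∈ gq t I
      · simp only [hβ]; rw [Set.indicator_of_mem hx, Set.indicator_of_mem hx]
      · rw [hβ0 I x hx, Set.indicator_of_notMem hx, enorm_zero]
    calc ∫⁻ x, ‖β I x‖ₑ = ∫⁻ x in gq t I, ‖f x - m I‖ₑ := by
          rw [lintegral_congr h1, lintegral_indicator (gq_meas t I)]
      _ ≤ ∫⁻ x in gq t I, (‖f x‖ₑ + ‖m I‖ₑ) := lintegral_mono (fun x => enorm_sub_le)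
      _ = (∫⁻ x in gq t I, ‖f x‖ₑ) + ‖m I‖ₑ * volume (gq t I) := by
          rw [lintegral_add_right _ measurable_const, lintegral_const,
            Measure.restrict_apply MeasurableSet.univ, Set.univ_inter]
      _ ≤ (∫⁻ x in gq t I, ‖f x‖ₑ) + ∫⁻ x in gq t I, ‖f x‖ₑ := add_le_add le_rfl (hmI I)
      _ = _ := by ring
  set G₁ : Set (Fin d → ℝ) := {x | ‖f x‖ₑ ≤ lam} \ U with hG₁
  set G₂ : Set (Fin d → ℝ) := {x | (lam:ℝ≥0∞) < ‖f x‖ₑ} \ U with hG₂
  have hG₁m : MeasurableSet G₁ := (measurableSet_le hfe measurable_const).diff hUm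
  have hG₂m : MeasurableSet G₂ := (measurableSet_lt measurable_const hfe).diff hUm
  set g₁ : (Fin d → ℝ) → 𝕜 := G₁.indicator f with hg₁
  set g₂ : (Fin d → ℝ) → 𝕜 := fun x => ∑ I ∈ Mf, (gq t I).indicator (fun _ => m I) x with hg₂
  set b : (Fin d → ℝ) → 𝕜 := fun x => ∑ I ∈ Mf, β I x with hb
  set h : (Fin d → ℝ) → 𝕜 := G₂.indicator f with hh
  have hg₁L : MemLp g₁ 2 volume := (hfL 2).indicator hG₁m
  have hhL : MemLp h 2 volume := (hfL 2).indicator hG₂m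
  have hg₂L : MemLp g₂ 2 volume := by
    apply memLp_finsetSum
    intro I _
    exact memLp_indicator_const 2 (gq_meas t I) _ (Or.inr (gq_vol_pos t I).2.ne)
  have hbL : MemLp b 2 volume := memLp_finsetSum _ (fun I _ => hβL I)
  -- decomposition
  have huniq : ∀ x ∈ U, ∃ I₀ ∈ Mf, x ∈ gq t I₀ ∧ ∀ I ∈ Mf, I ≠ I₀ → x ∉ gq t I := by
    intro x hx
    rw [hUf] at hx
    obtain ⟨I₀, hI₀, hxI₀⟩ := Set.mem_iUnion₂.1 hx
    refine ⟨I₀, hI₀, hxI₀, fun I hI hne hxI => ?_⟩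
    exact Set.disjoint_left.1 (hM3 I ((hmem I).1 hI) I₀ ((hmem I₀).1 hI₀) hne) hxI hxI₀
  have hdec : ∀ x, f x = ((g₁ x + g₂ x) + b x) + h x := by
    intro x
    by_cases hx : x ∈ U
    · obtain ⟨I₀, hI₀, hxI₀, hun⟩ := huniq x hx
      have e1 : g₁ x = 0 := Set.indicator_of_notMem (fun hc => hc.2 hx) _
      have e2 : h x = 0 := Set.indicator_of_notMem (fun hc => hc.2 hx) _
      have e3 : g₂ x = m I₀ := by
        simp only [hg₂]
        rw [Finset.sum_eq_single I₀, Set.indicator_of_mem hxI₀]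
        · intro I hI hne
          exact Set.indicator_of_notMem (hun I hI hne) _
        · intro hc; exact absurd hI₀ hc
      have e4 : b x = f x - m I₀ := by
        simp only [hb]
        rw [Finset.sum_eq_single I₀]
        · simp only [hβ]; rw [Set.indicator_of_mem hxI₀]
        · intro I hI hne
          exact hβ0 I x (hun I hI hne)
        · intro hc; exact absurd hI₀ hc
      rw [e1, e2, e3, e4]; ring
    · have e3 : g₂ x = 0 := by
        apply Finset.sum_eq_zero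
        intro I hI
        apply Set.indicator_of_notMem
        intro hc; apply hx; rw [hUf]; exact Set.mem_iUnion₂.2 ⟨I, hI, hc⟩
      have e4 : b x = 0 := by
        apply Finset.sum_eq_zero
        intro I hI
        apply hβ0
        intro hc; apply hx; rw [hUf]; exact Set.mem_iUnion₂.2 ⟨I, hI, hc⟩
      rw [e3, e4]
      by_cases hl : ‖f x‖ₑ ≤ lam
      · have hm1 : x ∈ G₁ := ⟨hl, hx⟩
        have e1 : g₁ x = f x := Set.indicator_of_mem hm1 _
        have e2 : h x = 0 := Set.indicator_of_notMem (fun hc : x ∈ G₂ => (not_lt.2 hl) hc.1) _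
        rw [e1, e2]; ring
      · have e1 : g₁ x = 0 := Set.indicator_of_notMem (fun hc : x ∈ G₁ => hl hc.1) _
        have hm1 : x ∈ G₂ := ⟨not_le.1 hl, hx⟩
        have e2 : h x = f x := Set.indicator_of_mem hm1 _
        rw [e1, e2]; ring
  have hTdec : ∀ᵐ x, TT T f x = ((TT T g₁ x + TT T g₂ x) + ∑ I ∈ Mf, TT T (β I) x) + TT T h x := by
    have e0 : TT T f = TT T (fun x => ((g₁ x + g₂ x) + b x) + h x) := by
      congr 1; funext x; exact hdec x
    have a1 := TT_add (T := T) hg₁L hg₂L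
    have a2 := TT_add (T := T) (hg₁L.add hg₂L) hbL
    have a3 := TT_add (T := T) ((hg₁L.add hg₂L).add hbL) hhL
    have a4 := TT_sum (T := T) Mf β (fun I _ => hβL I)
    filter_upwards [a1, a2, a3, a4] with x h1 h2 h3 h4
    rw [e0]
    refine h3.trans ?_
    congr 1
    refine h2.trans ?_
    rw [← h4]
    congr 1
  -- L² norms
  have hg₁2 : ∫⁻ x, ‖g₁ x‖ₑ ^ 2 ≤ lam * L1 := by
    rw [hL1, ← lintegral_const_mul _ hfe]
    apply lintegral_mono
    intro x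
    show ‖g₁ x‖ₑ ^ 2 ≤ lam * ‖f x‖ₑ
    by_cases hx : x ∈ G₁
    · have e : g₁ x = f x := Set.indicator_of_mem hx _
      rw [e, sq]
      exact mul_le_mul' hx.1 le_rfl
    · have e : g₁ x = 0 := Set.indicator_of_notMem hx _
      rw [e, enorm_zero]; simp
  have hg₂2 : ∫⁻ x, ‖g₂ x‖ₑ ^ 2 ≤ (2 ^ d * lam) * L1 := by
    have h1 : ∀ x, ‖g₂ x‖ₑ ^ 2 ≤ ∑ I ∈ Mf, (gq t I).indicator (fun _ => ‖m I‖ₑ ^ 2) x := by
      intro x
      by_cases hx : x ∈ U
      · obtain ⟨I₀, hI₀, hxI₀, hun⟩ := huniq x hx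
        have e3 : g₂ x = m I₀ := by
          simp only [hg₂]
          rw [Finset.sum_eq_single I₀, Set.indicator_of_mem hxI₀]
          · intro I hI hne
            exact Set.indicator_of_notMem (hun I hI hne) _
          · intro hc; exact absurd hI₀ hc
        rw [e3]
        refine le_trans (le_of_eq ?_) (Finset.single_le_sum (f := fun I => (gq t I).indicator
          (fun _ => ‖m I‖ₑ ^ 2) x) (fun _ _ => bot_le) hI₀)
        rw [Set.indicator_of_mem hxI₀]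
      · have e3 : g₂ x = 0 := by
          apply Finset.sum_eq_zero
          intro I hI
          apply Set.indicator_of_notMem
          intro hc; apply hx; rw [hUf]; exact Set.mem_iUnion₂.2 ⟨I, hI, hc⟩
        rw [e3, enorm_zero]; simp
    calc ∫⁻ x, ‖g₂ x‖ₑ ^ 2 ≤ ∫⁻ x, ∑ I ∈ Mf, (gq t I).indicator (fun _ => ‖m I‖ₑ ^ 2) x :=
          lintegral_mono h1
      _ = ∑ I ∈ Mf, ‖m I‖ₑ ^ 2 * volume (gq t I) := by
          rw [lintegral_finsetSum _ (fun I _ => measurable_const.indicator (gq_meas t I))]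
          apply Finset.sum_congr rfl
          intro I _
          rw [lintegral_indicator (gq_meas t I), lintegral_const,
            Measure.restrict_apply MeasurableSet.univ, Set.univ_inter]
      _ ≤ ∑ I ∈ Mf, (2 ^ d * lam) * ∫⁻ x in gq t I, ‖f x‖ₑ := by
          apply Finset.sum_le_sum
          intro I hI
          rw [sq, mul_assoc]
          exact mul_le_mul' (hmI2 I hI) (hmI I)
      _ = (2 ^ d * lam) * ∑ I ∈ Mf, ∫⁻ x in gq t I, ‖f x‖ₑ := by rw [Finset.mul_sum]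
      _ ≤ _ := mul_le_mul' le_rfl hsumL1
  have hh2 : ∫⁻ x, ‖h x‖ₑ ^ 2 ≤ (B:ℝ≥0∞) ^ 2 * volume G₂ := by
    calc ∫⁻ x, ‖h x‖ₑ ^ 2 ≤ ∫⁻ x, G₂.indicator (fun _ => (B:ℝ≥0∞) ^ 2) x := by
          apply lintegral_mono
          intro x
          show ‖h x‖ₑ ^ 2 ≤ G₂.indicator (fun _ => (B:ℝ≥0∞) ^ 2) x
          by_cases hx : x ∈ G₂
          · have e : h x = f x := Set.indicator_of_mem hx _
            rw [e, Set.indicator_of_mem hx]
            apply pow_le_pow_left₀ bot_le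
            rw [← ofReal_norm, ← ENNReal.ofReal_coe_nnreal]
            exact ENNReal.ofReal_le_ofReal (hB x)
          · have e : h x = 0 := Set.indicator_of_notMem hx _
            rw [e, enorm_zero]; simp
      _ = _ := by
          rw [lintegral_indicator hG₂m, lintegral_const,
            Measure.restrict_apply MeasurableSet.univ, Set.univ_inter]
  -- level sets
  set lam' : ℝ≥0 := lam / 4 with hlam'
  have hlam4 : (lam : ℝ≥0∞) = 4 * (lam' : ℝ≥0∞) := by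
    have : lam = 4 * (lam / 4) := by field_simp
    rw [hlam']
    conv_lhs => rw [this]
    push_cast; rfl
  set S₁ := {x | (lam' : ℝ≥0∞) < ‖TT T g₁ x‖ₑ} with hS₁
  set S₂ := {x | (lam' : ℝ≥0∞) < ‖TT T g₂ x‖ₑ} with hS₂
  set S₄ := {x | (lam' : ℝ≥0∞) < ‖TT T h x‖ₑ} with hS₄
  set Os : Set (Fin d → ℝ) := ⋃ I ∈ Mf, closedBall (ctr t I) (2 * D * 2 ^ I.1) with hOs
  have hOsm : MeasurableSet Os := Finset.measurableSet_biUnion _ (fun I _ => isClosed_closedBall.measurableSet)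
  set S₃ := {x | (lam' : ℝ≥0∞) ≤ (Osᶜ).indicator (fun x => ∑ I ∈ Mf, ‖TT T (β I) x‖ₑ) x} with hS₃
  have hcov : {x | (lam : ℝ≥0∞) < ‖TT T f x‖ₑ} ≤ᵐ[volume] (S₁ ∪ S₂ ∪ S₄ ∪ (S₃ ∪ Os) : Set (Fin d → ℝ)) := by
    filter_upwards [hTdec] with x hx hxS
    have hxS' : (lam : ℝ≥0∞) < ‖TT T f x‖ₑ := hxS
    by_contra hcon
    have n1 : x ∉ S₁ := fun hc => hcon (Or.inl (Or.inl (Or.inl hc)))
    have n2 : x ∉ S₂ := fun hc => hcon (Or.inl (Or.inl (Or.inr hc)))
    have n4 : x ∉ S₄ := fun hc => hcon (Or.inl (Or.inr hc))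
    have n3 : x ∉ S₃ := fun hc => hcon (Or.inr (Or.inl hc))
    have n5 : x ∉ Os := fun hc => hcon (Or.inr (Or.inr hc))
    have m1 : ‖TT T g₁ x‖ₑ ≤ lam' := not_lt.1 n1
    have m2 : ‖TT T g₂ x‖ₑ ≤ lam' := not_lt.1 n2
    have m4 : ‖TT T h x‖ₑ ≤ lam' := not_lt.1 n4
    have m3 : (Osᶜ).indicator (fun x => ∑ I ∈ Mf, ‖TT T (β I) x‖ₑ) x < lam' := not_le.1 n3
    rw [Set.indicator_of_mem (show x ∈ Osᶜ from n5)] at m3
    have m3' : ‖∑ I ∈ Mf, TT T (β I) x‖ₑ ≤ lam' := (enorm_sum_le _ _).trans m3.le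
    rw [hx, hlam4] at hxS'
    have := calc ‖((TT T g₁ x + TT T g₂ x) + ∑ I ∈ Mf, TT T (β I) x) + TT T h x‖ₑ
        ≤ ((‖TT T g₁ x‖ₑ + ‖TT T g₂ x‖ₑ) + ‖∑ I ∈ Mf, TT T (β I) x‖ₑ) + ‖TT T h x‖ₑ :=
          (enorm_add_le _ _).trans (add_le_add ((enorm_add_le _ _).trans
            (add_le_add (enorm_add_le _ _) le_rfl)) le_rfl)
      _ ≤ ((lam' + lam') + lam') + lam' :=
          add_le_add (add_le_add (add_le_add m1 m2) m3') m4
      _ = 4 * (lam' : ℝ≥0∞) := by ring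
    exact absurd (lt_of_lt_of_le hxS' this) (lt_irrefl _)
  have b1 : (lam : ℝ≥0∞) * volume S₁ ≤ 16 * (CT * L1) := by
    apply mul4 hlam
    calc _ ≤ ∫⁻ x, ‖TT T g₁ x‖ₑ ^ 2 := cheb (TT_aesm g₁) _
      _ ≤ CT * ∫⁻ x, ‖g₁ x‖ₑ ^ 2 := hCT g₁ hg₁L
      _ ≤ CT * (lam * L1) := mul_le_mul' le_rfl hg₁2
      _ = _ := by ring
  have b2 : (lam : ℝ≥0∞) * volume S₂ ≤ 16 * (2 ^ d * CT * L1) := by
    apply mul4 hlam
    calc _ ≤ ∫⁻ x, ‖TT T g₂ x‖ₑ ^ 2 := cheb (TT_aesm g₂) _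
      _ ≤ CT * ∫⁻ x, ‖g₂ x‖ₑ ^ 2 := hCT g₂ hg₂L
      _ ≤ CT * ((2 ^ d * lam) * L1) := mul_le_mul' le_rfl hg₂2
      _ = _ := by ring
  have b4 : (lam : ℝ≥0∞) * volume S₄ ≤ (16 * CT * B ^ 2 / lam) * volume G₂ := by
    have := mul4 hlam (v := volume S₄) (C := CT * B ^ 2 / lam * volume G₂) (by
      calc _ ≤ ∫⁻ x, ‖TT T h x‖ₑ ^ 2 := cheb (TT_aesm h) _
        _ ≤ CT * ∫⁻ x, ‖h x‖ₑ ^ 2 := hCT h hhL
        _ ≤ CT * ((B:ℝ≥0∞) ^ 2 * volume G₂) := mul_le_mul' le_rfl hh2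
        _ = (CT * B ^ 2 / lam * lam) * volume G₂ := by
            rw [ENNReal.div_mul_cancel hlne ENNReal.coe_ne_top]; ring
        _ = _ := by ring)
    refine this.trans (le_of_eq ?_)
    rw [div_eq_mul_inv, div_eq_mul_inv]; ring
  have b5 : (lam : ℝ≥0∞) * volume Os ≤ (4 * ENNReal.ofReal D) ^ d * L1 := by
    calc (lam : ℝ≥0∞) * volume Os
        ≤ lam * ∑ I ∈ Mf, volume (closedBall (ctr t I) (2 * D * 2 ^ I.1)) :=
          mul_le_mul' le_rfl (measure_biUnion_finset_le _ _)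
      _ = ∑ I ∈ Mf, (4 * ENNReal.ofReal D) ^ d * (lam * volume (gq t I)) := by
          rw [Finset.mul_sum]
          apply Finset.sum_congr rfl
          intro I _
          rw [vol_cb _ (by positivity), gq_vol]
          have : ENNReal.ofReal (2 * (2 * D * 2 ^ I.1)) = (4 * ENNReal.ofReal D) *
              ENNReal.ofReal (2 ^ I.1) := by
            rw [show (2 * (2 * D * 2 ^ I.1) : ℝ) = (4 * D) * 2 ^ I.1 by ring,
              ENNReal.ofReal_mul (by positivity), ENNReal.ofReal_mul (by norm_num)]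
            norm_num
          rw [this, mul_pow]; ring
      _ ≤ ∑ I ∈ Mf, (4 * ENNReal.ofReal D) ^ d * ∫⁻ x in gq t I, ‖f x‖ₑ := by
          apply Finset.sum_le_sum
          intro I hI
          exact mul_le_mul' le_rfl (hM1 I ((hmem I).1 hI)).2.le
      _ = (4 * ENNReal.ofReal D) ^ d * ∑ I ∈ Mf, ∫⁻ x in gq t I, ‖f x‖ₑ := by rw [Finset.mul_sum]
      _ ≤ _ := mul_le_mul' le_rfl hsumL1
  have b3 : (lam : ℝ≥0∞) * volume S₃ ≤ 8 * Cb * L1 := by
    have hae : ∀ I, AEMeasurable (fun x => ‖TT T (β I) x‖ₑ) volume := fun I => (TT_aesm _).enorm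
    have hsm : AEMeasurable (fun x => ∑ I ∈ Mf, ‖TT T (β I) x‖ₑ) volume :=
      Finset.aemeasurable_fun_sum _ (fun I _ => hae I)
    have c1 : (lam' : ℝ≥0∞) * volume S₃ ≤ ∫⁻ x in Osᶜ, ∑ I ∈ Mf, ‖TT T (β I) x‖ₑ := by
      rw [← lintegral_indicator hOsm.compl]
      exact mul_meas_ge_le_lintegral₀ (hsm.indicator hOsm.compl) _
    have c2 : ∫⁻ x in Osᶜ, ∑ I ∈ Mf, ‖TT T (β I) x‖ₑ ≤ ∑ I ∈ Mf, Cb * (2 * ∫⁻ x in gq t I, ‖f x‖ₑ) := by
      rw [lintegral_finsetSum' _ (fun I _ => (hae I).restrict)]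
      apply Finset.sum_le_sum
      intro I hI
      calc ∫⁻ x in Osᶜ, ‖TT T (β I) x‖ₑ
          ≤ ∫⁻ x in {x | 2 * D * 2 ^ I.1 ≤ ‖x - ctr t I‖}, ‖TT T (β I) x‖ₑ := by
            apply lintegral_mono_set
            intro x hx
            show 2 * D * 2 ^ I.1 ≤ ‖x - ctr t I‖
            by_contra hcon
            push Not at hcon
            apply hx
            refine Set.mem_iUnion₂.2 ⟨I, hI, ?_⟩
            rw [mem_closedBall, dist_eq_norm]; exact hcon.le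
        _ ≤ Cb * ∫⁻ x, ‖β I x‖ₑ := hbad t I (β I) (hβm I).aestronglyMeasurable ⟨_, hβB I⟩ (hβ0 I) (hβi I)
        _ ≤ _ := mul_le_mul' le_rfl (hβ1 I)
    calc (lam : ℝ≥0∞) * volume S₃ = 4 * (lam' * volume S₃) := by rw [hlam4]; ring
      _ ≤ 4 * ∑ I ∈ Mf, Cb * (2 * ∫⁻ x in gq t I, ‖f x‖ₑ) := mul_le_mul' le_rfl (c1.trans c2)
      _ = 8 * Cb * ∑ I ∈ Mf, ∫⁻ x in gq t I, ‖f x‖ₑ := by
          rw [← Finset.mul_sum, ← Finset.mul_sum]; ring
      _ ≤ _ := mul_le_mul' le_rfl hsumL1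
  rw [← hUV]
  calc (lam : ℝ≥0∞) * volume {x | (lam : ℝ≥0∞) < ‖TT T f x‖ₑ}
      ≤ lam * (((volume S₁ + volume S₂) + volume S₄) + (volume S₃ + volume Os)) := by
        apply mul_le_mul' le_rfl
        refine (measure_mono_ae hcov).trans ?_
        refine (measure_union_le _ _).trans (add_le_add ?_ (measure_union_le _ _))
        refine (measure_union_le _ _).trans (add_le_add (measure_union_le _ _) le_rfl)
    _ = ((lam * volume S₁ + lam * volume S₂) + lam * volume S₄) +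
        (lam * volume S₃ + lam * volume Os) := by ring
    _ ≤ ((16 * (CT * L1) + 16 * (2 ^ d * CT * L1)) + (16 * CT * B ^ 2 / lam) * volume G₂) +
        (8 * Cb * L1 + (4 * ENNReal.ofReal D) ^ d * L1) :=
        add_le_add (add_le_add (add_le_add b1 b2) b4) (add_le_add b3 b5)
    _ = _ := by
        have : ((D.toNNReal : ℝ≥0) : ℝ≥0∞) = ENNReal.ofReal D := rfl
        push_cast
        rw [this]; ring

/-- weak type (1,1) for bounded functions with bounded support -/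
lemma weakBddU (hd : 0 < d) (cT : ℝ≥0) (cs cr ca : ℝ) (hca : 0 < ca) : ∃ W : ℝ≥0,
    ∀ (T : Lp 𝕜 2 (volume : Measure (Fin d → ℝ)) →L[𝕜]
      Lp 𝕜 2 (volume : Measure (Fin d → ℝ))) (K : (Fin d → ℝ) → (Fin d → ℝ) → 𝕜),
      CZU cT cs cr ca T K → ∀ (f : (Fin d → ℝ) → 𝕜),
    Measurable f → ∀ B : ℝ≥0, (∀ x, ‖f x‖ ≤ B) → ∀ (c : Fin d → ℝ) (R : ℝ),
    (∀ x, x ∉ closedBall c R → f x = 0) → ∀ lam : ℝ≥0, 0 < lam →
    (lam : ℝ≥0∞) * volume {x | (lam : ℝ≥0∞) < ‖TT T f x‖ₑ} ≤ W * (∫⁻ x, ‖f x‖ₑ) := by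
  obtain ⟨W, C₂, hWU⟩ := weakStepU (𝕜 := 𝕜) hd cT cs cr ca hca
  refine ⟨W, ?_⟩
  intro T K hT
  have hW := hWU T K hT
  intro f hf B hB c R h0 lam hlam
  set t : Fin d → Bool := fun _ => false with ht
  have hfL : ∀ p : ℝ≥0∞, MemLp f p volume := fun p =>
    bddMem hf.aestronglyMeasurable hB isClosed_closedBall.measurableSet (vol_cb_fin c R) h0 p
  have hfint : Integrable f volume := memLp_one_iff_integrable.1 (hfL 1)
  have hL1fin : ∫⁻ x, ‖f x‖ₑ < ∞ := hfint.2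
  have hfe : Measurable (fun x => ‖f x‖ₑ) := hf.enorm
  have hlne : (lam : ℝ≥0∞) ≠ 0 := by exact_mod_cast hlam.ne'
  set G : ℕ → Set (Fin d → ℝ) := fun N => {x | (lam : ℝ≥0∞) < ‖f x‖ₑ} \
        VN t (fun x => ‖f x‖ₑ) lam N with hG
  have hGm : ∀ N, MeasurableSet (G N) := fun N =>
    (measurableSet_lt measurable_const hfe).diff (VN_meas _ _ _ _)
  have hGanti : Antitone G := by
    intro N N' h
    exact Set.sdiff_subset_sdiff_right (VN_mono _ _ _ h)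
  have hGfin : volume (G 0) ≠ ∞ := by
    have h1 : (lam : ℝ≥0∞) * volume (G 0) ≤ ∫⁻ x, ‖f x‖ₑ := by
      refine le_trans (mul_le_mul' le_rfl (measure_mono ?_))
        (mul_meas_ge_le_lintegral₀ hfe.aemeasurable (lam : ℝ≥0∞))
      intro x hx
      have hx1 : (lam : ℝ≥0∞) < ‖f x‖ₑ := hx.1
      exact hx1.le
    intro h
    rw [h, ENNReal.mul_top hlne] at h1
    exact absurd (lt_of_le_of_lt h1 hL1fin) (by simp)
  have hlim := tendsto_measure_iInter_atTop (μ := (volume : Measure (Fin d → ℝ)))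
    (fun N => (hGm N).nullMeasurableSet) hGanti ⟨0, hGfin⟩
  have hnull : volume (⋂ n, G n) = 0 := by
    have hdiff := grid_diff t (fun x => ‖f x‖) hfint.norm.locallyIntegrable
    rw [← compl_mem_ae_iff]
    filter_upwards [hdiff] with x hx hxG
    have hx0 : (lam : ℝ≥0∞) < ‖f x‖ₑ := (Set.mem_iInter.1 hxG 0).1
    have hx1 : (lam : ℝ) < ‖f x‖ := by
      rw [← ofReal_norm, ← ENNReal.ofReal_coe_nnreal] at hx0
      exact (ENNReal.ofReal_lt_ofReal_iff_of_nonneg (NNReal.coe_nonneg _)).1 hx0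
    have h2 : ∀ᶠ n : ℕ in atTop, (lam : ℝ) < ⨍ y in gq t (ix t (-(n:ℤ)) x), ‖f y‖ :=
      hx.eventually (lt_mem_nhds hx1)
    obtain ⟨n, hn⟩ := h2.exists
    apply (Set.mem_iInter.1 hxG n).2
    refine Set.mem_iUnion₂.2 ⟨ix t (-(n:ℤ)) x, ⟨le_rfl, ?_⟩, mem_gq_ix t _ x⟩
    set A := gq t (ix t (-(n:ℤ)) x) with hA
    have hv := gq_vol_pos t (ix t (-(n:ℤ)) x)
    rw [← hA] at hv
    rw [setAverage_eq, smul_eq_mul] at hn
    have hvp : 0 < volume.real A := ENNReal.toReal_pos hv.1.ne' hv.2.ne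
    have h3 : (lam : ℝ) * volume.real A < ∫ y in A, ‖f y‖ := by
      rw [inv_mul_eq_div, lt_div_iff₀ hvp] at hn; exact hn
    have h4 : ∫ y in A, ‖f y‖ = (∫⁻ y in A, ‖f y‖ₑ).toReal :=
      integral_norm_eq_lintegral_enorm hf.aestronglyMeasurable.restrict
    rw [h4] at h3
    have h5 : ∫⁻ y in A, ‖f y‖ₑ ≠ ∞ := (lt_of_le_of_lt (setLIntegral_le_lintegral _ _) hL1fin).ne
    show (lam : ℝ≥0∞) * volume A < ∫⁻ y in A, ‖f y‖ₑ
    rw [← ENNReal.toReal_lt_toReal (ENNReal.mul_ne_top ENNReal.coe_ne_top hv.2.ne) h5,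
      ENNReal.toReal_mul]
    exact h3
  rw [hnull] at hlim
  have h1 : ∀ N, (lam : ℝ≥0∞) * volume {x | (lam : ℝ≥0∞) < ‖TT T f x‖ₑ} ≤
      W * (∫⁻ x, ‖f x‖ₑ) + (C₂ * B ^ 2 / lam) * volume (G N) := fun N =>
    hW f hf B hB c R h0 lam hlam N
  have hcfin : (C₂ * B ^ 2 / lam : ℝ≥0∞) ≠ ∞ := by
    apply (ENNReal.div_lt_top _ hlne).ne
    exact ENNReal.mul_ne_top ENNReal.coe_ne_top (ENNReal.pow_ne_top ENNReal.coe_ne_top)
  have h2 : Tendsto (fun N => W * (∫⁻ x, ‖f x‖ₑ) + (C₂ * B ^ 2 / lam) * volume (G N)) atTop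
      (𝓝 (W * (∫⁻ x, ‖f x‖ₑ) + (C₂ * B ^ 2 / lam) * 0)) := by
    apply Tendsto.const_add
    exact ENNReal.Tendsto.const_mul hlim (Or.inr hcfin)
  rw [mul_zero, add_zero] at h2
  exact ge_of_tendsto' h2 h1

end Pool.Agent.L5helper34.GL
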