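import Pool.Agent.L5helper34.GL.U2

set_option autoImplicit false
set_option linter.unusedSectionVars false
set_option linter.unusedVariables false

/-! One step of the sparse domination, uniformly in the operator (after helper433). -/

namespace Pool.Agent.L5helper34.GL

open MeasureTheory Metric Filter Topology
open Pool.Agent.H433R3.Sep
open scoped ENNReal NNReal

variable {d : ℕ} {𝕜 : Type*} [RCLike 𝕜]

lemma oneStepU (hd : 0 < d) (cT : ℝ≥0) (cs cr ca : ℝ) (hca : 0 < ca) :
    ∃ (a : ℝ) (A : ℝ≥0), 1 ≤ a ∧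
    ∀ (T : Lp 𝕜 2 (volume : Measure (Fin d → ℝ)) →L[𝕜]
      Lp 𝕜 2 (volume : Measure (Fin d → ℝ))) (K : (Fin d → ℝ) → (Fin d → ℝ) → 𝕜),
      CZU cT cs cr ca T K → 
    ∀ (f : (Fin d → ℝ) → 𝕜), Measurable f → ∀ B : ℝ≥0, (∀ x, ‖f x‖ ≤ B) →
    ∀ (c : Fin d → ℝ) (R : ℝ), (∀ x, x ∉ closedBall c R → f x = 0) →
    ∀ (t : Fin d → Bool) (I : Idx d), ∃ ch : Set (Idx d),
      (∀ J ∈ ch, gq t J ⊆ gq t I) ∧
      (∀ J ∈ ch, ∀ J' ∈ ch, J ≠ J' → Disjoint (gq t J) (gq t J')) ∧
      2 * ∑' J : ch, volume (gq t (J : Idx d)) ≤ volume (gq t I) ∧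
      ∀ᵐ x, (x ∈ gq t I → (∀ J ∈ ch, x ∉ gq t J) → ‖TT T (loc a t f I) x‖ₑ ≤ A * avg a t f I) ∧
        ∀ J ∈ ch, x ∈ gq t J → ‖TT T (loc a t f I) x‖ₑ ≤
          A * avg a t f I + ‖TT T (loc a t f J) x‖ₑ := by
  classical
  obtain ⟨D, al, Ck, hD, hal, hkerU⟩ := kerdiffU (𝕜 := 𝕜) hd cT cs cr ca hca
  obtain ⟨Ct, hCt⟩ := tail d al hal
  obtain ⟨W, hWU⟩ := weakBddU (𝕜 := 𝕜) hd cT cs cr ca hca
  set a : ℝ := 4 * D + 1 with ha
  have ha5 : 5 ≤ a := by rw [ha]; linarith
  have ha0 : 0 < a := by linarith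
  set an : ℝ≥0 := a.toNNReal with han
  have hanE : (an : ℝ≥0∞) = ENNReal.ofReal a := rfl
  have han0 : 0 < an := by rw [han]; exact Real.toNNReal_pos.2 ha0
  set A₁ : ℝ≥0 := (W + 1) * an ^ d * 2 ^ (d + 4) with hA₁
  set A₂ : ℝ≥0 := 4 ^ d * an ^ d * 2 ^ (d + 4) with hA₂
  have hA₁0 : 0 < A₁ := by rw [hA₁]; positivity
  have hA₂0 : 0 < A₂ := by rw [hA₂]; positivity
  refine ⟨a, A₁ + A₁ * 2 ^ d * A₂ + Ck * Ct * A₂, by linarith, ?_⟩
  intro T K hT
  have hker := hkerU T K hT
  have hW := hWU T K hT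
  obtain ⟨Cs, hCs⟩ := hT.czo.size
  intro f hf B hB c R h0 t I
  have hfL : ∀ p : ℝ≥0∞, MemLp f p volume := fun p =>
    bddMem hf.aestronglyMeasurable hB isClosed_closedBall.measurableSet (vol_cb_fin c R) h0 p
  have hfint : Integrable f volume := memLp_one_iff_integrable.1 (hfL 1)
  have hfe : Measurable (fun x => ‖f x‖ₑ) := hf.enorm
  have hlm : ∀ J, Measurable (loc a t f J) := fun J => hf.indicator (dil_meas a t J)
  have hlB : ∀ J x, ‖loc a t f J x‖ ≤ B := by
    intro J x
    unfold loc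
    by_cases hx : x ∈ dil a t J
    · rw [Set.indicator_of_mem hx]; exact hB x
    · rw [Set.indicator_of_notMem hx, norm_zero]; exact NNReal.coe_nonneg _
  have hl0 : ∀ J x, x ∉ closedBall c R → loc a t f J x = 0 := by
    intro J x hx
    unfold loc
    by_cases hx' : x ∈ dil a t J
    · rw [Set.indicator_of_mem hx']; exact h0 x hx
    · rw [Set.indicator_of_notMem hx']
  have hlL : ∀ J, MemLp (loc a t f J) 2 volume := fun J =>
    bddMem (hlm J).aestronglyMeasurable (hlB J) isClosed_closedBall.measurableSet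
      (vol_cb_fin c R) (hl0 J) 2
  have hdilv : ∀ J, volume (dil a t J) = (an : ℝ≥0∞) ^ d * volume (gq t J) := fun J => by
    rw [dil_vol ha0.le, hanE]
  have havgfin : ∀ J, avg a t f J ≠ ∞ := by
    intro J
    unfold avg
    apply (ENNReal.div_lt_top _ (dil_vol_pos (by linarith) t J).1.ne').ne
    exact (lt_of_le_of_lt (setLIntegral_le_lintegral _ _) hfint.2).ne
  have hlocint : ∀ J, ∫⁻ x, ‖loc a t f J x‖ₑ = avg a t f J * ((an : ℝ≥0∞) ^ d * volume (gq t J)) := by
    intro J
    rw [loc_int, ← hdilv, avg, ENNReal.div_mul_cancel (dil_vol_pos (by linarith) t J).1.ne'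
      (dil_vol_pos (by linarith) t J).2.ne]
  -- zero average
  have hzero : ∀ J, avg a t f J = 0 → ∀ᵐ x, TT T (loc a t f J) x = 0 := by
    intro J hJ
    have h1 : ∫⁻ x, ‖loc a t f J x‖ₑ = 0 := by rw [hlocint, hJ, zero_mul]
    rw [lintegral_eq_zero_iff (hlm J).enorm] at h1
    have h2 : loc a t f J =ᵐ[volume] fun _ => (0:𝕜) := by
      filter_upwards [h1] with x hx
      exact enorm_eq_zero.1 hx
    rw [TT_congr h2]
    exact TT_zero
  -- level sets of T on the localised functions
  have hE : ∀ J, 2 ^ (d + 4) * volume {x | (A₁ : ℝ≥0∞) * avg a t f J < ‖TT T (loc a t f J) x‖ₑ} ≤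
      volume (gq t J) := by
    intro J
    by_cases hJ : avg a t f J = 0
    · have h1 : volume {x | (A₁ : ℝ≥0∞) * avg a t f J < ‖TT T (loc a t f J) x‖ₑ} = 0 := by
        rw [← compl_mem_ae_iff]
        filter_upwards [hzero J hJ] with x hx hx2
        have hx3 : (A₁ : ℝ≥0∞) * avg a t f J < ‖TT T (loc a t f J) x‖ₑ := hx2
        rw [hx, enorm_zero] at hx3
        exact absurd hx3 (not_lt.2 bot_le)
      rw [h1, mul_zero]; exact bot_le
    · set L : ℝ≥0 := (avg a t f J).toNNReal with hL
      have hLE : (L : ℝ≥0∞) = avg a t f J := ENNReal.coe_toNNReal (havgfin J)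
      have hL0 : 0 < L := by
        rw [pos_iff_ne_zero]
        intro h; rw [h] at hLE; exact hJ hLE.symm
      have h1 := hW (loc a t f J) (hlm J) B (hlB J) c R (hl0 J) (A₁ * L) (by positivity)
      rw [hlocint, ← hLE] at h1
      rw [← hLE]
      push_cast at h1
      set V := volume {x | (A₁ : ℝ≥0∞) * L < ‖TT T (loc a t f J) x‖ₑ} with hV
      have hne : ((W + 1 : ℝ≥0) : ℝ≥0∞) * an ^ d * L ≠ 0 := by
        have : (W + 1) * an ^ d * L ≠ 0 := by positivity
        exact_mod_cast this
      have hnt : ((W + 1 : ℝ≥0) : ℝ≥0∞) * an ^ d * L ≠ ∞ := by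
        have : ((W + 1 : ℝ≥0) : ℝ≥0∞) * an ^ d * L = (((W + 1) * an ^ d * L : ℝ≥0) : ℝ≥0∞) := by
          push_cast; rfl
        rw [this]; exact ENNReal.coe_ne_top
      apply (ENNReal.mul_le_mul_iff_right hne hnt).1
      calc ((W + 1 : ℝ≥0) : ℝ≥0∞) * an ^ d * L * (2 ^ (d + 4) * V)
          = (A₁ : ℝ≥0∞) * L * V := by rw [hA₁]; push_cast; ring
        _ ≤ W * (L * (an ^ d * volume (gq t J))) := h1
        _ ≤ ((W + 1 : ℝ≥0) : ℝ≥0∞) * (L * (an ^ d * volume (gq t J))) := by
            apply mul_le_mul' _ le_rfl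
            push_cast; exact le_self_add
        _ = _ := by ring
  by_cases hLI : avg a t f I = 0
  · -- trivial case
    refine ⟨∅, by simp, by simp, by simp, ?_⟩
    filter_upwards [hzero I hLI] with x hx
    constructor
    · intro _ _; rw [hx, enorm_zero]; exact bot_le
    · intro J hJ; exact absurd hJ (Set.notMem_empty J)
  set L := avg a t f I with hLdef
  have hLfin : L ≠ ∞ := havgfin I
  set v := volume (gq t I) with hv
  have hvpos := gq_vol_pos t I
  rw [← hv] at hvpos
  set fI := loc a t f I with hfI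
  set E₁ := {x | (A₁ : ℝ≥0∞) * L < ‖TT T fI x‖ₑ} with hE₁
  set E₂ := {x : Fin d → ℝ | ∃ r : ℝ, 0 < r ∧ (A₂ * L) * volume (closedBall x r) <
    ∫⁻ y in closedBall x r, ‖fI y‖ₑ} with hE₂
  have hE₁v : 2 ^ (d + 4) * volume E₁ ≤ v := hE I
  have hE₂v : 2 ^ (d + 4) * volume E₂ ≤ v := by
    have hl1 : (A₂ : ℝ≥0∞) * L ≠ 0 := mul_ne_zero (by exact_mod_cast hA₂0.ne') hLI
    have hl2 : (A₂ : ℝ≥0∞) * L ≠ ∞ := ENNReal.mul_ne_top ENNReal.coe_ne_top hLfin
    have hfin : ∫⁻ x, ‖fI x‖ₑ < ∞ := by
      rw [hfI, hlocint]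
      exact ENNReal.mul_lt_top (lt_top_iff_ne_top.2 (havgfin I)) (ENNReal.mul_lt_top
        (ENNReal.pow_lt_top ENNReal.coe_lt_top) hvpos.2)
    have h1 := maxWeak hd (fun x => ‖fI x‖ₑ) hfin (A₂ * L) hl1 hl2
    rw [← hE₂, hfI, hlocint, ← hLdef, ← hv] at h1
    have hne : (4:ℝ≥0∞) ^ d * an ^ d * L ≠ 0 := by
      apply mul_ne_zero (mul_ne_zero (by simp) (pow_ne_zero _ (by exact_mod_cast han0.ne'))) hLI
    have hnt : (4:ℝ≥0∞) ^ d * an ^ d * L ≠ ∞ :=
      ENNReal.mul_ne_top (ENNReal.mul_ne_top (ENNReal.pow_ne_top (by simp))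
        (ENNReal.pow_ne_top ENNReal.coe_ne_top)) hLfin
    apply (ENNReal.mul_le_mul_iff_right hne hnt).1
    calc (4:ℝ≥0∞) ^ d * an ^ d * L * (2 ^ (d + 4) * volume E₂)
        = (A₂ : ℝ≥0∞) * L * volume E₂ := by rw [hA₂]; push_cast; ring
      _ ≤ 4 ^ d * (L * (an ^ d * v)) := h1
      _ = _ := by ring
  -- open set
  have hsmall : volume (E₁ ∪ E₂) < v / 2 ^ (d + 2) := by
    have h1 : 2 ^ (d + 4) * volume (E₁ ∪ E₂) ≤ 2 * v := by
      calc (2:ℝ≥0∞) ^ (d + 4) * volume (E₁ ∪ E₂) ≤ 2 ^ (d + 4) * (volume E₁ + volume E₂) :=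
            mul_le_mul' le_rfl (measure_union_le _ _)
        _ = 2 ^ (d + 4) * volume E₁ + 2 ^ (d + 4) * volume E₂ := by ring
        _ ≤ v + v := add_le_add hE₁v hE₂v
        _ = 2 * v := by ring
    have h2 : volume (E₁ ∪ E₂) ≤ 2 * v / 2 ^ (d + 4) := by
      rw [ENNReal.le_div_iff_mul_le (Or.inl (by positivity)) (Or.inl (by simp)), mul_comm]
      exact h1
    refine lt_of_le_of_lt h2 ?_
    rw [ENNReal.lt_div_iff_mul_lt (Or.inl (by positivity)) (Or.inl (by simp))]
    have h3 : 2 * v / 2 ^ (d + 4) * 2 ^ (d + 2) = v / 2 := by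
      rw [div_eq_mul_inv, div_eq_mul_inv]
      have e1 : (2:ℝ≥0∞) ^ (d + 4) = 2 ^ (d + 2) * (2 * 2) := by ring
      rw [e1, ENNReal.mul_inv (Or.inl (by positivity)) (Or.inl (by simp)),
        ENNReal.mul_inv (Or.inl (by simp)) (Or.inl (by simp))]
      calc 2 * v * ((2 ^ (d + 2))⁻¹ * (2⁻¹ * 2⁻¹)) * 2 ^ (d + 2)
          = (2 * 2⁻¹) * ((2 ^ (d + 2))⁻¹ * 2 ^ (d + 2)) * (v * 2⁻¹) := by ring
        _ = _ := by
            rw [ENNReal.mul_inv_cancel (by simp) (by simp), ENNReal.inv_mul_cancel (by positivity)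
              (by simp)]
            ring
    rw [h3]
    exact ENNReal.half_lt_self hvpos.1.ne' hvpos.2.ne
  obtain ⟨O, hEO, hOo, hOv⟩ := Set.exists_isOpen_lt_of_lt (E₁ ∪ E₂) _ hsmall
  have hOv2 : 2 ^ (d + 1) * volume O ≤ v / 2 := by
    have h1 : 2 ^ (d + 1) * (v / 2 ^ (d + 2)) = v / 2 := by
      rw [div_eq_mul_inv, div_eq_mul_inv]
      have e1 : (2:ℝ≥0∞) ^ (d + 2) = 2 ^ (d + 1) * 2 := by ring
      rw [e1, ENNReal.mul_inv (Or.inl (by positivity)) (Or.inl (by simp))]
      calc 2 ^ (d + 1) * (v * ((2 ^ (d + 1))⁻¹ * 2⁻¹))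
          = (2 ^ (d + 1) * (2 ^ (d + 1))⁻¹) * (v * 2⁻¹) := by ring
        _ = _ := by rw [ENNReal.mul_inv_cancel (by positivity) (by simp), one_mul]
    rw [← h1]
    exact mul_le_mul' le_rfl hOv.le
  set O' := O ∩ gq t I with hO'
  have hO'm : MeasurableSet O' := hOo.measurableSet.inter (gq_meas t I)
  set p : Idx d → Prop := fun J => volume (gq t J) < 2 ^ (d + 1) * volume (gq t J ∩ O') with hp
  have hplev : ∀ J, p J → J.1 < I.1 := by
    intro J hJ
    by_contra hcon
    push Not at hcon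
    have h1 : v ≤ volume (gq t J) := gq_vol_mono t hcon
    have h2 : 2 ^ (d + 1) * volume (gq t J ∩ O') ≤ v / 2 :=
      (mul_le_mul' le_rfl (measure_mono (Set.inter_subset_right.trans Set.inter_subset_left))).trans
        hOv2
    have h3 : v < v / 2 := lt_of_le_of_lt h1 (lt_of_lt_of_le hJ h2)
    exact absurd (h3.trans (ENNReal.half_lt_self hvpos.1.ne' hvpos.2.ne)) (lt_irrefl _)
  have hpsub : ∀ J, p J → gq t J ⊆ gq t I := by
    intro J hJ
    have h1 : (gq t J ∩ O').Nonempty := by
      rw [Set.nonempty_iff_ne_empty]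
      intro h
      have hJ' : volume (gq t J) < 2 ^ (d + 1) * volume (gq t J ∩ O') := hJ
      rw [h, measure_empty, mul_zero] at hJ'
      exact absurd hJ' (not_lt.2 bot_le)
    obtain ⟨x, hx1, hx2⟩ := h1
    exact gq_nest t (hplev J hJ).le hx1 hx2.2
  obtain ⟨M, hM1, hM2, hM3, hM4⟩ := stop t p (fun x => ⟨I.1, fun j hj => (hplev _ hj).le⟩)
  have hMc : M.Countable := Set.to_countable M
  have hMdisj : M.PairwiseDisjoint (fun J => gq t J) := fun I hI J hJ hIJ => hM3 I hI J hJ hIJ
  -- covering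
  have hcov : ∀ x ∈ O', ∃ J ∈ M, x ∈ gq t J := by
    intro x hx
    obtain ⟨ε, hε, hball⟩ := Metric.isOpen_iff.1 hOo x hx.1
    obtain ⟨n, hn⟩ := exists_pow_lt_of_lt_one hε (by norm_num : (1/2:ℝ) < 1)
    set j : ℤ := min (-(n:ℤ)) I.1 with hj
    have hjI : j ≤ I.1 := min_le_right _ _
    have hjn : (2:ℝ) ^ j < ε := by
      refine lt_of_le_of_lt (zpow_le_zpow_right₀ (by norm_num) (min_le_left _ _)) ?_
      rw [zpow_neg, zpow_natCast, ← one_div, ← one_div_pow]
      exact hn
    have h1 : gq t (ix t j x) ⊆ O := by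
      intro y hy
      apply hball
      have := gq_sub_ball t (ix t j x) (mem_gq_ix t j x) hy
      rw [mem_closedBall] at this
      rw [mem_ball]
      exact lt_of_le_of_lt this hjn
    have h2 : gq t (ix t j x) ⊆ gq t I := gq_nest t (I := ix t j x) (J := I) hjI (mem_gq_ix t j x) hx.2
    have h3 : p (ix t j x) := by
      show volume (gq t (ix t j x)) < 2 ^ (d + 1) * volume (gq t (ix t j x) ∩ O')
      have h4 : gq t (ix t j x) ∩ O' = gq t (ix t j x) :=
        Set.inter_eq_left.2 (Set.subset_inter h1 h2)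
      rw [h4]
      have hvv := gq_vol_pos t (ix t j x)
      calc volume (gq t (ix t j x)) < volume (gq t (ix t j x)) + volume (gq t (ix t j x)) :=
            ENNReal.lt_add_right hvv.2.ne hvv.1.ne'
        _ = 2 ^ 1 * volume (gq t (ix t j x)) := by ring
        _ ≤ _ := mul_le_mul' (pow_le_pow_right₀ (by norm_num) (by omega)) le_rfl
    obtain ⟨J, hJ, hxJ⟩ := Set.mem_iUnion₂.1 (hM4 _ h3 (mem_gq_ix t j x))
    exact ⟨J, hJ, hxJ⟩
  -- parents
  have hhalf : ∀ J ∈ M, 2 * volume (gq t J ∩ O') ≤ volume (gq t J) := by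
    intro J hJ
    obtain ⟨y, hy⟩ := gq_nonempty t J
    have h1 := hM2 J hJ y hy (J.1 + 1) (by omega)
    have h2 : (ix t (J.1 + 1) y).1 = J.1 + 1 := rfl
    simp only [hp, not_lt] at h1
    rw [parent_vol t] at h1
    have h3 : gq t J ⊆ gq t (ix t (J.1 + 1) y) :=
      gq_nest t (I := J) (J := ix t (J.1 + 1) y) (by rw [h2]; omega) hy (mem_gq_ix t _ y)
    have h4 : 2 ^ (d + 1) * volume (gq t J ∩ O') ≤ 2 ^ d * volume (gq t J) :=
      (mul_le_mul' le_rfl (measure_mono (Set.inter_subset_inter_left _ h3))).trans h1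
    have h5 : (2:ℝ≥0∞) ^ d * (2 * volume (gq t J ∩ O')) ≤ 2 ^ d * volume (gq t J) := by
      refine le_trans (le_of_eq ?_) h4; ring
    exact (ENNReal.mul_le_mul_iff_right (by positivity) (by simp)).1 h5
  refine ⟨M, fun J hJ => hpsub J (hM1 J hJ), hM3, ?_, ?_⟩
  · -- packing
    have h1 : ∑' J : M, volume (gq t (J : Idx d)) ≤ 2 ^ (d + 1) * volume O' := by
      calc ∑' J : M, volume (gq t (J : Idx d))
          ≤ ∑' J : M, 2 ^ (d + 1) * volume (gq t (J : Idx d) ∩ O') :=
            ENNReal.tsum_le_tsum (fun J => (hM1 J J.2).le)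
        _ = 2 ^ (d + 1) * ∑' J : M, volume (gq t (J : Idx d) ∩ O') := by rw [ENNReal.tsum_mul_left]
        _ ≤ 2 ^ (d + 1) * volume O' := by
            apply mul_le_mul' le_rfl
            have : Countable M := hMc.to_subtype
            rw [← measure_iUnion]
            · apply measure_mono
              exact Set.iUnion_subset (fun J => Set.inter_subset_right)
            · intro J J' hJJ'
              exact (hM3 J J.2 J' J'.2 (fun h => hJJ' (Subtype.ext h))).mono
                Set.inter_subset_left Set.inter_subset_left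
            · intro J; exact (gq_meas t _).inter hO'm
    calc 2 * ∑' J : M, volume (gq t (J : Idx d)) ≤ 2 * (2 ^ (d + 1) * volume O) :=
          mul_le_mul' le_rfl (h1.trans (mul_le_mul' le_rfl (measure_mono Set.inter_subset_left)))
      _ ≤ 2 * (v / 2) := mul_le_mul' le_rfl hOv2
      _ = v := ENNReal.mul_div_cancel (by simp) (by simp)
  · -- the pointwise inequality
    -- a.e. facts for every child
    have hae : ∀ᵐ x, ∀ J ∈ M, (TT T (fun y => fI y - loc a t f J y) x =
        TT T fI x - TT T (loc a t f J) x) ∧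
        (x ∉ {y : Fin d → ℝ | a * 2 ^ J.1 / 2 ≤ ‖y - ctr t J‖} →
          TT T (fun y => fI y - loc a t f J y) x = ∫ y, K x y * (fI y - loc a t f J y)) := by
      rw [ae_ball_iff hMc]
      intro J hJ
      have h1 := TT_sub (T := T) (hlL I) (hlL J)
      have hJlt := hplev J (hM1 J hJ)
      have hJsub := hpsub J (hM1 J hJ)
      have hFc : IsClosed {y : Fin d → ℝ | a * 2 ^ J.1 / 2 ≤ ‖y - ctr t J‖} := by
        apply isClosed_le continuous_const
        fun_prop
      have h2 := rep_pt hT.czo (f := fun y => fI y - loc a t f J y)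
        ((hlm I).sub (hlm J)).aestronglyMeasurable (B := B + B)
        (fun x => (norm_sub_le _ _).trans (add_le_add (hlB I x) (hlB J x))) (c := c) (R := R)
        (fun x hx => by
          show loc a t f I x - loc a t f J x = 0
          rw [hl0 I x hx, hl0 J x hx, sub_zero]) hFc (fun x hx => by
          show loc a t f I x - loc a t f J x = 0
          have hx' : ‖x - ctr t J‖ < a * 2 ^ J.1 / 2 := not_le.1 hx
          have hxJ : x ∈ dil a t J := by
            unfold dil; rw [mem_closedBall, dist_eq_norm]; exact hx'.le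
          have hxI : x ∈ dil a t I := dil_nest (by linarith) t hJlt hJsub hxJ
          unfold loc
          rw [Set.indicator_of_mem hxJ, Set.indicator_of_mem hxI, sub_self])
      filter_upwards [h1, h2] with x hx1 hx2
      exact ⟨hx1, hx2⟩
    filter_upwards [hae] with x hx
    constructor
    · intro hxI hxM
      have hxO : x ∉ O := by
        intro hc
        obtain ⟨J, hJ, hxJ⟩ := hcov x ⟨hc, hxI⟩
        exact hxM J hJ hxJ
      have hxE : x ∉ E₁ := fun hc => hxO (hEO (Or.inl hc))
      have h1 : ‖TT T fI x‖ₑ ≤ A₁ * L := not_lt.1 hxE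
      refine h1.trans (mul_le_mul' ?_ le_rfl)
      push_cast
      rw [add_assoc]
      exact le_self_add
    · intro J hJ hxJ
      have hJlt := hplev J (hM1 J hJ)
      have hJsub := hpsub J (hM1 J hJ)
      have hvJ := gq_vol_pos t J
      set l : ℝ := 2 ^ J.1 with hl
      have hl0' : 0 < l := by rw [hl]; positivity
      -- choose the good point
      obtain ⟨x', hx'J, hx'O, hx'E, hx'ae⟩ : ∃ x', x' ∈ gq t J ∧ x' ∉ O ∧
          ‖TT T (loc a t f J) x'‖ₑ ≤ A₁ * avg a t f J ∧
          (∀ J ∈ M, (TT T (fun y => fI y - loc a t f J y) x' =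
            TT T fI x' - TT T (loc a t f J) x') ∧
            (x' ∉ {y : Fin d → ℝ | a * 2 ^ J.1 / 2 ≤ ‖y - ctr t J‖} →
              TT T (fun y => fI y - loc a t f J y) x' = ∫ y, K x' y * (fI y - loc a t f J y))) := by
        by_contra hcon
        push Not at hcon
        set N₀ := {x' | ¬ (∀ J ∈ M, (TT T (fun y => fI y - loc a t f J y) x' =
            TT T fI x' - TT T (loc a t f J) x') ∧
            (x' ∉ {y : Fin d → ℝ | a * 2 ^ J.1 / 2 ≤ ‖y - ctr t J‖} →
              TT T (fun y => fI y - loc a t f J y) x' = ∫ y, K x' y * (fI y - loc a t f J y)))}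
          with hN₀
        have hN₀v : volume N₀ = 0 := by
          rw [← compl_mem_ae_iff]
          filter_upwards [hae] with z hz hzN
          exact hzN hz
        set E₃ := {x | (A₁ : ℝ≥0∞) * avg a t f J < ‖TT T (loc a t f J) x‖ₑ} with hE₃
        have hsub : gq t J ⊆ (gq t J ∩ O') ∪ E₃ ∪ N₀ := by
          intro z hz
          by_contra hzc
          have z1 : z ∉ gq t J ∩ O' := fun hc => hzc (Or.inl (Or.inl hc))
          have z2 : z ∉ E₃ := fun hc => hzc (Or.inl (Or.inr hc))
          have z3 : z ∉ N₀ := fun hc => hzc (Or.inr hc)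
          have z1' : z ∉ O := fun hc => z1 ⟨hz, hc, hJsub hz⟩
          have z2' : ‖TT T (loc a t f J) z‖ₑ ≤ A₁ * avg a t f J := not_lt.1 z2
          apply z3
          intro hall
          obtain ⟨J', hJ', hbad⟩ := hcon z hz z1' z2'
          obtain ⟨q1, q2⟩ := hall J' hJ'
          obtain ⟨q3, q4⟩ := hbad q1
          exact q4 (q2 q3)
        have h1 : volume (gq t J) ≤ volume (gq t J ∩ O') + volume E₃ + 0 := by
          refine (measure_mono hsub).trans ((measure_union_le _ _).trans ?_)
          rw [hN₀v]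
          exact add_le_add (measure_union_le _ _) le_rfl
        have h2 := hhalf J hJ
        have h3 := hE J
        have h4 : 4 * volume (gq t J) ≤ 2 * volume (gq t J) + volume (gq t J) := by
          calc 4 * volume (gq t J) ≤ 4 * (volume (gq t J ∩ O') + volume E₃ + 0) :=
                mul_le_mul' le_rfl h1
            _ = 2 * (2 * volume (gq t J ∩ O')) + 2 ^ 2 * volume E₃ := by ring
            _ ≤ 2 * volume (gq t J) + 2 ^ (d + 4) * volume E₃ := by
                apply add_le_add (mul_le_mul' le_rfl h2)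
                exact mul_le_mul' (pow_le_pow_right₀ (by norm_num) (by omega)) le_rfl
            _ ≤ _ := add_le_add le_rfl h3
        have h5 : 4 * volume (gq t J) = (2 * volume (gq t J) + volume (gq t J)) + volume (gq t J) := by
          ring
        rw [h5] at h4
        have h6 : 2 * volume (gq t J) + volume (gq t J) ≠ ∞ :=
          ENNReal.add_ne_top.2 ⟨ENNReal.mul_ne_top (by simp) hvJ.2.ne, hvJ.2.ne⟩
        have h7 := ENNReal.lt_add_right h6 hvJ.1.ne'
        exact absurd (lt_of_lt_of_le h7 h4) (lt_irrefl _)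
      -- facts at x'
      have hx'E₁ : ‖TT T fI x'‖ₑ ≤ A₁ * L := not_lt.1 (fun hc => hx'O (hEO (Or.inl hc)))
      have hx'E₂ : ∀ r : ℝ, 0 < r → ∫⁻ y in closedBall x' r, ‖fI y‖ₑ ≤
          (A₂ * L) * volume (closedBall x' r) := by
        intro r hr
        by_contra hc
        push Not at hc
        exact hx'O (hEO (Or.inr ⟨r, hr, hc⟩))
      have hcx : ‖x - ctr t J‖ ≤ l / 2 := by
        have := gq_sub_cb t J hxJ
        rwa [mem_closedBall, dist_eq_norm] at this
      have hcx' : ‖x' - ctr t J‖ ≤ l / 2 := by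
        have := gq_sub_cb t J hx'J
        rwa [mem_closedBall, dist_eq_norm] at this
      have hxx' : ‖x' - x‖ ≤ l := by
        have h1 : x' - x = (x' - ctr t J) - (x - ctr t J) := by abel
        rw [h1]
        exact (norm_sub_le _ _).trans (by linarith)
      -- average over J
      have havgJ : avg a t f J ≤ 2 ^ d * (A₂ * L) := by
        have hsub1 : dil a t J ⊆ closedBall x' (a * l) := by
          intro y hy
          unfold dil at hy
          rw [mem_closedBall, dist_eq_norm] at hy ⊢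
          have h1 : y - x' = (y - ctr t J) - (x' - ctr t J) := by abel
          rw [h1]
          refine (norm_sub_le _ _).trans ?_
          rw [← hl] at hy
          nlinarith
        have hsub2 : dil a t J ⊆ dil a t I := dil_nest (by linarith) t hJlt hJsub
        unfold avg
        apply ENNReal.div_le_of_le_mul
        calc ∫⁻ y in dil a t J, ‖f y‖ₑ = ∫⁻ y in dil a t J, ‖fI y‖ₑ := by
              apply setLIntegral_congr_fun (dil_meas a t J)
              intro y hy
              show ‖f y‖ₑ = ‖fI y‖ₑ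
              rw [hfI]; unfold loc
              rw [Set.indicator_of_mem (hsub2 hy)]
          _ ≤ ∫⁻ y in closedBall x' (a * l), ‖fI y‖ₑ := lintegral_mono_set hsub1
          _ ≤ (A₂ * L) * volume (closedBall x' (a * l)) := hx'E₂ _ (by positivity)
          _ = 2 ^ d * (A₂ * L) * volume (dil a t J) := by
              have e : volume (closedBall x' (a * l)) = 2 ^ d * volume (dil a t J) := by
                unfold dil
                rw [vol_cb _ (by positivity), vol_cb _ (by positivity), ← hl]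
                have : (2:ℝ≥0∞) = ENNReal.ofReal 2 := by norm_num
                rw [this, ← mul_pow, ← ENNReal.ofReal_mul (by norm_num)]
                congr 2; ring
              rw [e]; ring
      -- the difference
      set ft : (Fin d → ℝ) → 𝕜 := fun y => fI y - loc a t f J y with hft
      have hftm : Measurable ft := (hlm I).sub (hlm J)
      have hftint : Integrable ft volume := by
        have h1 : Integrable fI volume := memLp_one_iff_integrable.1
          (bddMem (hlm I).aestronglyMeasurable (hlB I) isClosed_closedBall.measurableSet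
          (vol_cb_fin c R) (hl0 I) 1)
        have h2 : Integrable (loc a t f J) volume := memLp_one_iff_integrable.1
          (bddMem (hlm J).aestronglyMeasurable (hlB J) isClosed_closedBall.measurableSet
          (vol_cb_fin c R) (hl0 J) 1)
        exact h1.sub h2
      have hft0 : ∀ y, y ∈ dil a t J → ft y = 0 := by
        intro y hy
        have hyI := dil_nest (by linarith) t hJlt hJsub hy
        show loc a t f I y - loc a t f J y = 0
        unfold loc
        rw [Set.indicator_of_mem hy, Set.indicator_of_mem hyI, sub_self]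
      have hftle : ∀ y, ‖ft y‖ₑ ≤ ‖fI y‖ₑ := by
        intro y
        by_cases hy : y ∈ dil a t J
        · rw [hft0 y hy, enorm_zero]; exact bot_le
        · have : loc a t f J y = 0 := by unfold loc; exact Set.indicator_of_notMem hy _
          simp only [hft]; rw [this, sub_zero]
      have hfar : ∀ z, ‖z - ctr t J‖ ≤ l / 2 → ∀ y, y ∉ dil a t J → 2 * D * l ≤ ‖z - y‖ := by
        intro z hz y hy
        unfold dil at hy
        rw [mem_closedBall, dist_eq_norm, not_le, ← hl] at hy
        have h1 : y - ctr t J = (z - ctr t J) - (z - y) := by abel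
        rw [h1] at hy
        have h2 := norm_sub_le (z - ctr t J) (z - y)
        rw [ha] at hy
        nlinarith
      have hkint : ∀ z, ‖z - ctr t J‖ ≤ l / 2 → Integrable (fun y => K z y * ft y) volume := by
        intro z hz
        have hDl : 0 < 2 * D * l := by positivity
        refine Integrable.mono' (hftint.norm.const_mul (|Cs| / (2 * D * l) ^ d))
          ((hT.czo.ker_meas hd z).mul hftm.aestronglyMeasurable) (Eventually.of_forall (fun y => ?_))
        rw [norm_mul]
        by_cases hy : y ∈ dil a t J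
        · rw [hft0 y hy]; simp
        · apply mul_le_mul_of_nonneg_right _ (norm_nonneg _)
          have h1 := hfar z hz y hy
          have hne : z ≠ y := by
            intro h; rw [h, sub_self, norm_zero] at h1; linarith
          refine (hCs z y hne).trans ?_
          have h2 : 2 * D * l ≤ el (z - y) := h1.trans (norm_le_el _)
          calc Cs / el (z - y) ^ d ≤ |Cs| / el (z - y) ^ d := by
                apply div_le_div_of_nonneg_right (le_abs_self _)
                exact pow_nonneg (el_nonneg _) d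
            _ ≤ |Cs| / (2 * D * l) ^ d :=
                div_le_div_of_nonneg_left (abs_nonneg _) (by positivity)
                  (pow_le_pow_left₀ hDl.le h2 d)
      have hout : ∀ z, ‖z - ctr t J‖ ≤ l / 2 →
          z ∉ {y : Fin d → ℝ | a * 2 ^ J.1 / 2 ≤ ‖y - ctr t J‖} := by
        intro z hz hc
        have hc' : a * 2 ^ J.1 / 2 ≤ ‖z - ctr t J‖ := hc
        rw [← hl] at hc'
        nlinarith
      obtain ⟨p1, p2⟩ := hx J hJ
      obtain ⟨p3, p4⟩ := hx'ae J hJ
      have r1 := p2 (hout x hcx)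
      have r2 := p4 (hout x' hcx')
      have hdiff : ‖TT T ft x - TT T ft x'‖ₑ ≤ Ck * Ct * (A₂ * L) := by
        have e1 : TT T ft x - TT T ft x' = ∫ y, (K x y * ft y - K x' y * ft y) := by
          rw [integral_sub (hkint x hcx) (hkint x' hcx')]
          exact congrArg₂ (· - ·) r1 r2
        rw [e1]
        refine (enorm_integral_le_lintegral_enorm _).trans ?_
        have hpt : ∀ y, ‖K x y * ft y - K x' y * ft y‖ₑ ≤
            Ck * ({y : Fin d → ℝ | 2 * D * l ≤ ‖y - x'‖}.indicator (fun y => ‖fI y‖ₑ *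
              ENNReal.ofReal ((2 * D * l) ^ al / (‖y - x'‖ ^ al * ‖y - x'‖ ^ d))) y) := by
          intro y
          rw [← sub_mul, enorm_mul]
          by_cases hy : y ∈ dil a t J
          · rw [hft0 y hy, enorm_zero, mul_zero]; exact bot_le
          · have h1 := hfar x' hcx' y hy
            have h1' : 2 * D * l ≤ ‖y - x'‖ := by rw [norm_sub_rev]; exact h1
            have hmem : y ∈ {y : Fin d → ℝ | 2 * D * l ≤ ‖y - x'‖} := h1'
            rw [Set.indicator_of_mem hmem]
            have h2 := (hker l hl0' x' x y hxx' h1).1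
            rw [norm_sub_rev x' y, norm_sub_rev (K x' y)] at h2
            have h3 : ‖K x y - K x' y‖ₑ ≤ Ck * ENNReal.ofReal
                ((2 * D * l) ^ al / (‖y - x'‖ ^ al * ‖y - x'‖ ^ d)) := by
              rw [← ofReal_norm, ← ENNReal.ofReal_coe_nnreal, ← ENNReal.ofReal_mul
                (NNReal.coe_nonneg _)]
              exact ENNReal.ofReal_le_ofReal h2
            calc ‖K x y - K x' y‖ₑ * ‖ft y‖ₑ
                ≤ (Ck * ENNReal.ofReal ((2 * D * l) ^ al / (‖y - x'‖ ^ al * ‖y - x'‖ ^ d))) *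
                  ‖fI y‖ₑ := mul_le_mul' h3 (hftle y)
              _ = _ := by ring
        have hmS : MeasurableSet {y : Fin d → ℝ | 2 * D * l ≤ ‖y - x'‖} := by
          apply measurableSet_le measurable_const
          fun_prop
        calc ∫⁻ y, ‖K x y * ft y - K x' y * ft y‖ₑ
            ≤ ∫⁻ y, Ck * ({y : Fin d → ℝ | 2 * D * l ≤ ‖y - x'‖}.indicator (fun y => ‖fI y‖ₑ *
              ENNReal.ofReal ((2 * D * l) ^ al / (‖y - x'‖ ^ al * ‖y - x'‖ ^ d))) y) :=
              lintegral_mono hpt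
          _ = Ck * ∫⁻ y in {y | 2 * D * l ≤ ‖y - x'‖}, ‖fI y‖ₑ *
              ENNReal.ofReal ((2 * D * l) ^ al / (‖y - x'‖ ^ al * ‖y - x'‖ ^ d)) := by
              rw [lintegral_const_mul' _ _ ENNReal.coe_ne_top, lintegral_indicator hmS]
          _ ≤ Ck * (Ct * (A₂ * L)) := by
              apply mul_le_mul' le_rfl
              apply hCt (fun y => ‖fI y‖ₑ) x' (2 * D * l) (A₂ * L) (hlm I).enorm (by positivity)
              intro ρ hρ
              exact hx'E₂ ρ (lt_of_lt_of_le (by positivity) hρ)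
          _ = _ := by ring
      have q1 : TT T fI x = TT T (loc a t f J) x + (TT T ft x - TT T ft x') + TT T ft x' := by
        have : TT T ft x = TT T fI x - TT T (loc a t f J) x := p1
        rw [this]; ring
      have q2 : ‖TT T ft x'‖ₑ ≤ A₁ * L + A₁ * (2 ^ d * (A₂ * L)) := by
        have : TT T ft x' = TT T fI x' - TT T (loc a t f J) x' := p3
        rw [this]
        refine enorm_sub_le.trans (add_le_add hx'E₁ (hx'E.trans ?_))
        exact mul_le_mul' le_rfl havgJ
      rw [q1]
      calc ‖TT T (loc a t f J) x + (TT T ft x - TT T ft x') + TT T ft x'‖ₑ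
          ≤ (‖TT T (loc a t f J) x‖ₑ + ‖TT T ft x - TT T ft x'‖ₑ) + ‖TT T ft x'‖ₑ :=
            (enorm_add_le _ _).trans (add_le_add (enorm_add_le _ _) le_rfl)
        _ ≤ (‖TT T (loc a t f J) x‖ₑ + Ck * Ct * (A₂ * L)) + (A₁ * L + A₁ * (2 ^ d * (A₂ * L))) :=
            add_le_add (add_le_add le_rfl hdiff) q2
        _ = _ := by push_cast; ring

end Pool.Agent.L5helper34.GL
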