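import Pool.Agent.L5helper34.GL.U4

set_option autoImplicit false
set_option linter.unusedSectionVars false
set_option linter.unusedVariables false

/-! Weighted bounds, uniformly in the operator (after helper433). -/

namespace Pool.Agent.L5helper34.GL

open MeasureTheory Metric Filter Topology
open Pool.Agent.H433R3.Sep Pool.Agent.H433R3.Ml
open scoped ENNReal NNReal

variable {d : ℕ} {𝕜 : Type*} [RCLike 𝕜]

lemma czoBddU (hd : 0 < d) (cT : ℝ≥0) (cs cr ca : ℝ) (hca : 0 < ca) {p q : ℝ} (hpq : p.HolderConjugate q) {θ η : ℝ}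
    (hθ : 1 / p < θ) (hη : 1 / q < η) : ∃ C : ℝ≥0,
    ∀ (T : Lp 𝕜 2 (volume : Measure (Fin d → ℝ)) →L[𝕜]
      Lp 𝕜 2 (volume : Measure (Fin d → ℝ))) (K : (Fin d → ℝ) → (Fin d → ℝ) → 𝕜),
      CZU cT cs cr ca T K → 
    ∀ w : (Fin d → ℝ) → ℝ, WData q w →
    ∀ N : ℝ, 0 ≤ N → OneSup p θ N w (sg q w) →
    ∀ f : (Fin d → ℝ) → 𝕜, Measurable f → ∀ B : ℝ≥0, (∀ x, ‖f x‖ ≤ B) → ∀ R : ℝ, 0 ≤ R →
      (∀ x, x ∉ closedBall 0 R → f x = 0) → ∫⁻ x, ‖f x‖ₑ ^ p ∂(WM w) ≠ ∞ →
      (∀ lam : ℝ, 0 < lam → ENNReal.ofReal (lam ^ p) *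
        WM w {y | ENNReal.ofReal lam < ‖TT T f y‖ₑ} ≤
        C * ENNReal.ofReal (N ^ p) * ∫⁻ x, ‖f x‖ₑ ^ p ∂(WM w)) ∧
      (∀ N' : ℝ, 0 ≤ N' → OneSup q η N' (sg q w) w →
        ∫⁻ y, ‖TT T f y‖ₑ ^ p ∂(WM w) ≤
        C * ENNReal.ofReal ((N + N') ^ p) * ∫⁻ x, ‖f x‖ₑ ^ p ∂(WM w)) := by
  obtain ⟨a, A, ha, hdomU⟩ := dominU (𝕜 := 𝕜) hd cT cs cr ca hca
  obtain ⟨C₀, hC₀⟩ := famBound hd hpq hθ hη a ha
  have hp := hpq.pos
  set A' : ℝ := (A : ℝ) + 1 with hA'
  have hA'0 : 0 < A' := by positivity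
  refine ⟨(A' ^ p).toNNReal * C₀, ?_⟩
  have hA'p : ((((A' ^ p).toNNReal * C₀ : ℝ≥0)) : ℝ≥0∞) = ENNReal.ofReal (A' ^ p) * C₀ := by
    rw [ENNReal.coe_mul]; rfl
  rw [hA'p]
  intro T K hT
  have hdom := hdomU T K hT
  intro w hw N hN hone f hf B hB R hR h0 hfin
  set t : Fin d → Bool := fun _ => true with ht
  set G : ℕ → Set (Fin d → ℝ) := fun j => gq t (ix t (j:ℤ) 0) with hG
  have hGm : ∀ j, MeasurableSet (G j) := fun j => gq_meas _ _
  have hGmono : Monotone G := zero_mem_grid t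
  have hGU : ⋃ j, G j = Set.univ := by
    apply Set.eq_univ_of_forall
    intro x
    obtain ⟨N, hN⟩ := exists_ball (d := d) ‖x‖ (norm_nonneg x)
    have hx : x ∈ closedBall (0 : Fin d → ℝ) ‖x‖ := by
      rw [mem_closedBall, dist_zero_right]
    exact Set.mem_iUnion.2 ⟨N, hN N le_rfl hx⟩
  have hσm := sg_meas hw
  set g₀ : (Fin d → ℝ) → ℝ≥0∞ := fun x => ‖f x‖ₑ * (ENNReal.ofReal (sg q w x))⁻¹ with hg₀
  have hg₀m : Measurable g₀ := hf.enorm.mul hσm.ennreal_ofReal.inv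
  have hg₀p : ∫⁻ x, g₀ x ^ p ∂(WM (sg q w)) = ∫⁻ x, ‖f x‖ₑ ^ p ∂(WM w) :=
    g0_pow hpq hw (fun x => ‖f x‖ₑ) hf.enorm
  have havg : ∀ I, avg a t f I =
      (∫⁻ z in dil a t I, g₀ z ∂(WM (sg q w))) / volume (dil a t I) := by
    intro I
    unfold avg WM
    rw [setLIntegral_withDensity_eq_setLIntegral_mul volume hσm.ennreal_ofReal hg₀m
      (dil_meas a t I)]
    congr 1
    apply lintegral_congr
    intro x
    simp only [Pi.mul_apply, hg₀]
    have hs := sg_pos hw x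
    have h1 : ENNReal.ofReal (sg q w x) ≠ 0 := by simpa using hs
    calc ‖f x‖ₑ = (ENNReal.ofReal (sg q w x) * (ENNReal.ofReal (sg q w x))⁻¹) * ‖f x‖ₑ := by
          rw [ENNReal.mul_inv_cancel h1 ENNReal.ofReal_ne_top, one_mul]
      _ = _ := by ring
  have hac : WM w ≪ volume := withDensity_absolutelyContinuous _ _
  have hdj : ∀ j, closedBall 0 R ⊆ G j → ∃ (S : Set (Idx d)),
      (∀ᵐ x, x ∈ G j → ‖TT T f x‖ₑ ≤ A * ∑' I : S, (gq t (I : Idx d)).indicator
        (fun _ => avg a t f I) x) ∧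
      ∀ s : Finset S, (∀ lam : ℝ, 0 < lam → ENNReal.ofReal (lam ^ p) *
        WM w {y | ENNReal.ofReal lam < ∑ I ∈ s, (gq t (I : Idx d)).indicator
          (fun _ => avg a t f I) y} ≤
        C₀ * ENNReal.ofReal (N ^ p) * ∫⁻ x, ‖f x‖ₑ ^ p ∂(WM w)) ∧
      (∀ N' : ℝ, 0 ≤ N' → OneSup q η N' (sg q w) w →
        ∫⁻ y, (∑ I ∈ s, (gq t (I : Idx d)).indicator (fun _ => avg a t f I) y) ^ p ∂(WM w) ≤
        C₀ * ENNReal.ofReal ((N + N') ^ p) * ∫⁻ x, ‖f x‖ₑ ^ p ∂(WM w)) := by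
    intro j hj
    obtain ⟨S, E, hE1, hE2, hE3, hE4, hE5⟩ := hdom f hf B hB 0 R h0 t _ hj
    refine ⟨S, hE5, ?_⟩
    intro s
    have h2 := hC₀ w hw N hN hone t (s.map (Function.Embedding.subtype _)) E
      (by
        intro I hI
        obtain ⟨I', _, rfl⟩ := Finset.mem_map.1 hI
        exact hE1 _ I'.2)
      (by
        intro I hI
        obtain ⟨I', _, rfl⟩ := Finset.mem_map.1 hI
        exact hE2 _ I'.2)
      (by
        intro I hI
        obtain ⟨I', _, rfl⟩ := Finset.mem_map.1 hI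
        exact hE3 _ I'.2)
      (by
        intro I hI J hJ
        obtain ⟨I', _, rfl⟩ := Finset.mem_map.1 hI
        obtain ⟨J', _, rfl⟩ := Finset.mem_map.1 hJ
        exact hE4 _ I'.2 _ J'.2)
      g₀ hg₀m (by rw [hg₀p]; exact hfin)
    have e : ∀ y, ∑ I ∈ s.map (Function.Embedding.subtype _), (gq t I).indicator
        (fun _ => (∫⁻ z in dil a t I, g₀ z ∂(WM (sg q w))) / volume (dil a t I)) y =
        ∑ I ∈ s, (gq t (I : Idx d)).indicator (fun _ => avg a t f I) y := by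
      intro y
      rw [Finset.sum_map]
      apply Finset.sum_congr rfl
      intro I _
      rw [havg]
      rfl
    simp only [e] at h2
    rw [hg₀p] at h2
    exact h2
  constructor
  · -- weak type
    intro lam hlam
    have key : ∀ j, closedBall 0 R ⊆ G j → ENNReal.ofReal (lam ^ p) *
        WM w ({y | ENNReal.ofReal lam < ‖TT T f y‖ₑ} ∩ G j) ≤
        ENNReal.ofReal (A' ^ p) * C₀ * ENNReal.ofReal (N ^ p) * ∫⁻ x, ‖f x‖ₑ ^ p ∂(WM w) := by
      intro j hj
      obtain ⟨S, hS1, hS2⟩ := hdj j hj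
      set lam' : ℝ := lam / A' with hlam'
      have hlam'0 : 0 < lam' := by positivity
      set Ψ : Finset S → (Fin d → ℝ) → ℝ≥0∞ := fun s y => ∑ I ∈ s, (gq t (I : Idx d)).indicator
          (fun _ => avg a t f I) y with hΨ
      have h1 : WM w ({y | ENNReal.ofReal lam < ‖TT T f y‖ₑ} ∩ G j) ≤
          WM w (⋃ s : Finset S, {y | ENNReal.ofReal lam' < Ψ s y}) := by
        apply measure_mono_ae
        filter_upwards [hac.ae_le hS1] with x hx
        intro hx'
        have hxa : ENNReal.ofReal lam < ‖TT T f x‖ₑ := hx'.1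
        have hxb := hx hx'.2
        show x ∈ ⋃ s : Finset S, {y | ENNReal.ofReal lam' < Ψ s y}
        by_contra hcon
        simp only [Set.mem_iUnion, not_exists] at hcon
        have h2 : ∑' I : S, (gq t (I : Idx d)).indicator (fun _ => avg a t f I) x ≤
            ENNReal.ofReal lam' := by
          rw [ENNReal.tsum_eq_iSup_sum]
          apply iSup_le
          intro s
          by_contra h3
          exact hcon s (not_le.1 h3)
        have h3 : ‖TT T f x‖ₑ ≤ ENNReal.ofReal lam := by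
          calc ‖TT T f x‖ₑ ≤ A * ENNReal.ofReal lam' := hxb.trans (mul_le_mul' le_rfl h2)
            _ = ENNReal.ofReal ((A : ℝ) * lam') := by
                rw [ENNReal.ofReal_mul A.coe_nonneg, ENNReal.ofReal_coe_nnreal]
            _ ≤ ENNReal.ofReal lam := by
                apply ENNReal.ofReal_le_ofReal
                have e : lam = A' * lam' := by rw [hlam']; field_simp
                rw [e]
                apply mul_le_mul_of_nonneg_right _ hlam'0.le
                rw [hA']; linarith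
        exact absurd hxa (not_lt.2 h3)
      have hdir : Directed (· ⊆ ·) (fun s : Finset S => {y | ENNReal.ofReal lam' < Ψ s y}) := by
        classical
        intro s s'
        refine ⟨s ∪ s', ?_, ?_⟩
        · intro y hy
          have hy' : ENNReal.ofReal lam' < Ψ s y := hy
          exact lt_of_lt_of_le hy' (Finset.sum_le_sum_of_subset Finset.subset_union_left)
        · intro y hy
          have hy' : ENNReal.ofReal lam' < Ψ s' y := hy
          exact lt_of_lt_of_le hy' (Finset.sum_le_sum_of_subset Finset.subset_union_right)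
      have e1 : ENNReal.ofReal (lam ^ p) = ENNReal.ofReal (A' ^ p) * ENNReal.ofReal (lam' ^ p) := by
        rw [← ENNReal.ofReal_mul (by positivity), ← Real.mul_rpow hA'0.le hlam'0.le]
        congr 2
        rw [hlam']; field_simp
      calc ENNReal.ofReal (lam ^ p) * WM w ({y | ENNReal.ofReal lam < ‖TT T f y‖ₑ} ∩ G j)
          ≤ ENNReal.ofReal (lam ^ p) * WM w (⋃ s : Finset S, {y | ENNReal.ofReal lam' < Ψ s y}) :=
            mul_le_mul' le_rfl h1
        _ = ENNReal.ofReal (A' ^ p) * ⨆ s : Finset S,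
              ENNReal.ofReal (lam' ^ p) * WM w {y | ENNReal.ofReal lam' < Ψ s y} := by
            rw [hdir.measure_iUnion, e1, mul_assoc, ENNReal.mul_iSup]
        _ ≤ ENNReal.ofReal (A' ^ p) *
              (C₀ * ENNReal.ofReal (N ^ p) * ∫⁻ x, ‖f x‖ₑ ^ p ∂(WM w)) := by
            apply mul_le_mul' le_rfl
            exact iSup_le (fun s => (hS2 s).1 lam' hlam'0)
        _ = _ := by ring
    have h3 : {y | ENNReal.ofReal lam < ‖TT T f y‖ₑ} =
        ⋃ j, ({y | ENNReal.ofReal lam < ‖TT T f y‖ₑ} ∩ G j) := by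
      rw [← Set.inter_iUnion, hGU, Set.inter_univ]
    have hmono : Monotone (fun j => {y | ENNReal.ofReal lam < ‖TT T f y‖ₑ} ∩ G j) := by
      intro i j hij
      exact Set.inter_subset_inter_right _ (hGmono hij)
    rw [h3, hmono.measure_iUnion, ENNReal.mul_iSup]
    apply iSup_le
    intro j
    obtain ⟨N₁, hN₁⟩ := exists_ball (d := d) R hR
    have h4 := key (max j N₁) (hN₁ _ (le_max_right _ _))
    exact (mul_le_mul' le_rfl (measure_mono (hmono (le_max_left j N₁)))).trans h4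
  · -- strong type
    intro N' hN' hone'
    have key : ∀ j, closedBall 0 R ⊆ G j → ∫⁻ x in G j, ‖TT T f x‖ₑ ^ p ∂(WM w) ≤
        ENNReal.ofReal (A' ^ p) * C₀ * ENNReal.ofReal ((N + N') ^ p) *
          ∫⁻ x, ‖f x‖ₑ ^ p ∂(WM w) := by
      intro j hj
      obtain ⟨S, hS1, hS2⟩ := hdj j hj
      have h1 : ∀ᵐ x ∂(WM w).restrict (G j), ‖TT T f x‖ₑ ^ p ≤
          (A * ∑' I : S, (gq t (I : Idx d)).indicator (fun _ => avg a t f I) x) ^ p := by
        rw [ae_restrict_iff' (hGm j)]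
        filter_upwards [hac.ae_le hS1] with x hx hxG
        exact ENNReal.rpow_le_rpow (hx hxG) hp.le
      have hmS : ∀ s : Finset S, Measurable (fun x => ∑ I ∈ s, (gq t (I : Idx d)).indicator
          (fun _ => avg a t f I) x) := by
        intro s
        apply Finset.measurable_fun_sum
        intro I _
        exact measurable_const.indicator (gq_meas _ _)
      have hsup : ∀ x, (∑' I : S, (gq t (I : Idx d)).indicator (fun _ => avg a t f I) x) ^ p =
          ⨆ s : Finset S, (∑ I ∈ s, (gq t (I : Idx d)).indicator (fun _ => avg a t f I) x) ^ p := by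
        intro x
        rw [ENNReal.tsum_eq_iSup_sum]
        exact (Monotone.map_iSup_of_continuousAt (f := fun y : ℝ≥0∞ => y ^ p)
          ENNReal.continuous_rpow_const.continuousAt
          (fun a b hab => ENNReal.rpow_le_rpow hab hp.le)
          (by simp [hp]))
      have e1 : (A : ℝ≥0∞) ^ p ≤ ENNReal.ofReal (A' ^ p) := by
        rw [← ENNReal.ofReal_coe_nnreal, ENNReal.ofReal_rpow_of_nonneg A.coe_nonneg hp.le]
        apply ENNReal.ofReal_le_ofReal
        apply Real.rpow_le_rpow A.coe_nonneg _ hp.le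
        rw [hA']; linarith
      have hAp : (A : ℝ≥0∞) ^ p ≠ ∞ := ENNReal.rpow_ne_top_of_nonneg hp.le (by simp)
      calc ∫⁻ x in G j, ‖TT T f x‖ₑ ^ p ∂(WM w)
          ≤ ∫⁻ x in G j, (A * ∑' I : S, (gq t (I : Idx d)).indicator
              (fun _ => avg a t f I) x) ^ p ∂(WM w) := lintegral_mono_ae h1
        _ ≤ ∫⁻ x, (A * ∑' I : S, (gq t (I : Idx d)).indicator
              (fun _ => avg a t f I) x) ^ p ∂(WM w) := setLIntegral_le_lintegral _ _
        _ = (A : ℝ≥0∞) ^ p * ∫⁻ x, (∑' I : S, (gq t (I : Idx d)).indicator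
              (fun _ => avg a t f I) x) ^ p ∂(WM w) := by
            simp_rw [ENNReal.mul_rpow_of_nonneg _ _ hp.le]
            rw [lintegral_const_mul' _ _ hAp]
        _ = (A : ℝ≥0∞) ^ p * ⨆ s : Finset S, ∫⁻ x, (∑ I ∈ s, (gq t (I : Idx d)).indicator
              (fun _ => avg a t f I) x) ^ p ∂(WM w) := by
            simp_rw [hsup]
            rw [lintegral_iSup_directed (fun s => ((hmS s).pow_const p).aemeasurable)]
            intro s s'
            classical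
            refine ⟨s ∪ s', fun x => ?_, fun x => ?_⟩
            · exact ENNReal.rpow_le_rpow
                (Finset.sum_le_sum_of_subset Finset.subset_union_left) hp.le
            · exact ENNReal.rpow_le_rpow
                (Finset.sum_le_sum_of_subset Finset.subset_union_right) hp.le
        _ ≤ ENNReal.ofReal (A' ^ p) * (C₀ * ENNReal.ofReal ((N + N') ^ p) *
              ∫⁻ x, ‖f x‖ₑ ^ p ∂(WM w)) :=
            mul_le_mul' e1 (iSup_le (fun s => (hS2 s).2 N' hN' hone'))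
        _ = _ := by ring
    have h3 : ∫⁻ x, ‖TT T f x‖ₑ ^ p ∂(WM w) =
        ⨆ j, ∫⁻ x in G j, ‖TT T f x‖ₑ ^ p ∂(WM w) := by
      rw [← setLIntegral_univ, ← hGU]
      exact setLIntegral_iUnion_of_directed _ hGmono.directed_le
    rw [h3]
    apply iSup_le
    intro j
    obtain ⟨N₁, hN₁⟩ := exists_ball (d := d) R hR
    have h4 := key (max j N₁) (hN₁ _ (le_max_right _ _))
    exact (lintegral_mono_set (hGmono (le_max_left j N₁))).trans h4

lemma czoGenU (hd : 0 < d) (cT : ℝ≥0) (cs cr ca : ℝ) (hca : 0 < ca) {p q : ℝ} (hpq : p.HolderConjugate q) {θ η : ℝ}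
    (hθ : 1 / p < θ) (hη : 1 / q < η) : ∃ C : ℝ≥0,
    ∀ (T : Lp 𝕜 2 (volume : Measure (Fin d → ℝ)) →L[𝕜]
      Lp 𝕜 2 (volume : Measure (Fin d → ℝ))) (K : (Fin d → ℝ) → (Fin d → ℝ) → 𝕜),
      CZU cT cs cr ca T K → 
    ∀ w : (Fin d → ℝ) → ℝ, WData q w →
    ∀ N : ℝ, 0 ≤ N → OneSup p θ N w (sg q w) →
    ∀ f : (Fin d → ℝ) → 𝕜, MemLp f 2 volume → ∫⁻ x, ‖f x‖ₑ ^ p ∂(WM w) ≠ ∞ →
      (∀ lam : ℝ, 0 < lam → ENNReal.ofReal (lam ^ p) *
        WM w {y | ENNReal.ofReal lam < ‖TT T f y‖ₑ} ≤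
        C * ENNReal.ofReal (N ^ p) * ∫⁻ x, ‖f x‖ₑ ^ p ∂(WM w)) ∧
      (∀ N' : ℝ, 0 ≤ N' → OneSup q η N' (sg q w) w →
        ∫⁻ y, ‖TT T f y‖ₑ ^ p ∂(WM w) ≤
        C * ENNReal.ofReal ((N + N') ^ p) * ∫⁻ x, ‖f x‖ₑ ^ p ∂(WM w)) := by
  obtain ⟨C, hCU⟩ := czoBddU (𝕜 := 𝕜) hd cT cs cr ca hca hpq hθ hη
  have hp := hpq.pos
  refine ⟨C, ?_⟩
  intro T K hT
  have hC := hCU T K hT
  intro w hw N hN hone f₀ hf₀ hfin₀
  have hac : WM w ≪ volume := withDensity_absolutelyContinuous _ _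
  obtain ⟨f, hf, hff⟩ := hf₀.1.aemeasurable
  have hTf : TT T f₀ = TT T f := TT_congr hff
  have hint : ∫⁻ x, ‖f₀ x‖ₑ ^ p ∂(WM w) = ∫⁻ x, ‖f x‖ₑ ^ p ∂(WM w) := by
    apply lintegral_congr_ae
    filter_upwards [hac.ae_le hff] with x hx
    rw [hx]
  rw [hTf, hint]
  rw [hint] at hfin₀
  have hf2 : MemLp f 2 volume := hf₀.ae_eq hff
  obtain ⟨H, b, hH1, hH2, hH3, hH4, hH5⟩ := approxL2 (T := T) f hf hf2
  have hlew : ∀ n, ∫⁻ x, ‖H n x‖ₑ ^ p ∂(WM w) ≤ ∫⁻ x, ‖f x‖ₑ ^ p ∂(WM w) := by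
    intro n
    apply lintegral_mono
    intro x
    exact ENNReal.rpow_le_rpow (hH4 n x) hp.le
  have hfinH : ∀ n, ∫⁻ x, ‖H n x‖ₑ ^ p ∂(WM w) ≠ ∞ := fun n =>
    (lt_of_le_of_lt (hlew n) (lt_top_iff_ne_top.2 hfin₀)).ne
  have hlim : ∀ᵐ x ∂(WM w), Tendsto (fun n => ‖TT T (H n) x‖ₑ) atTop (𝓝 ‖TT T f x‖ₑ) := by
    filter_upwards [hac.ae_le hH5] with x hx
    exact hx.enorm
  have hmeas : ∀ n, AEMeasurable (fun x => ‖TT T (H n) x‖ₑ) (WM w) := fun n =>
    ((TT_aesm (H n)).mono_ac hac).enorm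
  constructor
  · intro lam hlam
    have hl0 : ENNReal.ofReal (lam ^ p) ≠ 0 := by
      have : 0 < lam ^ p := by positivity
      simpa using this
    set B := C * ENNReal.ofReal (N ^ p) * ∫⁻ x, ‖f x‖ₑ ^ p ∂(WM w) with hB
    have h1 : WM w {x | ENNReal.ofReal lam < ‖TT T f x‖ₑ} ≤ B / ENNReal.ofReal (lam ^ p) := by
      apply fatouSet (v := fun n x => ‖TT T (H n) x‖ₑ) hmeas hlim (ENNReal.ofReal lam)
        (fun _ => B / ENNReal.ofReal (lam ^ p)) _ _ tendsto_const_nhds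
      intro n
      rw [ENNReal.le_div_iff_mul_le (Or.inl hl0) (Or.inl ENNReal.ofReal_ne_top), mul_comm]
      obtain ⟨R, hR, hR0⟩ := hH3 n
      refine ((hC w hw N hN hone (H n) (hH1 n) (b n) (hH2 n) R hR hR0 (hfinH n)).1 lam hlam).trans ?_
      exact mul_le_mul' le_rfl (hlew n)
    rwa [ENNReal.le_div_iff_mul_le (Or.inl hl0) (Or.inl ENNReal.ofReal_ne_top), mul_comm] at h1
  · intro N' hN' hone'
    calc ∫⁻ y, ‖TT T f y‖ₑ ^ p ∂(WM w)
        = ∫⁻ y, liminf (fun n => ‖TT T (H n) y‖ₑ ^ p) atTop ∂(WM w) := by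
          apply lintegral_congr_ae
          filter_upwards [hlim] with x hx
          symm
          apply Tendsto.liminf_eq
          exact (ENNReal.continuous_rpow_const.tendsto _).comp hx
      _ ≤ liminf (fun n => ∫⁻ y, ‖TT T (H n) y‖ₑ ^ p ∂(WM w)) atTop :=
          lintegral_liminf_le' (fun n => (hmeas n).pow_const p)
      _ ≤ liminf (fun _ : ℕ => C * ENNReal.ofReal ((N + N') ^ p) *
            ∫⁻ x, ‖f x‖ₑ ^ p ∂(WM w)) atTop := by
          refine liminf_le_liminf (Eventually.of_forall fun n => ?_)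
          obtain ⟨R, hR, hR0⟩ := hH3 n
          refine ((hC w hw N hN hone (H n) (hH1 n) (b n) (hH2 n) R hR hR0
            (hfinH n)).2 N' hN' hone').trans ?_
          exact mul_le_mul' le_rfl (hlew n)
      _ = _ := liminf_const _

end Pool.Agent.L5helper34.GL
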